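import Pool.Agent.H78.DB.BasE

/-!
# Module Cmp: components of finite sets of columns

`exists_comp`: for `a ∈ T` let `C` be the intersection of all subsets of `T` which contain `a` and are closed under `near`-steps in `T`
(`Isol near T`); it is itself closed, and connected: if `G ⊆ C` is closed in `C` and non-empty: `G` and `C \ G` are closed in `T`
(`near` symmetric), so `a` is in one of them, which then contains `C`: if `a ∈ G` then `C ⊆ G`; if `a ∈ C \ G` then `C ⊆ C \ G`, `G = ∅`,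
contradiction. `Sp C (T \ C)` because `C` is closed. `comp_sub`: a connected `C' ⊆ T` meeting a component `C` is contained in it:
`C ∩ C'` is closed in `C'`. `DK_sp`: let `a ∈ DK K T`, `b ∈ T \ DK K T`, `near a b`: the component `C` of `a` with the property contains `b`
(`Sp C (T \ C)`): contradiction. `DK_away`: let `C ⊆ T \ DK K T` be connected, non-empty, `k ∈ K`, `inbb C k`; `C` is contained in a
component `C'` of `T` (`exists_comp`, `comp_sub`), `inbb C' k` (`inbb` is monotone), so `C ⊆ DK K T`: contradiction. `Away.mono` clear.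
`Cn_union`-type facts are not needed. `comp_induction`: induction on `|T|`: remove a component.
-/

set_option autoImplicit false

namespace Pool.Agent.H78.DB

private theorem Cmp_trans {T : Finset Col} {a b : Col} (ha : a ∈ T)
    (h : Relation.ReflTransGen (fun x y : Col => x ∈ T ∧ y ∈ T ∧ near x y) a b) : b ∈ T := by
  induction h with
  | refl => exact ha
  | tail _ h2 _ => exact h2.2.1

theorem exists_comp {T : Finset Col} {a : Col} (ha : a ∈ T) : ∃ C, IsComp T C ∧ a ∈ C := by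
  classical
  obtain ⟨R, hR⟩ : ∃ R : Col → Col → Prop, R = fun x y => x ∈ T ∧ y ∈ T ∧ near x y := ⟨_, rfl⟩
  have hsym : ∀ x y, Relation.ReflTransGen R x y → Relation.ReflTransGen R y x := by
    intro x y h
    induction h with
    | refl => exact Relation.ReflTransGen.refl
    | tail _ h2 ih =>
      refine Relation.ReflTransGen.head ?_ ih
      rw [hR] at h2 ⊢
      exact ⟨h2.2.1, h2.1, near_symm h2.2.2⟩
  have hmem : ∀ b, b ∈ T.filter (fun b => Relation.ReflTransGen R a b) ↔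
      b ∈ T ∧ Relation.ReflTransGen R a b := fun b => Finset.mem_filter
  refine ⟨T.filter fun b => Relation.ReflTransGen R a b,
    ⟨Finset.filter_subset _ _, ⟨a, (hmem a).2 ⟨ha, Relation.ReflTransGen.refl⟩⟩, ?_, ?_⟩,
    (hmem a).2 ⟨ha, Relation.ReflTransGen.refl⟩⟩
  · intro G hG hne
    obtain ⟨g, hg⟩ := hne
    obtain ⟨hsub, hcl⟩ := hG
    have hgC := (hmem g).1 (Finset.mem_coe.1 (hsub hg))
    have key : ∀ b, Relation.ReflTransGen R g b → b ∈ G := by
      intro b hb
      induction hb with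
      | refl => exact hg
      | tail h1 h2 ih =>
        rename_i x y
        have h3 := (hmem x).1 (Finset.mem_coe.1 (hsub ih))
        have h4 : x ∈ T ∧ y ∈ T ∧ near x y := by
          rw [hR] at h2
          exact h2
        exact hcl x ih y (Finset.mem_coe.2 ((hmem y).2 ⟨h4.2.1, h3.2.tail h2⟩)) h4.2.2
    refine Set.Subset.antisymm hsub fun b hb => ?_
    have h5 := (hmem b).1 (Finset.mem_coe.1 hb)
    exact key b ((hsym _ _ hgC.2).trans h5.2)
  · intro x hx y hy hxy
    have h1 := (hmem x).1 hx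
    obtain ⟨h2, h3⟩ := Finset.mem_sdiff.1 hy
    refine h3 ((hmem y).2 ⟨h2, h1.2.tail ?_⟩)
    rw [hR]
    exact ⟨h1.1, h2, hxy⟩

theorem comp_sub {T C C' : Finset Col} (hC : IsComp T C) (hC' : C' ⊆ T)
    (hc : Cn near (C' : Set Col)) {a : Col} (ha : a ∈ C) (ha' : a ∈ C') : C' ⊆ C := by
  have h1 : ((C : Set Col) ∩ (C' : Set Col)) = (C' : Set Col) := by
    refine hc _ ⟨Set.inter_subset_right, ?_⟩ ⟨a, ha, ha'⟩
    rintro e ⟨he, he'⟩ f hf hef
    refine ⟨?_, hf⟩
    by_contra hfC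
    exact hC.2.2.2 e he f (Finset.mem_sdiff.2 ⟨hC' hf, fun h => hfC (Finset.mem_coe.2 h)⟩) hef
  intro b hb
  have h2 : b ∈ (C : Set Col) ∩ (C' : Set Col) := by
    rw [h1]
    exact hb
  exact h2.1

theorem comp_unique {T C C' : Finset Col} (hC : IsComp T C) (hC' : IsComp T C') {a : Col}
    (ha : a ∈ C) (ha' : a ∈ C') : C = C' :=
  Finset.Subset.antisymm (comp_sub hC' hC.1 hC.2.2.1 ha' ha) (comp_sub hC hC'.1 hC'.2.2.1 ha ha')

theorem Sp.mono {S T S' T' : Finset Col} (h : Sp S T) (hS : S' ⊆ S) (hT : T' ⊆ T) : Sp S' T' :=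
  fun a ha b hb => h a (hS ha) b (hT hb)

theorem Away.mono {K S S' : Finset Col} (h : Away K S) (hS : S' ⊆ S) : Away K S' :=
  fun C hC => h C (hC.trans hS)

open Classical in
private theorem Cmp_mem {K T : Finset Col} {a : Col} :
    a ∈ DK K T ↔ a ∈ T ∧ ∃ C, IsComp T C ∧ a ∈ C ∧ ∃ k ∈ K, inbb C k := by
  unfold DK
  exact Finset.mem_filter

private theorem Cmp_inbb {C C' : Finset Col} {k : Col} (h : C ⊆ C') (hk : inbb C k) :
    inbb C' k := by
  obtain ⟨⟨b1, h1, e1⟩, ⟨b2, h2, e2⟩, ⟨b3, h3, e3⟩, b4, h4, e4⟩ := hk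
  exact ⟨⟨b1, h h1, e1⟩, ⟨b2, h h2, e2⟩, ⟨b3, h h3, e3⟩, b4, h h4, e4⟩

theorem DK_sub (K T : Finset Col) : DK K T ⊆ T := fun _ ha => (Cmp_mem.1 ha).1

theorem DK_sp (K T : Finset Col) : Sp (DK K T) (T \ DK K T) := by
  intro a ha b hb hab
  obtain ⟨haT, C, hC, haC, hk⟩ := Cmp_mem.1 ha
  obtain ⟨hbT, hbD⟩ := Finset.mem_sdiff.1 hb
  refine hbD (Cmp_mem.2 ⟨hbT, C, hC, ?_, hk⟩)
  by_contra hbC
  exact hC.2.2.2 a haC b (Finset.mem_sdiff.2 ⟨hbT, hbC⟩) hab

theorem DK_away (K T : Finset Col) : Away K (T \ DK K T) := by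
  intro C hC hne hcn k hk hin
  obtain ⟨a, ha⟩ := hne
  obtain ⟨haT, haD⟩ := Finset.mem_sdiff.1 (hC ha)
  obtain ⟨C', hC', haC'⟩ := exists_comp haT
  have h1 : C ⊆ C' :=
    comp_sub hC' (fun b hb => (Finset.mem_sdiff.1 (hC hb)).1) hcn haC' ha
  exact haD (Cmp_mem.2 ⟨haT, C', hC', haC', k, hk, Cmp_inbb h1 hin⟩)

/-- if `DK K T` is not contained in `Q`, some component with the property is not contained in `Q` -/
theorem DK_bad {K T Q : Finset Col} (h : ¬ DK K T ⊆ Q) :
    ∃ C, IsComp T C ∧ ¬ C ⊆ Q ∧ ∃ k ∈ K, inbb C k := by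
  obtain ⟨a, ha, haQ⟩ := Finset.not_subset.1 h
  obtain ⟨-, C, hC, haC, hk⟩ := Cmp_mem.1 ha
  exact ⟨C, hC, fun h => haQ (h haC), hk⟩

/-- induction over components -/
theorem comp_induction {P : Finset Col → Prop} (h0 : P ∅)
    (h1 : ∀ C T : Finset Col, C.Nonempty → Cn near (C : Set Col) → Sp C T → P T → P (C ∪ T))
    (T : Finset Col) : P T := by
  classical
  induction hn : T.card using Nat.strong_induction_on generalizing T with
  | _ n ih =>
    rcases T.eq_empty_or_nonempty with rfl | ⟨a, ha⟩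
    · exact h0
    · obtain ⟨C, hC, haC⟩ := exists_comp ha
      have h2 : (T \ C).card < n := by
        rw [← hn]
        refine Finset.card_lt_card ⟨Finset.sdiff_subset, fun h => ?_⟩
        exact (Finset.mem_sdiff.1 (h ha)).2 haC
      have h3 := h1 C (T \ C) hC.2.1 hC.2.2.1 hC.2.2.2 (ih _ h2 (T \ C) rfl)
      rwa [Finset.union_sdiff_of_subset hC.1] at h3

end Pool.Agent.H78.DB
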