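import Pool.Agent.H78.DB.Enr

/-!
# Module GlA: heights, irregular columns and energy of glued interfaces

Let `H_i = HH Δ_i`.
* `Gl.HH_eq`: let `a ∉ S₂` (the other case by `Gl.symm`: `a ∈ S₂` gives `a ∉ S₁` by `Sp`, `near_self`). `ve a z` does not touch `S₂`, so
  `ve a z ∈ Δ ↔ ve a (z - H₂ a) ∈ Δ₁`, and `HH_eq` gives `HH Δ a = H₁ a + H₂ a`.
* `Gl.reg`: for `a ∉ S₂`: `Reg Δ a ↔ Reg Δ₁ a`. If `a ∈ S₁`: all edges `e` with `a ∈ bs e` touch `S₁`, so not `S₂` (`To_case`), and their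
  membership is the shifted membership in `Δ₁`, with the constant shift `H₂` on `bs e` (`bs_const`, `HH_Fl`, `Fl.mono`). If
  `a ∉ S₁`: both sides are true (`i`, `i1`, `mem_irr`).
* `Gl.irr_eq`: `irr Δ = irr Δ₁ ∪ irr Δ₂`; for `a ∈ irr Δ` either `a ∉ S₂` (then `a ∈ irr Δ₁`) or `a ∉ S₁`.
* `Gl.nE_eq`, `Gl.mE_eq`: for `a ∉ S₂`: if `a ∈ S₁`, `e ↦ sh (-H₂ a) e` is a bijection of the edges of `Δ` and of `Δ₁` starting over
  (touching) `a` (`Set.ncard_congr`; `H₂ (pr e.1) = H₂ a` for `a ∈ bs e`, `bs_const`); if `a ∉ S₁`, both numbers are `1` (`nE_reg`, `mE_reg`).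
* `Gl.en_eq`: `irr Δ₁ ⊆ S₁`, `irr Δ₂ ⊆ S₂` are disjoint; `en Δ = ∑_{irr Δ₁} + ∑_{irr Δ₂}`, `Gl.nE_eq`.
* `Gl.unique`: two sets glued from the same parts are equal: every edge does not touch `S₂` or does not touch `S₁`.
* `Gl.unique'`: let `Δ` be glued from `Δ₁, Δ₂` and from `Δ₁', Δ₂'`. `D = HH Δ₁ - HH Δ₁' = HH Δ₂' - HH Δ₂` (`Gl.HH_eq`). For
  `nb2 a b`: `a, b ∉ S₁` or `a, b ∉ S₂` (`Sp`, `nb2_near`), so `D a = D b` (`HH_Fl` for `Δ₁, Δ₁'`, or for `Δ₂, Δ₂'`). `D` has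
  finite support (`HH_fin`), so `D = 0` (`Fl_empty`). Then `Δ₁ = Δ₁'`: for `e` not touching `S₂`: `e ∈ Δ₁ ↔ sh (H₂) e ∈ Δ ↔ e ∈ Δ₁'`
  (`g1` for `sh (HH Δ₂ (pr e.1)) e`); for `e` touching `S₂`, `pr e.1` ... : `e` does not touch `S₁`, so `pr e.1 ∉ S₁` is regular for both
  and `reg_iff` with `HH Δ₁ = HH Δ₁'` gives the claim. `Δ₂ = Δ₂'` by symmetry.
-/

set_option autoImplicit false

namespace Pool.Agent.H78.DB

open Pool.Agent.H72.DJ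

variable {S₁ S₂ : Finset Col} {Δ Δ₁ Δ₂ : Set Edge}

private theorem gla_shev (a : Col) (s z : ℤ) : sh s (ve a z) = ve a (z + s) := ve_sh s a z

private theorem gla_To_ve {S : Finset Col} {a : Col} {z : ℤ} (h : a ∉ S) : ¬ To S (ve a z) := by
  rintro ⟨b, hb, hbS⟩
  rw [bs_ve, Finset.mem_singleton] at hb
  exact h (hb ▸ hbS)

private theorem gla_pr_ve (a : Col) (z : ℤ) : pr (ve a z).1 = a := rfl

private theorem gla_half (h : Gl S₁ S₂ Δ Δ₁ Δ₂) {a : Col} (ha : a ∉ S₂) (z : ℤ) :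
    ve a z ∈ Δ ↔ ve a (z - Pool.Agent.H78.DB.HH Δ₂ a) ∈ Δ₁ := by
  have h1 := h.g1 (ve a z) (gla_To_ve ha)
  rw [gla_pr_ve, gla_shev] at h1
  rw [h1, sub_eq_add_neg]

private theorem gla_HH (h : Gl S₁ S₂ Δ Δ₁ Δ₂) {a : Col} (ha : a ∉ S₂) :
    HH Δ a = HH Δ₁ a + HH Δ₂ a := by
  apply HH_eq
  · rw [gla_half h ha, add_sub_cancel_right]
    exact HH_mem h.pi1 a
  · intro z hz
    rw [gla_half h ha] at hz
    have := HH_le h.pi1 hz
    omega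

private theorem gla_not {a : Col} (hS : Sp S₁ S₂) (ha : a ∈ S₂) : a ∉ S₁ :=
  fun h => hS a h a ha (near_self a)

theorem Gl.HH_eq (h : Gl S₁ S₂ Δ Δ₁ Δ₂) (a : Col) : HH Δ a = HH Δ₁ a + HH Δ₂ a := by
  by_cases ha : a ∈ S₂
  · rw [gla_HH h.symm (gla_not h.sp ha), add_comm]
  · exact gla_HH h ha

/-- the edges touching a column of `S₁` -/
private theorem gla_edge (h : Gl S₁ S₂ Δ Δ₁ Δ₂) {a : Col} (ha : a ∈ S₁) {e : Edge} (he : a ∈ bs e) :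
    e ∈ Δ ↔ sh (-HH Δ₂ a) e ∈ Δ₁ := by
  have h1 : ¬ To S₂ e := by
    rcases To_case h.sp e with h2 | h2
    · exact absurd ⟨a, he, ha⟩ h2
    · exact h2
  have h3 := bs_const ((HH_Fl h.pi2).mono h.i2) h1 he
  rw [h.g1 e h1, h3]

theorem Gl.reg (h : Gl S₁ S₂ Δ Δ₁ Δ₂) {a : Col} (ha : a ∉ S₂) : Reg Δ a ↔ Reg Δ₁ a := by
  by_cases h1 : a ∈ S₁
  · have hH := h.HH_eq a
    constructor
    · rintro ⟨h2, h3⟩
      refine ⟨fun z => ?_, fun e he hb => ?_⟩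
      · have h4 := h2 (z + HH Δ₂ a)
        rw [gla_half h ha, add_sub_cancel_right] at h4
        rw [h4, hH]
        constructor <;> intro h5 <;> omega
      · have h4 := h3 (sh (HH Δ₂ a) e) (by
          rw [gla_edge h h1 (by rw [bs_sh]; exact hb), sh_sh, neg_add_cancel, sh_zero]
          exact he) (by rw [bs_sh]; exact hb)
        exact h4
    · rintro ⟨h2, h3⟩
      refine ⟨fun z => ?_, fun e he hb => ?_⟩
      · rw [gla_half h ha, h2, hH]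
        constructor <;> intro h5 <;> omega
      · exact h3 (sh (-HH Δ₂ a) e) ((gla_edge h h1 hb).1 he) (by rw [bs_sh]; exact hb)
  · have h2 : a ∉ irr Δ := fun h3 => by
      rcases Finset.mem_union.1 (h.i h3) with h4 | h4
      · exact h1 h4
      · exact ha h4
    have h3 : a ∉ irr Δ₁ := fun h4 => h1 (h.i1 h4)
    rw [mem_irr h.pi, not_not] at h2
    rw [mem_irr h.pi1, not_not] at h3
    exact iff_of_true h2 h3

theorem Gl.irr_eq (h : Gl S₁ S₂ Δ Δ₁ Δ₂) : irr Δ = irr Δ₁ ∪ irr Δ₂ := by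
  ext a
  rw [Finset.mem_union, mem_irr h.pi, mem_irr h.pi1, mem_irr h.pi2]
  by_cases ha : a ∈ S₂
  · have h1 := gla_not h.sp ha
    have h2 : a ∉ irr Δ₁ := fun h3 => h1 (h.i1 h3)
    rw [mem_irr h.pi1, not_not] at h2
    rw [h.symm.reg h1]
    constructor
    · exact Or.inr
    · rintro (h3 | h3)
      · exact absurd h2 h3
      · exact h3
  · have h2 : a ∉ irr Δ₂ := fun h3 => ha (h.i2 h3)
    rw [mem_irr h.pi2, not_not] at h2
    rw [h.reg ha]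
    constructor
    · exact Or.inl
    · rintro (h3 | h3)
      · exact h3
      · exact absurd h2 h3

private theorem gla_irr (h : Gl S₁ S₂ Δ Δ₁ Δ₂) {a : Col} (ha : a ∉ S₂) : a ∈ irr Δ ↔ a ∈ irr Δ₁ := by
  rw [mem_irr h.pi, mem_irr h.pi1, h.reg ha]

theorem Gl.nE_eq (h : Gl S₁ S₂ Δ Δ₁ Δ₂) {a : Col} (ha : a ∉ S₂) : nE Δ a = nE Δ₁ a := by
  by_cases h1 : a ∈ S₁
  · unfold nE
    refine Set.ncard_congr (fun e _ => sh (-HH Δ₂ a) e) ?_ ?_ ?_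
    · rintro e ⟨he, hp⟩
      refine ⟨(gla_edge h h1 (hp ▸ pr_mem_bs e)).1 he, ?_⟩
      rw [pr_sh]; exact hp
    · intro e f _ _ hef
      exact sh_inj _ hef
    · rintro e ⟨he, hp⟩
      refine ⟨sh (HH Δ₂ a) e, ⟨?_, ?_⟩, ?_⟩
      · rw [gla_edge h h1 (by rw [bs_sh]; exact hp ▸ pr_mem_bs e), sh_sh, neg_add_cancel, sh_zero]
        exact he
      · rw [pr_sh]; exact hp
      · rw [sh_sh, neg_add_cancel, sh_zero]
  · have h2 : a ∉ irr Δ := fun h3 => by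
      rcases Finset.mem_union.1 (h.i h3) with h4 | h4
      · exact h1 h4
      · exact ha h4
    rw [nE_reg h.pi h2, nE_reg h.pi1 (fun h4 => h1 (h.i1 h4))]

theorem Gl.mE_eq (h : Gl S₁ S₂ Δ Δ₁ Δ₂) {a : Col} (ha : a ∉ S₂) : mE Δ a = mE Δ₁ a := by
  by_cases h1 : a ∈ S₁
  · unfold mE
    refine Set.ncard_congr (fun e _ => sh (-HH Δ₂ a) e) ?_ ?_ ?_
    · rintro e ⟨he, hp⟩
      refine ⟨(gla_edge h h1 hp).1 he, ?_⟩
      rw [bs_sh]; exact hp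
    · intro e f _ _ hef
      exact sh_inj _ hef
    · rintro e ⟨he, hp⟩
      refine ⟨sh (HH Δ₂ a) e, ⟨?_, ?_⟩, ?_⟩
      · rw [gla_edge h h1 (by rw [bs_sh]; exact hp), sh_sh, neg_add_cancel, sh_zero]
        exact he
      · rw [bs_sh]; exact hp
      · rw [sh_sh, neg_add_cancel, sh_zero]
  · have h2 : a ∉ irr Δ := fun h3 => by
      rcases Finset.mem_union.1 (h.i h3) with h4 | h4
      · exact h1 h4
      · exact ha h4
    rw [mE_reg h.pi h2, mE_reg h.pi1 (fun h4 => h1 (h.i1 h4))]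

theorem Gl.mx_eq (h : Gl S₁ S₂ Δ Δ₁ Δ₂) {a : Col} (ha : a ∉ S₂) : mx Δ a = mx Δ₁ a := by
  unfold mx
  rw [h.mE_eq ha]
  by_cases h1 : a ∈ irr Δ₁
  · rw [if_pos h1, if_pos ((gla_irr h ha).2 h1)]
  · rw [if_neg h1, if_neg (fun h2 => h1 ((gla_irr h ha).1 h2))]

theorem Gl.en_eq (h : Gl S₁ S₂ Δ Δ₁ Δ₂) : en Δ = en Δ₁ + en Δ₂ := by
  unfold en
  have hd : Disjoint (irr Δ₁) (irr Δ₂) := by
    rw [Finset.disjoint_left]
    intro a h1 h2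
    exact gla_not h.sp (h.i2 h2) (h.i1 h1)
  rw [h.irr_eq, Finset.sum_union hd]
  congr 1
  · refine Finset.sum_congr rfl fun a ha => ?_
    rw [h.nE_eq (fun h2 => gla_not h.sp h2 (h.i1 ha))]
  · refine Finset.sum_congr rfl fun a ha => ?_
    rw [h.symm.nE_eq (gla_not h.sp (h.i2 ha))]

theorem Gl.unique {Δ' : Set Edge} (h : Gl S₁ S₂ Δ Δ₁ Δ₂) (h' : Gl S₁ S₂ Δ' Δ₁ Δ₂) : Δ = Δ' := by
  ext e
  rcases To_case h.sp e with h1 | h1
  · rw [h.g2 e h1, h'.g2 e h1]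
  · rw [h.g1 e h1, h'.g1 e h1]

private theorem gla_part {Δ₁' Δ₂' : Set Edge} (h : Gl S₁ S₂ Δ Δ₁ Δ₂) (h' : Gl S₁ S₂ Δ Δ₁' Δ₂')
    (h1 : ∀ a, HH Δ₁ a = HH Δ₁' a) (h2 : ∀ a, HH Δ₂ a = HH Δ₂' a) : Δ₁ = Δ₁' := by
  ext e
  by_cases hT : To S₂ e
  · have hT1 : ¬ To S₁ e := by
      rcases To_case h.sp e with h3 | h3
      · exact h3
      · exact absurd hT h3
    have h4 : pr e.1 ∉ irr Δ₁ := fun h5 => hT1 ⟨_, pr_mem_bs e, h.i1 h5⟩
    have h4' : pr e.1 ∉ irr Δ₁' := fun h5 => hT1 ⟨_, pr_mem_bs e, h'.i1 h5⟩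
    rw [reg_iff h.pi1 h4 (pr_mem_bs e), reg_iff h'.pi1 h4' (pr_mem_bs e), h1]
  · have h3 := h.g1 (sh (HH Δ₂ (pr e.1)) e) (by rwa [To_sh])
    have h3' := h'.g1 (sh (HH Δ₂' (pr e.1)) e) (by rwa [To_sh])
    rw [pr_sh, sh_sh, neg_add_cancel, sh_zero] at h3 h3'
    rw [← h3, ← h3', h2]

theorem Gl.unique' {Δ₁' Δ₂' : Set Edge} (h : Gl S₁ S₂ Δ Δ₁ Δ₂) (h' : Gl S₁ S₂ Δ Δ₁' Δ₂') :
    Δ₁ = Δ₁' ∧ Δ₂ = Δ₂' := by
  have hsum : ∀ a, HH Δ₁ a + HH Δ₂ a = HH Δ₁' a + HH Δ₂' a := fun a => by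
    rw [← h.HH_eq a, ← h'.HH_eq a]
  have hD : ∀ a, HH Δ₁ a - HH Δ₁' a = 0 := by
    refine Fl_empty (σ := fun a => HH Δ₁ a - HH Δ₁' a) ?_ ?_
    · intro a b hab
      by_cases h1 : a ∈ S₁ ∨ b ∈ S₁
      · have h2 : a ∉ S₂ ∧ b ∉ S₂ := by
          rcases h1 with h1 | h1
          · exact ⟨fun h3 => h.sp a h1 a h3 (near_self a), fun h3 => h.sp a h1 b h3 (nb2_near hab)⟩
          · exact ⟨fun h3 => h.sp b h1 a h3 (near_symm (nb2_near hab)),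
              fun h3 => h.sp b h1 b h3 (near_self b)⟩
        have e1 := (HH_Fl h.pi2).mono h.i2 a b hab h2.1 h2.2
        have e2 := (HH_Fl h'.pi2).mono h'.i2 a b hab h2.1 h2.2
        have e3 := hsum a
        have e4 := hsum b
        omega
      · rw [not_or] at h1
        have e1 := (HH_Fl h.pi1).mono h.i1 a b hab h1.1 h1.2
        have e2 := (HH_Fl h'.pi1).mono h'.i1 a b hab h1.1 h1.2
        omega
    · refine ((HH_fin h.pi1).union (HH_fin h'.pi1)).subset ?_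
      intro a ha
      by_contra hn
      rw [Set.mem_union, not_or] at hn
      have e1 : HH Δ₁ a = 0 := not_not.1 hn.1
      have e2 : HH Δ₁' a = 0 := not_not.1 hn.2
      exact ha (by simp [e1, e2])
  have h1 : ∀ a, HH Δ₁ a = HH Δ₁' a := fun a => by have := hD a; omega
  have h2 : ∀ a, HH Δ₂ a = HH Δ₂' a := fun a => by have := hsum a; have := hD a; omega
  exact ⟨gla_part h h' h1 h2, gla_part h.symm h'.symm h2 h1⟩

end Pool.Agent.H78.DB
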