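import Pool.Agent.H78.DB.SplG
import Pool.Agent.H78.DB.GlA
import Pool.Agent.H78.DB.Cmp

/-!
# Module Awy: observables away from the irregular columns

`Away_HH`: `comp_induction` for the statement: for all `Δ` with `PI Δ`, `irr Δ ⊆ S` and all `k`: if `Away {k} S` then `HH Δ k = 0`. `S = ∅`: `HH Δ` is
constant along all steps, so zero. `S = C ∪ T`, `C` connected, non-empty, `Sp C T`: `split_ex` gives `Gl C T Δ Δ₁ Δ₂`; `HH Δ k = HH Δ₁ k + HH Δ₂ k`
(`Gl.HH_eq`); `HH Δ₁ k = 0` by `zero_of_bb` (`¬ inbb C k` by `Away`), `HH Δ₂ k = 0` by induction (`Away.mono`).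
`Gl.loc`: let `bs e ⊆ K`. `e` does not touch `S₂`: for `k ∈ K ∩ S₂` the set `{k}` is connected and `inbb {k} k`. `HH Δ₂ (pr e.1) = 0`
(`Away_HH`, `pr_mem_bs`), so `e ∈ Δ ↔ e ∈ Δ₁` (`g1`, `sh_zero`).
-/

set_option autoImplicit false

namespace Pool.Agent.H78.DB

open Pool.Agent.H72.DJ

theorem Away_HH {K S : Finset Col} {Δ : Set Edge} (h : PI Δ) (hi : irr Δ ⊆ S) (hA : Away K S) {k : Col}
    (hk : k ∈ K) : HH Δ k = 0 := by
  have key : ∀ (Δ : Set Edge), PI Δ → irr Δ ⊆ S → Away K S → HH Δ k = 0 := by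
    refine comp_induction (P := fun S => ∀ (Δ : Set Edge), PI Δ → irr Δ ⊆ S → Away K S →
      HH Δ k = 0) ?_ ?_ S
    · intro Δ h hi _
      have hl : Fl (∅ : Finset Col) (HH Δ) := (HH_Fl h).mono hi
      exact Fl_empty (fun a b hab => hl a b hab (Finset.notMem_empty a) (Finset.notMem_empty b))
        (HH_fin h) k
    · intro C T hC hCn hST ih Δ h hi hA
      obtain ⟨Δ₁, Δ₂, hG⟩ := split_ex hST h hi
      rw [hG.HH_eq k]
      have h1 : HH Δ₁ k = 0 := by
        refine zero_of_bb ((HH_Fl hG.pi1).mono hG.i1) (HH_fin hG.pi1) ?_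
        exact hA C Finset.subset_union_left hC hCn k hk
      have h2 : HH Δ₂ k = 0 := ih Δ₂ hG.pi2 hG.i2 (hA.mono Finset.subset_union_right)
      rw [h1, h2, add_zero]
  exact key Δ h hi hA

theorem Away_disj {K S : Finset Col} (hA : Away K S) {k : Col} (hk : k ∈ K) : k ∉ S := by
  intro hkS
  refine hA {k} (Finset.singleton_subset_iff.2 hkS) (Finset.singleton_nonempty k) ?_ k hk ?_
  · intro G hG hne
    obtain ⟨x, hx⟩ := hne
    have hxk : x = k := by
      have := hG.1 hx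
      simpa using this
    subst hxk
    apply Set.Subset.antisymm hG.1
    intro y hy
    have hyk : y = x := by simpa using hy
    rw [hyk]; exact hx
  · refine ⟨⟨k, Finset.mem_singleton_self k, le_refl _⟩, ⟨k, Finset.mem_singleton_self k, le_refl _⟩,
      ⟨k, Finset.mem_singleton_self k, le_refl _⟩, ⟨k, Finset.mem_singleton_self k, le_refl _⟩⟩

theorem Gl.loc {S₁ S₂ : Finset Col} {Δ Δ₁ Δ₂ : Set Edge} (h : Gl S₁ S₂ Δ Δ₁ Δ₂) {K : Finset Col}
    (hA : Away K S₂) {F : Set Edge → ℝ} (hF : Loc K F) : F Δ = F Δ₁ := by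
  apply hF
  intro e he
  have hT : ¬ To S₂ e := by
    rintro ⟨a, ha, haS⟩
    exact Away_disj hA (he ha) haS
  have h0 : HH Δ₂ (pr e.1) = 0 := Away_HH h.pi2 h.i2 hA (he (pr_mem_bs e))
  rw [h.g1 e hT, h0, neg_zero, sh_zero]

end Pool.Agent.H78.DB
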