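import Pool.Agent.H78.DB.BscB

/-!
# Module GlI: the interface property under gluing

`iso_push`: let `G ⊆ Δ` be finite and isolated in `Δ`. By `iso_reg` all base columns of all edges of `G` are in `irr Δ ⊆ S₁ ∪ S₂`, so
every `e ∈ G` touches `S₁` or `S₂`. Let `G₁ = {e ∈ G | To S₁ e}` and `G₁' = {sh (-H₂ (pr e.1)) e | e ∈ G₁}`, `H₂ = HH Δ₂`. Then
`G₁' ⊆ Δ₁` (`To_case`, `g1`), finite, and isolated in `Δ₁`: let `g' = sh (-H₂ (pr g.1)) g`, `g ∈ G₁`, `f' ∈ Δ₁`, `Ad g' f'`, in the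
square `(x,i,j)`. `g'` touches `S₁` (`To_sh`), so by `sq_case` no edge of the square touches `S₂`, and `H₂ = s` on all columns of the
square (`sq_const`, `HH_Fl`, `Fl.mono`). `f = sh s f'` does not touch `S₂`, so `f ∈ Δ` (`g1`, `sh_sh`); `g = sh s g'`, `Ad g f`
(`Ad_sh`), so `f ∈ G`; its base columns are in `irr Δ`, not in `S₂`, so in `S₁`: `f ∈ G₁` and `f' ∈ G₁'`. If `Intf Δ₁` then
`G₁' = ∅`, so `G₁ = ∅`; by symmetry (`Gl.symm`) `{e ∈ G | To S₂ e} = ∅`. So `G = ∅`.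
`Gl.intf` (←) is this. (→) let `G' ⊆ Δ₁` be finite and isolated in `Δ₁`; by `iso_reg` its edges have their base columns in
`irr Δ₁ ⊆ S₁`. `G = {sh (H₂ (pr e.1)) e | e ∈ G'} ⊆ Δ` (`g1`), finite, isolated in `Δ`: let `g = sh (H₂ ..) g'`, `f ∈ Δ`, `Ad g f` in a
square which touches `S₁`, so not `S₂`; `f' = sh (-s) f ∈ Δ₁` (`g1`), `Ad g' f'`, so `f' ∈ G'`, `f ∈ G`. So `G = ∅` and `G' = ∅`.
-/

set_option autoImplicit false

namespace Pool.Agent.H78.DB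

open Pool.Agent.H72.DJ

variable {S₁ S₂ : Finset Col} {Δ Δ₁ Δ₂ : Set Edge}

/-- a square with an edge touching `S₁`: no edge touches `S₂` and the height of `Δ₂` is constant -/
private theorem GlI_sq (h : Gl S₁ S₂ Δ Δ₁ Δ₂) {g f : Edge} (hg : To S₁ g) (ha : Ad g f) :
    ¬ To S₂ g ∧ ¬ To S₂ f ∧ HH Δ₂ (pr f.1) = HH Δ₂ (pr g.1) := by
  obtain ⟨x, i, j, hij, h1, h2⟩ := ha
  have h3 : ∀ e ∈ sq x i j, ¬ To S₂ e := by
    rcases sq_case h.sp (x := x) hij with h4 | h4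
    · exact absurd hg (h4 g h1)
    · exact h4
  have hF : Fl S₂ (HH Δ₂) := (HH_Fl h.pi2).mono h.i2
  refine ⟨h3 g h1, h3 f h2, ?_⟩
  rw [sq_const hF hij h3 h2 (pr_mem_bs f), sq_const hF hij h3 h1 (pr_mem_bs g)]

private theorem GlI_push (h : Gl S₁ S₂ Δ Δ₁ Δ₂) (hI1 : Intf Δ₁) {G : Set Edge} (hG : G.Finite)
    (hI : Isol Ad Δ G) {e : Edge} (he : e ∈ G) : ¬ To S₁ e := by
  intro hT
  have hE := hI1.2 ((fun e : Edge => sh (-HH Δ₂ (pr e.1)) e) '' {e | e ∈ G ∧ To S₁ e})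
    ((hG.subset fun e he => he.1).image _) ⟨?_, ?_⟩
  · have h1 : sh (-HH Δ₂ (pr e.1)) e ∈
        (fun e : Edge => sh (-HH Δ₂ (pr e.1)) e) '' {e | e ∈ G ∧ To S₁ e} := ⟨e, ⟨he, hT⟩, rfl⟩
    rw [hE] at h1
    exact h1
  · rintro _ ⟨g, ⟨hg, hgT⟩, rfl⟩
    have h2 : ¬ To S₂ g := by
      rcases To_case h.sp g with h3 | h3
      · exact absurd hgT h3
      · exact h3
    exact (h.g1 g h2).1 (hI.1 hg)
  · rintro _ ⟨g, ⟨hg, hgT⟩, rfl⟩ f' hf' hA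
    have hfe : sh (-HH Δ₂ (pr g.1)) (sh (HH Δ₂ (pr g.1)) f') = f' := by
      rw [sh_sh, neg_add_cancel, sh_zero]
    have hA2 : Ad g (sh (HH Δ₂ (pr g.1)) f') := by
      rw [← Ad_sh (-HH Δ₂ (pr g.1)), hfe]
      exact hA
    obtain ⟨-, h3, h4⟩ := GlI_sq h hgT hA2
    have hfΔ : sh (HH Δ₂ (pr g.1)) f' ∈ Δ := by
      refine (h.g1 _ h3).2 ?_
      rw [h4, hfe]
      exact hf'
    have hfG := hI.2 g hg _ hfΔ hA2
    have h5 := iso_reg h.pi hG hI hfG (pr_mem_bs _)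
    have h6 : To S₁ (sh (HH Δ₂ (pr g.1)) f') := by
      refine ⟨_, pr_mem_bs _, ?_⟩
      rcases Finset.mem_union.1 (h.i h5) with h7 | h7
      · exact h7
      · exact absurd ⟨_, pr_mem_bs _, h7⟩ h3
    refine ⟨_, ⟨hfG, h6⟩, ?_⟩
    change sh (-HH Δ₂ (pr (sh (HH Δ₂ (pr g.1)) f').1)) (sh (HH Δ₂ (pr g.1)) f') = f'
    rw [h4, hfe]

private theorem GlI_pull (h : Gl S₁ S₂ Δ Δ₁ Δ₂) (hI0 : Intf Δ) : Intf Δ₁ := by
  refine ⟨h.pi1, fun G' hG' hI => ?_⟩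
  have hS : ∀ e ∈ G', To S₁ e := fun e he =>
    ⟨_, pr_mem_bs e, h.i1 (iso_reg h.pi1 hG' hI he (pr_mem_bs e))⟩
  have hE := hI0.2 ((fun e : Edge => sh (HH Δ₂ (pr e.1)) e) '' G') (hG'.image _) ⟨?_, ?_⟩
  · rw [Set.image_eq_empty] at hE
    exact hE
  · rintro _ ⟨g, hg, rfl⟩
    have h2 : ¬ To S₂ (sh (HH Δ₂ (pr g.1)) g) := by
      rcases To_case h.sp (sh (HH Δ₂ (pr g.1)) g) with h3 | h3
      · exact absurd ((To_sh _ _).2 (hS g hg)) h3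
      · exact h3
    refine (h.g1 _ h2).2 ?_
    rw [pr_sh, sh_sh, neg_add_cancel, sh_zero]
    exact hI.1 hg
  · rintro _ ⟨g, hg, rfl⟩ f hf hA
    obtain ⟨-, h3, h4⟩ := GlI_sq h ((To_sh _ _).2 (hS g hg)) hA
    rw [pr_sh] at h4
    have h5 := (h.g1 _ h3).1 hf
    rw [h4] at h5
    have h6 : sh (HH Δ₂ (pr g.1)) (sh (-HH Δ₂ (pr g.1)) f) = f := by
      rw [sh_sh, add_neg_cancel, sh_zero]
    have h7 : Ad g (sh (-HH Δ₂ (pr g.1)) f) := by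
      rw [← Ad_sh (HH Δ₂ (pr g.1)), h6]
      exact hA
    refine ⟨_, hI.2 g hg _ h5 h7, ?_⟩
    change sh (HH Δ₂ (pr (sh (-HH Δ₂ (pr g.1)) f).1)) (sh (-HH Δ₂ (pr g.1)) f) = f
    rw [pr_sh, h4, h6]

theorem Gl.intf (h : Gl S₁ S₂ Δ Δ₁ Δ₂) : Intf Δ ↔ Intf Δ₁ ∧ Intf Δ₂ := by
  constructor
  · intro h0
    exact ⟨GlI_pull h h0, GlI_pull h.symm h0⟩
  · rintro ⟨h1, h2⟩
    refine ⟨h.pi, fun G hG hI => ?_⟩
    rw [Set.eq_empty_iff_forall_notMem]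
    intro e he
    rcases Finset.mem_union.1 (h.i (iso_reg h.pi hG hI he (pr_mem_bs e))) with h3 | h3
    · exact GlI_push h h1 hG hI he ⟨_, pr_mem_bs e, h3⟩
    · exact GlI_push h.symm h2 hG hI he ⟨_, pr_mem_bs e, h3⟩

end Pool.Agent.H78.DB
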