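import Pool.Agent.H78.DB.BscB

/-!
# Module GluE: gluing two interfaces with separated irregular columns

Put `H₁ = HH Δ₁`, `H₂ = HH Δ₂` and `Δ = {e | if To S₂ e then sh (-H₁ (pr e.1)) e ∈ Δ₂ else sh (-H₂ (pr e.1)) e ∈ Δ₁}`.
`H₁` is `Fl S₁`, `H₂` is `Fl S₂` (`HH_Fl`, `Fl.mono`).
* `g1` is immediate. `g2`: let `¬ To S₁ e`. If `To S₂ e`: immediate. Otherwise all base columns of `e` are regular for `Δ₁` and
  `Δ₂` (`i1`, `i2`); with `a = pr e.1`, by `reg_iff`: `e` horizontal: both sides false; `e = ve a z`: both sides say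
  `z = H₁ a + H₂ a` (`ve_sh`).
* `i`: let `a ∉ S₁ ∪ S₂`. `ve a z ∈ Δ ↔ z = H₁ a + H₂ a`; a horizontal edge `e` with `a ∈ bs e` does not touch `S₁` or does not
  touch `S₂` (`To_case`); say not `S₂`: `e ∈ Δ ↔ sh _ e ∈ Δ₁`, false as `a ∈ bs (sh _ e)` is regular for `Δ₁` (`reg_iff`). So
  `Reg Δ a` (`reg_of`), hence `a ∉ irr Δ` (once `PI Δ` is known, `mem_irr`).
* finite difference to the plane: outside a finite set `T` of columns (`flat_off` for both, `HH_fin`) `Δ` is the plane; over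
  the columns of `T` both `Δ` and `PP` have finitely many edges (shifts of `sec_fin`: `{e | e ∈ Δ ∧ To T e}` is contained in the
  union of the images under finitely many shifts `sh (H_i a)`, `a ∈ T'`, of `{e | e ∈ Δ_i ∧ To T e}`).
* separating: `c e = if To S₂ e then c₂ (sh (-H₁ (pr e.1)) e) else c₁ (sh (-H₂ (pr e.1)) e)`, `c_i` separating for `Δ_i`. Closed by
  `cl_loc`: by `sq_case` a square `(x,i,j)` does not touch `S₂`: then all its edges have the second form with the constant shift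
  `-H₂ (pr x)` (`sq_const`); or it does not touch `S₁`: its edges touching `S₂` have the first form with the constant shift
  `-H₁ (pr x)`, and those which do not touch `S₂` (so touch neither) as well: there
  `c₁ (sh (-H₂ a) e) = c₂ (sh (-H₁ a) e)`: by `sep_reg` both are `1` if `e = ve a (H₁ a + H₂ a)` and `0` otherwise. Support in
  `Δ`: clear. Finite difference to the indicator of `PP`: outside a finite set of columns `H₁ = H₂ = 0` and `c_i` is the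
  indicator of the plane (there `Δ_i` is the plane, `sep_reg`); over the remaining columns both have finite support.
-/

set_option autoImplicit false

namespace Pool.Agent.H78.DB

open Pool.Agent.H72.DJ

private lemma GluE_sh0 (e : Edge) : sh 0 e = e := by
  obtain ⟨⟨x, y, z⟩, i⟩ := e
  simp [sh]

private lemma GluE_sh_ve (s : ℤ) (e : Edge) (a : Col) (z : ℤ) :
    sh s e = ve a z ↔ e = ve a (z - s) := by
  obtain ⟨⟨x, y, h⟩, i⟩ := e
  simp only [sh, ve, Prod.mk.injEq]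
  constructor
  · rintro ⟨⟨h1, h2, h3⟩, h4⟩
    exact ⟨⟨h1, h2, by omega⟩, h4⟩
  · rintro ⟨⟨h1, h2, h3⟩, h4⟩
    exact ⟨⟨h1, h2, by omega⟩, h4⟩

private lemma GluE_pr_ve (a : Col) (z : ℤ) : pr (ve a z).1 = a := rfl

private lemma GluE_PP (e : Edge) : e ∈ PP ↔ e = ve (pr e.1) 0 := by
  obtain ⟨⟨x, y, h⟩, i⟩ := e
  simp only [PP, ve, pr, Set.mem_ofPred_eq, Prod.mk.injEq, true_and]
  exact and_comm

private lemma GluE_back (s : ℤ) (e : Edge) : sh s (sh (-s) e) = e := by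
  obtain ⟨⟨x, y, z⟩, i⟩ := e
  simp [sh]

/-- the glued set -/
private def GluE_D (S₂ : Finset Col) (H₁ H₂ : Col → ℤ) (Δ₁ Δ₂ : Set Edge) : Set Edge :=
  {e | (To S₂ e ∧ sh (-H₁ (pr e.1)) e ∈ Δ₂) ∨ (¬ To S₂ e ∧ sh (-H₂ (pr e.1)) e ∈ Δ₁)}

private lemma GluE_a {S₂ : Finset Col} {H₁ H₂ : Col → ℤ} {Δ₁ Δ₂ : Set Edge} {e : Edge}
    (h : ¬ To S₂ e) : e ∈ GluE_D S₂ H₁ H₂ Δ₁ Δ₂ ↔ sh (-H₂ (pr e.1)) e ∈ Δ₁ := by
  unfold GluE_D
  constructor
  · rintro (h1 | h1)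
    · exact absurd h1.1 h
    · exact h1.2
  · exact fun h1 => Or.inr ⟨h, h1⟩

private lemma GluE_b {S₂ : Finset Col} {H₁ H₂ : Col → ℤ} {Δ₁ Δ₂ : Set Edge} {e : Edge}
    (h : To S₂ e) : e ∈ GluE_D S₂ H₁ H₂ Δ₁ Δ₂ ↔ sh (-H₁ (pr e.1)) e ∈ Δ₂ := by
  unfold GluE_D
  constructor
  · rintro (h1 | h1)
    · exact h1.2
    · exact absurd h h1.1
  · exact fun h1 => Or.inl ⟨h, h1⟩

private lemma GluE_nmem {S : Finset Col} {Δ : Set Edge} (hi : irr Δ ⊆ S) {e : Edge} (h : ¬ To S e)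
    {a : Col} (ha : a ∈ bs e) : a ∉ irr Δ := fun h1 => h ⟨a, ha, hi h1⟩

private lemma GluE_mem_bs (s : ℤ) (e : Edge) : pr e.1 ∈ bs (sh s e) := by
  rw [bs_sh]
  exact pr_mem_bs e

private lemma GluE_reg {Δ : Set Edge} (h : PI Δ) {e : Edge} (ha : pr e.1 ∉ irr Δ) (s : ℤ) :
    sh (-s) e ∈ Δ ↔ e = ve (pr e.1) (HH Δ (pr e.1) + s) := by
  rw [reg_iff h ha (GluE_mem_bs (-s) e), GluE_sh_ve, sub_neg_eq_add]

private lemma GluE_cval {Δ : Set Edge} (h : PI Δ) {c : Edge → ZMod 2} (hc : SepC Δ c) {e : Edge}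
    (ha : pr e.1 ∉ irr Δ) (s : ℤ) :
    (e = ve (pr e.1) (HH Δ (pr e.1) + s) → c (sh (-s) e) = 1) ∧
      (e ≠ ve (pr e.1) (HH Δ (pr e.1) + s) → c (sh (-s) e) = 0) := by
  obtain ⟨h1, h2⟩ := sep_reg h hc ha
  constructor
  · intro h3
    have h4 : sh (-s) e = ve (pr e.1) (HH Δ (pr e.1)) := by
      rw [GluE_sh_ve, sub_neg_eq_add]
      exact h3
    rw [h4, h1]
  · intro h3
    refine h2 _ (GluE_mem_bs (-s) e) fun h4 => h3 ?_
    rw [GluE_sh_ve, sub_neg_eq_add] at h4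
    exact h4

theorem glue_ex {S₁ S₂ : Finset Col} (hS : Sp S₁ S₂) {Δ₁ Δ₂ : Set Edge} (h₁ : PI Δ₁) (h₂ : PI Δ₂)
    (i₁ : irr Δ₁ ⊆ S₁) (i₂ : irr Δ₂ ⊆ S₂) : ∃ Δ : Set Edge, Gl S₁ S₂ Δ Δ₁ Δ₂ := by
  classical
  obtain ⟨H₁, hH₁⟩ : ∃ H₁ : Col → ℤ, H₁ = HH Δ₁ := ⟨_, rfl⟩
  obtain ⟨H₂, hH₂⟩ : ∃ H₂ : Col → ℤ, H₂ = HH Δ₂ := ⟨_, rfl⟩
  have hF₁ : Fl S₁ H₁ := by rw [hH₁]; exact Fl.mono (HH_Fl h₁) i₁
  have hF₂ : Fl S₂ H₂ := by rw [hH₂]; exact Fl.mono (HH_Fl h₂) i₂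
  obtain ⟨Δ, hΔ⟩ : ∃ Δ : Set Edge, Δ = GluE_D S₂ H₁ H₂ Δ₁ Δ₂ := ⟨_, rfl⟩
  have g1 : ∀ e, ¬ To S₂ e → (e ∈ Δ ↔ sh (-H₂ (pr e.1)) e ∈ Δ₁) := fun e he => by
    rw [hΔ]; exact GluE_a he
  have gb : ∀ e, To S₂ e → (e ∈ Δ ↔ sh (-H₁ (pr e.1)) e ∈ Δ₂) := fun e he => by
    rw [hΔ]; exact GluE_b he
  have g2 : ∀ e, ¬ To S₁ e → (e ∈ Δ ↔ sh (-H₁ (pr e.1)) e ∈ Δ₂) := by
    intro e he
    by_cases h : To S₂ e
    · exact gb e h
    · rw [g1 e h, GluE_reg h₁ (GluE_nmem i₁ he (pr_mem_bs e)),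
        GluE_reg h₂ (GluE_nmem i₂ h (pr_mem_bs e)), hH₁, hH₂, add_comm]
  have hreg : ∀ a, a ∉ S₁ ∪ S₂ → Reg Δ a := by
    intro a ha
    rw [Finset.mem_union, not_or] at ha
    have hve : ∀ z, ¬ To S₂ (ve a z) := by
      rintro z ⟨b, hb, hb'⟩
      rw [bs_ve, Finset.mem_singleton] at hb
      rw [hb] at hb'
      exact ha.2 hb'
    have ha1 : a ∉ irr Δ₁ := fun h => ha.1 (i₁ h)
    have ha2 : a ∉ irr Δ₂ := fun h => ha.2 (i₂ h)
    refine (reg_of (s := H₁ a + H₂ a) (fun z => ?_) fun e he hae => ?_).1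
    · rw [g1 _ (hve z), GluE_reg h₁ (by rw [GluE_pr_ve]; exact ha1), GluE_pr_ve, ← hH₁]
      exact ⟨fun h => ve_inj a h, fun h => by rw [h]⟩
    · rcases To_case hS e with h | h
      · have h1 := (g2 e h).1 he
        rw [reg_iff h₂ ha2 (by rw [bs_sh]; exact hae)] at h1
        have h2 := congrArg Prod.snd h1
        exact h2
      · have h1 := (g1 e h).1 he
        rw [reg_iff h₁ ha1 (by rw [bs_sh]; exact hae)] at h1
        have h2 := congrArg Prod.snd h1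
        exact h2
  obtain ⟨T₁, hT₁⟩ := flat_off h₁
  obtain ⟨T, hTS₁, hTS₂, hTT, hTH₁, hTH₂⟩ : ∃ T : Finset Col, S₁ ⊆ T ∧ S₂ ⊆ T ∧ T₁ ⊆ T ∧
      (∀ a, a ∉ T → H₁ a = 0) ∧ (∀ a, a ∉ T → H₂ a = 0) := by
    refine ⟨S₁ ∪ S₂ ∪ T₁ ∪ (HH_fin h₁).toFinset ∪ (HH_fin h₂).toFinset, ?_, ?_, ?_, ?_, ?_⟩
    · intro a ha; simp only [Finset.mem_union]; tauto
    · intro a ha; simp only [Finset.mem_union]; tauto
    · intro a ha; simp only [Finset.mem_union]; tauto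
    · intro a ha
      by_contra h
      refine ha ?_
      rw [hH₁] at h
      simp only [Finset.mem_union, Set.Finite.mem_toFinset, Set.mem_ofPred_eq]
      tauto
    · intro a ha
      by_contra h
      refine ha ?_
      rw [hH₂] at h
      simp only [Finset.mem_union, Set.Finite.mem_toFinset, Set.mem_ofPred_eq]
      tauto
  have hfinΔ : {e | e ∈ Δ ∧ To T e}.Finite := by
    refine (((sec_fin h₂ T).image fun f => sh (H₁ (pr f.1)) f).union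
      ((sec_fin h₁ T).image fun f => sh (H₂ (pr f.1)) f)).subset ?_
    rintro e ⟨he, heT⟩
    by_cases h : To S₂ e
    · left
      refine ⟨sh (-H₁ (pr e.1)) e, ⟨(gb e h).1 he, (To_sh _ _).2 heT⟩, ?_⟩
      simp only
      rw [pr_sh, GluE_back]
    · right
      refine ⟨sh (-H₂ (pr e.1)) e, ⟨(g1 e h).1 he, (To_sh _ _).2 heT⟩, ?_⟩
      simp only
      rw [pr_sh, GluE_back]
  have hfin : ({e | e ∈ Δ ∧ To T e} ∪ {e | e ∈ PP ∧ To T e}).Finite :=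
    hfinΔ.union (sec_fin PI_PP T)
  have hnT : ∀ e, ¬ To T e → ¬ To S₂ e ∧ pr e.1 ∉ T := by
    intro e he
    exact ⟨fun ⟨a, ha, ha'⟩ => he ⟨a, ha, hTS₂ ha'⟩, fun h => he ⟨_, pr_mem_bs e, h⟩⟩
  have hd : {e | ¬ (e ∈ Δ ↔ e ∈ PP)}.Finite := by
    refine hfin.subset ?_
    intro e he
    by_cases h : To T e
    · simp only [Set.mem_ofPred_eq] at he
      simp only [Set.mem_union, Set.mem_ofPred_eq]
      tauto
    · exfalso
      obtain ⟨h1, h2⟩ := hnT e h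
      refine he ?_
      rw [g1 e h1, hTH₂ _ h2, neg_zero, GluE_sh0]
      exact hT₁ _ (fun h3 => h2 (hTT h3)) e (pr_mem_bs e)
  obtain ⟨c₁, hc₁⟩ := h₁.2
  obtain ⟨c₂, hc₂⟩ := h₂.2
  have hsep : Sep Δ := by
    refine ⟨fun e => if To S₂ e then c₂ (sh (-H₁ (pr e.1)) e) else c₁ (sh (-H₂ (pr e.1)) e),
      ?_, ?_, ?_⟩
    · refine cl_loc fun x i j hij => ?_
      rcases sq_case hS (x := x) hij with h | h
      · refine ⟨c₂, -H₁ (pr x), hc₂.1, fun e he => ?_⟩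
        have h1 : H₁ (pr e.1) = H₁ (pr x) := sq_const hF₁ hij h he (pr_mem_bs e)
        rw [← h1]
        split_ifs with h2
        · rfl
        · have n1 := GluE_nmem i₁ (h e he) (pr_mem_bs e)
          have n2 := GluE_nmem i₂ h2 (pr_mem_bs e)
          have e1 := GluE_cval h₁ hc₁ n1 (H₂ (pr e.1))
          have e2 := GluE_cval h₂ hc₂ n2 (H₁ (pr e.1))
          rw [← hH₁] at e1
          rw [← hH₂, add_comm] at e2
          by_cases h3 : e = ve (pr e.1) (H₁ (pr e.1) + H₂ (pr e.1))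
          · rw [e1.1 h3, e2.1 h3]
          · rw [e1.2 h3, e2.2 h3]
      · refine ⟨c₁, -H₂ (pr x), hc₁.1, fun e he => ?_⟩
        have h1 : H₂ (pr e.1) = H₂ (pr x) := sq_const hF₂ hij h he (pr_mem_bs e)
        rw [if_neg (h e he), h1]
    · intro e he
      simp only at he
      by_cases h : To S₂ e
      · rw [if_pos h] at he
        exact (gb e h).2 (hc₂.2.1 _ he)
      · rw [if_neg h] at he
        exact (g1 e h).2 (hc₁.2.1 _ he)
    · refine hfin.subset ?_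
      intro e he
      simp only [Set.mem_ofPred_eq] at he
      by_cases h : To T e
      · by_cases h1 : e ∈ PP
        · exact Or.inr ⟨h1, h⟩
        · left
          rw [if_neg h1] at he
          refine ⟨?_, h⟩
          by_cases h2 : To S₂ e
          · rw [if_pos h2] at he
            exact (gb e h2).2 (hc₂.2.1 _ he)
          · rw [if_neg h2] at he
            exact (g1 e h2).2 (hc₁.2.1 _ he)
      · exfalso
        obtain ⟨h1, h2⟩ := hnT e h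
        refine he ?_
        rw [if_neg h1, hTH₂ _ h2]
        have n1 : pr e.1 ∉ irr Δ₁ := fun h3 => h2 (hTS₁ (i₁ h3))
        have e1 := GluE_cval h₁ hc₁ n1 0
        rw [← hH₁, hTH₁ _ h2, add_zero] at e1
        by_cases h3 : e ∈ PP
        · rw [if_pos h3, e1.1 ((GluE_PP e).1 h3)]
        · rw [if_neg h3, e1.2 fun h4 => h3 ((GluE_PP e).2 h4)]
  have hPI : PI Δ := ⟨hd, hsep⟩
  refine ⟨Δ, hS, hPI, h₁, h₂, ?_, i₁, i₂, ?_, ?_⟩
  · intro a ha
    by_contra h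
    exact (mem_irr hPI).1 ha (hreg a h)
  · rw [← hH₂]
    exact g1
  · rw [← hH₁]
    exact g2

end Pool.Agent.H78.DB
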