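import Pool.Agent.H78.DB.SplE

/-!
# Module SplG: splitting an interface

`split_height` for `HH Δ` (`HH_Fl`, `Fl.mono`, `HH_fin`), `Δ₁ = half S₂ σ₁ σ₂ Δ`, `Δ₂ = half S₁ σ₂ σ₁ Δ` (`half_spec` twice, the
second time with the roles exchanged, `Finset.union_comm`, `Sp.symm`). `g1`: `¬ To S₂ e`: `sh (-σ₂ (pr e.1)) e` does not touch
`S₂` (`To_sh`), has the same base, so it is in `Δ₁` iff `sh (σ₂) (sh (-σ₂) e) = e ∈ Δ` (`sh_sh`, `sh_zero`, `pr_sh`); `g2` in the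
same way.
-/

set_option autoImplicit false

namespace Pool.Agent.H78.DB

open Pool.Agent.H72.DJ

private theorem splg_no {S₂ : Finset Col} {σ₁ σ₂ : Col → ℤ} {Δ : Set Edge} {e : Edge}
    (h : ¬ To S₂ e) : e ∈ half S₂ σ₁ σ₂ Δ ↔ sh (σ₂ (pr e.1)) e ∈ Δ := by
  unfold half
  rw [Set.mem_ofPred_eq, if_neg h]

private theorem splg_g {S₂ : Finset Col} {σ₁ σ₂ : Col → ℤ} {Δ : Set Edge} {e : Edge}
    (h : ¬ To S₂ e) : e ∈ Δ ↔ sh (-σ₂ (pr e.1)) e ∈ half S₂ σ₁ σ₂ Δ := by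
  rw [splg_no (by rw [To_sh]; exact h), pr_sh, sh_sh, add_neg_cancel, sh_zero]

theorem split_ex {S₁ S₂ : Finset Col} (hS : Sp S₁ S₂) {Δ : Set Edge} (h : PI Δ)
    (hi : irr Δ ⊆ S₁ ∪ S₂) : ∃ Δ₁ Δ₂ : Set Edge, Gl S₁ S₂ Δ Δ₁ Δ₂ := by
  obtain ⟨σ₁, σ₂, f₁, f₂, l₁, l₂, hs⟩ := split_height hS ((HH_Fl h).mono hi) (HH_fin h)
  obtain ⟨a1, a2, a3⟩ := half_spec hS h hi f₁ f₂ l₁ l₂ hs
  obtain ⟨b1, b2, b3⟩ := half_spec hS.symm h (by rw [Finset.union_comm]; exact hi) f₂ f₁ l₂ l₁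
    (fun a => by rw [hs a, add_comm])
  refine ⟨half S₂ σ₁ σ₂ Δ, half S₁ σ₂ σ₁ Δ, ⟨hS, h, a1, b1, hi, a2, b2, ?_, ?_⟩⟩
  · intro e he
    rw [b3]
    exact splg_g he
  · intro e he
    rw [a3]
    exact splg_g he

end Pool.Agent.H78.DB
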