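import Pool.Agent.H78.DB.GlV
import Pool.Agent.H78.DB.GlI
import Pool.Agent.H78.DB.GluE
import Pool.Agent.H78.DB.SplG

/-!
# Module PrT: sums over glued interfaces

For `(Δ₁, Δ₂) ∈ DL L S₁ × DL L S₂` let `glue (Δ₁, Δ₂) ∈ DL L (S₁ ∪ S₂)` be chosen by `glue_ex` (`Gl.intf`, `Gl.inV`, `Gl.i`). It is injective
by `Gl.unique'` and surjective by `split_ex` and `Gl.unique` (`Gl.intf`, `Gl.inV`, `i1`, `i2`). `Equiv.ofBijective`,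
`Equiv.tsum_eq`, `ENNReal.tsum_prod`, `ENNReal.tsum_mul_left`, `ENNReal.tsum_mul_right`.
-/

set_option autoImplicit false

open scoped ENNReal

namespace Pool.Agent.H78.DB

open Pool.Agent.H72.DJ

theorem prod_tsum {S₁ S₂ : Finset Col} (hS : Sp S₁ S₂) (L : ℕ) (W W₁ W₂ : Set Edge → ℝ≥0∞)
    (h : ∀ Δ Δ₁ Δ₂ : Set Edge, Gl S₁ S₂ Δ Δ₁ Δ₂ → Intf Δ₁ → Intf Δ₂ → W Δ = W₁ Δ₁ * W₂ Δ₂) :
    ∑' Δ : DL L (S₁ ∪ S₂), W Δ = (∑' Δ : DL L S₁, W₁ Δ) * ∑' Δ : DL L S₂, W₂ Δ := by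
  have hex : ∀ P : DL L S₁ × DL L S₂, ∃ Δ : DL L (S₁ ∪ S₂),
      Gl S₁ S₂ (Δ : Set Edge) (P.1 : Set Edge) (P.2 : Set Edge) := by
    rintro ⟨⟨Δ₁, h1⟩, ⟨Δ₂, h2⟩⟩
    obtain ⟨Δ, hΔ⟩ := glue_ex hS h1.1.1 h2.1.1 h1.2.2 h2.2.2
    exact ⟨⟨Δ, hΔ.intf.2 ⟨h1.1, h2.1⟩, (hΔ.inV L).2 ⟨h1.2.1, h2.2.1⟩, hΔ.i⟩, hΔ⟩
  choose g hg using hex
  have hbij : Function.Bijective g := by
    constructor
    · intro P P' hPP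
      have h1 := hg P
      have h2 := hg P'
      rw [← hPP] at h2
      have h3 := h1.unique' h2
      exact Prod.ext (Subtype.ext h3.1) (Subtype.ext h3.2)
    · rintro ⟨Δ, hΔ⟩
      obtain ⟨Δ₁, Δ₂, hG⟩ := split_ex hS hΔ.1.1 hΔ.2.2
      have hI := hG.intf.1 hΔ.1
      have hV := (hG.inV L).1 hΔ.2.1
      refine ⟨(⟨Δ₁, hI.1, hV.1, hG.i1⟩, ⟨Δ₂, hI.2, hV.2, hG.i2⟩), ?_⟩
      exact Subtype.ext ((hg _).unique hG)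
  rw [← (Equiv.ofBijective g hbij).tsum_eq (fun Δ : DL L (S₁ ∪ S₂) => W Δ)]
  have h1 : ∀ P : DL L S₁ × DL L S₂, W (Equiv.ofBijective g hbij P : Set Edge) =
      W₁ (P.1 : Set Edge) * W₂ (P.2 : Set Edge) := fun P =>
    h _ _ _ (hg P) P.1.2.1 P.2.2.1
  rw [tsum_congr h1]
  have h3 := ENNReal.tsum_prod
    (f := fun (Δ₁ : DL L S₁) (Δ₂ : DL L S₂) => W₁ (Δ₁ : Set Edge) * W₂ (Δ₂ : Set Edge))
  rw [h3]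
  have h2 : ∀ Δ₁ : DL L S₁, ∑' Δ₂ : DL L S₂, W₁ (Δ₁ : Set Edge) * W₂ (Δ₂ : Set Edge) =
      W₁ (Δ₁ : Set Edge) * ∑' Δ₂ : DL L S₂, W₂ (Δ₂ : Set Edge) := fun Δ₁ => ENNReal.tsum_mul_left
  rw [tsum_congr h2, ENNReal.tsum_mul_right]

end Pool.Agent.H78.DB
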