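import Pool.Agent.H78.DB.CnB
import Pool.Agent.H78.DB.PrT
import Pool.Agent.H78.DB.Cmp

/-!
# Module CnG: counting interfaces over arbitrary sets of columns

`DL_empty`: `irr Δ = ∅` implies that `HH Δ` is constant along all steps, so zero (`HH_Fl`, `Fl_empty`, `HH_fin`), and `Δ = PP` by `reg_iff`; `PP ∈ DL L ∅`
(`Intf_PP`, `irr_PP`). `cnt_G`: `comp_induction` for `P B`: the sum is at most `u^|B|`. `B = ∅`: one term, `s^0 = 1` (`en_PP`). `C ∪ T`: `prod_tsum` with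
`W Δ = if irr Δ = C ∪ T then s^en Δ else 0`, `W₁`, `W₂` accordingly: under `Gl`, `irr Δ = irr Δ₁ ∪ irr Δ₂` with `irr Δ₁ ⊆ C`, `irr Δ₂ ⊆ T` disjoint
(`Sp`), so `irr Δ = C ∪ T ↔ irr Δ₁ = C ∧ irr Δ₂ = T`; `Gl.en_eq`; `ENNReal.ofReal_mul`. `cnt_B` for `C`.
`cnt_S`: the sum over `DL L S` of `s^en` is `∑_{B ⊆ S}` of the sums over `irr Δ = B` (`DL L B` and `DL L S` have the same elements with `irr Δ = B ⊆ S`)
`≤ ∑_{B ⊆ S} u^|B| < ∞`; more generally with the factor `κ^|S \ irr Δ|`: `∑_{B ⊆ S} u^|S \ B| u^|B| = (2u)^|S|`.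
-/

set_option autoImplicit false

open scoped ENNReal

namespace Pool.Agent.H78.DB

open Pool.Agent.H72.DJ

theorem DL_empty (L : ℕ) : DL L ∅ = {PP} := by
  ext Δ
  rw [Set.mem_singleton_iff]
  constructor
  · rintro ⟨h1, -, h3⟩
    have hi : irr Δ = ∅ := Finset.subset_empty.1 h3
    have hFl := HH_Fl h1.1
    have h0 : ∀ a, HH Δ a = 0 := by
      refine Fl_empty (fun a b hab => ?_) (HH_fin h1.1)
      refine hFl a b hab ?_ ?_
      · rw [hi]
        exact Finset.notMem_empty a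
      · rw [hi]
        exact Finset.notMem_empty b
    ext e
    have e1 := reg_iff h1.1 (a := pr e.1) (by rw [hi]; exact Finset.notMem_empty _) (pr_mem_bs e)
    have e2 := reg_iff PI_PP (a := pr e.1) (by rw [irr_PP]; exact Finset.notMem_empty _)
      (pr_mem_bs e)
    rw [e1, e2, h0, (reg_PP _).2]
  · rintro rfl
    refine ⟨Intf_PP, fun e _ => Iff.rfl, ?_⟩
    rw [irr_PP]

private theorem CnG_disj {C T : Finset Col} (h : Sp C T) : Disjoint C T := by
  rw [Finset.disjoint_left]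
  intro a ha ha'
  exact h a ha a ha' (near_self a)

private theorem CnG_irr {C T : Finset Col} {Δ Δ₁ Δ₂ : Set Edge} (h : Gl C T Δ Δ₁ Δ₂) :
    irr Δ = C ∪ T ↔ irr Δ₁ = C ∧ irr Δ₂ = T := by
  have hd := CnG_disj h.sp
  rw [Finset.disjoint_left] at hd
  rw [h.irr_eq]
  constructor
  · intro hu
    constructor
    · refine Finset.Subset.antisymm h.i1 fun x hx => ?_
      have h1 : x ∈ irr Δ₁ ∪ irr Δ₂ := by
        rw [hu]
        exact Finset.mem_union_left _ hx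
      rcases Finset.mem_union.1 h1 with h2 | h2
      · exact h2
      · exact absurd (h.i2 h2) (hd hx)
    · refine Finset.Subset.antisymm h.i2 fun x hx => ?_
      have h1 : x ∈ irr Δ₁ ∪ irr Δ₂ := by
        rw [hu]
        exact Finset.mem_union_right _ hx
      rcases Finset.mem_union.1 h1 with h2 | h2
      · exact absurd hx (hd (h.i1 h2))
      · exact h2
  · rintro ⟨h1, h2⟩
    rw [h1, h2]

private theorem CnG_mul {s : ℝ} (hs : 0 ≤ s) {C T : Finset Col} {Δ Δ₁ Δ₂ : Set Edge}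
    (h : Gl C T Δ Δ₁ Δ₂) :
    (if irr Δ = C ∪ T then ENNReal.ofReal (s ^ en Δ) else 0) =
      (if irr Δ₁ = C then ENNReal.ofReal (s ^ en Δ₁) else 0) *
        (if irr Δ₂ = T then ENNReal.ofReal (s ^ en Δ₂) else 0) := by
  by_cases h1 : irr Δ₁ = C
  · by_cases h2 : irr Δ₂ = T
    · rw [if_pos ((CnG_irr h).2 ⟨h1, h2⟩), if_pos h1, if_pos h2, h.en_eq, pow_add,
        ENNReal.ofReal_mul (pow_nonneg hs _)]
    · rw [if_neg (fun hu => h2 ((CnG_irr h).1 hu).2), if_neg h2, mul_zero]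
  · rw [if_neg (fun hu => h1 ((CnG_irr h).1 hu).1), if_neg h1, zero_mul]

theorem cnt_G {s u : ℝ} (hs : 0 ≤ s) (hsu : s ≤ u ^ 38) (hu : 0 < u) (hu1 : 512 * u ≤ 1) (L : ℕ)
    (B : Finset Col) :
    ∑' Δ : DL L B, (if irr (Δ : Set Edge) = B then ENNReal.ofReal (s ^ en (Δ : Set Edge)) else 0) ≤
      ENNReal.ofReal (u ^ B.card) := by
  refine comp_induction (P := fun B => ∑' Δ : DL L B, (if irr (Δ : Set Edge) = B then
    ENNReal.ofReal (s ^ en (Δ : Set Edge)) else 0) ≤ ENNReal.ofReal (u ^ B.card)) ?_ ?_ B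
  · have h1 := tsum_congr_set_coe (fun Δ : Set Edge => if irr Δ = ∅ then
      ENNReal.ofReal (s ^ en Δ) else 0) (DL_empty L)
    rw [tsum_singleton PP (fun Δ : Set Edge => if irr Δ = ∅ then
      ENNReal.ofReal (s ^ en Δ) else 0), if_pos irr_PP, en_PP, pow_zero] at h1
    refine le_of_eq (h1.trans ?_)
    rw [Finset.card_empty, pow_zero]
  · intro C T hne hc hsp ih
    have h1 := prod_tsum hsp L
      (fun Δ => if irr Δ = C ∪ T then ENNReal.ofReal (s ^ en Δ) else 0)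
      (fun Δ => if irr Δ = C then ENNReal.ofReal (s ^ en Δ) else 0)
      (fun Δ => if irr Δ = T then ENNReal.ofReal (s ^ en Δ) else 0)
      (fun Δ Δ₁ Δ₂ h _ _ => CnG_mul hs h)
    refine (le_of_eq h1).trans ?_
    refine (mul_le_mul' (cnt_B hs hsu hu hu1 L hne hc) ih).trans (le_of_eq ?_)
    rw [← ENNReal.ofReal_mul (pow_nonneg hu.le _), ← pow_add,
      Finset.card_union_of_disjoint (CnG_disj hsp)]

private theorem CnG_part {s u : ℝ} (hs : 0 ≤ s) (hsu : s ≤ u ^ 38) (hu : 0 < u)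
    (hu1 : 512 * u ≤ 1) (L : ℕ) {S B : Finset Col} (hB : B ⊆ S) :
    ∑' Δ : DL L S, (if irr (Δ : Set Edge) = B then
      ENNReal.ofReal (u ^ (S \ irr (Δ : Set Edge)).card * s ^ en (Δ : Set Edge)) else 0) ≤
      ENNReal.ofReal (u ^ S.card) := by
  have h1 : ∑' Δ : DL L S, (if irr (Δ : Set Edge) = B then
      ENNReal.ofReal (u ^ (S \ irr (Δ : Set Edge)).card * s ^ en (Δ : Set Edge)) else 0) ≤
      ∑' Δ : DL L B, ENNReal.ofReal (u ^ (S \ B).card) * (if irr (Δ : Set Edge) = B then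
        ENNReal.ofReal (s ^ en (Δ : Set Edge)) else 0) := by
    rw [tsum_subtype (DL L S) (fun Δ : Set Edge => if irr Δ = B then
      ENNReal.ofReal (u ^ (S \ irr Δ).card * s ^ en Δ) else 0),
      tsum_subtype (DL L B) (fun Δ : Set Edge => ENNReal.ofReal (u ^ (S \ B).card) *
        (if irr Δ = B then ENNReal.ofReal (s ^ en Δ) else 0))]
    refine ENNReal.tsum_le_tsum fun Δ => ?_
    by_cases hΔ : Δ ∈ DL L S
    · by_cases hi : irr Δ = B
      · have hΔB : Δ ∈ DL L B := ⟨hΔ.1, hΔ.2.1, hi.subset⟩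
        rw [Set.indicator_of_mem hΔ, Set.indicator_of_mem hΔB, if_pos hi, if_pos hi, hi,
          ENNReal.ofReal_mul (pow_nonneg hu.le _)]
      · rw [Set.indicator_of_mem hΔ, if_neg hi]
        exact zero_le
    · rw [Set.indicator_of_notMem hΔ]
      exact zero_le
  refine h1.trans ?_
  rw [ENNReal.tsum_mul_left]
  refine (mul_le_mul' le_rfl (cnt_G hs hsu hu hu1 L B)).trans (le_of_eq ?_)
  rw [← ENNReal.ofReal_mul (pow_nonneg hu.le _), ← pow_add, Finset.card_sdiff_add_card_eq_card hB]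

theorem cnt_S {s u : ℝ} (hs : 0 ≤ s) (hsu : s ≤ u ^ 38) (hu : 0 < u) (hu1 : 512 * u ≤ 1) (L : ℕ)
    (S : Finset Col) :
    ∑' Δ : DL L S, ENNReal.ofReal (u ^ (S \ irr (Δ : Set Edge)).card * s ^ en (Δ : Set Edge)) ≤
      ENNReal.ofReal ((2 * u) ^ S.card) := by
  have h1 : ∑' Δ : DL L S, ENNReal.ofReal (u ^ (S \ irr (Δ : Set Edge)).card *
      s ^ en (Δ : Set Edge)) = ∑' Δ : DL L S, ∑ B ∈ S.powerset, (if irr (Δ : Set Edge) = B then
      ENNReal.ofReal (u ^ (S \ irr (Δ : Set Edge)).card * s ^ en (Δ : Set Edge)) else 0) := by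
    refine tsum_congr fun Δ => ?_
    rw [Finset.sum_ite_eq, if_pos (Finset.mem_powerset.2 Δ.2.2.2)]
  rw [h1, Summable.tsum_finsetSum (fun B _ => ENNReal.summable)]
  refine (Finset.sum_le_sum fun B hB => CnG_part hs hsu hu hu1 L
    (Finset.mem_powerset.1 hB)).trans (le_of_eq ?_)
  rw [← ENNReal.ofReal_sum_of_nonneg (fun B _ => pow_nonneg hu.le _), Finset.sum_const,
    Finset.card_powerset, nsmul_eq_mul, mul_pow]
  push_cast
  rfl

/-- summability of `s^en` over all interfaces in the cylinder -/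
theorem cnt_fin {s u : ℝ} (hs : 0 ≤ s) (hsu : s ≤ u ^ 38) (hu : 0 < u) (hu1 : 512 * u ≤ 1) (L : ℕ)
    (S : Finset Col) : Summable fun Δ : DL L S => s ^ en (Δ : Set Edge) := by
  have hu1' : u ≤ 1 := by linarith
  have h1 : ∑' Δ : DL L S, ENNReal.ofReal (u ^ (S \ irr (Δ : Set Edge)).card *
      s ^ en (Δ : Set Edge)) ≠ ⊤ :=
    ((cnt_S hs hsu hu hu1 L S).trans_lt ENNReal.ofReal_lt_top).ne
  have h2 := ENNReal.summable_toReal h1
  have h3 : Summable fun Δ : DL L S => (u ^ S.card)⁻¹ * (u ^ (S \ irr (Δ : Set Edge)).card *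
      s ^ en (Δ : Set Edge)) := by
    refine Summable.mul_left _ (h2.congr fun Δ => ?_)
    exact ENNReal.toReal_ofReal (mul_nonneg (pow_nonneg hu.le _) (pow_nonneg hs _))
  refine Summable.of_nonneg_of_le (fun Δ => pow_nonneg hs _) (fun Δ => ?_) h3
  have h4 : 0 < u ^ S.card := pow_pos hu _
  have h5 : u ^ S.card ≤ u ^ (S \ irr (Δ : Set Edge)).card :=
    pow_le_pow_of_le_one hu.le hu1' (Finset.card_le_card Finset.sdiff_subset)
  rw [inv_mul_eq_div, le_div_iff₀ h4, mul_comm]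
  exact mul_le_mul_of_nonneg_right h5 (pow_nonneg hs _)

end Pool.Agent.H78.DB
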