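import Pool.Agent.H78.DB.Defs

/-!
# Module Cnt: counting connected sets

`N : V → Finset V` symmetric, `|N v| ≤ d`, `1 ≤ d`, relation `b ∈ N a`. Claim (by induction on `n ≥ 1`): every finite connected `X ∋ v` with
`|X| = n` is the set of the entries of a sequence `x_0 = v, x_1, ..., x_(2(n-1))` with `x_(i+1) ∈ N x_i`. Step: choose `u ∈ X`, `u ≠ v`, such
that `X \ {u}` is connected (e.g. `u` at maximal distance from `v` in the graph on `X`; or: take a maximal proper connected subset
`Y ∋ v` of `X`: as `X` is connected there is `u ∈ X \ Y` adjacent to a `w ∈ Y`, and `Y ∪ {u}` is connected, so by maximality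
`Y ∪ {u} = X`). Insert the detour `w, u, w` in the sequence of `Y` at an occurrence of `w`. The number of sequences is at most
`d ^ (2 (n-1)) ≤ (d^2)^n`, so the number of the `X` is at most that. (Formally: define `walks v k : Finset (List V)` or
`Finset (Fin (k+1) → V)` recursively; `card ≤ d^k`; map a walk to the finset of its entries.)
`cnt_sum`: for `0 ≤ t`, `(d^2) t ≤ 1/2` and a finite family of connected sets containing `v` with at least `m ≥ 1`... elements:
`∑ t^|X| ≤ ∑_{n ≥ m} (d^2 t)^n ≤ 2 (d^2 t)^m` (`geom_sum`, group by the cardinality, `Finset.sum_fiberwise`).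
-/

set_option autoImplicit false

namespace Pool.Agent.H78.DB

/-- The walks with `k` steps from `v`. -/
private def cnt_wk {V : Type} [DecidableEq V] (N : V → Finset V) : ℕ → V → Finset (List V)
  | 0, v => {[v]}
  | k + 1, v => (N v).biUnion fun u => (cnt_wk N k u).image (fun L => v :: L)

private theorem cnt_wk_card {V : Type} [DecidableEq V] (N : V → Finset V) (d : ℕ)
    (hN : ∀ v, (N v).card ≤ d) (k : ℕ) : ∀ v, (cnt_wk N k v).card ≤ d ^ k := by
  induction k with
  | zero => intro v; simp [cnt_wk]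
  | succ k ih =>
    intro v
    have h1 : (cnt_wk N (k + 1) v).card ≤ (N v).card * d ^ k :=
      Finset.card_biUnion_le_card_mul _ _ _ fun u _ => Finset.card_image_le.trans (ih u)
    calc (cnt_wk N (k + 1) v).card ≤ (N v).card * d ^ k := h1
      _ ≤ d * d ^ k := Nat.mul_le_mul_right _ (hN v)
      _ = d ^ (k + 1) := by rw [pow_succ, mul_comm]

private theorem cnt_wk_mem {V : Type} [DecidableEq V] (N : V → Finset V) :
    ∀ (L : List V) (v : V), List.IsChain (fun a b => b ∈ N a) (v :: L) →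
      v :: L ∈ cnt_wk N L.length v := by
  intro L
  induction L with
  | nil => intro v _; simp [cnt_wk]
  | cons u L ih =>
    intro v hc
    rw [List.isChain_cons_cons] at hc
    have h2 := ih u hc.2
    simp only [List.length_cons, cnt_wk, Finset.mem_biUnion, Finset.mem_image]
    exact ⟨u, hc.1, u :: L, h2, rfl⟩

/-- The detour. -/
private theorem cnt_detour {V : Type} (r : V → V → Prop) (e f : V) (h1 : r e f) (h2 : r f e)
    (B : List V) : ∀ A : List V, List.IsChain r (A ++ e :: B) →
      List.IsChain r (A ++ e :: f :: e :: B) := by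
  intro A
  induction A with
  | nil =>
    intro h
    rw [List.nil_append] at h ⊢
    exact List.isChain_cons_cons.2 ⟨h1, List.isChain_cons_cons.2 ⟨h2, h⟩⟩
  | cons a A ih =>
    intro h
    cases A with
    | nil =>
      rw [List.cons_append, List.nil_append] at h ⊢
      rw [List.isChain_cons_cons] at h
      exact List.isChain_cons_cons.2 ⟨h.1, by simpa using ih (by simpa using h.2)⟩
    | cons a' A' =>
      rw [List.cons_append, List.cons_append] at h ⊢
      rw [List.isChain_cons_cons] at h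
      exact List.isChain_cons_cons.2 ⟨h.1, by simpa using ih (by simpa using h.2)⟩

private theorem cnt_tour {V : Type} [DecidableEq V] (N : V → Finset V)
    (hs : ∀ a b, b ∈ N a → a ∈ N b) (v : V) (X : Finset V) (hv : v ∈ X)
    (hX : Cn (fun a b => b ∈ N a) (X : Set V)) :
    ∃ L : List V, List.IsChain (fun a b => b ∈ N a) (v :: L) ∧ L.length + 2 = 2 * X.card ∧
      (v :: L).toFinset = X := by
  classical
  let P : Finset V → Prop := fun Y => ∃ L : List V,
    List.IsChain (fun a b => b ∈ N a) (v :: L) ∧ L.length + 2 = 2 * Y.card ∧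
      (v :: L).toFinset = Y
  have hne : (X.powerset.filter P).Nonempty := by
    refine ⟨{v}, ?_⟩
    rw [Finset.mem_filter, Finset.mem_powerset]
    refine ⟨Finset.singleton_subset_iff.2 hv, [], by simp, by simp, by simp⟩
  obtain ⟨Y, hY, hmax⟩ := Finset.exists_max_image (X.powerset.filter P) Finset.card hne
  rw [Finset.mem_filter, Finset.mem_powerset] at hY
  obtain ⟨hYX, L, hc, hl, hL⟩ := hY
  by_cases hYe : Y = X
  · exact ⟨L, hc, by rw [← hYe]; exact hl, by rw [← hYe]; exact hL⟩
  exfalso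
  have hnot : ¬ Isol (fun a b => b ∈ N a) (X : Set V) (Y : Set V) := by
    intro hI
    have hvY : v ∈ Y := by rw [← hL]; simp
    have e := hX (Y : Set V) hI ⟨v, Finset.mem_coe.2 hvY⟩
    exact hYe (Finset.coe_injective e)
  have h2 : ∃ e ∈ Y, ∃ f ∈ X, f ∈ N e ∧ f ∉ Y := by
    by_contra hno
    apply hnot
    refine ⟨fun x hx => Finset.mem_coe.2 (hYX (Finset.mem_coe.1 hx)), ?_⟩
    intro e he f hf hef
    by_contra hfY
    exact hno ⟨e, Finset.mem_coe.1 he, f, Finset.mem_coe.1 hf, hef,
      fun h => hfY (Finset.mem_coe.2 h)⟩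
  obtain ⟨e, he, f, hf, hef, hfY⟩ := h2
  have heL : e ∈ v :: L := by rw [← hL] at he; exact List.mem_toFinset.1 he
  obtain ⟨A, B, hAB⟩ := List.append_of_mem heL
  have hc2 : List.IsChain (fun a b => b ∈ N a) (A ++ e :: f :: e :: B) :=
    cnt_detour _ e f hef (hs e f hef) B A (by rw [← hAB]; exact hc)
  have hhead : ∃ L', A ++ e :: f :: e :: B = v :: L' := by
    cases A with
    | nil =>
      rw [List.nil_append] at hAB ⊢
      have : v = e := by injection hAB
      exact ⟨f :: e :: B, by rw [this]⟩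
    | cons a A' =>
      rw [List.cons_append] at hAB ⊢
      have : v = a := by injection hAB
      exact ⟨A' ++ e :: f :: e :: B, by rw [this]⟩
  obtain ⟨L', hL'⟩ := hhead
  have hset : (v :: L').toFinset = insert f Y := by
    rw [← hL', ← hL, hAB]
    ext x
    simp only [List.mem_toFinset, List.mem_append, List.mem_cons, Finset.mem_insert]
    tauto
  have hlen : L'.length + 2 = 2 * (insert f Y).card := by
    have e1 : (A ++ e :: f :: e :: B).length = L'.length + 1 := by rw [hL']; simp
    have e2 : (A ++ e :: B).length = L.length + 1 := by rw [← hAB]; simp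
    simp only [List.length_append, List.length_cons] at e1 e2
    rw [Finset.card_insert_of_notMem hfY]
    omega
  have hmem : insert f Y ∈ X.powerset.filter P := by
    rw [Finset.mem_filter, Finset.mem_powerset]
    refine ⟨Finset.insert_subset hf hYX, L', by rw [← hL']; exact hc2, hlen, hset⟩
  have h3 := hmax _ hmem
  rw [Finset.card_insert_of_notMem hfY] at h3
  omega

theorem cnt_conn {V : Type} [DecidableEq V] (N : V → Finset V) (d : ℕ) (hd : 1 ≤ d)
    (hN : ∀ v, (N v).card ≤ d) (hs : ∀ a b, b ∈ N a → a ∈ N b) (v : V) (n : ℕ)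
    (𝒜 : Finset (Finset V))
    (h : ∀ X ∈ 𝒜, v ∈ X ∧ X.card = n ∧ Cn (fun a b => b ∈ N a) (X : Set V)) :
    𝒜.card ≤ (d ^ 2) ^ n := by
  classical
  by_cases hn : n = 0
  · subst hn
    have : 𝒜 = ∅ := by
      rw [Finset.eq_empty_iff_forall_notMem]
      intro X hX
      obtain ⟨h1, h2, _⟩ := h X hX
      rw [Finset.card_eq_zero] at h2
      rw [h2] at h1
      exact absurd h1 (Finset.notMem_empty v)
    rw [this]
    simp
  have hsub : 𝒜 ⊆ (cnt_wk N (2 * (n - 1)) v).image List.toFinset := by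
    intro X hX
    obtain ⟨h1, h2, h3⟩ := h X hX
    obtain ⟨L, hc, hl, hL⟩ := cnt_tour N hs v X h1 h3
    have e : L.length = 2 * (n - 1) := by omega
    rw [Finset.mem_image]
    exact ⟨v :: L, by rw [← e]; exact cnt_wk_mem N L v hc, hL⟩
  calc 𝒜.card ≤ ((cnt_wk N (2 * (n - 1)) v).image List.toFinset).card := Finset.card_le_card hsub
    _ ≤ (cnt_wk N (2 * (n - 1)) v).card := Finset.card_image_le
    _ ≤ d ^ (2 * (n - 1)) := cnt_wk_card N d hN _ v
    _ ≤ d ^ (2 * n) := Nat.pow_le_pow_right hd (by omega)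
    _ = (d ^ 2) ^ n := by rw [pow_mul]

theorem cnt_sum {V : Type} [DecidableEq V] (N : V → Finset V) (d : ℕ) (hd : 1 ≤ d)
    (hN : ∀ v, (N v).card ≤ d) (hs : ∀ a b, b ∈ N a → a ∈ N b) (v : V) (m : ℕ) (t : ℝ)
    (ht : 0 ≤ t) (ht2 : (d : ℝ) ^ 2 * t ≤ 1 / 2) (𝒜 : Finset (Finset V))
    (h : ∀ X ∈ 𝒜, v ∈ X ∧ m ≤ X.card ∧ Cn (fun a b => b ∈ N a) (X : Set V)) :
    ∑ X ∈ 𝒜, t ^ X.card ≤ 2 * ((d : ℝ) ^ 2 * t) ^ m := by
  classical
  set q : ℝ := (d : ℝ) ^ 2 * t with hq
  have hq0 : 0 ≤ q := by positivity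
  have hgeo : ∀ k : ℕ, ∑ i ∈ Finset.range k, q ^ i ≤ 2 := by
    intro k
    induction k with
    | zero => simp
    | succ k ih =>
      rw [Finset.sum_range_succ']
      have e : ∑ i ∈ Finset.range k, q ^ (i + 1) = q * ∑ i ∈ Finset.range k, q ^ i := by
        rw [Finset.mul_sum]
        exact Finset.sum_congr rfl fun i _ => by rw [pow_succ, mul_comm]
      rw [e, pow_zero]
      have h0 : 0 ≤ ∑ i ∈ Finset.range k, q ^ i :=
        Finset.sum_nonneg fun i _ => pow_nonneg hq0 i
      nlinarith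
  set M := 𝒜.sup Finset.card with hM
  have hmap : ∀ X ∈ 𝒜, X.card ∈ Finset.Ico m (M + 1) := by
    intro X hX
    rw [Finset.mem_Ico]
    exact ⟨(h X hX).2.1, Nat.lt_succ_of_le (Finset.le_sup (f := Finset.card) hX)⟩
  rw [← Finset.sum_fiberwise_of_maps_to hmap]
  have hin : ∀ n ∈ Finset.Ico m (M + 1),
      ∑ X ∈ 𝒜 with X.card = n, t ^ X.card ≤ q ^ n := by
    intro n _
    have e : ∑ X ∈ 𝒜 with X.card = n, t ^ X.card = ((𝒜.filter fun X => X.card = n).card : ℝ) * t ^ n := by
      rw [← nsmul_eq_mul]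
      refine Finset.sum_eq_card_nsmul ?_
      intro X hX
      rw [(Finset.mem_filter.1 hX).2]
    rw [e]
    have h1 : (𝒜.filter fun X => X.card = n).card ≤ (d ^ 2) ^ n := by
      refine cnt_conn N d hd hN hs v n _ ?_
      intro X hX
      obtain ⟨hX1, hX2⟩ := Finset.mem_filter.1 hX
      exact ⟨(h X hX1).1, hX2, (h X hX1).2.2⟩
    have h2 : ((𝒜.filter fun X => X.card = n).card : ℝ) ≤ ((d : ℝ) ^ 2) ^ n := by
      exact_mod_cast h1
    calc ((𝒜.filter fun X => X.card = n).card : ℝ) * t ^ n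
        ≤ ((d : ℝ) ^ 2) ^ n * t ^ n := mul_le_mul_of_nonneg_right h2 (pow_nonneg ht n)
      _ = q ^ n := by rw [hq, mul_pow]
  refine (Finset.sum_le_sum hin).trans ?_
  rw [Finset.sum_Ico_eq_sum_range]
  have e : ∑ i ∈ Finset.range (M + 1 - m), q ^ (m + i)
      = q ^ m * ∑ i ∈ Finset.range (M + 1 - m), q ^ i := by
    rw [Finset.mul_sum]
    exact Finset.sum_congr rfl fun i _ => by rw [pow_add]
  rw [e, mul_comm 2]
  exact mul_le_mul_of_nonneg_left (hgeo _) (pow_nonneg hq0 m)

end Pool.Agent.H78.DB
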