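import Pool.Agent.H78.DB.GwS
import Pool.Agent.H78.DB.Cnt

/-!
# Module GwB: bound of the decorated weights

Let `ω = τ / κ`, so `7200 ω ≤ 1`. `near_sum`: `∑_{Q ∈ QR R, a ∈ NQ Q} ω^|Q| ≤ 450 ω`: `a ∈ NQ Q` means that `Q` contains one of the 9
columns `b` near `a`; for each `b`: `∑_{Q ∋ b connected} ω^|Q| ≤ 2 * 25 ω` (`cnt_sum` with the 5 columns `nb2` to a given one: `d = 5`, `m = 1`).
`gw_nonneg`: `fQ_nonneg`. `gw_le`: `exp (-∑ mE tR) ≤ 1`. For the families `𝒬 ⊆ QR R` with `irr Δ ∪ ⋃𝒬 = S`: all `Q ∈ 𝒬` are in `QR R`, `⊆ S`, and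
`|S \ irr Δ| ≤ ∑_{Q ∈ 𝒬} |Q|`, so `∏ fQ ≤ κ^|S \ irr Δ| ∏_{Q ∈ 𝒬} κ^{-|Q|} fQ`; sum over all `𝒬 ⊆ QR R`:
`≤ κ^|S \ irr Δ| ∏_{Q ∈ QR R} (1 + κ^{-|Q|} fQ) ≤ κ^|S \ irr Δ| exp (∑_Q 2 ω^|Q| mQ Δ Q)`, by `fQ ≤ exp (2 τ^|Q| mQ) - 1` (`fQ_le`) and
`1 + y (exp u - 1) ≤ exp (y u)` for `y ≥ 1`, `u ≥ 0` (`one_add_mul_self_le_rpow_one_add`/Bernoulli, or convexity: `(exp u)^y ≥ 1 + y (exp u - 1)`).
`∑_Q ω^|Q| mQ Δ Q = ∑_{a ∈ irr Δ} mE Δ a ∑_{Q : a ∈ NQ Q} ω^|Q|` (`mQ_sum` with `τ = ω`) `≤ 450 ω * 4 en Δ` (`msum_le`), so the exponent is at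
most `3600 ω en Δ ≤ en Δ / 2` and the exponential at most `2^(en Δ)` (`exp (1/2) ≤ 2`). `r^en q^nn ≤ (r q)^en` (`nn_le`, `1 ≤ q`).
-/

set_option autoImplicit false

namespace Pool.Agent.H78.DB

open Pool.Agent.H72.DJ

variable {Φ : Finset Edge → ℝ} {r q τ κ ν : ℝ}

/-- the columns equal or next to `a` -/
private def GwB_N (a : Col) : Finset Col :=
  {a, (a.1 + 1, a.2), (a.1 - 1, a.2), (a.1, a.2 + 1), (a.1, a.2 - 1)}

private theorem GwB_mem (a b : Col) : b ∈ GwB_N a ↔ nb2 a b := by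
  obtain ⟨a1, a2⟩ := a
  obtain ⟨b1, b2⟩ := b
  unfold GwB_N nb2
  simp only [Finset.mem_insert, Finset.mem_singleton, Prod.mk.injEq]
  constructor
  · intro h
    rcases h with ⟨rfl, rfl⟩ | ⟨rfl, rfl⟩ | ⟨rfl, rfl⟩ | ⟨rfl, rfl⟩ | ⟨rfl, rfl⟩ <;> simp
  · intro h
    have h1 := abs_le.1 (show |a1 - b1| ≤ 1 - |a2 - b2| by linarith)
    have h3 := abs_nonneg (a1 - b1)
    have h4 := abs_nonneg (a2 - b2)
    rcases abs_cases (a1 - b1) with h5 | h5 <;> rcases abs_cases (a2 - b2) with h6 | h6 <;> omega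

private theorem GwB_card (a : Col) : (GwB_N a).card ≤ 5 := Finset.card_le_five

private theorem GwB_bi {α β : Type} [DecidableEq β] (B : Finset α) (G : α → Finset β) (f : β → ℝ)
    (hf : ∀ x, 0 ≤ f x) : ∑ x ∈ B.biUnion G, f x ≤ ∑ b ∈ B, ∑ x ∈ G b, f x := by
  classical
  induction B using Finset.induction_on with
  | empty => simp
  | insert b B hb ih =>
    rw [Finset.biUnion_insert, Finset.sum_insert hb]
    have h1 : ∑ x ∈ G b ∪ B.biUnion G, f x + ∑ x ∈ G b ∩ B.biUnion G, f x =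
        ∑ x ∈ G b, f x + ∑ x ∈ B.biUnion G, f x := Finset.sum_union_inter
    have h2 : 0 ≤ ∑ x ∈ G b ∩ B.biUnion G, f x := Finset.sum_nonneg fun x _ => hf x
    linarith

theorem near_sum {ω : ℝ} (h0 : 0 ≤ ω) (h1 : 50 * ω ≤ 1) (R : Finset Col) (a : Col) :
    tR ω R a ≤ 450 * ω := by
  classical
  obtain ⟨B, hB⟩ : ∃ B : Finset Col, B = Finset.Icc (a.1 - 1) (a.1 + 1) ×ˢ
    Finset.Icc (a.2 - 1) (a.2 + 1) := ⟨_, rfl⟩
  have hBc : B.card = 9 := by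
    rw [hB, Finset.card_product, Int.card_Icc, Int.card_Icc]
    have e1 : a.1 + 1 + 1 - (a.1 - 1) = 3 := by ring
    have e2 : a.2 + 1 + 1 - (a.2 - 1) = 3 := by ring
    rw [e1, e2]
    rfl
  have hsub : (QR R).filter (fun Q => a ∈ NQ Q) ⊆
      B.biUnion fun b => (QR R).filter fun Q => b ∈ Q := by
    intro Q hQ
    rw [Finset.mem_filter] at hQ
    obtain ⟨hQ1, hQ2⟩ := hQ
    unfold NQ at hQ2
    rw [Finset.mem_biUnion] at hQ2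
    obtain ⟨b, hb, hab⟩ := hQ2
    rw [Finset.mem_biUnion]
    refine ⟨b, ?_, Finset.mem_filter.2 ⟨hQ1, hb⟩⟩
    rw [Finset.mem_product, Finset.mem_Icc, Finset.mem_Icc] at hab
    rw [hB, Finset.mem_product, Finset.mem_Icc, Finset.mem_Icc]
    obtain ⟨⟨h1, h2⟩, h3, h4⟩ := hab
    refine ⟨⟨?_, ?_⟩, ?_, ?_⟩ <;> omega
  have hone : ∀ b ∈ B, ∑ Q ∈ (QR R).filter (fun Q => b ∈ Q), ω ^ Q.card ≤ 50 * ω := by
    intro b _
    have h := cnt_sum GwB_N 5 (by norm_num) GwB_card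
      (fun x y hxy => (GwB_mem y x).2 (by
        have h2 := (GwB_mem x y).1 hxy
        unfold nb2 at h2 ⊢
        rw [abs_sub_comm y.1, abs_sub_comm y.2]
        exact h2)) b 1 ω h0 (by push_cast; linarith)
      ((QR R).filter fun Q => b ∈ Q) (fun X hX => by
        rw [Finset.mem_filter] at hX
        obtain ⟨hX1, hX2⟩ := hX
        unfold QR at hX1
        rw [Finset.mem_filter] at hX1
        refine ⟨hX2, Finset.card_pos.2 hX1.2.1, ?_⟩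
        have e : (fun x y : Col => y ∈ GwB_N x) = nb2 := by
          funext x y
          exact propext (GwB_mem x y)
        rw [e]
        exact hX1.2.2)
    refine h.trans (le_of_eq ?_)
    push_cast
    ring
  unfold tR
  calc ∑ Q ∈ (QR R).filter (fun Q => a ∈ NQ Q), ω ^ Q.card
      ≤ ∑ Q ∈ B.biUnion (fun b => (QR R).filter fun Q => b ∈ Q), ω ^ Q.card :=
        Finset.sum_le_sum_of_subset_of_nonneg hsub fun Q _ _ => pow_nonneg h0 _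
    _ ≤ ∑ b ∈ B, ∑ Q ∈ (QR R).filter (fun Q => b ∈ Q), ω ^ Q.card :=
        GwB_bi B _ _ fun Q => pow_nonneg h0 _
    _ ≤ ∑ _b ∈ B, 50 * ω := Finset.sum_le_sum hone
    _ = 450 * ω := by
        rw [Finset.sum_const, hBc]
        simp only [nsmul_eq_mul]
        push_cast
        ring

private theorem GwB_QR {R Q : Finset Col} (hQ : Q ∈ QR R) : Q.Nonempty ∧ Cn nb2 (Q : Set Col) := by
  classical
  unfold QR at hQ
  exact (Finset.mem_filter.1 hQ).2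

private theorem GwB_ν (hP : Par Φ r q τ κ ν) : ν ≤ 1 := by
  have h1 := hP.ντ
  have h2 := hP.τκ
  have h3 := hP.κ1
  linarith

private theorem GwB_f0 (hP : Par Φ r q τ κ ν) (L : ℕ) (R : Finset Col) {Δ : Set Edge} (h : PI Δ)
    {Q : Finset Col} (hQ : Q ∈ QR R) : 0 ≤ fQ Φ τ L Q Δ := by
  have hQ' := GwB_QR hQ
  exact fQ_nonneg hP.bulk hP.ν0 (GwB_ν hP) hP.ντ h L hQ'.1 hQ'.2

theorem gw_nonneg (hP : Par Φ r q τ κ ν) (L : ℕ) (R : Finset Col) {Δ : Set Edge} (h : PI Δ)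
    (S : Finset Col) : 0 ≤ gw Φ r q τ L R Δ S := by
  have h0 := hP.r0
  have hq := hP.q1
  unfold gw
  refine mul_nonneg (mul_nonneg (mul_nonneg (pow_nonneg h0.le _) (pow_nonneg (by linarith) _))
    (Real.exp_pos _).le) (Finset.sum_nonneg fun 𝒬 h𝒬 => Finset.prod_nonneg fun Q hQ => ?_)
  rw [Finset.mem_filter, Finset.mem_powerset] at h𝒬
  exact GwB_f0 hP L R h (h𝒬.1 hQ)

private theorem GwB_exp {y u : ℝ} (hy : 1 ≤ y) : 1 + y * (Real.exp u - 1) ≤ Real.exp (y * u) := by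
  have h1 := one_add_mul_self_le_rpow_one_add (s := Real.exp u - 1)
    (by have := Real.exp_pos u; linarith) hy
  rw [show 1 + (Real.exp u - 1) = Real.exp u by ring, ← Real.exp_mul, mul_comm u y] at h1
  exact h1

private theorem GwB_half (n : ℕ) {x : ℝ} (hx : x ≤ (n : ℝ) * (1 / 2)) :
    Real.exp x ≤ 2 ^ n := by
  have h1 : Real.exp (1 / 2) ≤ 2 := by
    have h2 : Real.exp (1 / 2) * Real.exp (1 / 2) = Real.exp 1 := by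
      rw [← Real.exp_add]
      norm_num
    have h3 := Real.exp_one_lt_d9
    have h4 := Real.exp_pos (1 / 2 : ℝ)
    nlinarith
  calc Real.exp x ≤ Real.exp ((n : ℝ) * (1 / 2)) := Real.exp_le_exp.2 hx
    _ = Real.exp (1 / 2) ^ n := Real.exp_nat_mul _ _
    _ ≤ 2 ^ n := pow_le_pow_left₀ (Real.exp_pos _).le h1 n

private theorem GwB_prod (hP : Par Φ r q τ κ ν) (L : ℕ) (R : Finset Col) {Δ : Set Edge} (h : PI Δ) :
    ∏ Q ∈ QR R, (1 + (κ⁻¹) ^ Q.card * fQ Φ τ L Q Δ) ≤ 2 ^ en Δ := by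
  have hτ0 := hP.τ0
  have hτκ := hP.τκ
  have hκ0 : 0 < κ := by linarith
  have hκ1 : κ ≤ 1 := by have := hP.κ1; linarith
  have hω0 : 0 ≤ τ / κ := by positivity
  have hω : 7200 * (τ / κ) ≤ 1 := by
    rw [← mul_div_assoc, div_le_one hκ0]
    exact hτκ
  have h1 : ∀ Q ∈ QR R, 1 + (κ⁻¹) ^ Q.card * fQ Φ τ L Q Δ ≤
      Real.exp (2 * ((τ / κ) ^ Q.card * (mQ Δ Q : ℝ))) := by
    intro Q hQ
    have hQ' := GwB_QR hQ
    have h2 := fQ_le hP.bulk hP.ν0 (GwB_ν hP) hP.ντ h L hQ'.1 hQ'.2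
    have hy : 1 ≤ (κ⁻¹) ^ Q.card := one_le_pow₀ ((one_le_inv₀ hκ0).2 hκ1)
    have h3 : (κ⁻¹) ^ Q.card * fQ Φ τ L Q Δ ≤
        (κ⁻¹) ^ Q.card * (Real.exp (2 * (τ ^ Q.card * (mQ Δ Q : ℝ))) - 1) :=
      mul_le_mul_of_nonneg_left h2 (by positivity)
    have h4 := GwB_exp (u := 2 * (τ ^ Q.card * (mQ Δ Q : ℝ))) hy
    have h5 : (κ⁻¹) ^ Q.card * (2 * (τ ^ Q.card * (mQ Δ Q : ℝ))) =
        2 * ((τ / κ) ^ Q.card * (mQ Δ Q : ℝ)) := by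
      rw [div_pow, inv_pow]
      ring
    rw [h5] at h4
    linarith
  have h2 : ∏ Q ∈ QR R, (1 + (κ⁻¹) ^ Q.card * fQ Φ τ L Q Δ) ≤
      ∏ Q ∈ QR R, Real.exp (2 * ((τ / κ) ^ Q.card * (mQ Δ Q : ℝ))) := by
    refine Finset.prod_le_prod (fun Q hQ => ?_) h1
    have h3 := GwB_f0 hP L R h hQ
    have h4 : 0 ≤ (κ⁻¹) ^ Q.card * fQ Φ τ L Q Δ := mul_nonneg (by positivity) h3
    linarith
  refine h2.trans ?_
  rw [← Real.exp_sum, ← Finset.mul_sum, mQ_sum]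
  refine GwB_half _ ?_
  have h6 : ∑ a ∈ irr Δ, (mE Δ a : ℝ) * tR (τ / κ) R a ≤
      ∑ a ∈ irr Δ, (mE Δ a : ℝ) * (450 * (τ / κ)) :=
    Finset.sum_le_sum fun a _ => mul_le_mul_of_nonneg_left
      (near_sum hω0 (by linarith) R a) (Nat.cast_nonneg _)
  rw [← Finset.sum_mul] at h6
  have h7 : (∑ a ∈ irr Δ, (mE Δ a : ℝ)) ≤ 4 * (en Δ : ℝ) := by exact_mod_cast msum_le h
  have h8 : (∑ a ∈ irr Δ, (mE Δ a : ℝ)) * (450 * (τ / κ)) ≤ 4 * (en Δ : ℝ) * (450 * (τ / κ)) :=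
    mul_le_mul_of_nonneg_right h7 (by positivity)
  have h9 : (en Δ : ℝ) * (7200 * (τ / κ)) ≤ (en Δ : ℝ) * 1 :=
    mul_le_mul_of_nonneg_left hω (Nat.cast_nonneg _)
  linarith

private theorem GwB_sum (hP : Par Φ r q τ κ ν) (L : ℕ) (R : Finset Col) {Δ : Set Edge} (h : PI Δ)
    (S : Finset Col) (F : Finset (Finset (Finset Col))) (hF : F ⊆ (QR R).powerset)
    (hFS : ∀ 𝒬 ∈ F, irr Δ ∪ 𝒬.biUnion id = S) :
    ∑ 𝒬 ∈ F, ∏ Q ∈ 𝒬, fQ Φ τ L Q Δ ≤ κ ^ (S \ irr Δ).card * 2 ^ en Δ := by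
  have hτ0 := hP.τ0
  have hτκ := hP.τκ
  have hκ0 : 0 < κ := by linarith
  have hκ1 : κ ≤ 1 := by have := hP.κ1; linarith
  have h1 : ∀ 𝒬 ∈ F, ∏ Q ∈ 𝒬, fQ Φ τ L Q Δ ≤
      κ ^ (S \ irr Δ).card * ∏ Q ∈ 𝒬, ((κ⁻¹) ^ Q.card * fQ Φ τ L Q Δ) := by
    intro 𝒬 h𝒬
    have hsub := Finset.mem_powerset.1 (hF h𝒬)
    have hp : 0 ≤ ∏ Q ∈ 𝒬, fQ Φ τ L Q Δ := Finset.prod_nonneg fun Q hQ => GwB_f0 hP L R h (hsub hQ)
    rw [Finset.prod_mul_distrib, Finset.prod_pow_eq_pow_sum, ← mul_assoc]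
    have hc : (S \ irr Δ).card ≤ ∑ Q ∈ 𝒬, Q.card := by
      have e1 : S \ irr Δ ⊆ 𝒬.biUnion id := by
        intro a ha
        rw [Finset.mem_sdiff, ← hFS 𝒬 h𝒬, Finset.mem_union] at ha
        exact ha.1.resolve_left ha.2
      exact (Finset.card_le_card e1).trans Finset.card_biUnion_le
    have h2 : κ ^ (∑ Q ∈ 𝒬, Q.card) ≤ κ ^ (S \ irr Δ).card :=
      pow_le_pow_of_le_one hκ0.le hκ1 hc
    have h3 : 1 ≤ κ ^ (S \ irr Δ).card * κ⁻¹ ^ (∑ Q ∈ 𝒬, Q.card) := by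
      rw [inv_pow, ← div_eq_mul_inv, one_le_div (by positivity)]
      exact h2
    calc ∏ Q ∈ 𝒬, fQ Φ τ L Q Δ = 1 * ∏ Q ∈ 𝒬, fQ Φ τ L Q Δ := (one_mul _).symm
      _ ≤ _ := mul_le_mul_of_nonneg_right h3 hp
  calc ∑ 𝒬 ∈ F, ∏ Q ∈ 𝒬, fQ Φ τ L Q Δ
      ≤ ∑ 𝒬 ∈ F, κ ^ (S \ irr Δ).card * ∏ Q ∈ 𝒬, ((κ⁻¹) ^ Q.card * fQ Φ τ L Q Δ) :=
        Finset.sum_le_sum h1
    _ = κ ^ (S \ irr Δ).card * ∑ 𝒬 ∈ F, ∏ Q ∈ 𝒬, ((κ⁻¹) ^ Q.card * fQ Φ τ L Q Δ) :=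
        (Finset.mul_sum _ _ _).symm
    _ ≤ κ ^ (S \ irr Δ).card *
        ∑ 𝒬 ∈ (QR R).powerset, ∏ Q ∈ 𝒬, ((κ⁻¹) ^ Q.card * fQ Φ τ L Q Δ) := by
        refine mul_le_mul_of_nonneg_left (Finset.sum_le_sum_of_subset_of_nonneg hF
          fun 𝒬 h𝒬 _ => Finset.prod_nonneg fun Q hQ => ?_) (by positivity)
        exact mul_nonneg (by positivity) (GwB_f0 hP L R h (Finset.mem_powerset.1 h𝒬 hQ))
    _ = κ ^ (S \ irr Δ).card * ∏ Q ∈ QR R, (1 + (κ⁻¹) ^ Q.card * fQ Φ τ L Q Δ) := by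
        rw [Finset.prod_one_add]
    _ ≤ κ ^ (S \ irr Δ).card * 2 ^ en Δ :=
        mul_le_mul_of_nonneg_left (GwB_prod hP L R h) (by positivity)

theorem gw_le (hP : Par Φ r q τ κ ν) (L : ℕ) (R : Finset Col) {Δ : Set Edge} (h : PI Δ)
    (S : Finset Col) : gw Φ r q τ L R Δ S ≤ κ ^ (S \ irr Δ).card * (2 * (r * q)) ^ en Δ := by
  have hr := hP.r0
  have hq := hP.q1
  have hτ0 := hP.τ0
  have hτκ := hP.τκ
  have hκ0 : 0 < κ := by linarith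
  unfold gw
  have h1 := GwB_sum hP L R h S _ (Finset.filter_subset _ _)
    (fun 𝒬 h𝒬 => (Finset.mem_filter.1 h𝒬).2)
  have h2 : Real.exp (-∑ a ∈ irr Δ, (mE Δ a : ℝ) * tR τ R a) ≤ 1 := by
    rw [Real.exp_le_one_iff]
    have : 0 ≤ ∑ a ∈ irr Δ, (mE Δ a : ℝ) * tR τ R a :=
      Finset.sum_nonneg fun a _ => mul_nonneg (Nat.cast_nonneg _)
        (Finset.sum_nonneg fun Q _ => pow_nonneg hτ0.le _)
    linarith
  have h3 : q ^ nn Δ ≤ q ^ en Δ := pow_le_pow_right₀ hq (nn_le h)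
  have h4 : r ^ en Δ * q ^ nn Δ ≤ (r * q) ^ en Δ := by
    rw [mul_pow]
    exact mul_le_mul_of_nonneg_left h3 (by positivity)
  have h5 : r ^ en Δ * q ^ nn Δ * Real.exp (-∑ a ∈ irr Δ, (mE Δ a : ℝ) * tR τ R a) ≤
      (r * q) ^ en Δ * 1 :=
    mul_le_mul h4 h2 (Real.exp_pos _).le (by positivity)
  have h6 : 0 ≤ r ^ en Δ * q ^ nn Δ * Real.exp (-∑ a ∈ irr Δ, (mE Δ a : ℝ) * tR τ R a) := by
    positivity
  calc _ ≤ r ^ en Δ * q ^ nn Δ * Real.exp (-∑ a ∈ irr Δ, (mE Δ a : ℝ) * tR τ R a) *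
        (κ ^ (S \ irr Δ).card * 2 ^ en Δ) := mul_le_mul_of_nonneg_left h1 h6
    _ ≤ (r * q) ^ en Δ * 1 * (κ ^ (S \ irr Δ).card * 2 ^ en Δ) :=
        mul_le_mul_of_nonneg_right h5 (by positivity)
    _ = κ ^ (S \ irr Δ).card * (2 * (r * q)) ^ en Δ := by
        rw [mul_pow 2]
        ring

end Pool.Agent.H78.DB
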