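import Pool.Agent.H78.DB.GlA

/-!
# Module GlV: interfaces in a cylinder under gluing

`InV_reg`: if `InV (EL L) Δ` and `a ∉ sqr L`, then `ve a z ∉ EL L`, so `ve a z ∈ Δ ↔ z = 0` and `HH Δ a = 0` (`HH_eq`). If
`a ∉ sqr (L+1)`, every edge with `a` in its base is not in `EL L` (its base columns are at distance at most one from `a`), so `a` is
regular: `irr Δ ⊆ sqr (L+1)`.
`InV_of`: if `PI Δ` and `irr Δ ⊆ sqr L` then `InV (EL L) Δ`: `e ∉ EL L`: all base columns are outside `sqr L`, regular, with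
`HH = 0` (`zero_of_sqr`, `HH_Fl`, `HH_fin`), `reg_iff`.
`Gl.inV` (←): let `e ∉ EL L`, so its base columns are not in `sqr L`, and `HH Δ₁ = HH Δ₂ = 0` there (`InV_reg`); `e` does not touch
`S₂` or not `S₁`; say not `S₂`: `e ∈ Δ ↔ sh 0 e ∈ Δ₁ ↔ e ∈ PP`.
(→): `HH Δ = 0` outside `sqr L`. For `nb2 a b` with `a, b ∉ sqr L`: `a, b ∉ S₁` or `a, b ∉ S₂`. In the first case
`HH Δ₁ a = HH Δ₁ b`; in the second `HH Δ₂ a = HH Δ₂ b` and, as `HH Δ a = HH Δ b = 0 = HH Δ₁ + HH Δ₂` (`Gl.HH_eq`), again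
`HH Δ₁ a = HH Δ₁ b`. So `HH Δ₁` is `Fl (sqr L)`, hence zero outside `sqr L` (`zero_of_sqr` with `S = sqr L`); the same for `HH Δ₂`.
Let `e ∉ EL L`: if `e` does not touch `S₂`: `e ∈ Δ₁ ↔ e ∈ Δ` (`g1`, shift `0`) `↔ e ∈ PP`. If `e` touches `S₂`, it does not touch `S₁`, its
base columns are regular for `Δ₁` with height `0`, `reg_iff`: `e ∈ Δ₁ ↔ e = ve a 0 ↔ e ∈ PP`. The same for `Δ₂`.
-/

set_option autoImplicit false

namespace Pool.Agent.H78.DB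

open Pool.Agent.H72.DJ

variable {S₁ S₂ : Finset Col} {Δ Δ₁ Δ₂ : Set Edge}

private theorem GlV_PP {e : Edge} {a : Col} (ha : a ∈ bs e) : e ∈ PP ↔ e = ve a 0 := by
  constructor
  · rintro ⟨h1, h2⟩
    have h3 := eq_ve h1 ha
    rw [h3, ← h2]
  · rintro rfl
    exact ⟨rfl, rfl⟩

private theorem GlV_ve {L : ℕ} {a : Col} (ha : a ∉ sqr L) (z : ℤ) : ve a z ∉ EL L := by
  rintro ⟨b, hb, hb'⟩
  rw [bs_ve, Finset.mem_singleton] at hb
  rw [hb] at hb'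
  exact ha hb'

private theorem GlV_sqr {L : ℕ} {a b : Col} (hab : nb2 a b) (hb : b ∈ sqr L) : a ∈ sqr (L + 1) := by
  have h := nb2_near hab
  unfold near at h
  rw [abs_le, abs_le] at h
  unfold sqr at hb ⊢
  rw [Finset.mem_product, Finset.mem_Icc, Finset.mem_Icc] at hb ⊢
  push_cast
  obtain ⟨⟨h1, h2⟩, h3, h4⟩ := h
  obtain ⟨⟨h5, h6⟩, h7, h8⟩ := hb
  refine ⟨⟨?_, ?_⟩, ?_, ?_⟩ <;> linarith

theorem InV_HH {L : ℕ} (h : PI Δ) (hV : InV (EL L) Δ) {a : Col} (ha : a ∉ sqr L) : HH Δ a = 0 := by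
  have h1 : ∀ z, ve a z ∈ Δ ↔ z = 0 := by
    intro z
    rw [hV _ (GlV_ve ha z)]
    constructor
    · intro h2
      exact h2.2
    · rintro rfl
      exact ⟨rfl, rfl⟩
  refine HH_eq ((h1 0).2 rfl) fun z hz => ?_
  rw [(h1 z).1 hz]

theorem InV_irr {L : ℕ} (h : PI Δ) (hV : InV (EL L) Δ) : irr Δ ⊆ sqr (L + 1) := by
  intro a ha
  by_contra hn
  have h1 : ∀ e, a ∈ bs e → (e ∈ Δ ↔ e = ve a 0) := by
    intro e he
    rw [← GlV_PP he]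
    apply hV
    rintro ⟨b, hb, hb'⟩
    exact hn (GlV_sqr (bs_nb2 he hb) hb')
  refine (mem_irr h).1 ha (reg_of (s := 0) (fun z => ?_) fun e he hae => ?_).1
  · rw [h1 (ve a z) (by rw [bs_ve]; exact Finset.mem_singleton_self a)]
    constructor
    · intro h2
      exact ve_inj a h2
    · rintro rfl
      rfl
  · rw [(h1 e hae).1 he]
    rfl

theorem InV_of {L : ℕ} (h : PI Δ) (hi : irr Δ ⊆ sqr L) : InV (EL L) Δ := by
  intro e he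
  have h1 : pr e.1 ∉ sqr L := fun h2 => he ⟨_, pr_mem_bs e, h2⟩
  rw [reg_iff h (fun h2 => h1 (hi h2)) (pr_mem_bs e), GlV_PP (pr_mem_bs e),
    zero_of_sqr (HH_Fl h) (HH_fin h) hi h1]

private theorem GlV_bwd (h : Gl S₁ S₂ Δ Δ₁ Δ₂) {L : ℕ} (h2 : InV (EL L) Δ₁)
    (h3 : InV (EL L) Δ₂) {e : Edge} (he : e ∉ EL L) (hT : ¬ To S₂ e) : e ∈ Δ ↔ e ∈ PP := by
  have h1 : pr e.1 ∉ sqr L := fun h4 => he ⟨_, pr_mem_bs e, h4⟩
  rw [h.g1 e hT, InV_HH h.pi2 h3 h1, neg_zero, sh_zero]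
  exact h2 e he

private theorem GlV_fl (h : Gl S₁ S₂ Δ Δ₁ Δ₂) {L : ℕ} (hV : InV (EL L) Δ) {a : Col}
    (ha : a ∉ sqr L) : HH Δ₁ a = 0 := by
  have h1 : Fl (sqr L) (HH Δ₁) := by
    intro a b hab ha hb
    by_cases h2 : a ∈ S₁ ∨ b ∈ S₁
    · have h3 : a ∉ S₂ ∧ b ∉ S₂ := by
        rcases h2 with h2 | h2
        · exact ⟨fun h3 => h.sp a h2 a h3 (near_self a), fun h3 => h.sp a h2 b h3 (nb2_near hab)⟩
        · exact ⟨fun h3 => h.sp b h2 a h3 (near_symm (nb2_near hab)),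
            fun h3 => h.sp b h2 b h3 (near_self b)⟩
      have e1 := (HH_Fl h.pi2).mono h.i2 a b hab h3.1 h3.2
      have e2 := h.HH_eq a
      have e3 := h.HH_eq b
      rw [InV_HH h.pi hV ha] at e2
      rw [InV_HH h.pi hV hb] at e3
      omega
    · rw [not_or] at h2
      exact (HH_Fl h.pi1).mono h.i1 a b hab h2.1 h2.2
  exact zero_of_sqr h1 (HH_fin h.pi1) (Finset.Subset.refl _) ha

private theorem GlV_fwd (h : Gl S₁ S₂ Δ Δ₁ Δ₂) {L : ℕ} (hV : InV (EL L) Δ) : InV (EL L) Δ₁ := by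
  intro e he
  have h1 : pr e.1 ∉ sqr L := fun h4 => he ⟨_, pr_mem_bs e, h4⟩
  have z1 := GlV_fl h hV h1
  have z2 : HH Δ₂ (pr e.1) = 0 := GlV_fl h.symm hV h1
  by_cases hT : To S₂ e
  · have hT1 : ¬ To S₁ e := by
      rcases To_case h.sp e with h3 | h3
      · exact h3
      · exact absurd hT h3
    have h4 : pr e.1 ∉ irr Δ₁ := fun h5 => hT1 ⟨_, pr_mem_bs e, h.i1 h5⟩
    rw [reg_iff h.pi1 h4 (pr_mem_bs e), z1, GlV_PP (pr_mem_bs e)]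
  · have h3 := h.g1 e hT
    rw [z2, neg_zero, sh_zero] at h3
    rw [← h3]
    exact hV e he

theorem Gl.inV (h : Gl S₁ S₂ Δ Δ₁ Δ₂) (L : ℕ) :
    InV (EL L) Δ ↔ InV (EL L) Δ₁ ∧ InV (EL L) Δ₂ := by
  constructor
  · intro hV
    exact ⟨GlV_fwd h hV, GlV_fwd h.symm hV⟩
  · rintro ⟨h1, h2⟩ e he
    rcases To_case h.sp e with h3 | h3
    · exact GlV_bwd h.symm h2 h1 he h3
    · exact GlV_bwd h h1 h2 he h3

end Pool.Agent.H78.DB
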