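import Pool.Agent.H78.DB.SBd
import Pool.Agent.H78.DB.GlV

/-!
# Module GwI: independence of the volume

`DL_eq`: for `S ⊆ sqr L`, `L ≤ L'`: both sides are `{Δ | Intf Δ ∧ irr Δ ⊆ S}` by `InV_of` (`sqr L ⊆ sqr L'`). `sQ_ind`: for `Q ⊆ sqr L`, `L ≤ L'`, every
`X` with `bU X = Q` is contained in `EL L` and in `EL L'` (each edge of `X` has its base in `Q`). `gw_ind`: all `Q ∈ 𝒬` with
`irr Δ ∪ ⋃𝒬 = S` satisfy `Q ⊆ S ⊆ sqr L`.
-/

set_option autoImplicit false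

namespace Pool.Agent.H78.DB

open Pool.Agent.H72.DJ

private theorem GwI_sqr {L L' : ℕ} (hL : L ≤ L') : sqr L ⊆ sqr L' := by
  intro a ha
  unfold sqr at ha ⊢
  rw [Finset.mem_product, Finset.mem_Icc, Finset.mem_Icc] at ha ⊢
  have h : (L : ℤ) ≤ L' := by exact_mod_cast hL
  obtain ⟨⟨h1, h2⟩, h3, h4⟩ := ha
  refine ⟨⟨?_, ?_⟩, ?_, ?_⟩ <;> linarith

theorem DL_eq {L L' : ℕ} (hL : L ≤ L') {S : Finset Col} (hS : S ⊆ sqr L) : DL L S = DL L' S := by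
  ext Δ
  constructor
  · rintro ⟨h1, _, h3⟩
    exact ⟨h1, InV_of h1.1 ((h3.trans hS).trans (GwI_sqr hL)), h3⟩
  · rintro ⟨h1, _, h3⟩
    exact ⟨h1, InV_of h1.1 (h3.trans hS), h3⟩

private theorem GwI_sub {L : ℕ} {Q : Finset Col} (hQ : Q ⊆ sqr L) {X : Finset Edge}
    (hX : bU X = Q) : (X : Set Edge) ⊆ EL L := by
  intro e he
  refine ⟨pr e.1, pr_mem_bs e, hQ ?_⟩
  rw [← hX]
  exact Finset.mem_biUnion.2 ⟨e, he, pr_mem_bs e⟩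

theorem sQ_ind (Φ : Finset Edge → ℝ) {L L' : ℕ} (hL : L ≤ L') {Q : Finset Col} (hQ : Q ⊆ sqr L)
    (Δ : Set Edge) : sQ Φ L Q Δ = sQ Φ L' Q Δ := by
  unfold sQ
  refine tsum_congr (fun X => ?_)
  by_cases h : bU X = Q
  · rw [if_pos ⟨GwI_sub hQ h, h⟩, if_pos ⟨GwI_sub (hQ.trans (GwI_sqr hL)) h, h⟩]
  · rw [if_neg (fun h' => h h'.2), if_neg (fun h' => h h'.2)]

theorem gw_ind (Φ : Finset Edge → ℝ) (r q τ : ℝ) {L L' : ℕ} (hL : L ≤ L') {S : Finset Col}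
    (hS : S ⊆ sqr L) (R : Finset Col) (Δ : Set Edge) :
    gw Φ r q τ L R Δ S = gw Φ r q τ L' R Δ S := by
  unfold gw
  congr 1
  refine Finset.sum_congr rfl (fun 𝒬 h𝒬 => Finset.prod_congr rfl (fun Q hQ => ?_))
  have h1 := (Finset.mem_filter.1 h𝒬).2
  have h2 : Q ⊆ S := by
    rw [← h1]
    exact (Finset.subset_biUnion_of_mem id hQ).trans Finset.subset_union_right
  unfold fQ
  rw [sQ_ind Φ hL (h2.trans hS)]

end Pool.Agent.H78.DB
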