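import Pool.Agent.H78.DB.GwM
import Pool.Agent.H78.DB.GwI
import Pool.Agent.H78.DB.GwB
import Pool.Agent.H78.DB.CnG
import Pool.Agent.H78.DB.Awy

/-!
# Module APr: the weights of the sets of columns

All `Δ ∈ DL L S` satisfy `PI Δ`. Let `0 ≤ F ≤ C`.
* `aS_le`: `F gw ≤ C gw ≤ C κ^|S \ irr| (2 r q)^en` (`gw_le`), `cnt_S` (`u = κ`, `s = 2 r q ≤ κ^38`): `aS F S ≤ ofReal (C (2κ)^|S|)`; so finite.
* `aS_mono`: `aS F S ≤ ofReal C * aS 1 S` (`ENNReal.ofReal_mul`, `ENNReal.tsum_mul_left`).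
* `aS_empty`: `DL L ∅ = {PP}`; `gw PP ∅ = 1`: `en_PP`, `nn_PP`, `irr_PP`, and the only `𝒬 ⊆ QR R` with `∅ ∪ ⋃𝒬 = ∅` is `∅` (elements of `QR R` are
  non-empty).
* `aS_mul`: `prod_tsum` with `W Δ = ofReal (F Δ * gw Δ (S₁ ∪ S₂))`, `W₁ Δ = ofReal (F Δ * gw Δ S₁)`, `W₂ Δ = ofReal (1 * gw Δ S₂)`: `Gl.gw_eq`,
  `F Δ = F Δ₁` (hypothesis), `ENNReal.ofReal_mul`, `gw_nonneg`.
* `aS_ind`: `DL_eq`, `gw_ind` (`L ≤ L'`).
* `aS_sum`: for `sqr (L+1) ⊆ R`: `∑_{S ⊆ R} aS F S = NL F`: `aS F S = ∑' Δ : DL L R, ofReal (F gw)` (`gw_zero`: the terms with `irr Δ ⊄ S` vanish; `DL L S ⊆ DL L R`),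
  exchange with the finite sum, `gw_sum` (`irr Δ ⊆ sqr (L+1) ⊆ R` by `InV_irr`, so `DL L R = DL L (sqr (L+1))`), `ENNReal.ofReal_sum_of_nonneg`.
-/

set_option autoImplicit false

open scoped ENNReal

namespace Pool.Agent.H78.DB

open Pool.Agent.H72.DJ

variable {Φ : Finset Edge → ℝ} {r q τ κ ν : ℝ}

private theorem aPr_κ (hP : Par Φ r q τ κ ν) : 0 < κ := by
  have h1 := hP.τ0
  have h2 := hP.τκ
  linarith

private theorem aPr_rq (hP : Par Φ r q τ κ ν) : 0 ≤ 2 * (r * q) := by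
  have h1 := hP.r0
  have h2 := hP.q1
  have h3 : 0 ≤ r * q := mul_nonneg h1.le (by linarith)
  linarith

theorem aS_le (hP : Par Φ r q τ κ ν) (L : ℕ) (R : Finset Col) {F : Set Edge → ℝ} {C : ℝ} (hC : 0 ≤ C)
    (hF : ∀ Δ, F Δ ≤ C) (S : Finset Col) :
    aS Φ r q τ L R F S ≤ ENNReal.ofReal (C * (2 * κ) ^ S.card) := by
  have hκ := aPr_κ hP
  have hs := aPr_rq hP
  have hsu : 2 * (r * q) ≤ κ ^ 38 := by
    have h1 := hP.rq
    linarith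
  have hu1 : 512 * κ ≤ 1 := by
    have h1 := hP.κ1
    linarith
  have h1 : aS Φ r q τ L R F S ≤ ENNReal.ofReal C *
      ∑' Δ : DL L S, ENNReal.ofReal (κ ^ (S \ irr (Δ : Set Edge)).card *
        (2 * (r * q)) ^ en (Δ : Set Edge)) := by
    rw [aS, ← ENNReal.tsum_mul_left]
    refine ENNReal.tsum_le_tsum fun Δ => ?_
    rw [← ENNReal.ofReal_mul hC]
    refine ENNReal.ofReal_le_ofReal ?_
    have hPI : PI (Δ : Set Edge) := Δ.2.1.1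
    exact (mul_le_mul_of_nonneg_right (hF _) (gw_nonneg hP L R hPI S)).trans
      (mul_le_mul_of_nonneg_left (gw_le hP L R hPI S) hC)
  refine h1.trans ?_
  rw [ENNReal.ofReal_mul hC]
  exact mul_le_mul' le_rfl (cnt_S hs hsu hκ hu1 L S)

theorem aS_mono (hP : Par Φ r q τ κ ν) (L : ℕ) (R : Finset Col) {F : Set Edge → ℝ} {C : ℝ}
    (hC : 0 ≤ C) (hF : ∀ Δ, F Δ ≤ C) (S : Finset Col) :
    aS Φ r q τ L R F S ≤ ENNReal.ofReal C * aS Φ r q τ L R (fun _ => 1) S := by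
  rw [aS, aS, ← ENNReal.tsum_mul_left]
  refine ENNReal.tsum_le_tsum fun Δ => ?_
  rw [← ENNReal.ofReal_mul hC, one_mul]
  refine ENNReal.ofReal_le_ofReal ?_
  exact mul_le_mul_of_nonneg_right (hF _) (gw_nonneg hP L R Δ.2.1.1 S)

private theorem aPr_gw_empty (Φ : Finset Edge → ℝ) (r q τ : ℝ) (L : ℕ) (R : Finset Col) :
    gw Φ r q τ L R PP ∅ = 1 := by
  classical
  have h1 : ((QR R).powerset.filter fun 𝒬 => irr PP ∪ 𝒬.biUnion id = ∅) = {∅} := by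
    ext 𝒬
    simp only [Finset.mem_filter, Finset.mem_powerset, Finset.mem_singleton]
    constructor
    · rintro ⟨h2, h3⟩
      rw [Finset.union_eq_empty] at h3
      by_contra hne
      obtain ⟨Q, hQ⟩ := Finset.nonempty_iff_ne_empty.2 hne
      have h4 := h2 hQ
      rw [QR, Finset.mem_filter] at h4
      obtain ⟨a, ha⟩ := h4.2.1
      have h5 : a ∈ 𝒬.biUnion id := Finset.mem_biUnion.2 ⟨Q, hQ, ha⟩
      rw [h3.2] at h5
      exact absurd h5 (Finset.notMem_empty a)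
    · rintro rfl
      refine ⟨Finset.empty_subset _, ?_⟩
      rw [irr_PP]
      simp
  rw [gw, h1, Finset.sum_singleton, Finset.prod_empty, irr_PP, en_PP, nn_PP]
  simp

theorem aS_empty (hP : Par Φ r q τ κ ν) (L : ℕ) (R : Finset Col) :
    aS Φ r q τ L R (fun _ => 1) ∅ = 1 := by
  have _ := hP.r0
  have h1 : aS Φ r q τ L R (fun _ => 1) ∅ =
      ∑' Δ : ({PP} : Set (Set Edge)), ENNReal.ofReal (1 * gw Φ r q τ L R (Δ : Set Edge) ∅) := by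
    rw [aS]
    exact tsum_congr_set_coe (fun Δ : Set Edge => ENNReal.ofReal (1 * gw Φ r q τ L R Δ ∅))
      (DL_empty L)
  rw [h1, tsum_singleton PP (fun Δ : Set Edge => ENNReal.ofReal (1 * gw Φ r q τ L R Δ ∅)),
    aPr_gw_empty, mul_one, ENNReal.ofReal_one]

theorem aS_mul (hP : Par Φ r q τ κ ν) (L : ℕ) (R : Finset Col) {F : Set Edge → ℝ}
    (h0 : ∀ Δ, 0 ≤ F Δ) {S₁ S₂ : Finset Col} (hS : Sp S₁ S₂)
    (hF : ∀ Δ Δ₁ Δ₂, Gl S₁ S₂ Δ Δ₁ Δ₂ → F Δ = F Δ₁) :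
    aS Φ r q τ L R F (S₁ ∪ S₂) = aS Φ r q τ L R F S₁ * aS Φ r q τ L R (fun _ => 1) S₂ := by
  rw [aS, aS, aS]
  refine prod_tsum hS L (fun Δ => ENNReal.ofReal (F Δ * gw Φ r q τ L R Δ (S₁ ∪ S₂)))
    (fun Δ => ENNReal.ofReal (F Δ * gw Φ r q τ L R Δ S₁))
    (fun Δ => ENNReal.ofReal (1 * gw Φ r q τ L R Δ S₂)) ?_
  intro Δ Δ₁ Δ₂ h _ _
  rw [← ENNReal.ofReal_mul (mul_nonneg (h0 _) (gw_nonneg hP L R h.pi1 S₁)), hF Δ Δ₁ Δ₂ h,
    h.gw_eq hP.bulk r q τ L R, one_mul, mul_assoc]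

theorem aS_ind (Φ : Finset Edge → ℝ) (r q τ : ℝ) {L L' : ℕ} (hL : L ≤ L') (R : Finset Col)
    (F : Set Edge → ℝ) {S : Finset Col} (hS : S ⊆ sqr L) :
    aS Φ r q τ L R F S = aS Φ r q τ L' R F S := by
  have h1 : aS Φ r q τ L R F S =
      ∑' Δ : DL L S, ENNReal.ofReal (F (Δ : Set Edge) * gw Φ r q τ L' R (Δ : Set Edge) S) := by
    rw [aS]
    refine tsum_congr fun Δ => ?_
    rw [gw_ind Φ r q τ hL hS R]
  rw [h1, aS]
  exact tsum_congr_set_coe (fun Δ : Set Edge => ENNReal.ofReal (F Δ * gw Φ r q τ L' R Δ S))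
    (DL_eq hL hS)

theorem aS_sum (hP : Par Φ r q τ κ ν) (L : ℕ) {R : Finset Col} (hR : sqr (L + 1) ⊆ R)
    {F : Set Edge → ℝ} (h0 : ∀ Δ, 0 ≤ F Δ) :
    ∑ S ∈ R.powerset, aS Φ r q τ L R F S = NL Φ r q L F := by
  classical
  have hD : ∀ S ∈ R.powerset, aS Φ r q τ L R F S =
      ∑' Δ : DL L (sqr (L + 1)), ENNReal.ofReal (F (Δ : Set Edge) * gw Φ r q τ L R Δ S) := by
    intro S hS
    rw [Finset.mem_powerset] at hS
    rw [aS, tsum_subtype (DL L S) (fun Δ : Set Edge => ENNReal.ofReal (F Δ * gw Φ r q τ L R Δ S)),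
      tsum_subtype (DL L (sqr (L + 1)))
        (fun Δ : Set Edge => ENNReal.ofReal (F Δ * gw Φ r q τ L R Δ S))]
    refine tsum_congr fun Δ => ?_
    by_cases h1 : Δ ∈ DL L (sqr (L + 1))
    · rw [Set.indicator_of_mem h1]
      by_cases h2 : Δ ∈ DL L S
      · rw [Set.indicator_of_mem h2]
      · rw [Set.indicator_of_notMem h2]
        have h3 : ¬ irr Δ ⊆ S := fun h => h2 ⟨h1.1, h1.2.1, h⟩
        rw [gw_zero r q τ L R h3, mul_zero, ENNReal.ofReal_zero]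
    · rw [Set.indicator_of_notMem h1, Set.indicator_of_notMem]
      intro h2
      exact h1 ⟨h2.1, h2.2.1, InV_irr h2.1.1 h2.2.1⟩
  rw [Finset.sum_congr rfl hD, ← Summable.tsum_finsetSum (fun _ _ => ENNReal.summable), NL]
  refine tsum_congr fun Δ => ?_
  have hPI : PI (Δ : Set Edge) := Δ.2.1.1
  rw [← ENNReal.ofReal_sum_of_nonneg (fun S _ => mul_nonneg (h0 _) (gw_nonneg hP L R hPI S)),
    ← Finset.mul_sum, gw_sum hP.bulk r q τ L hR hPI (Δ.2.2.2.trans hR)]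

end Pool.Agent.H78.DB
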