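import Pool.Agent.H78.DB.Defs

/-!
# Module AdjE: adjacency of edges

All statements are case checks. `mem_adF`: if `e`, `f` are in `sq x i j`, `i ≠ j`, then with `e = (y, k)`: either `k = i`
and `y = x` or `y = x + unit j`, so the square is `sq y k j` or `sq (y - unit j) k j`; or `k = j` and `y = x` or
`y = x + unit i`, and the square `sq x i j` equals (as a set) `sq y k i` or `sq (y - unit i) k i`
(`sq x i j = sq x j i` as sets). `adF_card`: two directions `j ≠ e.2`, two squares of at most four edges each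
(`Finset.card_biUnion_le`, `Finset.card_insert_le`). `hit_sh` etc. are not here. `fin_cases` on directions and
`Prod.ext_iff`/`omega` are convenient; `unit` is a vector literal (`unit 0 = (1,0,0)`, ...).
-/

set_option autoImplicit false

namespace Pool.Agent.H78.DB

open Pool.Agent.H72.DJ

private theorem AdjE_mem (x : Vtx) (i j : Fin 3) (e : Edge) :
    e ∈ sq x i j ↔ e = (x, i) ∨ e = (x, j) ∨ e = (x + unit i, j) ∨ e = (x + unit j, i) := by
  unfold sq
  simp only [Finset.mem_insert, Finset.mem_singleton]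

private theorem AdjE_comm (x : Vtx) (i j : Fin 3) (e : Edge) : e ∈ sq x i j ↔ e ∈ sq x j i := by
  rw [AdjE_mem, AdjE_mem]
  tauto

private theorem AdjE_sh (s : ℤ) (y : Vtx) (k : Fin 3) (e : Edge) :
    sh s e = ((y.1, y.2.1, y.2.2 + s), k) ↔ e = (y, k) := by
  obtain ⟨⟨a, b, c⟩, l⟩ := e
  obtain ⟨u, v, w⟩ := y
  unfold sh
  simp only [Prod.mk.injEq, add_left_inj]

private theorem AdjE_add (s : ℤ) (x : Vtx) (i : Fin 3) :
    ((x.1, x.2.1, x.2.2 + s) : Vtx) + unit i =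
      ((x + unit i).1, (x + unit i).2.1, (x + unit i).2.2 + s) := by
  refine Prod.ext rfl (Prod.ext rfl ?_)
  change x.2.2 + s + (unit i).2.2 = x.2.2 + (unit i).2.2 + s
  ring

theorem Ad.symm {e f : Edge} (h : Ad e f) : Ad f e := by
  obtain ⟨x, i, j, hij, he, hf⟩ := h
  exact ⟨x, i, j, hij, hf, he⟩

theorem Ad_self (e : Edge) : Ad e e := by
  have h : e.2 ≠ e.2 + 1 := by
    have h1 : ∀ i : Fin 3, i ≠ i + 1 := by decide
    exact h1 _
  have h2 : e ∈ sq e.1 e.2 (e.2 + 1) := (AdjE_mem _ _ _ _).2 (Or.inl rfl)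
  exact ⟨e.1, e.2, e.2 + 1, h, h2, h2⟩

theorem sh_sh (s t : ℤ) (e : Edge) : sh s (sh t e) = sh (s + t) e := by
  unfold sh
  refine Prod.ext (Prod.ext rfl (Prod.ext rfl ?_)) rfl
  change e.1.2.2 + t + s = e.1.2.2 + (s + t)
  ring

theorem sh_zero (e : Edge) : sh 0 e = e := by
  unfold sh
  refine Prod.ext (Prod.ext rfl (Prod.ext rfl ?_)) rfl
  change e.1.2.2 + 0 = e.1.2.2
  ring

theorem sh_inj (s : ℤ) : Function.Injective (sh s) := by
  intro e f h
  have h1 : sh (-s) (sh s e) = sh (-s) (sh s f) := by rw [h]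
  rw [sh_sh, sh_sh, neg_add_cancel, sh_zero, sh_zero] at h1
  exact h1

theorem sh_mem_sq (s : ℤ) (x : Vtx) (i j : Fin 3) (e : Edge) :
    sh s e ∈ sq (x.1, x.2.1, x.2.2 + s) i j ↔ e ∈ sq x i j := by
  rw [AdjE_mem, AdjE_mem, AdjE_add, AdjE_add, AdjE_sh, AdjE_sh, AdjE_sh, AdjE_sh]

theorem Ad_sh (s : ℤ) (e f : Edge) : Ad (sh s e) (sh s f) ↔ Ad e f := by
  constructor
  · rintro ⟨x, i, j, hij, he, hf⟩
    have e1 : x = ((x.1, x.2.1, x.2.2 - s + s) : Vtx) := by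
      refine Prod.ext rfl (Prod.ext rfl ?_)
      change x.2.2 = x.2.2 - s + s
      ring
    rw [e1] at he hf
    exact ⟨(x.1, x.2.1, x.2.2 - s), i, j, hij,
      (sh_mem_sq s (x.1, x.2.1, x.2.2 - s) i j e).1 he,
      (sh_mem_sq s (x.1, x.2.1, x.2.2 - s) i j f).1 hf⟩
  · rintro ⟨x, i, j, hij, he, hf⟩
    exact ⟨(x.1, x.2.1, x.2.2 + s), i, j, hij, (sh_mem_sq s x i j e).2 he,
      (sh_mem_sq s x i j f).2 hf⟩

theorem mem_adF {e f : Edge} : f ∈ adF e ↔ Ad e f := by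
  unfold adF
  rw [Finset.mem_biUnion]
  constructor
  · rintro ⟨j, hj, hf⟩
    have hj' : e.2 ≠ j := (Finset.mem_filter.1 hj).2
    rcases Finset.mem_union.1 hf with hf | hf
    · exact ⟨e.1, e.2, j, hj', (AdjE_mem _ _ _ _).2 (Or.inl rfl), hf⟩
    · refine ⟨e.1 - unit j, e.2, j, hj', (AdjE_mem _ _ _ _).2 (Or.inr (Or.inr (Or.inr ?_))), hf⟩
      rw [sub_add_cancel]
  · rintro ⟨x, i, j, hij, he, hf⟩
    rcases (AdjE_mem _ _ _ _).1 he with rfl | rfl | rfl | rfl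
    · exact ⟨j, Finset.mem_filter.2 ⟨Finset.mem_univ _, hij⟩, Finset.mem_union.2 (Or.inl hf)⟩
    · exact ⟨i, Finset.mem_filter.2 ⟨Finset.mem_univ _, hij.symm⟩,
        Finset.mem_union.2 (Or.inl ((AdjE_comm _ _ _ _).1 hf))⟩
    · refine ⟨i, Finset.mem_filter.2 ⟨Finset.mem_univ _, hij.symm⟩,
        Finset.mem_union.2 (Or.inr ?_)⟩
      change f ∈ sq (x + unit i - unit i) j i
      rw [add_sub_cancel_right]
      exact (AdjE_comm _ _ _ _).1 hf
    · refine ⟨j, Finset.mem_filter.2 ⟨Finset.mem_univ _, hij⟩, Finset.mem_union.2 (Or.inr ?_)⟩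
      change f ∈ sq (x + unit j - unit j) i j
      rw [add_sub_cancel_right]
      exact hf

theorem adF_card (e : Edge) : (adF e).card ≤ 16 := by
  have h4 : ∀ (x : Vtx) (i j : Fin 3), (sq x i j).card ≤ 4 := fun x i j => Finset.card_le_four
  have h2 : ∀ i : Fin 3, (Finset.univ.filter fun j : Fin 3 => i ≠ j).card = 2 := by decide
  unfold adF
  have h := Finset.card_biUnion_le_card_mul (Finset.univ.filter fun j : Fin 3 => e.2 ≠ j)
    (fun j => sq e.1 e.2 j ∪ sq (e.1 - unit j) e.2 j) 8 (fun j _ =>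
      (Finset.card_union_le _ _).trans (by
        have a := h4 e.1 e.2 j
        have b := h4 (e.1 - unit j) e.2 j
        omega))
  rw [h2] at h
  omega

theorem sh_PP (s : ℤ) (e : Edge) : sh s e ∈ PP ↔ e.2 = 2 ∧ e.1.2.2 = -s := by
  change e.2 = 2 ∧ e.1.2.2 + s = 0 ↔ e.2 = 2 ∧ e.1.2.2 = -s
  constructor
  · rintro ⟨h1, h2⟩
    exact ⟨h1, by omega⟩
  · rintro ⟨h1, h2⟩
    exact ⟨h1, by omega⟩

theorem sh_EL (s : ℤ) (L : ℕ) (e : Edge) : sh s e ∈ EL L ↔ e ∈ EL L := Iff.rfl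

theorem ve_sh (s : ℤ) (a : Col) (z : ℤ) : sh s (ve a z) = ve a (z + s) := rfl

end Pool.Agent.H78.DB
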