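import Pool.Agent.H78.DB.AdjE

/-!
# Module BasE: bases of edges, neighbouring columns

Case checks (`Finset.mem_insert`, `fin_cases e.2`, `omega`; absolute values with `abs_le`, `abs_lt` or by cases). `card_NQ`:
`Finset.card_biUnion_le`, the 3x3 block has 9 elements. `NQ_conn`: let `G` be closed under `nb2`-steps in `NQ Q` and non-empty; each 3x3 block
around `a ∈ Q` is connected, so is contained in `G` or disjoint from `G`; the set of the `a ∈ Q` whose block is in `G` is closed under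
`nb2`-steps in `Q` (the block of `a` contains every `b` with `nb2 a b`) and non-empty, hence is `Q`.
-/

set_option autoImplicit false

namespace Pool.Agent.H78.DB

open Pool.Agent.H72.DJ

theorem bs_sh (s : ℤ) (e : Edge) : bs (sh s e) = bs e := rfl

theorem pr_sh (s : ℤ) (e : Edge) : pr (sh s e).1 = pr e.1 := rfl

theorem To_sh {S : Finset Col} (s : ℤ) (e : Edge) : To S (sh s e) ↔ To S e := Iff.rfl

theorem pr_mem_bs (e : Edge) : pr e.1 ∈ bs e := Finset.mem_insert_self _ _

theorem near_self (a : Col) : near a a := by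
  simp [near]

theorem near_symm {a b : Col} (h : near a b) : near b a := by
  refine ⟨?_, ?_⟩
  · rw [abs_sub_comm]
    exact h.1
  · rw [abs_sub_comm]
    exact h.2

theorem nb2_symm {a b : Col} (h : nb2 a b) : nb2 b a := by
  unfold nb2 at h ⊢
  rw [abs_sub_comm b.1 a.1, abs_sub_comm b.2 a.2]
  exact h

theorem nb2_self (a : Col) : nb2 a a := by
  simp [nb2]

theorem nb2_near {a b : Col} (h : nb2 a b) : near a b := by
  unfold nb2 at h
  have h1 := abs_nonneg (a.1 - b.1)
  have h2 := abs_nonneg (a.2 - b.2)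
  exact ⟨by linarith, by linarith⟩

private theorem BasE_mem {e : Edge} {a : Col} (ha : a ∈ bs e) : a = pr e.1 ∨ a = pr e.1 + dirc e.2 := by
  unfold bs at ha
  rwa [Finset.mem_insert, Finset.mem_singleton] at ha

private theorem BasE_dirc (a : Col) (k : Fin 3) : nb2 a (a + dirc k) := by
  unfold nb2 dirc
  fin_cases k <;> simp

theorem bs_nb2 {e : Edge} {a b : Col} (ha : a ∈ bs e) (hb : b ∈ bs e) : nb2 a b := by
  rcases BasE_mem ha with rfl | rfl <;> rcases BasE_mem hb with rfl | rfl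
  · exact nb2_self _
  · exact BasE_dirc _ _
  · exact nb2_symm (BasE_dirc _ _)
  · exact nb2_self _

private theorem BasE_dirc2 (a : Col) : a + dirc 2 = a := by
  have h : dirc 2 = (0, 0) := rfl
  rw [h]
  exact add_zero a

theorem bs_ve (a : Col) (z : ℤ) : bs (ve a z) = {a} := by
  have h1 : pr (ve a z).1 = a := rfl
  have h2 : (ve a z).2 = 2 := rfl
  unfold bs
  rw [h1, h2, BasE_dirc2]
  simp

/-- a vertical edge with `a` in its base is `ve a z` -/
theorem eq_ve {e : Edge} {a : Col} (h2 : e.2 = 2) (ha : a ∈ bs e) : e = ve a e.1.2.2 := by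
  have h : a = pr e.1 := by
    rcases BasE_mem ha with h | h
    · exact h
    · rw [h, h2, BasE_dirc2]
  subst h
  obtain ⟨⟨x, y, z⟩, k⟩ := e
  dsimp only at h2
  subst h2
  rfl

theorem mem_NQ {Q : Finset Col} {a : Col} : a ∈ NQ Q ↔ ∃ b ∈ Q, near a b := by
  unfold NQ
  rw [Finset.mem_biUnion]
  refine exists_congr fun b => and_congr_right fun _ => ?_
  rw [Finset.mem_product, Finset.mem_Icc, Finset.mem_Icc]
  unfold near
  rw [abs_le, abs_le]
  constructor
  · rintro ⟨⟨h1, h2⟩, h3, h4⟩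
    exact ⟨⟨by linarith, by linarith⟩, by linarith, by linarith⟩
  · rintro ⟨⟨h1, h2⟩, h3, h4⟩
    exact ⟨⟨by linarith, by linarith⟩, by linarith, by linarith⟩

theorem card_NQ (Q : Finset Col) : (NQ Q).card ≤ 9 * Q.card := by
  unfold NQ
  refine Finset.card_biUnion_le.trans ?_
  rw [mul_comm, ← smul_eq_mul, ← Finset.sum_const]
  refine Finset.sum_le_sum fun b _ => ?_
  rw [Finset.card_product, Int.card_Icc, Int.card_Icc]
  have h1 : (b.1 + 1 + 1 - (b.1 - 1)).toNat = 3 := by
    rw [show b.1 + 1 + 1 - (b.1 - 1) = 3 by ring]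
    rfl
  have h2 : (b.2 + 1 + 1 - (b.2 - 1)).toNat = 3 := by
    rw [show b.2 + 1 + 1 - (b.2 - 1) = 3 by ring]
    rfl
  rw [h1, h2]

theorem NQ_conn {Q : Finset Col} (hQ : Cn nb2 (Q : Set Col)) : Cn nb2 (NQ Q : Set Col) := by
  intro G hG hne
  obtain ⟨hsub, hiso⟩ := hG
  have hmem : ∀ {a b : Col}, b ∈ Q → near a b → a ∈ (NQ Q : Set Col) := fun hb hab =>
    Finset.mem_coe.2 (mem_NQ.2 ⟨_, hb, hab⟩)
  have hstep : ∀ {a b : Col}, a ∈ Q → near b a → nb2 a (a.1, b.2) ∧ nb2 (a.1, b.2) b ∧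
      (a.1, b.2) ∈ (NQ Q : Set Col) := by
    intro a b ha hab
    have h1 := hab.1
    have h2 := hab.2
    refine ⟨?_, ?_, hmem ha ⟨?_, ?_⟩⟩
    · unfold nb2
      dsimp only
      rw [sub_self, abs_zero, zero_add, abs_sub_comm]
      exact h2
    · unfold nb2
      dsimp only
      rw [sub_self, abs_zero, add_zero, abs_sub_comm]
      exact h1
    · dsimp only
      rw [sub_self, abs_zero]
      exact zero_le_one
    · exact h2
  have h1 : ∀ {a b : Col}, a ∈ Q → near b a → b ∈ G → a ∈ G := by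
    intro a b ha hab hb
    obtain ⟨h1, h2, h3⟩ := hstep ha hab
    have h4 := hiso b hb _ h3 (nb2_symm h2)
    exact hiso _ h4 a (hmem ha (near_self a)) (nb2_symm h1)
  have h2 : ∀ {a b : Col}, a ∈ Q → near b a → a ∈ G → b ∈ G := by
    intro a b ha hab hb
    obtain ⟨h1, h2, h3⟩ := hstep ha hab
    have h4 := hiso a hb _ h3 h1
    exact hiso _ h4 b (hmem ha hab) h2
  have hH : {a : Col | a ∈ Q ∧ a ∈ G} = (Q : Set Col) := by
    refine hQ _ ⟨fun a ha => Finset.mem_coe.2 ha.1, ?_⟩ ?_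
    · rintro a ⟨_, haG⟩ b hb hab
      have hb' : b ∈ Q := Finset.mem_coe.1 hb
      exact ⟨hb', hiso a haG b (hmem hb' (near_self b)) hab⟩
    · obtain ⟨g, hg⟩ := hne
      obtain ⟨b, hb, hgb⟩ := mem_NQ.1 (Finset.mem_coe.1 (hsub hg))
      exact ⟨b, hb, h1 hb hgb hg⟩
  refine Set.Subset.antisymm hsub fun g hg => ?_
  obtain ⟨b, hb, hgb⟩ := mem_NQ.1 (Finset.mem_coe.1 hg)
  have hbG : b ∈ {a : Col | a ∈ Q ∧ a ∈ G} := by
    rw [hH]
    exact Finset.mem_coe.2 hb
  exact h2 hb hgb hbG.2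

theorem Fl.mono {S T : Finset Col} {σ : Col → ℤ} (h : Fl S σ) (hST : S ⊆ T) : Fl T σ :=
  fun a b hab ha hb => h a b hab (fun h' => ha (hST h')) fun h' => hb (hST h')

end Pool.Agent.H78.DB
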