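import Pool.Agent.H78.DB.BasE

/-!
# Module BasS: squares and their columns

The four edges of `sq x i j` (`i ≠ j`) have their base columns among `pr x`, `pr x + dirc i`, `pr x + dirc j`,
`pr x + dirc i + dirc j`; any two of these four are `near` (`i ≠ j`: one of them may be vertical, `dirc 2 = 0`).
`sq_case`: if some edge of the square touches `S` and some edge touches `T`, two of the four columns are near: contradiction
to `Sp`. `bs_const`, `sq_const`: the base columns of an edge, and consecutive columns of the square, are `nb2`; in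
`sq_const` every one of the four columns is a base column of an edge of the square, so is not in `S`.
`Ad_nb2`: bases of two edges of one square share a column or contain nearest neighbours.
`bU_conn`: for `G` closed in `bU X` put `X_G = {e ∈ X | pr e.1 ∈ G}` = `{e ∈ X | bs e` meets `G}` (`bs_nb2`); closed under `Ad` by
`Ad_nb2`, so it is `X`.
-/

set_option autoImplicit false

namespace Pool.Agent.H78.DB

open Pool.Agent.H72.DJ

private theorem BasS_pr (x : Vtx) (i : Fin 3) : pr (x + unit i) = pr x + dirc i := by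
  fin_cases i <;> rfl

private theorem BasS_dec : ∀ i j : Fin 3, i ≠ j →
    ∀ u ∈ ({0, dirc i, dirc j, dirc i + dirc j} : Finset Col),
    ∀ v ∈ ({0, dirc i, dirc j, dirc i + dirc j} : Finset Col),
    |u.1 - v.1| ≤ 1 ∧ |u.2 - v.2| ≤ 1 := by
  decide

private theorem BasS_dec2 : ∀ i : Fin 3, |(dirc i).1| + |(dirc i).2| ≤ 1 := by
  decide

private theorem BasS_n1 (a : Col) (i : Fin 3) : nb2 (a + dirc i) a := by
  have h := BasS_dec2 i
  unfold nb2
  rw [Prod.fst_add, Prod.snd_add, add_sub_cancel_left, add_sub_cancel_left]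
  exact h

private theorem BasS_n2 (a : Col) (i : Fin 3) : nb2 a (a + dirc i) := nb2_symm (BasS_n1 a i)

private theorem BasS_cols {x : Vtx} {i j : Fin 3} {e : Edge} (he : e ∈ sq x i j) {a : Col}
    (ha : a ∈ bs e) :
    ∃ u ∈ ({0, dirc i, dirc j, dirc i + dirc j} : Finset Col), a = pr x + u := by
  simp only [sq, Finset.mem_insert, Finset.mem_singleton] at he
  rcases he with rfl | rfl | rfl | rfl <;>
    simp only [bs, BasS_pr, Finset.mem_insert, Finset.mem_singleton] at ha <;>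
    rcases ha with rfl | rfl
  · exact ⟨0, by simp, by simp⟩
  · exact ⟨dirc i, by simp, rfl⟩
  · exact ⟨0, by simp, by simp⟩
  · exact ⟨dirc j, by simp, rfl⟩
  · exact ⟨dirc i, by simp, rfl⟩
  · exact ⟨dirc i + dirc j, by simp, by rw [add_assoc]⟩
  · exact ⟨dirc j, by simp, rfl⟩
  · exact ⟨dirc i + dirc j, by simp, by rw [add_assoc, add_comm (dirc j)]⟩

theorem sq_near {x : Vtx} {i j : Fin 3} (hij : i ≠ j) {e f : Edge} (he : e ∈ sq x i j)
    (hf : f ∈ sq x i j) {a b : Col} (ha : a ∈ bs e) (hb : b ∈ bs f) : near a b := by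
  obtain ⟨u, hu, rfl⟩ := BasS_cols he ha
  obtain ⟨v, hv, rfl⟩ := BasS_cols hf hb
  have h := BasS_dec i j hij u hu v hv
  unfold near
  rw [Prod.fst_add, Prod.snd_add, Prod.fst_add, Prod.snd_add, add_sub_add_left_eq_sub,
    add_sub_add_left_eq_sub]
  exact h

theorem Ad_near {e f : Edge} (h : Ad e f) {a b : Col} (ha : a ∈ bs e) (hb : b ∈ bs f) :
    near a b := by
  obtain ⟨x, i, j, hij, he, hf⟩ := h
  exact sq_near hij he hf ha hb

theorem Ad_nb2 {e f : Edge} (h : Ad e f) : ∃ a ∈ bs e, ∃ b ∈ bs f, nb2 a b := by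
  obtain ⟨x, i, j, hij, he, hf⟩ := h
  simp only [sq, Finset.mem_insert, Finset.mem_singleton] at he hf
  rcases he with rfl | rfl | rfl | rfl <;> rcases hf with rfl | rfl | rfl | rfl <;>
    simp only [bs, BasS_pr, Finset.mem_insert, Finset.mem_singleton, exists_eq_or_imp,
      exists_eq_left]
  · exact Or.inl (Or.inl (nb2_self _))
  · exact Or.inl (Or.inl (nb2_self _))
  · exact Or.inl (Or.inl (BasS_n2 _ _))
  · exact Or.inl (Or.inl (BasS_n2 _ _))
  · exact Or.inl (Or.inl (nb2_self _))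
  · exact Or.inl (Or.inl (nb2_self _))
  · exact Or.inl (Or.inl (BasS_n2 _ _))
  · exact Or.inl (Or.inl (BasS_n2 _ _))
  · exact Or.inl (Or.inl (BasS_n1 _ _))
  · exact Or.inl (Or.inl (BasS_n1 _ _))
  · exact Or.inl (Or.inl (nb2_self _))
  · refine Or.inr (Or.inr ?_)
    rw [add_assoc, add_assoc, add_comm (dirc j)]
    exact nb2_self _
  · exact Or.inl (Or.inl (BasS_n1 _ _))
  · exact Or.inl (Or.inl (BasS_n1 _ _))
  · refine Or.inr (Or.inr ?_)
    rw [add_assoc, add_assoc, add_comm (dirc j)]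
    exact nb2_self _
  · exact Or.inl (Or.inl (nb2_self _))

theorem sq_case {S T : Finset Col} (h : Sp S T) {x : Vtx} {i j : Fin 3} (hij : i ≠ j) :
    (∀ e ∈ sq x i j, ¬ To S e) ∨ ∀ e ∈ sq x i j, ¬ To T e := by
  by_contra hc
  rw [not_or] at hc
  obtain ⟨h1, h2⟩ := hc
  push Not at h1 h2
  obtain ⟨e, he, a, ha, haS⟩ := h1
  obtain ⟨f, hf, b, hb, hbT⟩ := h2
  exact h a haS b hbT (sq_near hij he hf ha hb)

theorem To_case {S T : Finset Col} (h : Sp S T) (e : Edge) : ¬ To S e ∨ ¬ To T e := by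
  by_contra hc
  rw [not_or, not_not, not_not] at hc
  obtain ⟨⟨a, ha, haS⟩, b, hb, hbT⟩ := hc
  exact h a haS b hbT (nb2_near (bs_nb2 ha hb))

theorem bs_const {S : Finset Col} {σ : Col → ℤ} (h : Fl S σ) {e : Edge} (he : ¬ To S e) {a : Col}
    (ha : a ∈ bs e) : σ a = σ (pr e.1) :=
  h a (pr e.1) (bs_nb2 ha (pr_mem_bs e)) (fun h' => he ⟨a, ha, h'⟩)
    fun h' => he ⟨pr e.1, pr_mem_bs e, h'⟩

theorem sq_const {S : Finset Col} {σ : Col → ℤ} (h : Fl S σ) {x : Vtx} {i j : Fin 3} (hij : i ≠ j)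
    (hS : ∀ e ∈ sq x i j, ¬ To S e) {e : Edge} (he : e ∈ sq x i j) {a : Col} (ha : a ∈ bs e) :
    σ a = σ (pr x) := by
  have m1 : (x, i) ∈ sq x i j := by simp [sq]
  have m2 : (x, j) ∈ sq x i j := by simp [sq]
  have m3 : (x + unit i, j) ∈ sq x i j := by simp [sq]
  have c0 : pr x ∉ S := fun h' => hS _ m1 ⟨pr x, by simp [bs], h'⟩
  have c1 : pr x + dirc i ∉ S := fun h' => hS _ m1 ⟨pr x + dirc i, by simp [bs], h'⟩
  have c2 : pr x + dirc j ∉ S := fun h' => hS _ m2 ⟨pr x + dirc j, by simp [bs], h'⟩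
  have c3 : pr x + dirc i + dirc j ∉ S :=
    fun h' => hS _ m3 ⟨pr x + dirc i + dirc j, by simp [bs, BasS_pr], h'⟩
  have s1 : σ (pr x + dirc i) = σ (pr x) := h _ _ (BasS_n1 _ _) c1 c0
  obtain ⟨u, hu, rfl⟩ := BasS_cols he ha
  simp only [Finset.mem_insert, Finset.mem_singleton] at hu
  rcases hu with rfl | rfl | rfl | rfl
  · rw [add_zero]
  · exact s1
  · exact h _ _ (BasS_n1 _ _) c2 c0
  · rw [← add_assoc, ← s1]
    exact h _ _ (BasS_n1 _ _) c3 c1

theorem bU_conn {X : Finset Edge} (h : Cn Ad (X : Set Edge)) : Cn nb2 (bU X : Set Col) := by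
  intro G hG hne
  have hmem : ∀ e ∈ X, ∀ a ∈ bs e, a ∈ (bU X : Set Col) := by
    intro e he a ha
    rw [Finset.mem_coe]
    exact Finset.mem_biUnion.2 ⟨e, he, ha⟩
  have hstep : ∀ e ∈ X, ∀ a ∈ bs e, a ∈ G → ∀ b ∈ bs e, b ∈ G := by
    intro e he a ha haG b hb
    exact hG.2 a haG b (hmem e he b hb) (bs_nb2 ha hb)
  have hX : {e : Edge | e ∈ X ∧ pr e.1 ∈ G} = (X : Set Edge) := by
    refine h _ ⟨fun e he => he.1, ?_⟩ ?_
    · rintro e ⟨he, heG⟩ f hf hef
      obtain ⟨a, ha, b, hb, hab⟩ := Ad_nb2 hef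
      have haG : a ∈ G := hstep e he _ (pr_mem_bs e) heG a ha
      have hbG : b ∈ G := hG.2 a haG b (hmem f hf b hb) hab
      exact ⟨hf, hstep f hf b hb hbG _ (pr_mem_bs f)⟩
    · obtain ⟨g, hg⟩ := hne
      have h1 := hG.1 hg
      rw [Finset.mem_coe] at h1
      obtain ⟨e, he, hge⟩ := Finset.mem_biUnion.1 h1
      exact ⟨e, he, hstep e he g hge hg _ (pr_mem_bs e)⟩
  refine Set.Subset.antisymm hG.1 ?_
  intro b hb
  rw [Finset.mem_coe] at hb
  obtain ⟨e, he, hbe⟩ := Finset.mem_biUnion.1 hb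
  have h2 : e ∈ {e : Edge | e ∈ X ∧ pr e.1 ∈ G} := by
    rw [hX]; exact he
  exact hstep e he _ (pr_mem_bs e) h2.2 b hbe

theorem card_bU (X : Finset Edge) : (bU X).card ≤ 2 * X.card := by
  rw [mul_comm]
  refine Finset.card_biUnion_le_card_mul _ _ _ fun e _ => ?_
  exact Finset.card_le_two

end Pool.Agent.H78.DB
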