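import Pool.Agent.H78.DB.Pot3

/-!
# Module BscA: columns of an edge set with finite difference to the plane

Let `T` be the finite set of the columns in the bases of the edges in `{e | ¬ (e ∈ Δ ↔ e ∈ PP)}` (`flat_off`). Over a column
`a ∉ T` the set `Δ` has exactly the edge `ve a 0` and no horizontal edge. `col_ne`: `par_ex` for a separating cochain.
`col_fin`: `{z | ve a z ∈ Δ}` differs from `{0}` in finitely many `z` (`ve a` is injective). `HH_mem`, `HH_le`: the infimum of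
a non-empty finite set of integers is its minimum (`Int.csInf_mem`, `csInf_le`). `reg_of`: `{z | ve a z ∈ Δ} = {s}`,
`csInf_singleton`.
-/

set_option autoImplicit false

namespace Pool.Agent.H78.DB

open Pool.Agent.H72.DJ

theorem ve_inj (a : Col) : Function.Injective (ve a) := by
  intro z z' h
  have h1 := congrArg (fun e : Edge => e.1.2.2) h
  exact h1

private theorem BscA_bs_ve (a : Col) (z : ℤ) : a ∈ bs (ve a z) := by
  unfold bs ve pr
  exact Finset.mem_insert_self _ _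

private theorem BscA_bs_two {e : Edge} (h2 : e.2 = 2) {a : Col} (ha : a ∈ bs e) : a = pr e.1 := by
  unfold bs at ha
  rw [h2] at ha
  have hd : dirc 2 = 0 := by
    unfold dirc
    rfl
  rw [hd, add_zero] at ha
  simpa using ha

private theorem BscA_eq_ve {e : Edge} (h2 : e.2 = 2) {a : Col} (ha : a ∈ bs e) :
    e = ve a e.1.2.2 := by
  have h := BscA_bs_two h2 ha
  subst h
  obtain ⟨⟨x, y, z⟩, i⟩ := e
  have h2' : i = 2 := h2
  subst h2'
  rfl

private theorem BscA_ve_PP (a : Col) (z : ℤ) : ve a z ∈ PP ↔ z = 0 := by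
  unfold PP ve
  constructor
  · intro h
    exact h.2
  · intro h
    exact ⟨rfl, h⟩

theorem flat_off {Δ : Set Edge} (h : PI Δ) :
    ∃ T : Finset Col, ∀ a, a ∉ T → ∀ e, a ∈ bs e → (e ∈ Δ ↔ e ∈ PP) := by
  refine ⟨h.1.toFinset.biUnion bs, fun a ha e he => ?_⟩
  by_contra hn
  exact ha (Finset.mem_biUnion.2 ⟨e, (Set.Finite.mem_toFinset _).2 hn, he⟩)

theorem col_fin {Δ : Set Edge} (h : PI Δ) (a : Col) : {z | ve a z ∈ Δ}.Finite := by
  have h1 : (ve a ⁻¹' {e | ¬ (e ∈ Δ ↔ e ∈ PP)}).Finite := h.1.preimage (ve_inj a).injOn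
  refine (h1.union (Set.finite_singleton (0 : ℤ))).subset ?_
  intro z hz
  by_cases h0 : z = 0
  · exact Or.inr h0
  · left
    intro hn
    exact h0 ((BscA_ve_PP a z).1 (hn.1 hz))

/-- the edges of `Δ` touching a finite set of columns -/
theorem sec_fin {Δ : Set Edge} (h : PI Δ) (K : Finset Col) : {e | e ∈ Δ ∧ To K e}.Finite := by
  have h1 : ((fun a => ve a 0) '' (K : Set Col)).Finite := K.finite_toSet.image _
  refine (h.1.union h1).subset ?_
  rintro e ⟨he, a, ha, haK⟩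
  by_cases hp : e ∈ PP
  · right
    refine ⟨a, haK, ?_⟩
    have h3 := BscA_eq_ve hp.1 ha
    have h4 : e.1.2.2 = 0 := hp.2
    rw [h4] at h3
    exact h3.symm
  · left
    intro hn
    exact hp (hn.1 he)

private theorem BscA_ne {Δ : Set Edge} (h : PI Δ) (a : Col) : {z | ve a z ∈ Δ}.Nonempty := by
  obtain ⟨c, hc⟩ := h.2
  obtain ⟨z, hz⟩ := par_ex hc a
  exact ⟨z, hc.2.1 _ hz⟩

theorem HH_mem {Δ : Set Edge} (h : PI Δ) (a : Col) : ve a (HH Δ a) ∈ Δ :=
  Int.csInf_mem (BscA_ne h a) (col_fin h a).bddBelow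

theorem HH_le {Δ : Set Edge} (h : PI Δ) {a : Col} {z : ℤ} (hz : ve a z ∈ Δ) : HH Δ a ≤ z :=
  csInf_le (col_fin h a).bddBelow hz

/-- the lowest height is characterised by these two properties -/
theorem HH_eq {Δ : Set Edge} {a : Col} {s : ℤ} (h1 : ve a s ∈ Δ) (h2 : ∀ z, ve a z ∈ Δ → s ≤ z) :
    HH Δ a = s :=
  IsLeast.csInf_eq ⟨h1, fun z hz => h2 z hz⟩

theorem reg_of {Δ : Set Edge} {a : Col} {s : ℤ} (h1 : ∀ z, ve a z ∈ Δ ↔ z = s)
    (h2 : ∀ e ∈ Δ, a ∈ bs e → e.2 = 2) : Reg Δ a ∧ HH Δ a = s := by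
  have h3 : HH Δ a = s := HH_eq ((h1 s).2 rfl) (fun z hz => le_of_eq ((h1 z).1 hz).symm)
  refine ⟨⟨fun z => ?_, h2⟩, h3⟩
  rw [h3]
  exact h1 z

private theorem BscA_flat {Δ : Set Edge} {a : Col}
    (ha : ∀ e, a ∈ bs e → (e ∈ Δ ↔ e ∈ PP)) : Reg Δ a ∧ HH Δ a = 0 := by
  refine reg_of (fun z => ?_) (fun e he hae => ?_)
  · rw [ha _ (BscA_bs_ve a z), BscA_ve_PP]
  · exact ((ha e hae).1 he).1

theorem irr_fin {Δ : Set Edge} (h : PI Δ) : {a | ¬ Reg Δ a}.Finite := by
  obtain ⟨T, hT⟩ := flat_off h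
  refine T.finite_toSet.subset (fun a ha => ?_)
  by_contra hn
  exact ha (BscA_flat (hT a hn)).1

theorem mem_irr {Δ : Set Edge} (h : PI Δ) {a : Col} : a ∈ irr Δ ↔ ¬ Reg Δ a := by
  unfold irr
  rw [dif_pos (irr_fin h), Set.Finite.mem_toFinset]
  rfl

theorem HH_fin {Δ : Set Edge} (h : PI Δ) : {a | HH Δ a ≠ 0}.Finite := by
  obtain ⟨T, hT⟩ := flat_off h
  refine T.finite_toSet.subset (fun a ha => ?_)
  by_contra hn
  exact ha (BscA_flat (hT a hn)).2

theorem hor_fin {Δ : Set Edge} (h : PI Δ) : (hor Δ).Finite := by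
  refine h.1.subset ?_
  rintro e ⟨he, h2⟩ hn
  exact h2 (hn.1 he).1

/-- over a regular column `Δ` has exactly one edge -/
theorem reg_iff {Δ : Set Edge} (h : PI Δ) {a : Col} (ha : a ∉ irr Δ) {e : Edge} (he : a ∈ bs e) :
    e ∈ Δ ↔ e = ve a (HH Δ a) := by
  have hR : Reg Δ a := by
    by_contra hn
    exact ha ((mem_irr h).2 hn)
  constructor
  · intro hed
    have h1 := BscA_eq_ve (hR.2 e hed he) he
    rw [h1] at hed
    have h2 := (hR.1 _).1 hed
    rw [h2] at h1
    exact h1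
  · intro h1
    rw [h1]
    exact HH_mem h a

/-- the plane is an interface without irregular columns -/
theorem PI_PP : PI PP := by
  refine ⟨?_, ?_⟩
  · have : {e : Edge | ¬ (e ∈ PP ↔ e ∈ PP)} = ∅ := by
      ext e; simp
    rw [this]
    exact Set.finite_empty
  · refine ⟨fun e => if e.2 = 2 ∧ e.1.2.2 = 0 then 1 else 0, cl_flat 0, fun e he => ?_, ?_⟩
    · by_contra hn
      exact he (if_neg hn)
    · refine Set.finite_empty.subset (fun e he => he ?_)
      by_cases h : e ∈ PP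
      · have h' : e.2 = 2 ∧ e.1.2.2 = 0 := h
        rw [if_pos h]
        exact if_pos h'
      · have h' : ¬ (e.2 = 2 ∧ e.1.2.2 = 0) := h
        rw [if_neg h]
        exact if_neg h'

theorem reg_PP (a : Col) : Reg PP a ∧ HH PP a = 0 :=
  BscA_flat (fun _ _ => Iff.rfl)

theorem irr_PP : irr PP = ∅ := by
  ext a
  rw [mem_irr PI_PP]
  simp [(reg_PP a).1]

/-- an edge set which is an interface up to finitely many edges, and contains a separating set, is separating -/
theorem Sep.mono {F F' : Set Edge} (h : Sep F) (hF : F ⊆ F') : Sep F' := by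
  obtain ⟨c, h1, h2, h3⟩ := h
  exact ⟨c, h1, fun e he => hF (h2 e he), h3⟩

end Pool.Agent.H78.DB
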