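import Pool.Agent.H78.DB.BscA

/-!
# Module BscB: heights of regular columns

`sep_reg`: over a regular column `a` the separating cochain `c` vanishes on the vertical edges `ve a z`, `z ≠ HH Δ a`
(they are not in `Δ`), so `c (ve a (HH Δ a)) = 1` by `par1`; on horizontal edges touching `a` it vanishes.
`HH_Fl`: let `a`, `b` be regular, `nb2 a b`; `a = b` or nearest neighbours, say `b = a + (1,0)` (three other cases by symmetry
or direct). If `HH Δ a ≠ HH Δ b`, look at the square over `{a, b}` at height `z = HH Δ a`: `c (ve a z) = 1`,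
`c (ve b z) = 0`, the horizontal edges have value `0`: not closed.
`zero_of_bb`: if `¬ inbb S a`, one of the four closed half planes bounded by the coordinate line through `a` contains no point
of `S`; going from `a` into this half plane along a ray (straight away from `S`) the function `σ` is constant, and it is zero
far away (finite support). E.g. `∀ b ∈ S, ¬ b.1 ≤ a.1`: the ray `(a.1 - n, a.2)`.
`const_of_conn`: the set `{b ∈ Q | σ b = σ a}` is closed under `nb2`-steps in `Q`.
`iso_reg`: let `G` be finite and isolated in `Δ`; the cochain `c` restricted to `G` is closed (`cl_restrict`), of finite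
support; if `ve a (HH Δ a) ∈ G` with `a` regular, it vanishes on the other vertical edges over `a`, so by `par0` also on
`ve a (HH Δ a)`, but there it has the value `1`. So no edge of `G` has a regular base column (`reg_iff`).
-/

set_option autoImplicit false

namespace Pool.Agent.H78.DB

open Pool.Agent.H72.DJ

private theorem BscB_mem_bs_ve (a : Col) (z : ℤ) : a ∈ bs (ve a z) := by
  unfold bs
  rw [Finset.mem_insert]
  left
  rfl

theorem sep_reg {Δ : Set Edge} (h : PI Δ) {c : Edge → ZMod 2} (hc : SepC Δ c) {a : Col}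
    (ha : a ∉ irr Δ) : c (ve a (HH Δ a)) = 1 ∧ ∀ e, a ∈ bs e → e ≠ ve a (HH Δ a) → c e = 0 := by
  have key : ∀ e, a ∈ bs e → e ≠ ve a (HH Δ a) → c e = 0 := by
    intro e he hne
    by_contra hce
    exact hne ((reg_iff h ha he).1 (hc.2.1 e hce))
  refine ⟨par1 hc a (HH Δ a) ?_, key⟩
  intro z hz
  exact key _ (BscB_mem_bs_ve a z) (fun hh => hz (ve_inj a hh))

/-- two regular columns joined by an edge in the direction `i` have the same height -/
private theorem BscB_step {Δ : Set Edge} (h : PI Δ) {a b : Col} {i : Fin 3} (hi : i ≠ 2)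
    (hb : b = a + dirc i) (ha : a ∉ irr Δ) (hb' : b ∉ irr Δ) : HH Δ a = HH Δ b := by
  obtain ⟨c, hc⟩ := h.2
  by_contra hne
  obtain ⟨h1, h2⟩ := sep_reg h hc ha
  obtain ⟨-, h4⟩ := sep_reg h hc hb'
  have hcl := hc.1 (a.1, a.2, HH Δ a) i 2 hi
  have e1 : c (((a.1, a.2, HH Δ a) : Vtx), i) = 0 := by
    apply h2
    · unfold bs
      rw [Finset.mem_insert]
      left
      rfl
    · intro hh
      exact hi (congrArg Prod.snd hh)
  have e2 : c (((a.1, a.2, HH Δ a) : Vtx) + unit 2, i) = 0 := by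
    apply h2
    · unfold bs
      rw [Finset.mem_insert]
      left
      simp [pr, unit]
    · intro hh
      exact hi (congrArg Prod.snd hh)
  have e3 : c (((a.1, a.2, HH Δ a) : Vtx) + unit i, 2) = 0 := by
    have e4 : ((((a.1, a.2, HH Δ a) : Vtx) + unit i, 2) : Edge) = ve b (HH Δ a) := by
      subst hb
      fin_cases i
      · simp [ve, unit, dirc]
      · simp [ve, unit, dirc]
      · exact absurd rfl hi
    rw [e4]
    exact h4 _ (BscB_mem_bs_ve b _) (fun hh => hne (ve_inj b hh))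
  have e5 : c (((a.1, a.2, HH Δ a) : Vtx), 2) = 1 := h1
  rw [e1, e2, e3, e5] at hcl
  simp at hcl

theorem HH_Fl {Δ : Set Edge} (h : PI Δ) : Fl (irr Δ) (HH Δ) := by
  intro a b hab ha hb
  have hcase : b = a ∨ b = a + dirc 0 ∨ a = b + dirc 0 ∨ b = a + dirc 1 ∨ a = b + dirc 1 := by
    obtain ⟨x, y⟩ := a
    obtain ⟨x', y'⟩ := b
    unfold nb2 at hab
    simp only [dirc, Prod.mk_add_mk, Prod.mk.injEq, Matrix.cons_val_zero, Matrix.cons_val_one]
    simp only at hab
    rcases abs_cases (x - x') with ⟨u1, u2⟩ | ⟨u1, u2⟩ <;>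
      rcases abs_cases (y - y') with ⟨v1, v2⟩ | ⟨v1, v2⟩ <;> rw [u1, v1] at hab <;> omega
  rcases hcase with e | e | e | e | e
  · rw [e]
  · exact BscB_step h (by decide) e ha hb
  · exact (BscB_step h (by decide) e hb ha).symm
  · exact BscB_step h (by decide) e ha hb
  · exact (BscB_step h (by decide) e hb ha).symm

/-- a function of finite support which is constant along a ray vanishes on the ray -/
private theorem BscB_ray {S : Finset Col} {σ : Col → ℤ} (h : Fl S σ) (hf : {a | σ a ≠ 0}.Finite)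
    {a d : Col} (hd : |d.1| + |d.2| = 1) (hr : ∀ n : ℕ, a + (n : ℤ) • d ∉ S) : σ a = 0 := by
  by_contra hne
  have hc : ∀ n : ℕ, σ (a + (n : ℤ) • d) = σ a := by
    intro n
    induction n with
    | zero => simp
    | succ n ih =>
      rw [← ih]
      symm
      refine h _ _ ?_ (hr n) (hr (n + 1))
      unfold nb2
      have e1 : (a + (n : ℤ) • d).1 - (a + ((n + 1 : ℕ) : ℤ) • d).1 = -d.1 := by
        simp only [Prod.fst_add, Prod.smul_fst, smul_eq_mul]
        push_cast
        ring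
      have e2 : (a + (n : ℤ) • d).2 - (a + ((n + 1 : ℕ) : ℤ) • d).2 = -d.2 := by
        simp only [Prod.snd_add, Prod.smul_snd, smul_eq_mul]
        push_cast
        ring
      rw [e1, e2, abs_neg, abs_neg, hd]
  have hinj : Function.Injective (fun n : ℕ => a + (n : ℤ) • d) := by
    intro m n hmn
    have e : (m : ℤ) • d = (n : ℤ) • d := add_left_cancel hmn
    have e1 : (m : ℤ) * d.1 = (n : ℤ) * d.1 := congrArg Prod.fst e
    have e2 : (m : ℤ) * d.2 = (n : ℤ) * d.2 := congrArg Prod.snd e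
    by_cases h1 : d.1 = 0
    · have h2 : d.2 ≠ 0 := by
        intro h2
        rw [h1, h2] at hd
        simp at hd
      have := mul_right_cancel₀ h2 e2
      exact_mod_cast this
    · have := mul_right_cancel₀ h1 e1
      exact_mod_cast this
  have hinf : (Set.range (fun n : ℕ => a + (n : ℤ) • d)).Infinite := Set.infinite_range_of_injective hinj
  apply hinf
  refine hf.subset ?_
  rintro _ ⟨n, rfl⟩
  change σ (a + (n : ℤ) • d) ≠ 0
  rw [hc n]
  exact hne

theorem zero_of_bb {S : Finset Col} {σ : Col → ℤ} (h : Fl S σ) (hf : {a | σ a ≠ 0}.Finite)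
    {a : Col} (ha : ¬ inbb S a) : σ a = 0 := by
  unfold inbb at ha
  by_cases h1 : ∃ b ∈ S, b.1 ≤ a.1
  · by_cases h2 : ∃ b ∈ S, a.1 ≤ b.1
    · by_cases h3 : ∃ b ∈ S, b.2 ≤ a.2
      · by_cases h4 : ∃ b ∈ S, a.2 ≤ b.2
        · exact absurd ⟨h1, h2, h3, h4⟩ ha
        · refine BscB_ray h hf (d := (0, 1)) (by simp) ?_
          intro n hn
          refine h4 ⟨_, hn, ?_⟩
          simp
      · refine BscB_ray h hf (d := (0, -1)) (by simp) ?_
        intro n hn
        refine h3 ⟨_, hn, ?_⟩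
        simp
    · refine BscB_ray h hf (d := (1, 0)) (by simp) ?_
      intro n hn
      refine h2 ⟨_, hn, ?_⟩
      simp
  · refine BscB_ray h hf (d := (-1, 0)) (by simp) ?_
    intro n hn
    refine h1 ⟨_, hn, ?_⟩
    simp

/-- outside a square -/
theorem zero_of_sqr {S : Finset Col} {σ : Col → ℤ} (h : Fl S σ) (hf : {a | σ a ≠ 0}.Finite)
    {L : ℕ} (hS : S ⊆ sqr L) {a : Col} (ha : a ∉ sqr L) : σ a = 0 := by
  refine zero_of_bb h hf ?_
  rintro ⟨⟨b1, m1, l1⟩, ⟨b2, m2, l2⟩, ⟨b3, m3, l3⟩, ⟨b4, m4, l4⟩⟩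
  apply ha
  have k1 := hS m1
  have k2 := hS m2
  have k3 := hS m3
  have k4 := hS m4
  unfold sqr at k1 k2 k3 k4 ⊢
  rw [Finset.mem_product, Finset.mem_Icc, Finset.mem_Icc] at k1 k2 k3 k4 ⊢
  refine ⟨⟨k1.1.1.trans l1, l2.trans k2.1.2⟩, ⟨k3.2.1.trans l3, l4.trans k4.2.2⟩⟩

theorem Fl_empty {σ : Col → ℤ} (h : ∀ a b, nb2 a b → σ a = σ b) (hf : {a | σ a ≠ 0}.Finite)
    (a : Col) : σ a = 0 := by
  refine zero_of_bb (S := ∅) (fun x y hxy _ _ => h x y hxy) hf ?_
  rintro ⟨⟨b, hb, -⟩, -⟩
  exact absurd hb (Finset.notMem_empty b)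

theorem const_of_conn {S Q : Finset Col} {σ : Col → ℤ} (h : Fl S σ)
    (hQ : Cn nb2 (Q : Set Col)) (hd : ∀ a ∈ Q, a ∉ S) {a b : Col} (ha : a ∈ Q) (hb : b ∈ Q) :
    σ a = σ b := by
  have hG := hQ {x | x ∈ Q ∧ σ x = σ a} ?_ ⟨a, ha, rfl⟩
  · have hb' : b ∈ ({x | x ∈ Q ∧ σ x = σ a} : Set Col) := by
      rw [hG]
      exact hb
    exact hb'.2.symm
  · refine ⟨fun x hx => hx.1, ?_⟩
    rintro e ⟨he1, he2⟩ f hf hef
    refine ⟨hf, ?_⟩
    rw [← he2]
    exact (h e f hef (hd e he1) (hd f hf)).symm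

theorem iso_reg {Δ : Set Edge} (h : PI Δ) {G : Set Edge} (hG : G.Finite) (hI : Isol Ad Δ G)
    {e : Edge} (he : e ∈ G) {a : Col} (ha : a ∈ bs e) : a ∈ irr Δ := by
  classical
  by_contra hirr
  obtain ⟨c, hc⟩ := h.2
  obtain ⟨h1, h2⟩ := sep_reg h hc hirr
  have hev : e = ve a (HH Δ a) := (reg_iff h hirr ha).1 (hI.1 he)
  have hcl : Cl (fun e => if e ∈ G then c e else 0) := by
    convert cl_restrict hI hc.1 hc.2.1
  have hfin : {e | (fun e => if e ∈ G then c e else 0) e ≠ 0}.Finite := by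
    refine hG.subset ?_
    intro f hf
    by_contra hn
    apply hf
    simp [hn]
  have h0 := par0 hcl hfin a (HH Δ a) ?_
  · rw [hev] at he
    simp only [if_pos he] at h0
    rw [h1] at h0
    exact one_ne_zero h0
  · intro z hz
    have hz' : c (ve a z) = 0 := h2 _ (BscB_mem_bs_ve a z) (fun hh => hz (ve_inj a hh))
    simp [hz']

theorem Intf_PP : Intf PP := by
  refine ⟨PI_PP, ?_⟩
  intro G hG hI
  by_contra hne
  obtain ⟨e, he⟩ := Set.nonempty_iff_ne_empty.2 hne
  have hb : pr e.1 ∈ bs e := by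
    unfold bs
    rw [Finset.mem_insert]
    left
    rfl
  have := iso_reg PI_PP hG hI he hb
  rw [irr_PP] at this
  exact absurd this (Finset.notMem_empty _)

end Pool.Agent.H78.DB
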