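import Pool.Agent.H78.DB.BasS

/-!
# Module ClL: local verification that a cochain is closed

`cl_loc`: for the square `(x,i,j)` take `c'`, `s` from the hypothesis and use that `c'` is closed on the translated square
`(x.1, x.2.1, x.2.2 + s)` (`sh s (x + unit i, j) = ((x.1,x.2.1,x.2.2+s) + unit i, j)`). `cl_flat`: the indicator of the
vertical edges at height `s`: squares without vertical direction contain none; in the square `(x, i, 2)` the edges
`(x,2)` and `(x + unit i, 2)` have the same height. `cl_restrict`: `G` isolated in `F`, `c` supported in `F`: on a square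
containing an edge of `G` all edges of `F` in the square are in `G`, so `c` restricted to `G` equals `c` there; on the other
squares it is zero.
-/

set_option autoImplicit false

namespace Pool.Agent.H78.DB

open Pool.Agent.H72.DJ

private theorem ClL_sh (x : Vtx) (i j : Fin 3) (s : ℤ) :
    sh s (x + unit i, j) = (((x.1, x.2.1, x.2.2 + s) : Vtx) + unit i, j) := by
  unfold sh
  refine Prod.ext (Prod.ext rfl (Prod.ext rfl ?_)) rfl
  change x.2.2 + (unit i).2.2 + s = x.2.2 + s + (unit i).2.2
  ring

private theorem ClL_sh0 (x : Vtx) (i : Fin 3) (s : ℤ) :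
    sh s (x, i) = (((x.1, x.2.1, x.2.2 + s) : Vtx), i) := rfl

theorem cl_loc {c : Edge → ZMod 2} (h : ∀ (x : Vtx) (i j : Fin 3), i ≠ j →
    ∃ (c' : Edge → ZMod 2) (s : ℤ), Cl c' ∧ ∀ e ∈ sq x i j, c e = c' (sh s e)) : Cl c := by
  intro x i j hij
  obtain ⟨c', s, hc', he⟩ := h x i j hij
  rw [he (x, i) (by simp [sq]), he (x, j) (by simp [sq]), he (x + unit i, j) (by simp [sq]),
    he (x + unit j, i) (by simp [sq]), ClL_sh, ClL_sh, ClL_sh0, ClL_sh0]
  exact hc' _ i j hij

theorem cl_zero : Cl (fun _ => 0) := fun _ _ _ _ => rfl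

theorem cl_flat (s : ℤ) : Cl (fun e => if e.2 = 2 ∧ e.1.2.2 = s then 1 else 0) := by
  intro x i j hij
  have h0 : ∀ k : Fin 3, k ≠ 2 → (x + unit k).2.2 = x.2.2 := by
    intro k hk
    have h1 : (unit k).2.2 = 0 := by
      revert k
      decide
    rw [Prod.snd_add, Prod.snd_add, h1, add_zero]
  by_cases hi : i = 2
  · have hj : j ≠ 2 := fun h => hij (hi.trans h.symm)
    simp only [hi, hj, h0 j hj, true_and, false_and, if_false, add_zero, zero_add]
  · by_cases hj : j = 2
    · simp only [hi, hj, h0 i hi, true_and, false_and, if_false, add_zero, zero_add]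
    · simp only [hi, hj, false_and, if_false]

theorem cl_sh {c : Edge → ZMod 2} (h : Cl c) (s : ℤ) : Cl (fun e => c (sh s e)) := by
  intro x i j hij
  simp only
  rw [ClL_sh, ClL_sh, ClL_sh0, ClL_sh0]
  exact h _ i j hij

open Classical in
theorem cl_restrict {F G : Set Edge} (hG : Isol Ad F G) {c : Edge → ZMod 2} (hc : Cl c)
    (hF : ∀ e, c e ≠ 0 → e ∈ F) : Cl (fun e => if e ∈ G then c e else 0) := by
  intro x i j hij
  by_cases hex : ∃ e ∈ sq x i j, e ∈ G
  · obtain ⟨e, he, heG⟩ := hex
    have h1 : ∀ f ∈ sq x i j, (if f ∈ G then c f else 0) = c f := by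
      intro f hf
      by_cases hfG : f ∈ G
      · rw [if_pos hfG]
      · rw [if_neg hfG]
        by_contra hne
        exact hfG (hG.2 e heG f (hF f fun h => hne h.symm) ⟨x, i, j, hij, he, hf⟩)
    simp only
    rw [h1 (x, i) (by simp [sq]), h1 (x, j) (by simp [sq]), h1 (x + unit i, j) (by simp [sq]),
      h1 (x + unit j, i) (by simp [sq])]
    exact hc x i j hij
  · have h1 : ∀ f ∈ sq x i j, (if f ∈ G then c f else 0) = 0 := by
      intro f hf
      exact if_neg fun h => hex ⟨f, hf, h⟩
    simp only
    rw [h1 (x, i) (by simp [sq]), h1 (x, j) (by simp [sq]), h1 (x + unit i, j) (by simp [sq]),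
      h1 (x + unit j, i) (by simp [sq])]

end Pool.Agent.H78.DB
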