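import Pool.Agent.H78.DB.Rng
import Pool.Agent.H78.DB.Cnt
import Pool.Agent.H78.DB.GlV

/-!
# Module CnB: counting interfaces over a connected set of columns

For `Δ ∈ DL L B` with `irr Δ = B` let `D Δ : Finset Edge` be `{e ∈ Δ | bs e ⊆ NQ B}` (`over_fin`).
(1) injective: if `D Δ = D Δ'` then `HH Δ = HH Δ'` on `NQ B` (`bs (ve a z) = {a}`), `f = HH Δ - HH Δ'` satisfies `f a = f b` for all `nb2 a b`: if
    `a ∈ B` or `b ∈ B` both are in `NQ B`, `f a = f b = 0`; otherwise `HH_Fl` for both. So `f = 0` (`Fl_empty`, `HH_fin`), and `Δ = Δ'`: edges over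
    `NQ B` agree; the others have a regular base column `a` (not in `NQ B`): `reg_iff`.
(2) `D Δ` is connected (`ring_conn`), contains `e0 = ve x0 0` where `x0 = (b.1 + 1, b.2)`, `b ∈ B` with maximal first coordinate: `x0 ∈ NQ B`, and
    `¬ inbb B x0`, so `HH Δ x0 = 0` (`zero_of_bb`, `HH_Fl`) and `ve x0 0 ∈ Δ` (`HH_mem`).
(3) `|D Δ| ≤ |NQ B| + en Δ ≤ 9 |B| + en Δ ≤ 19 en Δ` (`over_le`, `card_NQ`, `irr_le`: `|B| ≤ 2 en Δ`), so with `0 < u ≤ 1`
    `s^en ≤ u^(38 en) ≤ u^|D Δ| * u^|B|` (`19 en ≥ |B|`).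
(4) `∑_Δ s^en ≤ u^|B| ∑_{X ∋ e0 connected} u^|X| ≤ u^|B| * 2 * 256 u ≤ u^|B|` (`cnt_sum`, `N = adF`, `d = 16`, `m = 1`). For the `tsum` in `ENNReal`:
    `ENNReal.tsum_le_of_sum_le`-type argument: every finite partial sum is bounded (`ENNReal.tsum_eq_iSup_sum`).
-/

set_option autoImplicit false

open scoped ENNReal

namespace Pool.Agent.H78.DB

open Pool.Agent.H72.DJ

private lemma cnb_sub (B : Finset Col) {a : Col} (ha : a ∈ B) : a ∈ NQ B :=
  mem_NQ.mpr ⟨a, ha, near_self a⟩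

private lemma cnb_HH {Δ Δ' : Set Edge} {B : Finset Col}
    (hD : ∀ e, bs e ⊆ NQ B → (e ∈ Δ ↔ e ∈ Δ')) {a : Col} (ha : a ∈ NQ B) :
    HH Δ a = HH Δ' a := by
  have h1 : {z | ve a z ∈ Δ} = {z | ve a z ∈ Δ'} := by
    ext z
    refine hD (ve a z) ?_
    rw [bs_ve, Finset.singleton_subset_iff]
    exact ha
  unfold HH
  rw [h1]

private lemma cnb_inj {Δ Δ' : Set Edge} (h : PI Δ) (h' : PI Δ') {B : Finset Col}
    (hB : irr Δ = B) (hB' : irr Δ' = B) (hD : ∀ e, bs e ⊆ NQ B → (e ∈ Δ ↔ e ∈ Δ')) : Δ = Δ' := by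
  have hf : ∀ a, HH Δ a - HH Δ' a = 0 := by
    refine Fl_empty (σ := fun a => HH Δ a - HH Δ' a) ?_ ?_
    · intro a b hab
      by_cases ha : a ∈ B
      · have hb : b ∈ NQ B := mem_NQ.mpr ⟨a, ha, near_symm (nb2_near hab)⟩
        simp only [cnb_HH hD (cnb_sub B ha), cnb_HH hD hb, sub_self]
      · by_cases hb : b ∈ B
        · have ha' : a ∈ NQ B := mem_NQ.mpr ⟨b, hb, nb2_near hab⟩
          simp only [cnb_HH hD (cnb_sub B hb), cnb_HH hD ha', sub_self]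
        · have h1 := HH_Fl h a b hab (by rw [hB]; exact ha) (by rw [hB]; exact hb)
          have h2 := HH_Fl h' a b hab (by rw [hB']; exact ha) (by rw [hB']; exact hb)
          simp only [h1, h2]
    · refine ((HH_fin h).union (HH_fin h')).subset ?_
      intro a ha
      by_contra hn
      rw [Set.mem_union, not_or] at hn
      have e1 : HH Δ a = 0 := not_not.1 hn.1
      have e2 : HH Δ' a = 0 := not_not.1 hn.2
      exact ha (by simp only [e1, e2, sub_self])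
  ext e
  by_cases hb : bs e ⊆ NQ B
  · exact hD e hb
  · obtain ⟨a, ha, hna⟩ := Finset.not_subset.mp hb
    have haB : a ∉ B := fun h1 => hna (cnb_sub B h1)
    rw [reg_iff h (by rw [hB]; exact haB) ha, reg_iff h' (by rw [hB']; exact haB) ha,
      sub_eq_zero.mp (hf a)]

private lemma cnb_e0 {B : Finset Col} (hne : B.Nonempty) :
    ∃ x0 : Col, x0 ∈ NQ B ∧ ∀ Δ : Set Edge, PI Δ → irr Δ = B → ve x0 0 ∈ Δ := by
  obtain ⟨b, hb, hmax⟩ := Finset.exists_max_image B (fun b => b.1) hne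
  refine ⟨(b.1 + 1, b.2), mem_NQ.mpr ⟨b, hb, ?_, ?_⟩, ?_⟩
  · have h1 : (b.1 + 1, b.2).1 - b.1 = 1 := by
      show b.1 + 1 - b.1 = 1
      ring
    rw [h1, abs_one]
  · have h1 : (b.1 + 1, b.2).2 - b.2 = 0 := sub_self b.2
    rw [h1, abs_zero]
    exact zero_le_one
  · intro Δ h hB
    have h0 : HH Δ (b.1 + 1, b.2) = 0 := by
      refine zero_of_bb (HH_Fl h) (HH_fin h) ?_
      rw [hB]
      rintro ⟨-, ⟨b', hb', hle⟩, -⟩
      have h1 : b.1 + 1 ≤ b'.1 := hle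
      have h2 : b'.1 ≤ b.1 := hmax b' hb'
      omega
    have h1 := HH_mem h (b.1 + 1, b.2)
    rw [h0] at h1
    exact h1

private lemma cnb_term {s u : ℝ} (hs : 0 ≤ s) (hsu : s ≤ u ^ 38) (hu : 0 < u) (hu1 : 512 * u ≤ 1)
    {Δ : Set Edge} (h : PI Δ) {B : Finset Col} (hB : irr Δ = B) :
    s ^ en Δ ≤ u ^ B.card * u ^ (over_fin h (NQ B)).toFinset.card := by
  have h1 : (over_fin h (NQ B)).toFinset.card ≤ (NQ B).card + en Δ := by
    rw [← Set.ncard_eq_toFinset_card _ (over_fin h (NQ B))]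
    exact over_le h (NQ B)
  have h2 := card_NQ B
  have h3 : B.card ≤ 2 * en Δ := by
    have := irr_le h
    rw [hB] at this
    exact this
  have h4 : B.card + (over_fin h (NQ B)).toFinset.card ≤ 38 * en Δ := by omega
  have hu2 : u ≤ 1 := by linarith
  calc s ^ en Δ ≤ (u ^ 38) ^ en Δ := pow_le_pow_left₀ hs hsu _
    _ = u ^ (38 * en Δ) := by rw [← pow_mul]
    _ ≤ u ^ (B.card + (over_fin h (NQ B)).toFinset.card) :=
        pow_le_pow_of_le_one hu.le hu2 h4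
    _ = _ := pow_add _ _ _

theorem cnt_B {s u : ℝ} (hs : 0 ≤ s) (hsu : s ≤ u ^ 38) (hu : 0 < u) (hu1 : 512 * u ≤ 1) (L : ℕ)
    {B : Finset Col} (hne : B.Nonempty) (hc : Cn near (B : Set Col)) :
    ∑' Δ : DL L B, (if irr (Δ : Set Edge) = B then ENNReal.ofReal (s ^ en (Δ : Set Edge)) else 0) ≤
      ENNReal.ofReal (u ^ B.card) := by
  classical
  obtain ⟨x0, hx0, hx1⟩ := cnb_e0 hne
  rw [ENNReal.tsum_eq_iSup_sum]
  refine iSup_le fun T => ?_
  rw [← Finset.sum_filter]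
  rw [← ENNReal.ofReal_sum_of_nonneg (fun Δ _ => pow_nonneg hs _)]
  refine ENNReal.ofReal_le_ofReal ?_
  have hmem : ∀ Δ ∈ T.filter (fun Δ : DL L B => irr (Δ : Set Edge) = B),
      irr (Δ : Set Edge) = B := fun Δ hΔ => (Finset.mem_filter.mp hΔ).2
  have hPI : ∀ Δ : DL L B, PI (Δ : Set Edge) := fun Δ => Δ.2.1.1
  let D : DL L B → Finset Edge := fun Δ => (over_fin (hPI Δ) (NQ B)).toFinset
  have hDmem : ∀ (Δ : DL L B) (e : Edge), e ∈ D Δ ↔ e ∈ (Δ : Set Edge) ∧ bs e ⊆ NQ B := by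
    intro Δ e
    exact Set.Finite.mem_toFinset (over_fin (hPI Δ) (NQ B))
  have hinj : Set.InjOn D (T.filter (fun Δ : DL L B => irr (Δ : Set Edge) = B)) := by
    intro Δ hΔ Δ' hΔ' heq
    have h1 := hmem Δ (Finset.mem_coe.mp hΔ)
    have h2 := hmem Δ' (Finset.mem_coe.mp hΔ')
    apply Subtype.ext
    refine cnb_inj (hPI Δ) (hPI Δ') h1 h2 ?_
    intro e he
    have h3 : e ∈ D Δ ↔ e ∈ D Δ' := by rw [heq]
    rw [hDmem, hDmem] at h3
    constructor
    · intro h4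
      exact (h3.mp ⟨h4, he⟩).1
    · intro h4
      exact (h3.mpr ⟨h4, he⟩).1
  have hsum : ∑ Δ ∈ T.filter (fun Δ : DL L B => irr (Δ : Set Edge) = B), u ^ (D Δ).card ≤ 1 := by
    rw [← Finset.sum_image (f := fun X : Finset Edge => u ^ X.card) hinj]
    have h1 := cnt_sum adF 16 (by norm_num) adF_card
      (fun a b h => mem_adF.mpr (mem_adF.mp h).symm) (ve x0 0) 1 u hu.le
      (by norm_num; linarith)
      ((T.filter (fun Δ : DL L B => irr (Δ : Set Edge) = B)).image D) ?_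
    · refine h1.trans ?_
      norm_num
      linarith
    · intro X hX
      obtain ⟨Δ, hΔ, rfl⟩ := Finset.mem_image.mp hX
      have h2 := hmem Δ hΔ
      have h3 : ve x0 0 ∈ D Δ := by
        rw [hDmem]
        refine ⟨hx1 _ (hPI Δ) h2, ?_⟩
        rw [bs_ve, Finset.singleton_subset_iff]
        exact hx0
      refine ⟨h3, Finset.card_pos.mpr ⟨_, h3⟩, ?_⟩
      have h4 := ring_conn Δ.2.1 h2 hne hc
      have h5 : ((D Δ : Finset Edge) : Set Edge) = {e | e ∈ (Δ : Set Edge) ∧ bs e ⊆ NQ B} :=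
        Set.Finite.coe_toFinset _
      have h6 : (fun a b : Edge => b ∈ adF a) = Ad := by
        funext a b
        exact propext mem_adF
      rw [h5, h6]
      exact h4
  calc ∑ Δ ∈ T.filter (fun Δ : DL L B => irr (Δ : Set Edge) = B), s ^ en (Δ : Set Edge)
      ≤ ∑ Δ ∈ T.filter (fun Δ : DL L B => irr (Δ : Set Edge) = B),
          u ^ B.card * u ^ (D Δ).card :=
        Finset.sum_le_sum fun Δ hΔ => cnb_term hs hsu hu hu1 (hPI Δ) (hmem Δ hΔ)
    _ = u ^ B.card * ∑ Δ ∈ T.filter (fun Δ : DL L B => irr (Δ : Set Edge) = B),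
          u ^ (D Δ).card := by rw [Finset.mul_sum]
    _ ≤ u ^ B.card * 1 := mul_le_mul_of_nonneg_left hsum (pow_nonneg hu.le _)
    _ = u ^ B.card := mul_one _

end Pool.Agent.H78.DB
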