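import Pool.Agent.H72.DJ.Defs

/-!
# Conditioned Dobrushin random-cluster measures for large `p`, all `q ≥ 1`: definitions

MP_98e456_pr. Configurations are described by the set `F` of their CLOSED edges (an edge set with finite
difference to the plane `PP` of the vertical edges between the heights `0` and `1`).

* `Ad e f`: the edges `e`, `f` lie in a common unit square (`sq x i j`), i.e. the dual plaquettes share an edge.
* `Cl c`: the `Z/2`-cochain `c` is closed (even sum on every unit square).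
* `Z0 F`: closed cochains of finite support supported in `F`; `nn F` its dimension (the number of finite clusters of
  the complement of `F`).
* `Sep F`: `F` separates above from below: there is a closed cochain supported in `F` which differs from the plane `PP` in
  finitely many edges.
* `Intf Δ`: `Δ` is an interface: finite difference to `PP`, separating, without a non-empty finite subset which is
  isolated (`Isol`) in `Δ`.
* Columns `Col = Z²`; `bs e`: the base of an edge (one or two columns); `Reg Δ a`: over the column `a` there is exactly one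
  vertical edge of `Δ` and no horizontal edge of `Δ` touches `a`; `irr Δ` the finite set of the other columns; `HH Δ a` the
  lowest height of a vertical edge of `Δ` over `a`.
* `en Δ` the energy (number of edges minus number of edges of the plane).
* The gas of the other closed edges enters only through a function `Φ : Finset Edge → ℝ` with the properties `Bulk Φ μ`
  (Moebius coefficients `Ph` of the logarithm of its partition function `Xi`).
-/

set_option autoImplicit false

open scoped ENNReal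

namespace Pool.Agent.H78.DB

open Pool.Agent.H72.DJ

/-! ### Relations on arbitrary types -/

section gen

variable {V : Type}

/-- `G` is a subset of `F` which is closed under `r`-steps inside `F` -/
def Isol (r : V → V → Prop) (F G : Set V) : Prop := G ⊆ F ∧ ∀ e ∈ G, ∀ f ∈ F, r e f → f ∈ G

/-- `F` is connected with respect to `r` (the empty set is connected) -/
def Cn (r : V → V → Prop) (F : Set V) : Prop := ∀ G : Set V, Isol r F G → G.Nonempty → G = F

/-- the partition function `∑_{F ⊆ S} w F` -/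
noncomputable def Xi (w : Finset V → ℝ) (S : Finset V) : ℝ := ∑ F ∈ S.powerset, w F

/-- the Moebius transform `∑_{Z ⊆ Y} (-1)^|Y \ Z| f Z` -/
noncomputable def mob (f : Finset V → ℝ) (Y : Finset V) : ℝ :=
  ∑ Z ∈ Y.powerset, (-1 : ℝ) ^ (Y.card - Z.card) * f Z

/-- the Moebius transform of the logarithm of the partition function -/
noncomputable def Ph (w : Finset V → ℝ) : Finset V → ℝ := mob fun Y => Real.log (Xi w Y)

/-- the norm of the algebra of Moebius transforms of functions on the subsets of `X` -/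
noncomputable def nrm (θ : ℝ) (X : Finset V) (f : Finset V → ℝ) : ℝ :=
  ∑ Y ∈ X.powerset, |mob f Y| * θ⁻¹ ^ Y.card

/-- the hypotheses on the gas: `N e` the closed neighbourhood of `e`, `w` the weight -/
structure Gas (N : V → Finset V) (w : Finset V → ℝ) (lam : ℝ) : Prop where
  self : ∀ e, e ∈ N e
  symm : ∀ e f, f ∈ N e → e ∈ N f
  card : ∀ e, (N e).card ≤ 16
  w0 : w ∅ = 1
  wpos : ∀ F, 0 ≤ w F
  wmul : ∀ A B : Finset V, (∀ a ∈ A, ∀ b ∈ B, b ∉ N a) → ∀ C : Finset V, (∀ x, x ∈ C ↔ x ∈ A ∨ x ∈ B) →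
    w C = w A * w B
  wle : ∀ F, w F ≤ lam ^ F.card

end gen

/-! ### Columns, bases, squares -/

/-- the columns -/
abbrev Col : Type := ℤ × ℤ

/-- the horizontal part of the unit vectors -/
def dirc (i : Fin 3) : Col := (![(1, 0), (0, 1), (0, 0)] : Fin 3 → Col) i

/-- the column of a vertex -/
def pr (x : Vtx) : Col := (x.1, x.2.1)

/-- the base of an edge: the columns of its two ends -/
def bs (e : Edge) : Finset Col := {pr e.1, pr e.1 + dirc e.2}

/-- vertical translation -/
def sh (s : ℤ) (e : Edge) : Edge := ((e.1.1, e.1.2.1, e.1.2.2 + s), e.2)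

/-- the vertical edge over the column `a` from height `z` to height `z + 1` -/
def ve (a : Col) (z : ℤ) : Edge := ((a.1, a.2, z), 2)

/-- the four edges of the unit square at `x` with the directions `i`, `j` -/
def sq (x : Vtx) (i j : Fin 3) : Finset Edge := {(x, i), (x, j), (x + unit i, j), (x + unit j, i)}

/-- two edges in a common unit square -/
def Ad (e f : Edge) : Prop := ∃ (x : Vtx) (i j : Fin 3), i ≠ j ∧ e ∈ sq x i j ∧ f ∈ sq x i j

/-- the closed neighbourhood of an edge -/
def adF (e : Edge) : Finset Edge :=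
  (Finset.univ.filter fun j : Fin 3 => e.2 ≠ j).biUnion fun j =>
    sq e.1 e.2 j ∪ sq (e.1 - unit j) e.2 j

/-- equal or adjacent columns, diagonals included -/
def near (a b : Col) : Prop := |a.1 - b.1| ≤ 1 ∧ |a.2 - b.2| ≤ 1

/-- equal or nearest neighbour columns -/
def nb2 (a b : Col) : Prop := |a.1 - b.1| + |a.2 - b.2| ≤ 1

/-- the columns near `Q` -/
noncomputable def NQ (Q : Finset Col) : Finset Col :=
  Q.biUnion fun a => Finset.Icc (a.1 - 1) (a.1 + 1) ×ˢ Finset.Icc (a.2 - 1) (a.2 + 1)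

/-- separated sets of columns -/
def Sp (S T : Finset Col) : Prop := ∀ a ∈ S, ∀ b ∈ T, ¬ near a b

/-- the edge `e` touches the set of columns `S` -/
def To (S : Finset Col) (e : Edge) : Prop := ∃ a ∈ bs e, a ∈ S

/-- `σ` is constant along nearest neighbour steps outside `S` -/
def Fl (S : Finset Col) (σ : Col → ℤ) : Prop := ∀ a b, nb2 a b → a ∉ S → b ∉ S → σ a = σ b

/-- the square `[-L,L]²` of columns -/
noncomputable def sqr (L : ℕ) : Finset Col := Finset.Icc (-(L : ℤ)) L ×ˢ Finset.Icc (-(L : ℤ)) L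

/-- `a` is in the smallest rectangle containing `S` -/
def inbb (S : Finset Col) (a : Col) : Prop :=
  (∃ b ∈ S, b.1 ≤ a.1) ∧ (∃ b ∈ S, a.1 ≤ b.1) ∧ (∃ b ∈ S, b.2 ≤ a.2) ∧ ∃ b ∈ S, a.2 ≤ b.2

/-- no connected subset of `S` has a point of `K` in its smallest rectangle -/
def Away (K S : Finset Col) : Prop :=
  ∀ C : Finset Col, C ⊆ S → C.Nonempty → Cn near (C : Set Col) → ∀ k ∈ K, ¬ inbb C k

/-- the union of the bases -/
def bU (X : Finset Edge) : Finset Col := X.biUnion bs

/-! ### Cochains -/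

/-- closed cochains -/
def Cl (c : Edge → ZMod 2) : Prop := ∀ (x : Vtx) (i j : Fin 3), i ≠ j →
  c (x, i) + c (x + unit i, j) = c (x, j) + c (x + unit j, i)

theorem Cl.add {c c' : Edge → ZMod 2} (h : Cl c) (h' : Cl c') : Cl (c + c') := by
  intro x i j hij
  have h1 := h x i j hij
  have h2 := h' x i j hij
  simp only [Pi.add_apply]
  linear_combination h1 + h2

theorem Cl.smul {c : Edge → ZMod 2} (h : Cl c) (k : ZMod 2) : Cl (k • c) := by
  intro x i j hij
  have h1 := h x i j hij
  simp only [Pi.smul_apply, smul_eq_mul]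
  linear_combination k * h1

/-- the closed cochains of finite support supported in `F` -/
def Z0 (F : Set Edge) : Submodule (ZMod 2) (Edge → ZMod 2) where
  carrier := {c | {e | c e ≠ 0}.Finite ∧ (∀ e, c e ≠ 0 → e ∈ F) ∧ Cl c}
  add_mem' := by
    rintro c c' ⟨h1, h2, h3⟩ ⟨h1', h2', h3'⟩
    refine ⟨(h1.union h1').subset ?_, ?_, h3.add h3'⟩
    · intro e he
      by_contra hn
      rw [Set.mem_union, not_or] at hn
      have e1 : c e = 0 := not_not.1 hn.1
      have e2 : c' e = 0 := not_not.1 hn.2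
      exact he (by simp [e1, e2])
    · intro e he
      by_contra hn
      have e1 : c e = 0 := not_not.1 fun h => hn (h2 e h)
      have e2 : c' e = 0 := not_not.1 fun h => hn (h2' e h)
      exact he (by simp [e1, e2])
  zero_mem' := ⟨by simp, by simp, fun x i j _ => by simp⟩
  smul_mem' := by
    rintro k c ⟨h1, h2, h3⟩
    refine ⟨h1.subset ?_, ?_, h3.smul k⟩
    · intro e he h
      exact he (by simp [h])
    · intro e he
      exact h2 e fun h => he (by simp [h])

/-- the dimension of `Z0 F` -/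
noncomputable def nn (F : Set Edge) : ℕ := Module.finrank (ZMod 2) (Z0 F)

/-- the plane: the vertical edges between the heights `0` and `1` -/
def PP : Set Edge := {e | e.2 = 2 ∧ e.1.2.2 = 0}

open Classical in
/-- `c` is a separating cochain for `F` -/
def SepC (F : Set Edge) (c : Edge → ZMod 2) : Prop :=
  Cl c ∧ (∀ e, c e ≠ 0 → e ∈ F) ∧ {e | c e ≠ if e ∈ PP then 1 else 0}.Finite

/-- `F` separates above from below -/
def Sep (F : Set Edge) : Prop := ∃ c, SepC F c

/-- the horizontal edges of `F` -/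
def hor (F : Set Edge) : Set Edge := {e | e ∈ F ∧ e.2 ≠ 2}

/-! ### Interfaces -/

/-- finite difference to the plane, and separating -/
def PI (Δ : Set Edge) : Prop := {e | ¬ (e ∈ Δ ↔ e ∈ PP)}.Finite ∧ Sep Δ

/-- interfaces -/
def Intf (Δ : Set Edge) : Prop := PI Δ ∧ ∀ G : Set Edge, G.Finite → Isol Ad Δ G → G = ∅

/-- the lowest height of a vertical edge of `Δ` over the column `a` -/
noncomputable def HH (Δ : Set Edge) (a : Col) : ℤ := sInf {z | ve a z ∈ Δ}

/-- regular columns -/
def Reg (Δ : Set Edge) (a : Col) : Prop :=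
  (∀ z, ve a z ∈ Δ ↔ z = HH Δ a) ∧ ∀ e ∈ Δ, a ∈ bs e → e.2 = 2

open Classical in
/-- the finite set of the irregular columns -/
noncomputable def irr (Δ : Set Edge) : Finset Col :=
  if h : {a | ¬ Reg Δ a}.Finite then h.toFinset else ∅

/-- the number of the edges of `Δ` starting over `a` -/
noncomputable def nE (Δ : Set Edge) (a : Col) : ℕ := {e | e ∈ Δ ∧ pr e.1 = a}.ncard

/-- the number of the edges of `Δ` touching `a` -/
noncomputable def mE (Δ : Set Edge) (a : Col) : ℕ := {e | e ∈ Δ ∧ a ∈ bs e}.ncard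

/-- the energy -/
noncomputable def en (Δ : Set Edge) : ℕ := ∑ a ∈ irr Δ, (nE Δ a - 1)

/-- the number of the edges of `Δ` touching `a`, if `a` is irregular -/
noncomputable def mx (Δ : Set Edge) (a : Col) : ℕ := if a ∈ irr Δ then mE Δ a else 0

/-- the sum of `mx Δ a` over the columns near `Q` -/
noncomputable def mQ (Δ : Set Edge) (Q : Finset Col) : ℕ := ∑ a ∈ NQ Q, mx Δ a

/-- `Δ` is the plane outside `V` -/
def InV (V Δ : Set Edge) : Prop := ∀ e, e ∉ V → (e ∈ Δ ↔ e ∈ PP)

/-- the edges with an end over `[-L,L]²` -/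
def EL (L : ℕ) : Set Edge := {e | ∃ a ∈ bs e, a ∈ sqr L}

/-- the interfaces in the infinite cylinder over `[-L,L]²` with irregular columns in `S` -/
def DL (L : ℕ) (S : Finset Col) : Set (Set Edge) :=
  {Δ | Intf Δ ∧ InV (EL L) Δ ∧ irr Δ ⊆ S}

/-- `Δ` is glued from `Δ₁` (irregular over `S₁`) and `Δ₂` (irregular over `S₂`) -/
structure Gl (S₁ S₂ : Finset Col) (Δ Δ₁ Δ₂ : Set Edge) : Prop where
  sp : Sp S₁ S₂
  pi : PI Δ
  pi1 : PI Δ₁
  pi2 : PI Δ₂
  i : irr Δ ⊆ S₁ ∪ S₂
  i1 : irr Δ₁ ⊆ S₁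
  i2 : irr Δ₂ ⊆ S₂
  g1 : ∀ e, ¬ To S₂ e → (e ∈ Δ ↔ sh (-HH Δ₂ (pr e.1)) e ∈ Δ₁)
  g2 : ∀ e, ¬ To S₁ e → (e ∈ Δ ↔ sh (-HH Δ₁ (pr e.1)) e ∈ Δ₂)

theorem Sp.symm {S T : Finset Col} (h : Sp S T) : Sp T S := by
  intro a ha b hb hn
  refine h b hb a ha ⟨?_, ?_⟩
  · rw [abs_sub_comm]; exact hn.1
  · rw [abs_sub_comm]; exact hn.2

theorem Gl.symm {S₁ S₂ : Finset Col} {Δ Δ₁ Δ₂ : Set Edge} (h : Gl S₁ S₂ Δ Δ₁ Δ₂) :
    Gl S₂ S₁ Δ Δ₂ Δ₁ :=
  ⟨h.sp.symm, h.pi, h.pi2, h.pi1, by rw [Finset.union_comm]; exact h.i, h.i2, h.i1, h.g2, h.g1⟩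

/-! ### The gas -/

/-- the weight of a finite set of closed edges -/
noncomputable def wt (r q : ℝ) (F : Finset Edge) : ℝ := r ^ F.card * q ^ nn (F : Set Edge)

/-- what is used of the Moebius coefficients of the gas -/
structure Bulk (Φ : Finset Edge → ℝ) (μ : ℝ) : Prop where
  empty : Φ ∅ = 0
  conn : ∀ X : Finset Edge, ¬ Cn Ad (X : Set Edge) → Φ X = 0
  shift : ∀ (s : ℤ) (X : Finset Edge), Φ (X.image (sh s)) = Φ X
  sum : ∀ (g : Edge) (m : ℕ) (𝒳 : Finset (Finset Edge)), (∀ X ∈ 𝒳, g ∈ X ∧ m ≤ X.card) →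
    ∑ X ∈ 𝒳, |Φ X| ≤ 2 * μ ^ m

/-- `X` contains an edge of the closed neighbourhood of `Δ` -/
def hit (Δ : Set Edge) (X : Finset Edge) : Prop := ∃ f ∈ X, ∃ e ∈ Δ, Ad e f

open Classical in
/-- difference of the indicators of `hit Δ X` and `hit PP X` -/
noncomputable def chi (Δ : Set Edge) (X : Finset Edge) : ℝ :=
  (if hit Δ X then 1 else 0) - if hit PP X then 1 else 0

open Classical in
/-- the energy of the interaction of `Δ` with the gas in `V`, relative to the plane -/
noncomputable def JV (Φ : Finset Edge → ℝ) (V Δ : Set Edge) : ℝ :=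
  ∑' X : Finset Edge, if (X : Set Edge) ⊆ V then Φ X * chi Δ X else 0

open Classical in
/-- the part of `JV Φ (EL L) Δ` of the sets with base `Q` -/
noncomputable def sQ (Φ : Finset Edge → ℝ) (L : ℕ) (Q : Finset Col) (Δ : Set Edge) : ℝ :=
  ∑' X : Finset Edge, if (X : Set Edge) ⊆ EL L ∧ bU X = Q then Φ X * chi Δ X else 0

open Classical in
/-- the conditional probability (up to a constant factor) that the edges of `A` are open, given the interface -/
noncomputable def FA (Φ : Finset Edge → ℝ) (V : Set Edge) (A : Finset Edge) (Δ : Set Edge) : ℝ :=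
  if ∀ e ∈ A, e ∉ Δ then
    Real.exp (-∑' X : Finset Edge, if (X : Set Edge) ⊆ V ∧ (∃ e ∈ X, e ∈ A) ∧ ¬ hit Δ X then Φ X else 0)
  else 0

open Classical in
/-- the local approximation of `FA` -/
noncomputable def FAm (Φ : Finset Edge → ℝ) (A : Finset Edge) (m : ℕ) (Δ : Set Edge) : ℝ :=
  if ∀ e ∈ A, e ∉ Δ then
    Real.exp (-∑' X : Finset Edge, if X.card ≤ m ∧ (∃ e ∈ X, e ∈ A) ∧ ¬ hit Δ X then Φ X else 0)
  else 0

/-- the function `F` of the interface depends only on its edges over `K` -/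
def Loc (K : Finset Col) (F : Set Edge → ℝ) : Prop :=
  ∀ Δ Δ' : Set Edge, (∀ e, bs e ⊆ K → (e ∈ Δ ↔ e ∈ Δ')) → F Δ = F Δ'

/-! ### Decorated interfaces -/

open Classical in
/-- the connected non-empty subsets of `R` -/
noncomputable def QR (R : Finset Col) : Finset (Finset Col) :=
  R.powerset.filter fun Q => Q.Nonempty ∧ Cn nb2 (Q : Set Col)

/-- the total weight of the sets near the column `a` -/
noncomputable def tR (τ : ℝ) (R : Finset Col) (a : Col) : ℝ :=
  ∑ Q ∈ (QR R).filter fun Q => a ∈ NQ Q, τ ^ Q.card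

/-- the (positive) activity of the decoration `Q` -/
noncomputable def fQ (Φ : Finset Edge → ℝ) (τ : ℝ) (L : ℕ) (Q : Finset Col) (Δ : Set Edge) : ℝ :=
  Real.exp (τ ^ Q.card * mQ Δ Q - sQ Φ L Q Δ) - 1

/-- the weight of the interface `Δ` with all its decorations of base `S` -/
noncomputable def gw (Φ : Finset Edge → ℝ) (r q τ : ℝ) (L : ℕ) (R : Finset Col) (Δ : Set Edge)
    (S : Finset Col) : ℝ :=
  r ^ en Δ * q ^ nn Δ * Real.exp (-∑ a ∈ irr Δ, (mE Δ a : ℝ) * tR τ R a) *
    ∑ 𝒬 ∈ (QR R).powerset.filter fun 𝒬 => irr Δ ∪ 𝒬.biUnion id = S, ∏ Q ∈ 𝒬, fQ Φ τ L Q Δ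

/-- the weight of an interface in the infinite cylinder, relative to the plane -/
noncomputable def wL (Φ : Finset Edge → ℝ) (r q : ℝ) (L : ℕ) (Δ : Set Edge) : ℝ :=
  r ^ en Δ * q ^ nn Δ * Real.exp (-JV Φ (EL L) Δ)

/-- the sum over the interfaces of `F` times the weight of the decorated interfaces of base `S` -/
noncomputable def aS (Φ : Finset Edge → ℝ) (r q τ : ℝ) (L : ℕ) (R : Finset Col) (F : Set Edge → ℝ)
    (S : Finset Col) : ℝ≥0∞ :=
  ∑' Δ : DL L S, ENNReal.ofReal (F Δ * gw Φ r q τ L R Δ S)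

/-- the sum of `F` times the weight over all interfaces in the infinite cylinder -/
noncomputable def NL (Φ : Finset Edge → ℝ) (r q : ℝ) (L : ℕ) (F : Set Edge → ℝ) : ℝ≥0∞ :=
  ∑' Δ : DL L (sqr (L + 1)), ENNReal.ofReal (F Δ * wL Φ r q L Δ)

/-- the parameters: `κ` is the smallness of the weights per column, `τ` that of the decorations, `ν²` that of the gas -/
structure Par (Φ : Finset Edge → ℝ) (r q τ κ ν : ℝ) : Prop where
  r0 : 0 < r
  q1 : 1 ≤ q
  ν0 : 0 ≤ ν
  τ0 : 0 < τ
  bulk : Bulk Φ (ν ^ 2)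
  ντ : 1216 * ν ≤ τ
  τκ : 7200 * τ ≤ κ
  κ1 : 10000 * κ ≤ 1
  rq : 3 * (r * q) ≤ κ ^ 38

/-- real version of `aS` -/
noncomputable def aR (Φ : Finset Edge → ℝ) (r q τ : ℝ) (L : ℕ) (R : Finset Col) (F : Set Edge → ℝ)
    (S : Finset Col) : ℝ := (aS Φ r q τ L R F S).toReal

/-- real version of `NL` -/
noncomputable def NR (Φ : Finset Edge → ℝ) (r q : ℝ) (L : ℕ) (F : Set Edge → ℝ) : ℝ :=
  (NL Φ r q L F).toReal

/-- the abstract setting of the comparison of two volumes: weights `a`, `a'` of finite sets of columns, multiplicative over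
separated sets, equal for sets in `sqr L`, and weights `aF`, `a'F` with the observable inserted -/
structure Sw (K : Finset Col) (L : ℕ) (C ε : ℝ) (a a' aF aF' : Finset Col → ℝ) : Prop where
  C0 : 0 ≤ C
  ε0 : 0 ≤ ε
  nn : ∀ S, 0 ≤ a S ∧ 0 ≤ a' S ∧ 0 ≤ aF S ∧ 0 ≤ aF' S
  e : a ∅ = 1 ∧ a' ∅ = 1
  le : ∀ S, aF S ≤ C * a S ∧ aF' S ≤ C * a' S
  mul : ∀ S T, Sp S T → a (S ∪ T) = a S * a T ∧ a' (S ∪ T) = a' S * a' T
  mulF : ∀ S T, Sp S T → Away K T → aF (S ∪ T) = aF S * a T ∧ aF' (S ∪ T) = aF' S * a' T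
  ind : ∀ S, S ⊆ sqr L → a S = a' S ∧ aF S = aF' S
  bd : ∀ S, a S ≤ ε ^ S.card ∧ a' S ≤ ε ^ S.card

/-- `C` is a component of `T` with respect to `near` -/
def IsComp (T C : Finset Col) : Prop :=
  C ⊆ T ∧ C.Nonempty ∧ Cn near (C : Set Col) ∧ Sp C (T \ C)

open Classical in
/-- the union of the components of `T` with a point of `K` in their smallest rectangle -/
noncomputable def DK (K T : Finset Col) : Finset Col :=
  T.filter fun a => ∃ C, IsComp T C ∧ a ∈ C ∧ ∃ k ∈ K, inbb C k

/-! ### Finite volume -/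

/-- the part of the plane outside the box -/
def out (L M : ℕ) : Set Edge := PP \ (edges L M : Set Edge)

/-- the set of the closed edges of a configuration -/
def clo (ω : Conf) : Set Edge := {e | ω e = false}

end Pool.Agent.H78.DB
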