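import Pool.Agent.H78.DB.BscA

/-!
# Module Nnu: the dimension of the space of finite closed cochains

`hor_zero`: if `c` is closed, of finite support and zero on all horizontal edges, then by the squares `(x, i, 2)`
`c (x, 2) = c (x + unit i, 2)`, so along the ray `x + n unit 0` the value is constant, hence zero (finite support).
`Z0_fin`, `nn_hor`: the linear map `Z0 F → (hor F → ZMod 2)` (restriction) is injective by `hor_zero` (outside `F` the
cochain vanishes); `LinearMap.finrank_le_finrank_of_injective`, `Module.Finite.of_injective`, and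
`finrank (hor F → ZMod 2) = (hor F).ncard` (`hor F` finite).
`nn_union`: `c ↦ (c restricted to F1, c restricted to F2)` is a linear isomorphism `Z0 (F1 ∪ F2) ≃ Z0 F1 × Z0 F2`: `F1` and
`F2` are disjoint (`Ad_self`) and no square contains edges of both, so `F1` is isolated in `F1 ∪ F2` and `cl_restrict`
applies; inverse: sum. `Module.finrank_prod`. `nn_sh`: precomposition with `sh (-s)` is an isomorphism (`cl_sh`).
-/

set_option autoImplicit false

namespace Pool.Agent.H78.DB

open Pool.Agent.H72.DJ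

theorem hor_zero {c : Edge → ZMod 2} (hc : Cl c) (hf : {e | c e ≠ 0}.Finite)
    (h0 : ∀ e : Edge, e.2 ≠ 2 → c e = 0) : c = 0 := by
  funext e
  obtain ⟨x, i⟩ := e
  by_cases hi : i = 2
  · subst hi
    by_contra hne
    have hne' : c (x, 2) ≠ 0 := hne
    have hstep : ∀ y : Vtx, c (y + unit 0, 2) = c (y, 2) := by
      intro y
      have h1 := hc y 0 2 (by decide)
      rw [h0 (y, 0) (by simp), h0 (y + unit 2, 0) (by simp)] at h1
      simpa using h1
    have hall : ∀ n : ℕ, c ((x.1 + n, x.2.1, x.2.2), 2) = c (x, 2) := by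
      intro n
      induction n with
      | zero => simp
      | succ n ih =>
        rw [← ih, ← hstep (x.1 + n, x.2.1, x.2.2)]
        congr 2
        simp [unit, add_assoc]
    refine Set.infinite_of_injective_forall_mem (f := fun n : ℕ => (((x.1 + n, x.2.1, x.2.2), 2) : Edge))
      ?_ ?_ hf
    · intro a b hab
      have h1 := congrArg (fun e : Edge => e.1.1) hab
      simp only at h1
      exact_mod_cast (add_left_cancel h1)
    · intro n
      have h1 := hall n
      simp only [Set.mem_setOf_eq]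
      rw [h1]
      exact hne'
  · exact h0 (x, i) hi

/-- restriction to the horizontal edges -/
private def Nnu_R (F : Set Edge) : Z0 F →ₗ[ZMod 2] (hor F → ZMod 2) where
  toFun c := fun e => c.1 e.1
  map_add' _ _ := rfl
  map_smul' _ _ := rfl

private theorem Nnu_inj (F : Set Edge) : Function.Injective (Nnu_R F) := by
  rw [← LinearMap.ker_eq_bot, LinearMap.ker_eq_bot']
  rintro ⟨c, h1, h2, h3⟩ hc
  have h4 : c = 0 := by
    refine hor_zero h3 h1 fun e he => ?_
    by_contra hne
    exact hne (congrFun hc ⟨e, h2 e hne, he⟩)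
  exact Subtype.ext h4

theorem Z0_fin {F : Set Edge} (h : (hor F).Finite) : Module.Finite (ZMod 2) (Z0 F) := by
  have : Finite (hor F) := h
  exact Module.Finite.of_injective (Nnu_R F) (Nnu_inj F)

theorem nn_hor {F : Set Edge} (h : (hor F).Finite) : nn F ≤ (hor F).ncard := by
  have : Finite (hor F) := h
  have := Fintype.ofFinite (hor F)
  have h1 := LinearMap.finrank_le_finrank_of_injective (Nnu_inj F)
  rw [Module.finrank_pi] at h1
  rw [← Nat.card_coe_set_eq, Nat.card_eq_fintype_card]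
  exact h1

theorem nn_empty : nn ∅ = 0 := by
  have h0 : hor ∅ = ∅ := by
    ext e
    simp [hor]
  have h1 := nn_hor (F := ∅) (by rw [h0]; exact Set.finite_empty)
  rw [h0, Set.ncard_empty] at h1
  omega

private theorem Nnu_mono {F F' : Set Edge} (h : F ⊆ F') : Z0 F ≤ Z0 F' := by
  rintro c ⟨h1, h2, h3⟩
  exact ⟨h1, fun e he => h (h2 e he), h3⟩

private theorem Nnu_half {F₁ F₂ : Set Edge} (h : ∀ e ∈ F₁, ∀ f ∈ F₂, ¬ Ad e f)
    {c : Edge → ZMod 2} (hc : c ∈ Z0 (F₁ ∪ F₂)) :
    ∃ c₁ ∈ Z0 F₁, ∀ e, (e ∈ F₁ → c₁ e = c e) ∧ (e ∉ F₁ → c₁ e = 0) := by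
  classical
  obtain ⟨h1, h2, h3⟩ := hc
  refine ⟨fun e => if e ∈ F₁ then c e else 0, ⟨?_, ?_, ?_⟩, fun e => ⟨fun he => if_pos he,
    fun he => if_neg he⟩⟩
  · refine h1.subset ?_
    intro e he hce
    apply he
    simp only
    split_ifs
    · exact hce
    · rfl
  · intro e he
    by_contra hn
    exact he (if_neg hn)
  · have hI : Isol Ad (F₁ ∪ F₂) F₁ := by
      refine ⟨Set.subset_union_left, fun e he f hf hef => ?_⟩
      rcases hf with hf | hf
      · exact hf
      · exact absurd hef (h e he f hf)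
    have h4 := cl_restrict hI h3 h2
    convert h4 using 1

theorem nn_union {F₁ F₂ : Set Edge} (h₁ : (hor F₁).Finite) (h₂ : (hor F₂).Finite)
    (h : ∀ e ∈ F₁, ∀ f ∈ F₂, ¬ Ad e f) : nn (F₁ ∪ F₂) = nn F₁ + nn F₂ := by
  have := Z0_fin h₁
  have := Z0_fin h₂
  have hd : ∀ e ∈ F₁, e ∉ F₂ := fun e he he' => h e he e he' (Ad_self e)
  have hsup : Z0 F₁ ⊔ Z0 F₂ = Z0 (F₁ ∪ F₂) := by
    apply le_antisymm
    · exact sup_le (Nnu_mono Set.subset_union_left) (Nnu_mono Set.subset_union_right)
    · intro c hc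
      obtain ⟨c₁, hc₁, e₁⟩ := Nnu_half h hc
      have hc' : c ∈ Z0 (F₂ ∪ F₁) := by rwa [Set.union_comm]
      obtain ⟨c₂, hc₂, e₂⟩ := Nnu_half (fun e he f hf hef => h f hf e he hef.symm) hc'
      refine Submodule.mem_sup.2 ⟨c₁, hc₁, c₂, hc₂, ?_⟩
      funext e
      rw [Pi.add_apply]
      by_cases he1 : e ∈ F₁
      · rw [(e₁ e).1 he1, (e₂ e).2 (hd e he1), add_zero]
      · rw [(e₁ e).2 he1, zero_add]
        by_cases he2 : e ∈ F₂
        · exact (e₂ e).1 he2
        · rw [(e₂ e).2 he2]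
          by_contra hne
          rcases hc.2.1 e (fun h0 => hne h0.symm) with h' | h'
          · exact he1 h'
          · exact he2 h'
  have hinf : Z0 F₁ ⊓ Z0 F₂ = ⊥ := by
    rw [eq_bot_iff]
    rintro c ⟨hc1, hc2⟩
    rw [Submodule.mem_bot]
    funext e
    by_contra hne
    exact hd e (hc1.2.1 e hne) (hc2.2.1 e hne)
  have h5 := Submodule.finrank_sup_add_finrank_inf_eq (Z0 F₁) (Z0 F₂)
  rw [hsup, hinf, finrank_bot, add_zero] at h5
  exact h5

/-- the translation as a permutation -/
private def Nnu_E (s : ℤ) : Edge ≃ Edge where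
  toFun := sh s
  invFun := sh (-s)
  left_inv e := by rw [sh_sh, neg_add_cancel, sh_zero]
  right_inv e := by rw [sh_sh, add_neg_cancel, sh_zero]

theorem nn_sh (s : ℤ) (F : Set Edge) : nn (sh s '' F) = nn F := by
  have hmap : (Z0 (sh s '' F)).map
      ((LinearEquiv.funCongrLeft (ZMod 2) (ZMod 2) (Nnu_E s)) :
        (Edge → ZMod 2) →ₗ[ZMod 2] (Edge → ZMod 2)) = Z0 F := by
    ext c
    rw [Submodule.mem_map]
    constructor
    · rintro ⟨c', ⟨h1, h2, h3⟩, rfl⟩
      refine ⟨?_, ?_, ?_⟩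
      · exact h1.preimage (sh_inj s).injOn
      · intro e he
        obtain ⟨e', he', hee⟩ := h2 (sh s e) he
        rwa [← sh_inj s hee]
      · exact cl_sh h3 s
    · rintro ⟨h1, h2, h3⟩
      refine ⟨fun e => c (sh (-s) e), ⟨?_, ?_, ?_⟩, ?_⟩
      · exact h1.preimage (sh_inj (-s)).injOn
      · intro e he
        refine ⟨sh (-s) e, h2 _ he, ?_⟩
        rw [sh_sh, add_neg_cancel, sh_zero]
      · exact cl_sh h3 (-s)
      · funext e
        change c (sh (-s) (sh s e)) = c e
        rw [sh_sh, neg_add_cancel, sh_zero]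
  unfold nn
  rw [← hmap]
  exact (LinearEquiv.finrank_map_eq (LinearEquiv.funCongrLeft (ZMod 2) (ZMod 2) (Nnu_E s)) _).symm

/-- the number of elements of `Z0 F` -/
theorem card_Z0 {F : Set Edge} (h : (hor F).Finite) : Nat.card (Z0 F) = 2 ^ nn F := by
  have := Z0_fin h
  rw [Module.natCard_eq_pow_finrank (K := ZMod 2) (V := Z0 F), Nat.card_zmod]
  rfl

end Pool.Agent.H78.DB
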