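import Pool.Agent.H78.DB.BscB
import Pool.Agent.H78.DB.Nnu

/-!
# Module Enr: the energy

All sets `{e | e ∈ Δ ∧ pr e.1 = a}`, `{e | e ∈ Δ ∧ a ∈ bs e}` are finite (`sec_fin`). `nE_pos`: the edge `ve a (HH Δ a)`.
`nE_reg`, `mE_reg`: `reg_iff` (for `nE` use `pr_mem_bs`). `hor_le`: the horizontal edges `e` of `Δ` have `pr e.1` irregular
(`Reg`) and over each `a` there is at least one vertical edge, so `#{e ∈ hor Δ | pr e.1 = a} ≤ nE Δ a - 1`; sum over `irr Δ`.
`nn_le`: `nn_hor` and `hor_le`. `irr_le`: let `a` be irregular. If `nE Δ a = 1`, then the only edge starting over `a` is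
`ve a (HH Δ a)`, so irregularity means that there is a horizontal edge `e ∈ Δ` with `a ∈ bs e`, `pr e.1 ≠ a`, so
`a = pr e.1 + dirc e.2`: the number of these `a` is at most the number of horizontal edges, `≤ en Δ` (`hor_le`); the number of
the irregular `a` with `nE Δ a ≥ 2` is at most `∑ (nE Δ a - 1) = en Δ`. `msum_le`: `mE Δ a ≤ nE Δ a + #{e ∈ hor Δ | pr e.1 +
dirc e.2 = a}`, so the sum is at most `∑ (nE Δ a - 1) + |irr Δ| + |hor Δ| ≤ en + 2 en + en`. `over_le`: an edge with base in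
`K` starts over a column of `K`; `∑_{a ∈ K} nE Δ a = |K| + ∑_{a ∈ K} (nE Δ a - 1)`, the last terms vanish for regular `a`
(`nE_reg`), so the sum is at most `en Δ`; also `nE Δ a ≤ mE Δ a = mx Δ a` for irregular `a`.
-/

set_option autoImplicit false

namespace Pool.Agent.H78.DB

open Pool.Agent.H72.DJ

private theorem Enr_mfin {Δ : Set Edge} (h : PI Δ) (a : Col) : {e | e ∈ Δ ∧ a ∈ bs e}.Finite :=
  (sec_fin h {a}).subset fun _ he => ⟨he.1, a, he.2, Finset.mem_singleton_self a⟩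

private theorem Enr_sub (Δ : Set Edge) (a : Col) :
    {e | e ∈ Δ ∧ pr e.1 = a} ⊆ {e | e ∈ Δ ∧ a ∈ bs e} := fun e he =>
  ⟨he.1, by have h1 := pr_mem_bs e; rw [he.2] at h1; exact h1⟩

private theorem Enr_sfin {Δ : Set Edge} (h : PI Δ) (a : Col) : {e | e ∈ Δ ∧ pr e.1 = a}.Finite :=
  (Enr_mfin h a).subset (Enr_sub Δ a)

private theorem Enr_prve (a : Col) (z : ℤ) : pr (ve a z).1 = a := rfl

private theorem Enr_veS {Δ : Set Edge} (h : PI Δ) (a : Col) :
    ve a (HH Δ a) ∈ {e | e ∈ Δ ∧ pr e.1 = a} := ⟨HH_mem h a, rfl⟩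

theorem nE_pos {Δ : Set Edge} (h : PI Δ) (a : Col) : 1 ≤ nE Δ a := by
  rw [nE, Nat.one_le_iff_ne_zero, ← Nat.pos_iff_ne_zero, Set.ncard_pos (Enr_sfin h a)]
  exact ⟨_, Enr_veS h a⟩

theorem nE_reg {Δ : Set Edge} (h : PI Δ) {a : Col} (ha : a ∉ irr Δ) : nE Δ a = 1 := by
  have h1 : {e | e ∈ Δ ∧ pr e.1 = a} = {ve a (HH Δ a)} := by
    ext e
    rw [Set.mem_singleton_iff]
    constructor
    · intro he
      exact (reg_iff h ha (Enr_sub Δ a he).2).1 he.1
    · rintro rfl
      exact Enr_veS h a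
  rw [nE, h1, Set.ncard_singleton]

theorem mE_reg {Δ : Set Edge} (h : PI Δ) {a : Col} (ha : a ∉ irr Δ) : mE Δ a = 1 := by
  have h1 : {e | e ∈ Δ ∧ a ∈ bs e} = {ve a (HH Δ a)} := by
    ext e
    rw [Set.mem_singleton_iff]
    constructor
    · intro he
      exact (reg_iff h ha he.2).1 he.1
    · rintro rfl
      exact Enr_sub Δ a (Enr_veS h a)
  rw [mE, h1, Set.ncard_singleton]

theorem nE_le_mE {Δ : Set Edge} (h : PI Δ) (a : Col) : nE Δ a ≤ mE Δ a := by
  exact Set.ncard_le_ncard (Enr_sub Δ a) (Enr_mfin h a)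

theorem hor_le {Δ : Set Edge} (h : PI Δ) : (hor Δ).ncard ≤ en Δ := by
  classical
  set H := (hor_fin h).toFinset with hH
  have hmem : ∀ e, e ∈ H ↔ e ∈ Δ ∧ e.2 ≠ 2 := fun e => by
    rw [hH, Set.Finite.mem_toFinset]
    rfl
  have hirr : ∀ e ∈ H, pr e.1 ∈ irr Δ := by
    intro e he
    by_contra hn
    have h1 := (reg_iff h hn (pr_mem_bs e)).1 ((hmem e).1 he).1
    exact ((hmem e).1 he).2 (by rw [h1]; rfl)
  rw [Set.ncard_eq_toFinset_card _ (hor_fin h), ← hH,
    Finset.card_eq_sum_card_fiberwise (f := fun e : Edge => pr e.1) (t := irr Δ) hirr, en]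
  refine Finset.sum_le_sum fun a _ => ?_
  have h2 : ve a (HH Δ a) ∉ H.filter fun e => pr e.1 = a := by
    intro h3
    exact ((hmem _).1 (Finset.mem_filter.1 h3).1).2 rfl
  have h4 : (insert (ve a (HH Δ a)) (H.filter fun e => pr e.1 = a)).card ≤ nE Δ a := by
    rw [nE, Set.ncard_eq_toFinset_card _ (Enr_sfin h a)]
    refine Finset.card_le_card fun e he => ?_
    rw [Set.Finite.mem_toFinset]
    rw [Finset.mem_insert] at he
    rcases he with rfl | he
    · exact Enr_veS h a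
    · rw [Finset.mem_filter] at he
      exact ⟨((hmem e).1 he.1).1, he.2⟩
  rw [Finset.card_insert_of_notMem h2] at h4
  omega

theorem nn_le {Δ : Set Edge} (h : PI Δ) : nn Δ ≤ en Δ := by
  exact (nn_hor (hor_fin h)).trans (hor_le h)

theorem irr_le {Δ : Set Edge} (h : PI Δ) : (irr Δ).card ≤ 2 * en Δ := by
  classical
  set H := (hor_fin h).toFinset with hH
  have hmem : ∀ e, e ∈ H ↔ e ∈ Δ ∧ e.2 ≠ 2 := fun e => by
    rw [hH, Set.Finite.mem_toFinset]
    rfl
  have hHc : H.card ≤ en Δ := by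
    have h1 := hor_le h
    rwa [Set.ncard_eq_toFinset_card _ (hor_fin h), ← hH] at h1
  have hsub : irr Δ ⊆ H.image (fun e : Edge => pr e.1 + dirc e.2) ∪ (irr Δ).filter (fun a => 2 ≤ nE Δ a) := by
    intro a ha
    rw [Finset.mem_union]
    by_cases h2 : 2 ≤ nE Δ a
    · exact Or.inr (Finset.mem_filter.2 ⟨ha, h2⟩)
    · left
      have h1 : nE Δ a = 1 := le_antisymm (by omega) (nE_pos h a)
      obtain ⟨e0, he0⟩ := Set.ncard_eq_one.1 h1
      have h3 : e0 = ve a (HH Δ a) := by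
        have h4 := Enr_veS h a
        rw [he0] at h4
        exact (Set.mem_singleton_iff.1 h4).symm
      have h5 : ∀ e ∈ Δ, pr e.1 = a → e = ve a (HH Δ a) := by
        intro e he hpe
        have h6 : e ∈ {e | e ∈ Δ ∧ pr e.1 = a} := ⟨he, hpe⟩
        rw [he0] at h6
        rw [Set.mem_singleton_iff.1 h6, h3]
      have h6 : ∃ e ∈ Δ, a ∈ bs e ∧ e.2 ≠ 2 := by
        by_contra hcon
        push Not at hcon
        refine (mem_irr h).1 ha (reg_of (s := HH Δ a) (fun z => ?_) fun e he hae => hcon e he hae).1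
        constructor
        · intro hz
          exact ve_inj a (h5 _ hz rfl)
        · rintro rfl
          exact HH_mem h a
      obtain ⟨e, he, hae, h2e⟩ := h6
      refine Finset.mem_image.2 ⟨e, (hmem e).2 ⟨he, h2e⟩, ?_⟩
      rw [bs, Finset.mem_insert, Finset.mem_singleton] at hae
      rcases hae with hae | hae
      · exact absurd (by rw [h5 e he hae.symm]; rfl) h2e
      · exact hae.symm
  have h7 : ((irr Δ).filter (fun a => 2 ≤ nE Δ a)).card ≤ en Δ := by
    rw [Finset.card_filter, en]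
    refine Finset.sum_le_sum fun a _ => ?_
    split_ifs with h8
    · omega
    · exact Nat.zero_le _
  have h8 := Finset.card_le_card hsub
  have h9 := h8.trans (Finset.card_union_le _ _)
  have h10 : (H.image (fun e : Edge => pr e.1 + dirc e.2)).card ≤ H.card := Finset.card_image_le
  omega

theorem msum_le {Δ : Set Edge} (h : PI Δ) : ∑ a ∈ irr Δ, mE Δ a ≤ 4 * en Δ := by
  classical
  set H := (hor_fin h).toFinset with hH
  have hmem : ∀ e, e ∈ H ↔ e ∈ Δ ∧ e.2 ≠ 2 := fun e => by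
    rw [hH, Set.Finite.mem_toFinset]
    rfl
  have hHc : H.card ≤ en Δ := by
    have h1 := hor_le h
    rwa [Set.ncard_eq_toFinset_card _ (hor_fin h), ← hH] at h1
  have h1 : ∀ a, mE Δ a ≤ nE Δ a + (H.filter fun e => pr e.1 + dirc e.2 = a).card := by
    intro a
    rw [mE, nE, Set.ncard_eq_toFinset_card _ (Enr_mfin h a), Set.ncard_eq_toFinset_card _ (Enr_sfin h a)]
    refine (Finset.card_le_card fun e he => ?_).trans (Finset.card_union_le _ _)
    rw [Set.Finite.mem_toFinset] at he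
    rw [Finset.mem_union, Set.Finite.mem_toFinset, Finset.mem_filter, hmem]
    have h2 := he.2
    rw [bs, Finset.mem_insert, Finset.mem_singleton] at h2
    by_cases h3 : pr e.1 = a
    · exact Or.inl ⟨he.1, h3⟩
    · rcases h2 with h2 | h2
      · exact absurd h2.symm h3
      · refine Or.inr ⟨⟨he.1, fun h4 => h3 ?_⟩, h2.symm⟩
        rw [h4] at h2
        have h5 : dirc 2 = 0 := rfl
        rw [h5, add_zero] at h2
        exact h2.symm
  have h2 : ∑ a ∈ irr Δ, nE Δ a = en Δ + (irr Δ).card := by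
    rw [en, Finset.card_eq_sum_ones, ← Finset.sum_add_distrib]
    refine Finset.sum_congr rfl fun a _ => ?_
    have h3 := nE_pos h a
    omega
  have h3 : ∑ a ∈ irr Δ, (H.filter fun e => pr e.1 + dirc e.2 = a).card ≤ H.card := by
    rw [Finset.sum_card_fiberwise_eq_card_filter]
    exact Finset.card_filter_le _ _
  have h4 := Finset.sum_le_sum fun a (_ : a ∈ irr Δ) => h1 a
  rw [Finset.sum_add_distrib, h2] at h4
  have h5 := irr_le h
  omega

theorem en_sum {Δ : Set Edge} (h : PI Δ) {K : Finset Col} (hK : irr Δ ⊆ K) :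
    en Δ = ∑ a ∈ K, (nE Δ a - 1) := by
  rw [en]
  refine Finset.sum_subset hK fun a _ ha => ?_
  exact Nat.sub_eq_zero_of_le (nE_reg h ha).le

theorem over_le {Δ : Set Edge} (h : PI Δ) (K : Finset Col) :
    {e | e ∈ Δ ∧ bs e ⊆ K}.ncard ≤ K.card + en Δ := by
  classical
  have h1 : {e | e ∈ Δ ∧ bs e ⊆ K}.ncard ≤ ∑ a ∈ K, nE Δ a := by
    have hf : {e | e ∈ Δ ∧ bs e ⊆ K}.Finite :=
      (sec_fin h K).subset fun e he => ⟨he.1, pr e.1, pr_mem_bs e, he.2 (pr_mem_bs e)⟩
    rw [Set.ncard_eq_toFinset_card _ hf,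
      Finset.card_eq_sum_card_fiberwise (f := fun e : Edge => pr e.1) (t := K) fun e he => by
        have h2 : e ∈ {e | e ∈ Δ ∧ bs e ⊆ K} := (Set.Finite.mem_toFinset hf).1 he
        exact h2.2 (pr_mem_bs e)]
    refine Finset.sum_le_sum fun a _ => ?_
    rw [nE, Set.ncard_eq_toFinset_card _ (Enr_sfin h a)]
    refine Finset.card_le_card fun e he => ?_
    rw [Finset.mem_filter, Set.Finite.mem_toFinset] at he
    rw [Set.Finite.mem_toFinset]
    exact ⟨he.1.1, he.2⟩
  have h2 : ∑ a ∈ K, nE Δ a = K.card + ∑ a ∈ K, (nE Δ a - 1) := by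
    rw [Finset.card_eq_sum_ones, ← Finset.sum_add_distrib]
    refine Finset.sum_congr rfl fun a _ => ?_
    have h3 := nE_pos h a
    omega
  have h3 : ∑ a ∈ K, (nE Δ a - 1) ≤ en Δ := by
    rw [en_sum h (K := K ∪ irr Δ) Finset.subset_union_right]
    exact Finset.sum_le_sum_of_subset Finset.subset_union_left
  omega

theorem over_le' {Δ : Set Edge} (h : PI Δ) (K : Finset Col) :
    {e | e ∈ Δ ∧ bs e ⊆ K}.ncard ≤ K.card + ∑ a ∈ K, mx Δ a := by
  classical
  have h1 : {e | e ∈ Δ ∧ bs e ⊆ K}.ncard ≤ ∑ a ∈ K, nE Δ a := by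
    have hf : {e | e ∈ Δ ∧ bs e ⊆ K}.Finite :=
      (sec_fin h K).subset fun e he => ⟨he.1, pr e.1, pr_mem_bs e, he.2 (pr_mem_bs e)⟩
    rw [Set.ncard_eq_toFinset_card _ hf,
      Finset.card_eq_sum_card_fiberwise (f := fun e : Edge => pr e.1) (t := K) fun e he => by
        have h2 : e ∈ {e | e ∈ Δ ∧ bs e ⊆ K} := (Set.Finite.mem_toFinset hf).1 he
        exact h2.2 (pr_mem_bs e)]
    refine Finset.sum_le_sum fun a _ => ?_
    rw [nE, Set.ncard_eq_toFinset_card _ (Enr_sfin h a)]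
    refine Finset.card_le_card fun e he => ?_
    rw [Finset.mem_filter, Set.Finite.mem_toFinset] at he
    rw [Set.Finite.mem_toFinset]
    exact ⟨he.1.1, he.2⟩
  refine h1.trans ?_
  rw [Finset.card_eq_sum_ones, ← Finset.sum_add_distrib]
  refine Finset.sum_le_sum fun a _ => ?_
  rw [mx]
  split_ifs with h2
  · have h3 := nE_le_mE h a
    omega
  · rw [nE_reg h h2]

theorem over_fin {Δ : Set Edge} (h : PI Δ) (K : Finset Col) : {e | e ∈ Δ ∧ bs e ⊆ K}.Finite := by
  exact (sec_fin h K).subset fun e he => ⟨he.1, pr e.1, pr_mem_bs e, he.2 (pr_mem_bs e)⟩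

theorem en_PP : en PP = 0 := by
  rw [en, irr_PP, Finset.sum_empty]

theorem nn_PP : nn PP = 0 := by
  have h1 := nn_le PI_PP
  rw [en_PP] at h1
  exact Nat.le_zero.1 h1

end Pool.Agent.H78.DB
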