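import Pool.Agent.H78.DB.Pot3
import Pool.Agent.H72.DJ.Cnt

/-!
# Module EvtA: the event in terms of cochains

Let `ω = extend L M η`, `F = clo ω`. Outside the box all edges of `ω` are those of `dob`.
`const_out`: `g` is constant along the open edges, hence on the open clusters (`SimpleGraph.Reachable`). For `x ∉ box`, `0 < x.2.2`: `x` is reachable from
`(0,0,M+1)`, and so are all `(0,0,M+1+n)` (`reach_top`); `g` is `0` (resp. `1`) at one of them by the finiteness, so `g x = 0` (resp. `1`). For
`x.2.2 ≤ 0`: the same with `reach_bot` and `(0,0,-(M+1)-n)`.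
`ev_sep` (→): on the event, `compat L M ω` is non-empty (`clusters_compat`: the left side is positive); for `τ` in it the cochain
`c (x,i) = 1` if `spin L M τ x ≠ spin L M τ (x + unit i)`, else `0`, is closed (coboundary in `ZMod 2`), `c e ≠ 0` implies `ω e = false` (for
`e ∈ edges` by `compat`, for the others: both ends outside the box, `bc`, and `dob`), and equals the indicator of `PP` off `edges L M`
(finite). (←): by `compat_empty` it suffices to find an element of `compat`. By `pot3P` `c (x,i) = g x + g (x + unit i)`, `g` equal to the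
indicator of `0 < x.2.2` off a finite set. `g` is constant along the edges open in `ω` (`c = 0` there), so by `const_out`
`τ x = (g x = 1)` gives `spin L M τ = (g = 1)` and `τ ∈ compat`.
-/

set_option autoImplicit false

namespace Pool.Agent.H78.DB

open Pool.Agent.H72.DJ

private theorem EvtA_out {L M : ℕ} (η : edges L M → Bool) {e : Edge} (he : e ∉ edges L M) :
    extend L M η e = false ↔ e ∈ PP := by
  unfold extend
  rw [dif_neg he]
  simp only [dob, PP, Set.mem_ofPred_eq, Bool.not_eq_false', decide_eq_true_eq]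

theorem clo_fin {L M : ℕ} (η : edges L M → Bool) :
    {e | ¬ (e ∈ clo (extend L M η) ↔ e ∈ PP)}.Finite := by
  refine (edges L M).finite_toSet.subset fun e he => ?_
  by_contra hn
  exact he (EvtA_out η hn)

private theorem EvtA_reach {L M : ℕ} (η : edges L M → Bool) (g : Vtx → ZMod 2)
    (hg : ∀ x i, extend L M η (x, i) = true → g x = g (x + unit i)) {x y : Vtx}
    (h : (openGraph (extend L M η)).Reachable x y) : g x = g y := by
  obtain ⟨w⟩ := h
  induction w with
  | nil => rfl
  | cons ha _ ih =>
    refine Eq.trans ?_ ih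
    obtain ⟨i, ⟨h1, h2⟩ | ⟨h1, h2⟩⟩ := ha
    · rw [h1]
      exact hg _ i h2
    · rw [h1]
      exact (hg _ i h2).symm

private theorem EvtA_top {L M : ℕ} (η : edges L M → Bool) (g : Vtx → ZMod 2)
    (hg : ∀ x i, extend L M η (x, i) = true → g x = g (x + unit i)) (v : ZMod 2)
    (hf : {x : Vtx | 0 < x.2.2 ∧ g x ≠ v}.Finite) {x : Vtx} (hx : x ∉ box L M)
    (h0 : 0 < x.2.2) : g x = v := by
  by_contra hne
  have h1 : ∀ n : ℕ, ((0, 0, (M : ℤ) + 1 + n) : Vtx) ∈ {x : Vtx | 0 < x.2.2 ∧ g x ≠ v} := by
    intro n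
    have h2 : ((0, 0, (M : ℤ) + 1 + n) : Vtx) ∉ box L M := by
      rw [mem_box]
      rintro ⟨-, -, -, h⟩
      simp only at h
      omega
    have h3 : 0 < ((0, 0, (M : ℤ) + 1 + n) : Vtx).2.2 := by
      simp only
      omega
    refine ⟨h3, ?_⟩
    have h4 := EvtA_reach η g hg ((reach_top η hx h0).trans (reach_top η h2 h3).symm)
    rw [← h4]
    exact hne
  refine Set.infinite_of_injective_forall_mem (fun m n hmn => ?_) h1 hf
  simp only [Prod.mk.injEq, true_and] at hmn
  omega

private theorem EvtA_bot {L M : ℕ} (η : edges L M → Bool) (g : Vtx → ZMod 2)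
    (hg : ∀ x i, extend L M η (x, i) = true → g x = g (x + unit i)) (v : ZMod 2)
    (hf : {x : Vtx | x.2.2 ≤ 0 ∧ g x ≠ v}.Finite) {x : Vtx} (hx : x ∉ box L M)
    (h0 : x.2.2 ≤ 0) : g x = v := by
  by_contra hne
  have h1 : ∀ n : ℕ, ((0, 0, -((M : ℤ) + 1 + n)) : Vtx) ∈ {x : Vtx | x.2.2 ≤ 0 ∧ g x ≠ v} := by
    intro n
    have h2 : ((0, 0, -((M : ℤ) + 1 + n)) : Vtx) ∉ box L M := by
      rw [mem_box]
      rintro ⟨-, -, h, -⟩
      simp only at h
      omega
    have h3 : ((0, 0, -((M : ℤ) + 1 + n)) : Vtx).2.2 ≤ 0 := by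
      simp only
      omega
    refine ⟨h3, ?_⟩
    have h4 := EvtA_reach η g hg ((reach_bot η hx h0).trans (reach_bot η h2 h3).symm)
    rw [← h4]
    exact hne
  refine Set.infinite_of_injective_forall_mem (fun m n hmn => ?_) h1 hf
  simp only [Prod.mk.injEq, true_and] at hmn
  omega

theorem const_out {L M : ℕ} (η : edges L M → Bool) (g : Vtx → ZMod 2)
    (hg : ∀ x i, extend L M η (x, i) = true → g x = g (x + unit i)) (hf : {x | g x ≠ 0}.Finite) :
    ∀ x, x ∉ box L M → g x = 0 := by
  intro x hx
  rcases lt_or_ge 0 x.2.2 with h0 | h0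
  · exact EvtA_top η g hg 0 (hf.subset fun y hy => hy.2) hx h0
  · exact EvtA_bot η g hg 0 (hf.subset fun y hy => hy.2) hx h0

theorem const_outP {L M : ℕ} (η : edges L M → Bool) (g : Vtx → ZMod 2)
    (hg : ∀ x i, extend L M η (x, i) = true → g x = g (x + unit i))
    (hf : {x | g x ≠ if 0 < x.2.2 then 1 else 0}.Finite) :
    ∀ x, x ∉ box L M → g x = if 0 < x.2.2 then 1 else 0 := by
  intro x hx
  rcases lt_or_ge 0 x.2.2 with h0 | h0
  · rw [if_pos h0]
    refine EvtA_top η g hg 1 (hf.subset fun y hy => ?_) hx h0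
    rw [Set.mem_ofPred_eq, if_pos hy.1]
    exact hy.2
  · rw [if_neg (not_lt.2 h0)]
    refine EvtA_bot η g hg 0 (hf.subset fun y hy => ?_) hx h0
    rw [Set.mem_ofPred_eq, if_neg (not_lt.2 hy.1)]
    exact hy.2

private theorem EvtA_bc {x : Vtx} {i : Fin 3} : bc x = bc (x + unit i) ↔ (x, i) ∉ PP := by
  obtain ⟨a, b, z⟩ := x
  fin_cases i
  · simp [bc, unit, PP]
  · simp [bc, unit, PP]
  · simp only [bc, unit, PP, Set.mem_ofPred_eq]
    simp
    omega

private theorem EvtA_two (u v : Bool) : (if u = true then (1 : ZMod 2) else 0) +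
    (if v = true then 1 else 0) = if u = v then 0 else 1 := by
  cases u <;> cases v <;> decide

theorem ev_sep {L M : ℕ} (η : edges L M → Bool) :
    extend L M η ∈ interfaceEvent L M ↔ Sep (clo (extend L M η)) := by
  classical
  constructor
  · intro h
    have h1 := clusters_compat L M η h
    have h2 : (compat L M (extend L M η)).Nonempty := by
      rw [Finset.nonempty_iff_ne_empty]
      intro h3
      rw [h3] at h1
      simp at h1
    obtain ⟨τ, hτ⟩ := h2
    obtain ⟨g, hg⟩ : ∃ g : Vtx → ZMod 2, ∀ x, g x = if spin L M τ x = true then 1 else 0 :=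
      ⟨_, fun x => rfl⟩
    have hout : ∀ (x : Vtx) (i : Fin 3), (x, i) ∉ edges L M →
        (spin L M τ x = spin L M τ (x + unit i) ↔ (x, i) ∉ PP) := by
      intro x i he
      have h1 : x ∉ box L M := fun h => he (mem_edges.2 (Or.inl h))
      have h2 : x + unit i ∉ box L M := fun h => he (mem_edges.2 (Or.inr h))
      unfold spin
      rw [dif_neg h1, dif_neg h2]
      exact EvtA_bc
    refine ⟨fun e => g e.1 + g (e.1 + unit e.2), ?_, ?_, ?_⟩
    · intro x i j _
      simp only
      have h3 : x + unit i + unit j = x + unit j + unit i := by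
        rw [add_assoc, add_assoc, add_comm (unit i)]
      rw [h3]
      have h4 : ∀ a b c d : ZMod 2, a + b + (b + d) = a + c + (c + d) := by decide
      exact h4 _ _ _ _
    · rintro ⟨x, i⟩ he
      rw [clo, Set.mem_ofPred_eq]
      by_contra hn
      rw [Bool.not_eq_false] at hn
      refine he ?_
      simp only
      rw [hg, hg, EvtA_two, if_pos]
      by_cases hx : (x, i) ∈ edges L M
      · unfold compat at hτ
        exact (Finset.mem_filter.1 hτ).2 (x, i) hx hn
      · rw [hout x i hx]
        intro h4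
        rw [(EvtA_out η hx).2 h4] at hn
        exact absurd hn (by decide)
    · refine (edges L M).finite_toSet.subset ?_
      rintro ⟨x, i⟩ he
      by_contra hn
      refine he ?_
      simp only
      rw [hg, hg, EvtA_two]
      have h4 := hout x i hn
      by_cases h5 : (x, i) ∈ PP
      · rw [if_pos h5, if_neg (fun h6 => h4.1 h6 h5)]
      · rw [if_neg h5, if_pos (h4.2 h5)]
  · rintro ⟨c, hc⟩
    obtain ⟨g, hgf, hg⟩ := pot3P hc
    have hz : ∀ a b : ZMod 2, a + b = 0 → a = b := by decide
    have hopen : ∀ x i, extend L M η (x, i) = true → g x = g (x + unit i) := by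
      intro x i h
      refine hz _ _ ?_
      rw [← hg x i]
      by_contra hne
      have h1 := hc.2.1 (x, i) hne
      rw [clo, Set.mem_ofPred_eq, h] at h1
      exact absurd h1 (by decide)
    have hbox := const_outP η g hopen hgf
    by_contra hne
    have hemp := compat_empty L M η hne
    have hsp : ∀ x, spin L M (fun x => decide (g x.1 = 1)) x = decide (g x = 1) := by
      intro x
      unfold spin
      by_cases hx : x ∈ box L M
      · rw [dif_pos hx]
      · rw [dif_neg hx, hbox x hx]
        unfold bc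
        by_cases h0 : 0 < x.2.2
        · simp [h0]
        · simp [h0]
    have hmem : (fun x : box L M => decide (g x.1 = 1)) ∈ compat L M (extend L M η) := by
      unfold compat
      rw [Finset.mem_filter]
      refine ⟨Finset.mem_univ _, ?_⟩
      rintro ⟨x, i⟩ _ ho
      rw [hsp, hsp]
      simp only
      rw [hopen x i ho]
    rw [hemp] at hmem
    exact absurd hmem (Finset.notMem_empty _)

end Pool.Agent.H78.DB
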