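import Pool.Agent.H78.DB.Nnu
import Pool.Agent.H78.DB.EvtA

/-!
# Module Evt: the number of clusters in terms of cochains

`card_compat`: on the event fix `τ₀ ∈ compat` (non-empty by `clusters_compat`), `F = clo ω`. `Z0 F ≃ compat`: for `c ∈ Z0 F` take `g` from `pot3` (finite
support; `c = 0` on the open edges, so `g = 0` outside the box by `const_out`) and `τ x = τ₀ x` xor `(g x = 1)`; inverse: the coboundary of
`x ↦ (1 if spin τ x ≠ spin τ₀ x else 0)`, a `ZMod 2`-valued function of finite support, which is in `Z0 F` (on an open edge both spin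
configurations are constant); injective since `g` is determined by `c` (two potentials of finite support differ by a constant, zero far
away). `clusters_nn`: `clusters_compat`, `card_compat`, `card_Z0` (`hor F` is finite: `clo_fin`): `2^clusters = 2^nn * 2^.. * 2^..`.
-/

set_option autoImplicit false

namespace Pool.Agent.H78.DB

open Pool.Agent.H72.DJ

private theorem evt_spin_edge {L M : ℕ} {η : edges L M → Bool} {τ : box L M → Bool}
    (hτ : τ ∈ compat L M (extend L M η)) (x : Vtx) (i : Fin 3)
    (ho : extend L M η (x, i) = true) : spin L M τ x = spin L M τ (x + unit i) := by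
  classical
  by_cases he : ((x, i) : Edge) ∈ edges L M
  · unfold compat at hτ
    exact (Finset.mem_filter.1 hτ).2 (x, i) he ho
  · have h1 : x ∉ box L M := fun h => he (mem_edges.2 (Or.inl h))
    have h2 : x + unit i ∉ box L M := fun h => he (mem_edges.2 (Or.inr h))
    have h3 : dob (x, i) = true := by
      unfold extend at ho
      rwa [dif_neg he] at ho
    unfold spin
    rw [dif_neg h1, dif_neg h2]
    unfold bc
    have h4 : ¬ (i = 2 ∧ x.2.2 = 0) := by
      unfold dob at h3
      rw [Bool.not_eq_true', decide_eq_false_iff_not] at h3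
      exact h3
    fin_cases i
    · simp [unit]
    · simp [unit]
    · have h5 : x.2.2 ≠ 0 := fun h => h4 ⟨rfl, h⟩
      have h6 : (x + unit 2).2.2 = x.2.2 + 1 := by simp [unit]
      have h7 : (0 < x.2.2) ↔ (0 < (x + unit 2).2.2) := by
        rw [h6]
        omega
      exact decide_eq_decide.2 h7

private theorem evt_two (a : ZMod 2) : a + a = 0 := CharTwo.add_self_eq_zero a

private theorem evt_zmod (a : ZMod 2) : a = 0 ∨ a = 1 := by
  revert a
  decide

/-- the difference of two spin configurations -/
private noncomputable def evtG (L M : ℕ) (τ₀ τ : box L M → Bool) (x : Vtx) : ZMod 2 :=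
  if spin L M τ x ≠ spin L M τ₀ x then 1 else 0

/-- its coboundary -/
private noncomputable def evtC (L M : ℕ) (τ₀ τ : box L M → Bool) (e : Edge) : ZMod 2 :=
  evtG L M τ₀ τ e.1 + evtG L M τ₀ τ (e.1 + unit e.2)

private theorem evtG_out {L M : ℕ} (τ₀ τ : box L M → Bool) {x : Vtx} (hx : x ∉ box L M) :
    evtG L M τ₀ τ x = 0 := by
  unfold evtG spin
  rw [dif_neg hx, dif_neg hx]
  simp

private theorem evtC_mem {L M : ℕ} {η : edges L M → Bool} {τ₀ τ : box L M → Bool}
    (h₀ : τ₀ ∈ compat L M (extend L M η)) (h : τ ∈ compat L M (extend L M η)) :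
    evtC L M τ₀ τ ∈ Z0 (clo (extend L M η)) := by
  refine ⟨(Finset.finite_toSet (edges L M)).subset ?_, ?_, ?_⟩
  · intro e he
    by_contra hn
    have h1 : e.1 ∉ box L M := fun h => hn (mem_edges.2 (Or.inl h))
    have h2 : e.1 + unit e.2 ∉ box L M := fun h => hn (mem_edges.2 (Or.inr h))
    refine he ?_
    unfold evtC
    rw [evtG_out τ₀ τ h1, evtG_out τ₀ τ h2, add_zero]
  · intro e he
    by_contra hn
    have ho : extend L M η (e.1, e.2) = true := by
      have h3 : extend L M η e ≠ false := hn
      exact Bool.eq_true_of_not_eq_false h3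
    refine he ?_
    unfold evtC evtG
    rw [← evt_spin_edge h₀ e.1 e.2 ho, ← evt_spin_edge h e.1 e.2 ho]
    exact evt_two _
  · intro x i j _
    unfold evtC
    have e1 : x + unit i + unit j = x + unit j + unit i := by abel
    simp only
    rw [e1]
    have h1 := evt_two (evtG L M τ₀ τ (x + unit i))
    have h2 := evt_two (evtG L M τ₀ τ (x + unit j))
    linear_combination h1 - h2

private theorem evt_ray {L M : ℕ} {d : Vtx → ZMod 2} (hd : ∀ x, d x = d (x + unit 0))
    (ho : ∀ x, x ∉ box L M → d x = 0) (x : Vtx) : d x = 0 := by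
  have key : ∀ n : ℕ, ∀ y : Vtx, d y = d (y.1 + n, y.2) := by
    intro n
    induction n with
    | zero => intro y; simp
    | succ n ih =>
      intro y
      rw [ih y, hd (y.1 + n, y.2)]
      have e1 : ((y.1 + (n : ℤ), y.2) + unit 0 : Vtx) = (y.1 + ((n + 1 : ℕ) : ℤ), y.2) := by
        simp [unit, add_assoc]
      rw [e1]
  have h1 := key (L + x.1.natAbs + 1) x
  rw [h1]
  refine ho _ ?_
  rw [mem_box]
  rintro ⟨⟨-, h2⟩, -, -⟩
  simp only at h2
  push_cast at h2
  have h3 : -x.1 ≤ |x.1| := neg_le_abs x.1
  omega

theorem card_compat {L M : ℕ} (η : edges L M → Bool) (h : extend L M η ∈ interfaceEvent L M) :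
    (compat L M (extend L M η)).card = Nat.card (Z0 (clo (extend L M η))) := by
  classical
  obtain ⟨τ₀, h₀⟩ : (compat L M (extend L M η)).Nonempty := by
    rw [Finset.nonempty_iff_ne_empty]
    intro h1
    have h2 := clusters_compat L M η h
    rw [h1] at h2
    simp at h2
  have hb : Function.Bijective (fun τ : {τ // τ ∈ compat L M (extend L M η)} =>
      (⟨evtC L M τ₀ τ.1, evtC_mem h₀ τ.2⟩ : Z0 (clo (extend L M η)))) := by
    constructor
    · rintro ⟨τ, hτ⟩ ⟨τ', hτ'⟩ he
      have he1 : evtC L M τ₀ τ = evtC L M τ₀ τ' := congrArg Subtype.val he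
      have hd : ∀ x, evtG L M τ₀ τ x + evtG L M τ₀ τ' x = 0 := by
        refine evt_ray (L := L) (M := M) ?_ ?_
        · intro x
          have h1 : evtC L M τ₀ τ (x, 0) = evtC L M τ₀ τ' (x, 0) := by rw [he1]
          unfold evtC at h1
          simp only at h1
          have h2 := evt_two (evtG L M τ₀ τ' x)
          have h3 := evt_two (evtG L M τ₀ τ (x + unit 0))
          linear_combination h1 + h2 - h3
        · intro x hx
          rw [evtG_out τ₀ τ hx, evtG_out τ₀ τ' hx, add_zero]
      refine Subtype.ext ?_
      simp only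
      funext x
      have h1 := hd x.1
      unfold evtG spin at h1
      rw [dif_pos x.2, dif_pos x.2, dif_pos x.2] at h1
      revert h1
      cases τ x <;> cases τ' x <;> cases τ₀ x <;> simp
    · rintro ⟨c, hc⟩
      obtain ⟨g, hg, hgc⟩ := pot3 hc.2.2 hc.1
      have hopen : ∀ x i, extend L M η (x, i) = true → g x = g (x + unit i) := by
        intro x i ho
        have h1 : c (x, i) = 0 := by
          by_contra hn
          have h2 : extend L M η (x, i) = false := hc.2.1 _ hn
          rw [ho] at h2
          exact Bool.noConfusion h2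
        rw [hgc x i] at h1
        have h2 := evt_two (g (x + unit i))
        linear_combination h1 - h2
      have hout := const_out η g hopen hg
      set τ : box L M → Bool := fun x => xor (τ₀ x) (decide (g x.1 = 1)) with hτd
      have hspin : ∀ x, spin L M τ x = xor (spin L M τ₀ x) (decide (g x = 1)) := by
        intro x
        unfold spin
        by_cases hx : x ∈ box L M
        · rw [dif_pos hx, dif_pos hx]
        · rw [dif_neg hx, dif_neg hx, hout x hx]
          simp
      have hτ : τ ∈ compat L M (extend L M η) := by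
        unfold compat
        rw [Finset.mem_filter]
        refine ⟨Finset.mem_univ _, ?_⟩
        intro e _ ho
        rw [hspin, hspin, ← evt_spin_edge h₀ e.1 e.2 ho, ← hopen e.1 e.2 ho]
      refine ⟨⟨τ, hτ⟩, ?_⟩
      refine Subtype.ext ?_
      simp only
      have hG : ∀ x, evtG L M τ₀ τ x = g x := by
        intro x
        unfold evtG
        rw [hspin x]
        rcases evt_zmod (g x) with h1 | h1
        · rw [h1]
          simp
        · rw [h1]
          cases spin L M τ₀ x <;> simp
      funext e
      unfold evtC
      rw [hG, hG, ← hgc e.1 e.2]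
  have h1 := Nat.card_congr (Equiv.ofBijective _ hb)
  rw [← h1]
  simp

open Classical in
theorem clusters_nn {L M : ℕ} (η : edges L M → Bool) (h : extend L M η ∈ interfaceEvent L M) :
    clusters (box L M) (extend L M η) = nn (clo (extend L M η)) +
      ((if touchTop L M (extend L M η) then 1 else 0) +
        if touchBot L M (extend L M η) then 1 else 0) := by
  have hfin : (hor (clo (extend L M η))).Finite := by
    refine (clo_fin η).subset ?_
    rintro e ⟨he1, he2⟩
    intro h3
    exact he2 (h3.1 he1).1
  have h1 := clusters_compat L M η h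
  rw [card_compat η h, card_Z0 hfin] at h1
  have h2 : (2 : ℝ) ^ clusters (box L M) (extend L M η) =
      (2 : ℝ) ^ (nn (clo (extend L M η)) +
      ((if touchTop L M (extend L M η) then 1 else 0) +
        if touchBot L M (extend L M η) then 1 else 0)) := by
    rw [h1, pow_add, pow_add]
    push_cast
    split_ifs <;> simp
  exact pow_right_injective₀ (by norm_num) (by norm_num) h2

end Pool.Agent.H78.DB
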