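import Pool.Agent.H78.DB.PBr
import Pool.Agent.H72.DJ.Weak

/-!
# Module Fin: conclusion

`par`: constants: `κ = 10^(-4)`, `τ = 10^(-8)`, `ν = 10^(-12)`, `θ = 10^(-24)/512`, so `512 θ = ν^2`; `bulk` needs `256 * 2^16 * (r q) ≤ θ/4`, and `3 r q ≤ κ^38 = 10^(-152)`:
both follow from `r q ≤ 10^(-153)`.
`cauchy`: `P_L(A) = NR (FA (EL L) A) / NR 1` is a Cauchy sequence in `L`: given `m` take `K`, `L₀` from `obs`, `ρ` with `K ⊆ sqr ρ`. For
`max L₀ ρ ≤ L ≤ L'`: `|P_L(A) - NR L (FAm) / NR L 1| ≤ exp|A| |A| 2 μ^m` (`μ = ν^2 ≤ 1/2`; difference of two sums with nonnegative weights), the same for `L'`; and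
`|NR L FAm / NR L 1 - NR L' FAm / NR L' 1| ≤ C |K| (1/2)^(L-ρ)`, `C = exp |A|` (`two_vol` divided by `NR L 1 * NR L' 1`). First `m` large, then `L` large.
`main`: existence of `φ L`: `weak_of_cyl` for the sequence `M ↦ phiBar L M p q` (`phi_prob`, `phi_lim`), as convergence of integrals of continuous functions
(`ProbabilityMeasure.tendsto_iff_forall_integral_tendsto`, `BoundedContinuousFunction.mkOfCompact`). For any such `φ`: `(φ L).real {A open} = P_L(A)` by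
`cyl_tendsto` and uniqueness of limits, for `L ≥ 1`; it converges by `cauchy`; `weak_of_cyl`.
-/

set_option autoImplicit false

open Filter Topology MeasureTheory

namespace Pool.Agent.H78.DB

open Pool.Agent.H72.DJ

private lemma wL_nonneg {Φ : Finset Edge → ℝ} {r q : ℝ} (hr : 0 < r) (hq : 1 ≤ q) (L : ℕ)
    (Δ : Set Edge) : 0 ≤ wL Φ r q L Δ := by
  unfold wL
  have : 0 ≤ q := by linarith
  positivity

private lemma NR_add_le {Φ : Finset Edge → ℝ} {r q : ℝ} (hr : 0 < r) (hq : 1 ≤ q) (L : ℕ)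
    {F G : Set Edge → ℝ} {δ : ℝ} (hδ : 0 ≤ δ) (hG0 : ∀ Δ, 0 ≤ G Δ)
    (hFG : ∀ Δ, F Δ ≤ G Δ + δ) (hG : NL Φ r q L G ≠ ⊤) (h1 : NL Φ r q L (fun _ => 1) ≠ ⊤) :
    NR Φ r q L F ≤ NR Φ r q L G + δ * NR Φ r q L (fun _ => 1) := by
  have hle : NL Φ r q L F ≤ NL Φ r q L G + ENNReal.ofReal δ * NL Φ r q L (fun _ => 1) := by
    unfold NL
    rw [← ENNReal.tsum_mul_left, ← ENNReal.tsum_add]
    refine ENNReal.tsum_le_tsum fun Δ => ?_
    have hw := wL_nonneg (Φ := Φ) hr hq L (Δ : Set Edge)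
    rw [← ENNReal.ofReal_mul hδ, ← ENNReal.ofReal_add (mul_nonneg (hG0 _) hw)
      (mul_nonneg hδ (by simpa using hw))]
    apply ENNReal.ofReal_le_ofReal
    have := mul_le_mul_of_nonneg_right (hFG (Δ : Set Edge)) hw
    linarith
  have hfin : NL Φ r q L G + ENNReal.ofReal δ * NL Φ r q L (fun _ => 1) ≠ ⊤ :=
    ENNReal.add_ne_top.2 ⟨hG, ENNReal.mul_ne_top ENNReal.ofReal_ne_top h1⟩
  have h2 := ENNReal.toReal_mono hfin hle
  rw [ENNReal.toReal_add hG (ENNReal.mul_ne_top ENNReal.ofReal_ne_top h1), ENNReal.toReal_mul,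
    ENNReal.toReal_ofReal hδ] at h2
  exact h2

private lemma exists_sqr (K : Finset Col) : ∃ ρ : ℕ, K ⊆ sqr ρ := by
  refine ⟨K.sup fun a => max a.1.natAbs a.2.natAbs, ?_⟩
  intro a ha
  have h := Finset.le_sup (f := fun a : Col => max a.1.natAbs a.2.natAbs) ha
  have h1 := le_trans (le_max_left _ _) h
  have h2 := le_trans (le_max_right _ _) h
  simp only [sqr, Finset.mem_product, Finset.mem_Icc]
  refine ⟨⟨?_, ?_⟩, ?_, ?_⟩ <;> omega

private lemma div_dist {a b x y C e : ℝ} (hx : 1 ≤ x) (hy : 1 ≤ y)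
    (h : |a * y - x * b| ≤ C * e * (x * y)) : |a / x - b / y| ≤ C * e := by
  have hx0 : x ≠ 0 := by positivity
  have hy0 : y ≠ 0 := by positivity
  have hxy : 0 < x * y := by positivity
  rw [div_sub_div _ _ hx0 hy0, abs_div, abs_of_pos hxy, div_le_iff₀ hxy]
  exact h

private lemma div_close {a b x δ : ℝ} (hx : 1 ≤ x) (h1 : a ≤ b + δ * x) (h2 : b ≤ a + δ * x) :
    |a / x - b / x| ≤ δ := by
  have hx0 : 0 < x := by positivity
  rw [← sub_div, abs_div, abs_of_pos hx0, div_le_iff₀ hx0, abs_le]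
  constructor <;> linarith

theorem par {r q : ℝ} (hr : 0 < r) (hq : 1 ≤ q) (h : r * q ≤ 1 / 10 ^ 153) :
    Par (Ph (wt r q)) r q (1 / 10 ^ 8) (1 / 10 ^ 4) (1 / 10 ^ 12) := by
  have hrq : 0 ≤ r * q := by positivity
  refine ⟨hr, hq, by positivity, by positivity, ?_, by norm_num, by norm_num, by norm_num, ?_⟩
  · have h1 := bulk (r := r) (q := q) (θ := 1 / 10 ^ 24 / 512) hr.le hq (by positivity)
      (by norm_num) (by
        refine le_trans (mul_le_mul_of_nonneg_left (mul_le_mul_of_nonneg_left h (by norm_num))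
          (by norm_num)) ?_
        norm_num)
    have h2 : (512 : ℝ) * (1 / 10 ^ 24 / 512) = (1 / 10 ^ 12) ^ 2 := by norm_num
    rw [h2] at h1
    exact h1
  · refine le_trans (mul_le_mul_of_nonneg_left h (by norm_num)) ?_
    norm_num

theorem cauchy {Φ : Finset Edge → ℝ} {r q τ κ ν : ℝ} (hP : Par Φ r q τ κ ν) (A : Finset Edge) :
    ∃ c : ℝ, Tendsto (fun L => NR Φ r q L (FA Φ (EL L) A) / NR Φ r q L (fun _ => 1)) atTop (𝓝 c) := by
  have hν0 := hP.ν0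
  have hν1 : ν ≤ 1 / 2 := by
    have h1 := hP.ντ
    have h2 := hP.τκ
    have h3 := hP.κ1
    have h4 := hP.τ0
    linarith
  have hμ0 : 0 ≤ ν ^ 2 := by positivity
  have hμ2 : ν ^ 2 ≤ 1 / 4 := by nlinarith
  have hμ1 : 2 * ν ^ 2 ≤ 1 := by linarith
  set C : ℝ := Real.exp A.card with hC
  have hC0 : 0 < C := Real.exp_pos _
  apply cauchySeq_tendsto_of_complete
  rw [Metric.cauchySeq_iff']
  intro ε hε
  -- the choice of `m`
  obtain ⟨m, hm⟩ : ∃ m : ℕ, C * (A.card * (2 * (ν ^ 2) ^ m)) < ε / 4 := by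
    have ht : Tendsto (fun m : ℕ => C * (A.card * (2 * (ν ^ 2) ^ m))) atTop (𝓝 (C * (A.card * (2 * 0)))) :=
      ((tendsto_pow_atTop_nhds_zero_of_lt_one hμ0 (by linarith)).const_mul 2).const_mul _ |>.const_mul _
    have h0 : C * (A.card * (2 * 0)) < ε / 4 := by
      rw [mul_zero, mul_zero, mul_zero]; linarith
    exact (ht.eventually (gt_mem_nhds h0)).exists
  set δ : ℝ := C * (A.card * (2 * (ν ^ 2) ^ m)) with hδ
  have hδ0 : 0 ≤ δ := by positivity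
  obtain ⟨K, L₀, hloc, hobs⟩ := obs hP.bulk hμ0 hμ1 A m
  obtain ⟨ρ, hρ⟩ := exists_sqr K
  obtain ⟨n, hn⟩ : ∃ n : ℕ, C * (K.card * (1 / 2 : ℝ) ^ n) < ε / 4 := by
    have ht : Tendsto (fun n : ℕ => C * (K.card * (1 / 2 : ℝ) ^ n)) atTop (𝓝 (C * (K.card * 0))) :=
      ((tendsto_pow_atTop_nhds_zero_of_lt_one (by norm_num) (by norm_num)).const_mul _).const_mul _
    have h0 : C * (K.card * 0) < ε / 4 := by
      rw [mul_zero, mul_zero]; linarith
    exact (ht.eventually (gt_mem_nhds h0)).exists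
  have hfin1 : ∀ L, NL Φ r q L (fun _ => 1) ≠ ⊤ := fun L =>
    NL_lt_top hP L (C := 1) (fun _ => zero_le_one) (fun _ => le_rfl)
  have hfinA : ∀ L, NL Φ r q L (FA Φ (EL L) A) ≠ ⊤ := fun L =>
    NL_lt_top hP L (C := C) (FA_nonneg _ _ _) (FA_le hP.bulk hμ0 hμ1 _ _)
  have hfinm : ∀ L, NL Φ r q L (FAm Φ A m) ≠ ⊤ := fun L =>
    NL_lt_top hP L (C := C) (FAm_nonneg _ _ _) (FAm_le hP.bulk hμ0 hμ1 _ _)
  have hclose : ∀ L, L₀ ≤ L →
      |NR Φ r q L (FA Φ (EL L) A) / NR Φ r q L (fun _ => 1) -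
        NR Φ r q L (FAm Φ A m) / NR Φ r q L (fun _ => 1)| ≤ δ := by
    intro L hL
    refine div_close (NR_one hP L) ?_ ?_
    · refine NR_add_le hP.r0 hP.q1 L hδ0 (FAm_nonneg _ _ _) ?_ (hfinm L) (hfin1 L)
      intro Δ
      have := (abs_le.1 (hobs L hL Δ)).2
      linarith
    · refine NR_add_le hP.r0 hP.q1 L hδ0 (FA_nonneg _ _ _) ?_ (hfinA L) (hfin1 L)
      intro Δ
      have := (abs_le.1 (hobs L hL Δ)).1
      linarith
  refine ⟨max L₀ (ρ + n), ?_⟩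
  intro L hL
  set N := max L₀ (ρ + n) with hN
  have hN1 : L₀ ≤ N := le_max_left _ _
  have hN2 : ρ + n ≤ N := le_max_right _ _
  have hL1 : L₀ ≤ L := hN1.trans hL
  have h3 := two_vol hP hρ (by omega : ρ ≤ N) hL hloc (FAm_nonneg _ _ _)
    (C := C) (FAm_le hP.bulk hμ0 hμ1 _ _)
  have h4 := div_dist (NR_one hP N) (NR_one hP L) h3
  have h5 : C * (K.card * (1 / 2 : ℝ) ^ (N - ρ)) ≤ C * (K.card * (1 / 2 : ℝ) ^ n) := by
    refine mul_le_mul_of_nonneg_left (mul_le_mul_of_nonneg_left ?_ (by positivity)) hC0.le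
    exact pow_le_pow_of_le_one (by norm_num) (by norm_num) (by omega)
  have h6 := hclose L hL1
  have h7 := hclose N hN1
  rw [Real.dist_eq]
  rw [abs_le] at h4 h6 h7
  rw [abs_lt]
  constructor <;> linarith [h4.1, h4.2, h6.1, h6.2, h7.1, h7.2]

theorem main {p q : ℝ} (hp0 : 0 < p) (hp1 : p < 1) (hq : 1 ≤ q)
    (hpq : (1 - p) / p * q ≤ 1 / 10 ^ 153) :
    (∀ L : ℕ, ∃ φ : ProbabilityMeasure Conf, ∀ f : C(Conf, ℝ),
      Tendsto (fun M => ∫ ω, f ω ∂(phiBar L M p q)) atTop (𝓝 (∫ ω, f ω ∂(φ : Measure Conf)))) ∧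
    ∀ φ : ℕ → ProbabilityMeasure Conf,
      (∀ L, 1 ≤ L → ∀ f : C(Conf, ℝ), Tendsto (fun M => ∫ ω, f ω ∂(phiBar L M p q)) atTop
        (𝓝 (∫ ω, f ω ∂(φ L : Measure Conf)))) →
      ∃ ν : ProbabilityMeasure Conf, Tendsto φ atTop (𝓝 ν) := by
  have hr : 0 < (1 - p) / p := div_pos (by linarith) hp0
  have hP := par hr hq hpq
  constructor
  · intro L
    obtain ⟨ν, hν⟩ := weak_of_cyl
      (fun M => (⟨phiBar L M p q, phi_prob hp0 hp1 hq L M⟩ : ProbabilityMeasure Conf))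
      (fun A => ⟨_, phi_lim hp0 hp1 hP L A⟩)
    refine ⟨ν, fun f => ?_⟩
    have h2 := (ProbabilityMeasure.tendsto_iff_forall_integral_tendsto.1 hν)
      (BoundedContinuousFunction.mkOfCompact f)
    simpa using h2
  · intro φ hφ
    refine weak_of_cyl φ fun A => ?_
    obtain ⟨c, hc⟩ := cauchy hP A
    refine ⟨c, hc.congr' ?_⟩
    filter_upwards [eventually_ge_atTop 1] with L hL
    have h1 := cyl_tendsto (fun M => phiBar L M p q) (φ L : Measure Conf) (hφ L hL) A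
    exact tendsto_nhds_unique (phi_lim hp0 hp1 hP L A) h1

end Pool.Agent.H78.DB
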