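import Pool.Agent.H78.DB.BscB
import Pool.Agent.H78.DB.Nnu

/-!
# Module Fvd: interface and gas in finite volume

`V = edges L M`, `o = out L M = PP \ V`.
`out_iso`: a finite set `G` isolated in `D ∪ o` (`D ⊆ V`) contains no edge of `o`: `e ∈ PP \ V` is `ve a 0` with `a ∉ sqr L` (`mem_edges`, `mem_box`); if
`a.1 > L` then all `ve (a.1 + n, a.2) 0` are in `o`, consecutive ones are adjacent (`Ad`), so by induction in `G`: infinite; the same in the
other three directions.
For `F ⊆ V` let `I(F)` be the set of the `e ∈ F` which lie in some finite isolated `G ⊆ F ∪ o` (it is contained in `F` by `out_iso`). `I(F)` is isolated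
in `F ∪ o` (a union of isolated sets is isolated). Let `D = F \ I(F)`.
(a) `D ∪ o` has no non-empty finite isolated subset: such a `G` would be isolated in `F ∪ o` (no element of `I(F)` is adjacent to an element of
    `(F ∪ o) \ I(F)`, `Ad.symm`), so `G ⊆ I(F)`.
(b) `Sep (F ∪ o) ↔ Sep (D ∪ o)`: (←) `Sep.mono`. (→) `c` restricted to `D ∪ o = (F ∪ o) \ I(F)`: closed since `I(F)` is isolated, so is its complement
    (`cl_restrict`); finite difference since `I(F)` is finite. So `Sep (F ∪ o) ↔ Intf (D ∪ o)` (finite difference to `PP` is clear, `D ⊆ V`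
    finite).
(c) `I(F) ⊆ V`, no element of `I(F)` is adjacent to an element of `D ∪ o`. Conversely, if `D ⊆ V`, `Intf (D ∪ o)`, and `F' ⊆ V` has no element
    adjacent to an element of `D ∪ o` (`¬ hit (D ∪ o) F'`), then `F = D ∪ F'` (disjoint) has `I(F) = F'`: `F'` is finite isolated; and for `G`
    finite isolated in `F ∪ o`, `G ∩ (D ∪ o)` is isolated in `D ∪ o`, so empty.
`fv_dec`: the sum over `F ⊆ V` with `Sep (F ∪ o)` of `φ F` is the sum over `D ⊆ V` with `Intf (D ∪ o)` and over `F' ⊆ V` with `¬ hit (D ∪ o) F'` of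
`φ (D ∪ F')` (`Finset.sum_bij'` / `sum_nbij'` with `F ↦ (D, I(F))`, sigma type), and `D = F \ I(F)` satisfies `iso_part`.
`nn_dec`: `nn ((D ∪ F') ∪ o) = nn (D ∪ o) + nn F'` by `nn_union` (`¬ hit`).
-/

set_option autoImplicit false

namespace Pool.Agent.H78.DB

open Pool.Agent.H72.DJ

/-- an infinite path of adjacent edges of `F` which starts in an isolated set stays in it -/
private theorem fvd_ray {F G : Set Edge} (hG : G.Finite) (hI : Isol Ad F G) (f : ℕ → Edge)
    (h0 : f 0 ∈ G) (hF : ∀ n, f n ∈ F) (hA : ∀ n, Ad (f n) (f (n + 1))) (hi : Function.Injective f) :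
    False := by
  have h1 : ∀ n, f n ∈ G := by
    intro n
    induction n with
    | zero => exact h0
    | succ n ih => exact hI.2 _ ih _ (hF _) (hA n)
  exact Set.infinite_of_injective_forall_mem hi h1 hG

private theorem fvd_ad (x : Vtx) (i : Fin 3) (hi : i ≠ 2) : Ad (x, 2) (x + unit i, 2) :=
  ⟨x, i, 2, hi, by simp [sq], by simp [sq]⟩

private theorem fvd_mem_out {L M : ℕ} {x : Vtx} (h : (x, (2 : Fin 3)) ∈ out L M) :
    x.2.2 = 0 ∧ ((L : ℤ) < x.1 ∨ x.1 < -(L : ℤ) ∨ (L : ℤ) < x.2.1 ∨ x.2.1 < -(L : ℤ)) := by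
  obtain ⟨⟨h1, h2⟩, h3⟩ := h
  have h2' : x.2.2 = 0 := h2
  refine ⟨h2', ?_⟩
  by_contra hc
  push Not at hc
  obtain ⟨c1, c2, c3, c4⟩ := hc
  apply h3
  have h4 : (x, (2 : Fin 3)) ∈ edges L M := by
    rw [mem_edges]
    left
    rw [mem_box]
    refine ⟨⟨c2, c1⟩, ⟨c4, c3⟩, ?_⟩
    change -(M : ℤ) ≤ x.2.2 ∧ x.2.2 ≤ M
    rw [h2']
    constructor <;> omega
  exact_mod_cast h4

private theorem fvd_out_mem {L M : ℕ} {x : Vtx} (h0 : x.2.2 = 0)
    (h : (L : ℤ) < x.1 ∨ x.1 < -(L : ℤ) ∨ (L : ℤ) < x.2.1 ∨ x.2.1 < -(L : ℤ)) :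
    (x, (2 : Fin 3)) ∈ out L M := by
  refine ⟨⟨rfl, h0⟩, ?_⟩
  intro h3
  have h4 : (x, (2 : Fin 3)) ∈ edges L M := by exact_mod_cast h3
  rw [mem_edges, mem_box, mem_box] at h4
  have e1 : (x + unit 2).1 = x.1 := by simp [unit]
  have e2 : (x + unit 2).2.1 = x.2.1 := by simp [unit]
  simp only [e1, e2] at h4
  omega

theorem out_iso {L M : ℕ} {D G : Set Edge} (hG : G.Finite) (hI : Isol Ad (D ∪ out L M) G) :
    ∀ e ∈ G, e ∉ out L M := by
  rintro ⟨x, k⟩ he ho
  have hk : k = 2 := ho.1.1
  subst hk
  obtain ⟨h0, h1⟩ := fvd_mem_out ho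
  rcases h1 with h1 | h1 | h1 | h1
  · refine fvd_ray hG hI (fun n : ℕ => ((x.1 + n, x.2.1, x.2.2), (2 : Fin 3))) ?_ ?_ ?_ ?_
    · simpa using he
    · intro n
      right
      apply fvd_out_mem
      · exact h0
      · left
        change (L : ℤ) < x.1 + n
        omega
    · intro n
      have := fvd_ad (x.1 + n, x.2.1, x.2.2) 0 (by decide)
      convert this using 2
      simp [unit]
      ring
    · intro m n hmn
      have := congrArg (fun e : Edge => e.1.1) hmn
      simp only at this
      omega
  · refine fvd_ray hG hI (fun n : ℕ => ((x.1 - n, x.2.1, x.2.2), (2 : Fin 3))) ?_ ?_ ?_ ?_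
    · simpa using he
    · intro n
      right
      apply fvd_out_mem
      · exact h0
      · right; left
        change x.1 - n < -(L : ℤ)
        omega
    · intro n
      have := (fvd_ad (x.1 - (n + 1 : ℕ), x.2.1, x.2.2) 0 (by decide)).symm
      convert this using 2
      simp [unit]
      ring
    · intro m n hmn
      have := congrArg (fun e : Edge => e.1.1) hmn
      simp only at this
      omega
  · refine fvd_ray hG hI (fun n : ℕ => ((x.1, x.2.1 + n, x.2.2), (2 : Fin 3))) ?_ ?_ ?_ ?_
    · simpa using he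
    · intro n
      right
      apply fvd_out_mem
      · exact h0
      · right; right; left
        change (L : ℤ) < x.2.1 + n
        omega
    · intro n
      have := fvd_ad (x.1, x.2.1 + n, x.2.2) 1 (by decide)
      convert this using 2
      simp [unit]
      ring
    · intro m n hmn
      have := congrArg (fun e : Edge => e.1.2.1) hmn
      simp only at this
      omega
  · refine fvd_ray hG hI (fun n : ℕ => ((x.1, x.2.1 - n, x.2.2), (2 : Fin 3))) ?_ ?_ ?_ ?_
    · simpa using he
    · intro n
      right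
      apply fvd_out_mem
      · exact h0
      · right; right; right
        change x.2.1 - n < -(L : ℤ)
        omega
    · intro n
      have := (fvd_ad (x.1, x.2.1 - (n + 1 : ℕ), x.2.2) 1 (by decide)).symm
      convert this using 2
      simp [unit]
      ring
    · intro m n hmn
      have := congrArg (fun e : Edge => e.1.2.1) hmn
      simp only at this
      omega

/-- the union of the finite isolated subsets of `F ∪ out L M` -/
private def isoU (L M : ℕ) (F : Set Edge) : Set Edge :=
  {e | ∃ G : Set Edge, G.Finite ∧ Isol Ad (F ∪ out L M) G ∧ e ∈ G}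

private theorem isoU_not_out {L M : ℕ} {F : Set Edge} {e : Edge} (he : e ∈ isoU L M F) :
    e ∉ out L M := by
  obtain ⟨G, h1, h2, h3⟩ := he
  exact out_iso h1 h2 e h3

private theorem isoU_sub {L M : ℕ} {F : Set Edge} {e : Edge} (he : e ∈ isoU L M F) : e ∈ F := by
  have h0 := isoU_not_out he
  obtain ⟨G, h1, h2, h3⟩ := he
  rcases h2.1 h3 with h | h
  · exact h
  · exact absurd h h0

private theorem isoU_iso {L M : ℕ} {F : Set Edge} : Isol Ad (F ∪ out L M) (isoU L M F) := by
  refine ⟨fun e he => Or.inl (isoU_sub he), ?_⟩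
  rintro e ⟨G, h1, h2, h3⟩ f hf hef
  exact ⟨G, h1, h2, h2.2 e h3 f hf hef⟩

private theorem fvd_fin {L M : ℕ} {D : Set Edge} (hD : D ⊆ (edges L M : Set Edge)) :
    {e | ¬ (e ∈ D ∪ out L M ↔ e ∈ PP)}.Finite := by
  refine (edges L M).finite_toSet.subset ?_
  intro e he
  by_contra hn
  apply he
  constructor
  · rintro (h | h)
    · exact absurd (hD h) hn
    · exact h.1
  · intro h
    exact Or.inr ⟨h, hn⟩

open Classical in
private theorem fvd_sep {L M : ℕ} {F : Set Edge} (hF : F.Finite) (h : Sep (F ∪ out L M)) :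
    Sep ((F \ isoU L M F) ∪ out L M) := by
  obtain ⟨c, h1, h2, h3⟩ := h
  have hI : Isol Ad (F ∪ out L M) ((F \ isoU L M F) ∪ out L M) := by
    refine ⟨?_, ?_⟩
    · rintro e (he | he)
      · exact Or.inl he.1
      · exact Or.inr he
    · rintro e he f hf hef
      by_cases hfi : f ∈ isoU L M F
      · exfalso
        have he' : e ∈ F ∪ out L M := by
          rcases he with he | he
          · exact Or.inl he.1
          · exact Or.inr he
        have h4 : e ∈ isoU L M F := isoU_iso.2 f hfi e he' hef.symm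
        rcases he with he | he
        · exact he.2 h4
        · exact isoU_not_out h4 he
      · rcases hf with hf | hf
        · exact Or.inl ⟨hf, hfi⟩
        · exact Or.inr hf
  refine ⟨fun e => if e ∈ (F \ isoU L M F) ∪ out L M then c e else 0, ?_, ?_, ?_⟩
  · convert cl_restrict hI h1 h2
  · intro e he
    by_contra hn
    exact he (if_neg hn)
  · refine (h3.union hF).subset ?_
    intro e he
    by_contra hn
    rw [Set.mem_union, not_or] at hn
    obtain ⟨n1, n2⟩ := hn
    have n1' : c e = if e ∈ PP then 1 else 0 := not_not.1 n1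
    apply he
    change (if e ∈ (F \ isoU L M F) ∪ out L M then c e else 0) = if e ∈ PP then 1 else 0
    by_cases hm : e ∈ (F \ isoU L M F) ∪ out L M
    · rw [if_pos hm, n1']
    · rw [if_neg hm]
      by_cases hc : c e = 0
      · rw [← n1', hc]
      · exfalso
        rcases h2 e hc with h4 | h4
        · exact n2 h4
        · exact hm (Or.inr h4)

private theorem fvd_intf {L M : ℕ} {F : Finset Edge} (hF : F ⊆ edges L M)
    (h : Sep ((F : Set Edge) ∪ out L M)) :
    Intf (((F : Set Edge) \ isoU L M F) ∪ out L M) := by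
  refine ⟨⟨fvd_fin ?_, fvd_sep F.finite_toSet h⟩, ?_⟩
  · rintro e ⟨he, -⟩
    exact hF he
  · intro G hG hI
    have h1 : Isol Ad ((F : Set Edge) ∪ out L M) G := by
      refine ⟨?_, ?_⟩
      · intro e he
        rcases hI.1 he with h2 | h2
        · exact Or.inl h2.1
        · exact Or.inr h2
      · intro e he f hf hef
        apply hI.2 e he f _ hef
        by_cases hfi : f ∈ isoU L M (F : Set Edge)
        · exfalso
          have he1 := hI.1 he
          have he' : e ∈ (F : Set Edge) ∪ out L M := by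
            rcases he1 with he1 | he1
            · exact Or.inl he1.1
            · exact Or.inr he1
          have h4 : e ∈ isoU L M (F : Set Edge) := isoU_iso.2 f hfi e he' hef.symm
          rcases he1 with he1 | he1
          · exact he1.2 h4
          · exact isoU_not_out h4 he1
        · rcases hf with hf | hf
          · exact Or.inl ⟨hf, hfi⟩
          · exact Or.inr hf
    by_contra hne
    obtain ⟨e, he⟩ := Set.nonempty_iff_ne_empty.2 hne
    have h2 : e ∈ isoU L M (F : Set Edge) := ⟨G, hG, h1, he⟩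
    rcases hI.1 he with h3 | h3
    · exact h3.2 h2
    · exact isoU_not_out h2 h3

private theorem fvd_hit {L M : ℕ} {F : Set Edge} {X : Finset Edge}
    (hX : ∀ e ∈ X, e ∈ isoU L M F) : ¬ hit ((F \ isoU L M F) ∪ out L M) X := by
  rintro ⟨f, hf, e, he, hef⟩
  have he' : e ∈ F ∪ out L M := by
    rcases he with he | he
    · exact Or.inl he.1
    · exact Or.inr he
  have h4 : e ∈ isoU L M F := isoU_iso.2 f (hX f hf) e he' hef.symm
  rcases he with he | he
  · exact he.2 h4
  · exact isoU_not_out h4 he

/-- the isolated part of `D ∪ F'` is `F'` -/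
private theorem fvd_iso {L M : ℕ} {D F' : Finset Edge} (hD : Intf ((D : Set Edge) ∪ out L M))
    (hF : ¬ hit ((D : Set Edge) ∪ out L M) F') (e : Edge) :
    e ∈ isoU L M ((D ∪ F' : Finset Edge) : Set Edge) ↔ e ∈ F' := by
  constructor
  · intro he
    have h0 := isoU_sub he
    obtain ⟨G, h1, h2, h3⟩ := he
    have h4 : G ∩ ((D : Set Edge) ∪ out L M) = ∅ := by
      apply hD.2 _ (h1.subset Set.inter_subset_left)
      refine ⟨Set.inter_subset_right, ?_⟩
      rintro a ⟨ha1, ha2⟩ b hb hab
      refine ⟨h2.2 a ha1 b ?_ hab, hb⟩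
      rcases hb with hb | hb
      · left
        have : b ∈ D := by exact_mod_cast hb
        exact_mod_cast Finset.mem_union_left _ this
      · exact Or.inr hb
    have h5 : e ∉ (D : Set Edge) ∪ out L M := by
      intro h6
      have : e ∈ G ∩ ((D : Set Edge) ∪ out L M) := ⟨h3, h6⟩
      rw [h4] at this
      exact this
    have h6 : e ∈ D ∪ F' := by exact_mod_cast h0
    rcases Finset.mem_union.1 h6 with h7 | h7
    · exact absurd (Or.inl (by exact_mod_cast h7)) h5
    · exact h7
  · intro he
    refine ⟨(F' : Set Edge), F'.finite_toSet, ⟨?_, ?_⟩, by exact_mod_cast he⟩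
    · intro f hf
      left
      have : f ∈ F' := by exact_mod_cast hf
      exact_mod_cast Finset.mem_union_right _ this
    · intro f hf g hg hfg
      have hf' : f ∈ F' := by exact_mod_cast hf
      by_contra hng
      have hng' : g ∉ F' := fun h => hng (by exact_mod_cast h)
      apply hF
      refine ⟨f, hf', g, ?_, hfg.symm⟩
      rcases hg with hg | hg
      · left
        have h6 : g ∈ D ∪ F' := by exact_mod_cast hg
        rcases Finset.mem_union.1 h6 with h7 | h7
        · exact_mod_cast h7
        · exact absurd h7 hng'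
      · exact Or.inr hg

private theorem fvd_disj {L M : ℕ} {D F' : Finset Edge}
    (hF : ¬ hit ((D : Set Edge) ∪ out L M) F') {e : Edge} (he : e ∈ D) : e ∉ F' := by
  intro h
  exact hF ⟨e, h, e, Or.inl (by exact_mod_cast he), Ad_self e⟩

open Classical in
theorem fv_dec (L M : ℕ) (φ : Finset Edge → ℝ) :
    ∑ F ∈ (edges L M).powerset.filter (fun F : Finset Edge => Sep ((F : Set Edge) ∪ out L M)), φ F =
      ∑ D ∈ (edges L M).powerset.filter (fun D : Finset Edge => Intf ((D : Set Edge) ∪ out L M)),
        ∑ F' ∈ (edges L M).powerset.filter (fun F' : Finset Edge => ¬ hit ((D : Set Edge) ∪ out L M) F'),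
          φ (D ∪ F') := by
  rw [Finset.sum_sigma']
  refine Finset.sum_bij' (fun F _ => ⟨F.filter (fun e => e ∉ isoU L M (F : Set Edge)),
    F.filter (fun e => e ∈ isoU L M (F : Set Edge))⟩) (fun x _ => x.1 ∪ x.2) ?_ ?_ ?_ ?_ ?_
  · intro F hF
    rw [Finset.mem_filter, Finset.mem_powerset] at hF
    have e1 : ((F.filter (fun e => e ∉ isoU L M (F : Set Edge)) : Finset Edge) : Set Edge) =
        (F : Set Edge) \ isoU L M F := by
      ext e
      simp
    rw [Finset.mem_sigma, Finset.mem_filter, Finset.mem_filter, Finset.mem_powerset,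
      Finset.mem_powerset]
    refine ⟨⟨(Finset.filter_subset _ _).trans hF.1, ?_⟩, (Finset.filter_subset _ _).trans hF.1, ?_⟩
    · change Intf (((F.filter (fun e => e ∉ isoU L M (F : Set Edge)) : Finset Edge) : Set Edge) ∪
        out L M)
      rw [e1]
      exact fvd_intf hF.1 hF.2
    · change ¬ hit (((F.filter (fun e => e ∉ isoU L M (F : Set Edge)) : Finset Edge) : Set Edge) ∪
        out L M) _
      rw [e1]
      apply fvd_hit
      intro e he
      exact (Finset.mem_filter.1 he).2
  · rintro ⟨D, F'⟩ hx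
    rw [Finset.mem_sigma, Finset.mem_filter, Finset.mem_filter, Finset.mem_powerset,
      Finset.mem_powerset] at hx
    obtain ⟨⟨h1, h2⟩, h3, h4⟩ := hx
    rw [Finset.mem_filter, Finset.mem_powerset]
    refine ⟨Finset.union_subset h1 h3, h2.1.2.mono ?_⟩
    rintro e (he | he)
    · left
      have : e ∈ D := by exact_mod_cast he
      exact_mod_cast Finset.mem_union_left _ this
    · exact Or.inr he
  · intro F _
    ext e
    simp only [Finset.mem_union, Finset.mem_filter]
    tauto
  · rintro ⟨D, F'⟩ hx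
    rw [Finset.mem_sigma, Finset.mem_filter, Finset.mem_filter, Finset.mem_powerset,
      Finset.mem_powerset] at hx
    obtain ⟨⟨h1, h2⟩, h3, h4⟩ := hx
    have k1 : (D ∪ F').filter (fun e => e ∉ isoU L M ((D ∪ F' : Finset Edge) : Set Edge)) = D := by
      ext e
      rw [Finset.mem_filter, Finset.mem_union, fvd_iso h2 h4]
      constructor
      · rintro ⟨h | h, h'⟩
        · exact h
        · exact absurd h h'
      · intro h
        exact ⟨Or.inl h, fvd_disj h4 h⟩
    have k2 : (D ∪ F').filter (fun e => e ∈ isoU L M ((D ∪ F' : Finset Edge) : Set Edge)) = F' := by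
      ext e
      rw [Finset.mem_filter, Finset.mem_union, fvd_iso h2 h4]
      tauto
    change (⟨(D ∪ F').filter (fun e => e ∉ isoU L M ((D ∪ F' : Finset Edge) : Set Edge)),
      (D ∪ F').filter (fun e => e ∈ isoU L M ((D ∪ F' : Finset Edge) : Set Edge))⟩ :
        Σ _ : Finset Edge, Finset Edge) = ⟨D, F'⟩
    rw [k1, k2]
  · intro F _
    congr 1
    ext e
    simp only [Finset.mem_union, Finset.mem_filter]
    tauto

theorem nn_dec {L M : ℕ} {D F' : Finset Edge} (hD : D ⊆ edges L M)
    (h : ¬ hit ((D : Set Edge) ∪ out L M) F') :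
    nn (((D ∪ F' : Finset Edge) : Set Edge) ∪ out L M) =
      nn ((D : Set Edge) ∪ out L M) + nn (F' : Set Edge) := by
  have e1 : ((D ∪ F' : Finset Edge) : Set Edge) ∪ out L M =
      ((D : Set Edge) ∪ out L M) ∪ (F' : Set Edge) := by
    rw [Finset.coe_union]
    ext e
    simp only [Set.mem_union]
    tauto
  rw [e1]
  apply nn_union
  · refine D.finite_toSet.subset ?_
    rintro e ⟨he | he, h2⟩
    · exact he
    · exact absurd he.1.1 h2
  · refine F'.finite_toSet.subset ?_
    rintro e ⟨he, -⟩
    exact he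
  · intro e he f hf hef
    exact h ⟨f, by exact_mod_cast hf, e, he, hef⟩

end Pool.Agent.H78.DB
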