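import Pool.Agent.H78.DB.GlV

/-!
# Module Fve: the number of edges of an interface in the box

`Δ = D ∪ out L M`, `D ⊆ edges L M`, `PI Δ`. `fv_inV`: `InV (edges L M) Δ`, hence `InV (EL L) Δ` (`edges_EL`-type inclusion: an edge not in `EL L` has no end in the
box). Conversely a `Δ` with `InV (edges L M) Δ` is `D ∪ out L M` with `D = {e ∈ edges L M | e ∈ Δ}`.
`fv_card`: count the edges of `D` by the column `a = pr e.1` of their first vertex: `a ∈ sqr (L+1)` (one end in the box). For `a ∈ sqr L` every edge of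
`Δ` starting over `a` is in `D`, except possibly... : `e ∈ out L M` is `ve b 0` with `b ∉ sqr L` (`ve b 0 ∈ edges L M` for `b ∈ sqr L`: its vertex at height `0`
is in the box), so for `a ∈ sqr L` all `nE Δ a` edges are in `D`; for `a ∉ sqr L`: exactly the edge `ve a 0 ∈ out L M` is not in `D`
(`#= nE Δ a - 1`). So `|D| = ∑_{a ∈ sqr (L+1)} (nE Δ a - 1) + |sqr L| = en Δ + (2L+1)^2` (`en_sum`, `InV_irr`, `nE_pos`).
-/

set_option autoImplicit false

namespace Pool.Agent.H78.DB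

open Pool.Agent.H72.DJ

private theorem Fve_pr_unit (x : Vtx) (k : Fin 3) : pr (x + unit k) = pr x + dirc k := by
  fin_cases k <;> simp [pr, unit, dirc, Prod.ext_iff]

private theorem Fve_mem_sqr {L : ℕ} {a : Col} : a ∈ sqr L ↔
    (-(L : ℤ) ≤ a.1 ∧ a.1 ≤ L) ∧ (-(L : ℤ) ≤ a.2 ∧ a.2 ≤ L) := by
  unfold sqr
  rw [Finset.mem_product, Finset.mem_Icc, Finset.mem_Icc]

private theorem Fve_box_sqr {L M : ℕ} {x : Vtx} (h : x ∈ box L M) : pr x ∈ sqr L := by
  rw [mem_box] at h
  rw [Fve_mem_sqr]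
  exact ⟨h.1, h.2.1⟩

private theorem Fve_mem_bs {e : Edge} {a : Col} : a ∈ bs e ↔ a = pr e.1 ∨ a = pr e.1 + dirc e.2 := by
  unfold bs
  rw [Finset.mem_insert, Finset.mem_singleton]

private theorem Fve_edges_EL {L M : ℕ} {e : Edge} (h : e ∈ edges L M) : e ∈ EL L := by
  rcases mem_edges.1 h with h | h
  · exact ⟨pr e.1, Fve_mem_bs.2 (Or.inl rfl), Fve_box_sqr h⟩
  · refine ⟨pr e.1 + dirc e.2, Fve_mem_bs.2 (Or.inr rfl), ?_⟩
    rw [← Fve_pr_unit]
    exact Fve_box_sqr h

theorem fv_inV {L M : ℕ} {D : Finset Edge} (hD : D ⊆ edges L M) :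
    InV (edges L M : Set Edge) ((D : Set Edge) ∪ out L M) := by
  intro e he
  constructor
  · rintro (h | h)
    · exact absurd (Finset.mem_coe.2 (hD (Finset.mem_coe.1 h))) he
    · exact h.1
  · intro h
    exact Or.inr ⟨h, he⟩

theorem InV_EL {L M : ℕ} {Δ : Set Edge} (h : InV (edges L M : Set Edge) Δ) : InV (EL L) Δ := by
  intro e he
  exact h e fun h' => he (Fve_edges_EL (Finset.mem_coe.1 h'))

open Classical in
theorem inV_eq {L M : ℕ} {Δ : Set Edge} (h : InV (edges L M : Set Edge) Δ) :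
    Δ = (((edges L M).filter fun e => e ∈ Δ : Finset Edge) : Set Edge) ∪ out L M := by
  ext e
  constructor
  · intro he
    by_cases h1 : e ∈ edges L M
    · left
      exact Finset.mem_coe.2 (Finset.mem_filter.2 ⟨h1, he⟩)
    · right
      exact ⟨(h e fun h2 => h1 (Finset.mem_coe.1 h2)).1 he, fun h2 => h1 (Finset.mem_coe.1 h2)⟩
  · rintro (h1 | h1)
    · exact (Finset.mem_filter.1 (Finset.mem_coe.1 h1)).2
    · exact (h e h1.2).2 h1.1

private theorem Fve_pr_edges {L M : ℕ} {e : Edge} (h : e ∈ edges L M) : pr e.1 ∈ sqr (L + 1) := by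
  obtain ⟨⟨x, y, z⟩, k⟩ := e
  rw [Fve_mem_sqr]
  rcases mem_edges.1 h with h | h
  · rw [mem_box] at h
    simp only [pr] at h ⊢
    push_cast
    omega
  · rw [mem_box] at h
    fin_cases k <;> simp [pr, unit] at h ⊢ <;> omega

private theorem Fve_out {L M : ℕ} {e : Edge} (h : e ∈ out L M) :
    e = ve (pr e.1) 0 ∧ pr e.1 ∉ sqr L := by
  obtain ⟨⟨h1, h2⟩, h3⟩ := h
  obtain ⟨⟨x, y, z⟩, k⟩ := e
  simp only at h1 h2
  subst h1
  subst h2
  refine ⟨rfl, fun h4 => h3 ?_⟩
  rw [Finset.mem_coe, mem_edges]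
  left
  rw [mem_box]
  rw [Fve_mem_sqr] at h4
  simp only [pr] at h4
  refine ⟨h4.1, h4.2, ?_, ?_⟩ <;> simp

private theorem Fve_ve_out {L M : ℕ} {a : Col} (ha : a ∉ sqr L) : ve a 0 ∈ out L M := by
  refine ⟨⟨rfl, rfl⟩, fun h => ha ?_⟩
  rw [Finset.mem_coe, mem_edges] at h
  rcases h with h | h
  · exact Fve_box_sqr h
  · have h1 := Fve_box_sqr h
    rw [Fve_pr_unit] at h1
    have h2 : pr (ve a 0).1 + dirc (ve a 0).2 = a := by
      simp [pr, ve, dirc]
    rw [h2] at h1
    exact h1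

private theorem Fve_card_sqr (L : ℕ) : (sqr L).card = (2 * L + 1) ^ 2 := by
  unfold sqr
  rw [Finset.card_product, Int.card_Icc]
  have h1 : ((L : ℤ) + 1 - -(L : ℤ)).toNat = 2 * L + 1 := by omega
  rw [h1]
  ring

theorem fv_card {L M : ℕ} {D : Finset Edge} (hD : D ⊆ edges L M)
    (h : PI ((D : Set Edge) ∪ out L M)) :
    D.card = en ((D : Set Edge) ∪ out L M) + (2 * L + 1) ^ 2 := by
  classical
  have hirr := InV_irr h (InV_EL (fv_inV hD))
  rw [en_sum h hirr]
  have hmap : ∀ e ∈ D, pr e.1 ∈ sqr (L + 1) := fun e he => Fve_pr_edges (hD he)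
  rw [Finset.card_eq_sum_card_fiberwise (f := fun e : Edge => pr e.1) (t := sqr (L + 1))
    (fun e he => hmap e he)]
  have hsub : sqr L ⊆ sqr (L + 1) := by
    intro a ha
    rw [Fve_mem_sqr] at ha ⊢
    push_cast
    omega
  have hc : (2 * L + 1) ^ 2 = ∑ a ∈ sqr (L + 1), if a ∈ sqr L then 1 else 0 := by
    rw [← Fve_card_sqr L, ← Finset.sum_filter, Finset.filter_mem_eq_inter,
      Finset.inter_eq_right.2 hsub]
    simp
  rw [hc, ← Finset.sum_add_distrib]
  refine Finset.sum_congr rfl fun a ha => ?_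
  have hpos := nE_pos h a
  by_cases haL : a ∈ sqr L
  · rw [if_pos haL]
    have h1 : {e | e ∈ ((D : Set Edge) ∪ out L M) ∧ pr e.1 = a} =
        ((D.filter fun e => pr e.1 = a : Finset Edge) : Set Edge) := by
      ext e
      rw [Finset.mem_coe, Finset.mem_filter]
      constructor
      · rintro ⟨h2 | h2, h3⟩
        · exact ⟨Finset.mem_coe.1 h2, h3⟩
        · exact absurd haL (h3 ▸ (Fve_out h2).2)
      · rintro ⟨h2, h3⟩
        exact ⟨Or.inl (Finset.mem_coe.2 h2), h3⟩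
    unfold nE at hpos ⊢
    rw [h1, Set.ncard_coe_finset] at hpos ⊢
    omega
  · rw [if_neg haL]
    have hnot : ve a 0 ∉ D.filter fun e => pr e.1 = a := by
      intro h2
      have h3 := hD (Finset.mem_filter.1 h2).1
      exact (Fve_ve_out (M := M) haL).2 (Finset.mem_coe.2 h3)
    have h1 : {e | e ∈ ((D : Set Edge) ∪ out L M) ∧ pr e.1 = a} =
        ((insert (ve a 0) (D.filter fun e => pr e.1 = a) : Finset Edge) : Set Edge) := by
      ext e
      rw [Finset.mem_coe, Finset.mem_insert, Finset.mem_filter]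
      constructor
      · rintro ⟨h2 | h2, h3⟩
        · exact Or.inr ⟨Finset.mem_coe.1 h2, h3⟩
        · left
          rw [← h3]
          exact (Fve_out h2).1
      · rintro (h2 | ⟨h2, h3⟩)
        · rw [h2]
          exact ⟨Or.inr (Fve_ve_out haL), rfl⟩
        · exact ⟨Or.inl (Finset.mem_coe.2 h2), h3⟩
    unfold nE at hpos ⊢
    rw [h1, Set.ncard_coe_finset, Finset.card_insert_of_notMem hnot] at hpos ⊢
    omega

/-- an interface in the cylinder is in the box for large `M` -/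
theorem inV_ev {L : ℕ} {Δ : Set Edge} (h : PI Δ) (hV : InV (EL L) Δ) :
    ∃ M₀ : ℕ, ∀ M, M₀ ≤ M → InV (edges L M : Set Edge) Δ := by
  classical
  refine ⟨(h.1.toFinset.sup fun e : Edge => e.1.2.2.natAbs) + 1, fun M hM e he => ?_⟩
  by_cases hEL : e ∈ EL L
  · by_contra hne
    apply he
    rw [Finset.mem_coe, mem_edges]
    have h1 : e.1.2.2.natAbs ≤ h.1.toFinset.sup fun e : Edge => e.1.2.2.natAbs :=
      Finset.le_sup (f := fun e : Edge => e.1.2.2.natAbs)
        ((Set.Finite.mem_toFinset h.1).2 (show e ∈ {e | ¬ (e ∈ Δ ↔ e ∈ PP)} from hne))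
    generalize (h.1.toFinset.sup fun e : Edge => e.1.2.2.natAbs) = m at h1 hM
    obtain ⟨⟨x, y, z⟩, k⟩ := e
    obtain ⟨a, ha, haL⟩ := hEL
    rw [Fve_mem_bs] at ha
    rcases ha with rfl | rfl
    · left
      rw [mem_box]
      rw [Fve_mem_sqr] at haL
      simp only [pr] at haL h1 ⊢
      omega
    · right
      rw [← Fve_pr_unit] at haL
      rw [mem_box]
      rw [Fve_mem_sqr] at haL
      simp only at h1
      fin_cases k <;> simp [pr, unit] at haL ⊢ <;> omega
  · exact hV e hEL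

end Pool.Agent.H78.DB
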