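import Pool.Agent.H78.DB.Defs

/-!
# Module XiR: the partition function of the gas

`Xi_pos`: the term `F = ∅` is `1`, the others are nonnegative. `Xi_insert`: for `e ∉ S`,
`Xi (insert e S) = Xi S + ∑_γ w γ * Xi (S \ N̄ γ)`, sum over the connected `γ ⊆ insert e S` containing `e`
(`N̄ γ = γ.biUnion N`): the sets `F ⊆ insert e S` not containing `e` give `Xi S`. For `F ∋ e` let `γ` be the component of `e` in
`F` (the intersection of all subsets of `F` which contain `e` and are closed under steps, i.e. `Isol (b ∈ N a) F`): it is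
connected, contains `e`, and `F \ γ ⊆ S \ N̄ γ`; conversely for connected `γ ∋ e` and `F' ⊆ S \ N̄ γ` the set `F = γ ∪ F'` has the
component `γ`; `w F = w γ * w F'` (`wmul`). `Xi_union`: for `A`, `B` without adjacent pair and disjoint, `Xi (A ∪ B) = Xi A * Xi B`
(`F ↦ (F ∩ A, F ∩ B)`).
-/

set_option autoImplicit false

namespace Pool.Agent.H78.DB

variable {V : Type} [DecidableEq V] {N : V → Finset V} {w : Finset V → ℝ} {lam : ℝ}

theorem Xi_empty (h : Gas N w lam) : Xi w ∅ = 1 := by
  simp [Xi, h.w0]

theorem Xi_pos (h : Gas N w lam) (S : Finset V) : 1 ≤ Xi w S := by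
  rw [← h.w0]
  exact Finset.single_le_sum (f := w) (fun F _ => h.wpos F) (Finset.empty_mem_powerset S)

open Classical in
/-- the component of `e` in `F` -/
private noncomputable def comp (N : V → Finset V) (F : Finset V) (e : V) : Finset V :=
  F.filter fun x => ∀ G : Set V, Isol (fun a b => b ∈ N a) (F : Set V) G → e ∈ G → x ∈ G

omit [DecidableEq V] in
private lemma mem_comp {F : Finset V} {e x : V} : x ∈ comp N F e ↔
    x ∈ F ∧ ∀ G : Set V, Isol (fun a b => b ∈ N a) (F : Set V) G → e ∈ G → x ∈ G := by
  simp [comp]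

omit [DecidableEq V] in
private lemma comp_isol (F : Finset V) (e : V) :
    Isol (fun a b => b ∈ N a) (F : Set V) (comp N F e : Set V) := by
  constructor
  · intro x hx
    exact (mem_comp.1 (Finset.mem_coe.1 hx)).1
  · intro x hx y hy hxy
    rw [Finset.mem_coe, mem_comp] at hx ⊢
    refine ⟨hy, fun G hG he => ?_⟩
    exact hG.2 x (hx.2 G hG he) y hy hxy

omit [DecidableEq V] in
private lemma comp_cn (h : Gas N w lam) {F : Finset V} {e : V} (heF : e ∈ F) :
    Cn (fun a b => b ∈ N a) (comp N F e : Set V) := by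
  intro G hG hne
  have hI := comp_isol (N := N) F e
  by_cases he : e ∈ G
  · apply Set.Subset.antisymm hG.1
    intro x hx
    rw [Finset.mem_coe, mem_comp] at hx
    refine hx.2 G ⟨hG.1.trans hI.1, ?_⟩ he
    intro y hy z hz hyz
    exact hG.2 y hy z (hI.2 y (hG.1 hy) z hz hyz) hyz
  · exfalso
    obtain ⟨g, hg⟩ := hne
    have hg' := hG.1 hg
    rw [Finset.mem_coe, mem_comp] at hg'
    have h1 := hg'.2 ((comp N F e : Set V) \ G) ⟨fun x hx => hI.1 hx.1, ?_⟩ ⟨?_, he⟩
    · exact h1.2 hg
    · intro y hy z hz hyz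
      have hz' := hI.2 y hy.1 z hz hyz
      refine ⟨hz', fun hzG => ?_⟩
      exact hy.2 (hG.2 z hzG y hy.1 (h.symm _ _ hyz))
    · rw [Finset.mem_coe, mem_comp]
      exact ⟨heF, fun G' _ he' => he'⟩

omit [DecidableEq V] in
private lemma comp_self {F : Finset V} {e : V} (heF : e ∈ F) : e ∈ comp N F e :=
  mem_comp.2 ⟨heF, fun _ _ he => he⟩

omit [DecidableEq V] in
private lemma comp_eq {F γ : Finset V} {e : V} (he : e ∈ γ)
    (hI : Isol (fun a b => b ∈ N a) (F : Set V) (γ : Set V))
    (hc : Cn (fun a b => b ∈ N a) (γ : Set V)) : comp N F e = γ := by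
  have heF : e ∈ F := hI.1 he
  have hI' := comp_isol (N := N) F e
  have hsub : (comp N F e : Set V) ⊆ (γ : Set V) := by
    intro x hx
    rw [Finset.mem_coe, mem_comp] at hx
    exact hx.2 _ hI he
  have h1 := hc (comp N F e : Set V) ⟨hsub, fun x hx y hy hxy => hI'.2 x hx y (hI.1 hy) hxy⟩
    ⟨e, Finset.mem_coe.2 (comp_self heF)⟩
  exact Finset.coe_injective h1

open Classical in
theorem Xi_insert (h : Gas N w lam) (S : Finset V) (e : V) (he : e ∉ S) :
    Xi w (insert e S) = Xi w S + ∑ γ ∈ (insert e S).powerset.filter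
      (fun γ : Finset V => e ∈ γ ∧ Cn (fun a b => b ∈ N a) (γ : Set V)), w γ * Xi w (S \ γ.biUnion N) := by
  have hsplit : Xi w (insert e S) = Xi w S + ∑ t ∈ S.powerset, w (insert e t) := by
    unfold Xi
    convert Finset.sum_powerset_insert he w
  rw [hsplit]
  congr 1
  rw [← Finset.sum_fiberwise_of_maps_to (s := S.powerset)
    (t := (insert e S).powerset.filter
      (fun γ : Finset V => e ∈ γ ∧ Cn (fun a b => b ∈ N a) (γ : Set V)))
    (g := fun t => comp N (insert e t) e)]
  · refine Finset.sum_congr rfl fun γ hγ => ?_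
    rw [Finset.mem_filter, Finset.mem_powerset] at hγ
    obtain ⟨hγS, heγ, hcn⟩ := hγ
    unfold Xi
    rw [Finset.mul_sum]
    refine Finset.sum_bij' (fun t _ => t \ γ) (fun F' _ => (γ ∪ F').erase e) ?_ ?_ ?_ ?_ ?_
    · intro t ht
      rw [Finset.mem_filter, Finset.mem_powerset] at ht
      obtain ⟨htS, hcomp⟩ := ht
      rw [Finset.mem_powerset]
      intro x hx
      rw [Finset.mem_sdiff] at hx ⊢
      refine ⟨htS hx.1, fun hxN => ?_⟩
      rw [Finset.mem_biUnion] at hxN
      obtain ⟨a, ha, hxa⟩ := hxN
      have hI := comp_isol (N := N) (insert e t) e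
      rw [hcomp] at hI
      exact hx.2 (hI.2 a ha x (Finset.mem_coe.2 (Finset.mem_insert_of_mem hx.1)) hxa)
    · intro F' hF'
      rw [Finset.mem_powerset] at hF'
      have hins : insert e ((γ ∪ F').erase e) = γ ∪ F' :=
        Finset.insert_erase (Finset.mem_union_left _ heγ)
      rw [Finset.mem_filter, Finset.mem_powerset]
      constructor
      · intro x hx
        rw [Finset.mem_erase, Finset.mem_union] at hx
        rcases hx.2 with h1 | h1
        · rcases Finset.mem_insert.1 (hγS h1) with h2 | h2
          · exact absurd h2 hx.1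
          · exact h2
        · exact (Finset.mem_sdiff.1 (hF' h1)).1
      · simp only [hins]
        refine comp_eq heγ ⟨?_, ?_⟩ hcn
        · intro x hx
          exact Finset.mem_coe.2 (Finset.mem_union_left _ (Finset.mem_coe.1 hx))
        · intro x hx y hy hxy
          rw [Finset.mem_coe, Finset.mem_union] at hy
          rcases hy with hy | hy
          · exact hy
          · exact absurd (Finset.mem_biUnion.2 ⟨x, hx, hxy⟩) (Finset.mem_sdiff.1 (hF' hy)).2
    · intro t ht
      rw [Finset.mem_filter, Finset.mem_powerset] at ht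
      obtain ⟨htS, hcomp⟩ := ht
      have hsub : ∀ x ∈ γ, x ∈ insert e t := by
        intro x hx
        have hI := comp_isol (N := N) (insert e t) e
        rw [hcomp] at hI
        exact hI.1 hx
      have het : e ∉ t := fun h' => he (htS h')
      ext x
      simp only [Finset.mem_erase, Finset.mem_union, Finset.mem_sdiff]
      constructor
      · rintro ⟨hxe, hx | hx⟩
        · rcases Finset.mem_insert.1 (hsub x hx) with h1 | h1
          · exact absurd h1 hxe
          · exact h1
        · exact hx.1
      · intro hx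
        refine ⟨fun hxe => het (hxe ▸ hx), ?_⟩
        by_cases hxγ : x ∈ γ
        · exact Or.inl hxγ
        · exact Or.inr ⟨hx, hxγ⟩
    · intro F' hF'
      rw [Finset.mem_powerset] at hF'
      have hd : ∀ x ∈ F', x ∉ γ := by
        intro x hx hxγ
        exact (Finset.mem_sdiff.1 (hF' hx)).2 (Finset.mem_biUnion.2 ⟨x, hxγ, h.self x⟩)
      ext x
      simp only [Finset.mem_erase, Finset.mem_union, Finset.mem_sdiff]
      constructor
      · rintro ⟨⟨_, hx | hx⟩, hxγ⟩
        · exact absurd hx hxγ
        · exact hx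
      · intro hx
        refine ⟨⟨fun hxe => hd x hx (hxe ▸ heγ), Or.inr hx⟩, hd x hx⟩
    · intro t ht
      rw [Finset.mem_filter, Finset.mem_powerset] at ht
      obtain ⟨htS, hcomp⟩ := ht
      have hI := comp_isol (N := N) (insert e t) e
      rw [hcomp] at hI
      refine h.wmul γ (t \ γ) ?_ _ ?_
      · intro a ha b hb hba
        rw [Finset.mem_sdiff] at hb
        exact hb.2 (hI.2 a ha b (Finset.mem_coe.2 (Finset.mem_insert_of_mem hb.1)) hba)
      · intro x
        rw [Finset.mem_insert, Finset.mem_sdiff]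
        constructor
        · rintro (hx | hx)
          · exact Or.inl (hx ▸ heγ)
          · by_cases hxγ : x ∈ γ
            · exact Or.inl hxγ
            · exact Or.inr ⟨hx, hxγ⟩
        · rintro (hx | hx)
          · exact Finset.mem_insert.1 (hI.1 hx)
          · exact Or.inr hx.1
  · intro t ht
    rw [Finset.mem_powerset] at ht
    rw [Finset.mem_filter, Finset.mem_powerset]
    refine ⟨?_, comp_self (Finset.mem_insert_self _ _), comp_cn h (Finset.mem_insert_self _ _)⟩
    intro x hx
    rcases Finset.mem_insert.1 (mem_comp.1 hx).1 with h1 | h1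
    · exact h1 ▸ Finset.mem_insert_self _ _
    · exact Finset.mem_insert_of_mem (ht h1)

theorem Xi_union (h : Gas N w lam) (A B : Finset V) (hAB : ∀ a ∈ A, ∀ b ∈ B, b ∉ N a) :
    Xi w (A ∪ B) = Xi w A * Xi w B := by
  classical
  have hd : ∀ x, x ∈ A → x ∈ B → False := fun x hA hB => hAB x hA x hB (h.self x)
  unfold Xi
  rw [Finset.sum_mul_sum, ← Finset.sum_product']
  refine Finset.sum_bij' (fun F _ => (F ∩ A, F ∩ B)) (fun p _ => p.1 ∪ p.2) ?_ ?_ ?_ ?_ ?_
  · intro F hF
    rw [Finset.mem_product, Finset.mem_powerset, Finset.mem_powerset]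
    exact ⟨Finset.inter_subset_right, Finset.inter_subset_right⟩
  · intro p hp
    rw [Finset.mem_product, Finset.mem_powerset, Finset.mem_powerset] at hp
    rw [Finset.mem_powerset]
    exact Finset.union_subset_union hp.1 hp.2
  · intro F hF
    rw [Finset.mem_powerset] at hF
    simp only
    rw [← Finset.inter_union_distrib_left]
    exact Finset.inter_eq_left.2 hF
  · intro p hp
    rw [Finset.mem_product, Finset.mem_powerset, Finset.mem_powerset] at hp
    apply Prod.ext
    · ext x
      simp only [Finset.mem_inter, Finset.mem_union]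
      constructor
      · rintro ⟨hx | hx, hA⟩
        · exact hx
        · exact (hd x hA (hp.2 hx)).elim
      · exact fun hx => ⟨Or.inl hx, hp.1 hx⟩
    · ext x
      simp only [Finset.mem_inter, Finset.mem_union]
      constructor
      · rintro ⟨hx | hx, hB⟩
        · exact (hd x (hp.1 hx) hB).elim
        · exact hx
      · exact fun hx => ⟨Or.inr hx, hp.2 hx⟩
  · intro F hF
    rw [Finset.mem_powerset] at hF
    refine h.wmul (F ∩ A) (F ∩ B) ?_ F ?_
    · intro a ha b hb
      exact hAB a (Finset.mem_inter.1 ha).2 b (Finset.mem_inter.1 hb).2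
    · intro x
      simp only [Finset.mem_inter]
      constructor
      · intro hx
        rcases Finset.mem_union.1 (hF hx) with h1 | h1
        · exact Or.inl ⟨hx, h1⟩
        · exact Or.inr ⟨hx, h1⟩
      · rintro (hx | hx) <;> exact hx.1

end Pool.Agent.H78.DB
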