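import Pool.Agent.H78.DB.Mob
import Pool.Agent.H78.DB.XiR

/-!
# Module PhZ: properties of the Moebius coefficients

`log_Xi`: `mob_inv`. `Ph_empty`: `log 1 = 0`. `Ph_map`: the bijection `Y ↦ Y.map τ` of the powersets, `Xi w (Y.map τ) = Xi w Y`.
`Ph_disc`: if `X` is not connected there is `G ⊆ X`, non-empty, closed under steps in `X`, `G ≠ X`; let `A = G`, `B = X \ G`
(finsets), without adjacent pair (`symm`), both non-empty. For `Y ⊆ X`: `log Xi Y = log Xi (Y ∩ A) + log Xi (Y ∩ B)`
(`Xi_union`). `mob` of `Y ↦ g (Y ∩ A)` at `X` is zero: pick `b ∈ B`; the terms `Y` and `Y ∆ {b}` cancel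
(`Finset.sum_involution`). The same for `B`.
-/

set_option autoImplicit false

namespace Pool.Agent.H78.DB

variable {V : Type} [DecidableEq V] {N : V → Finset V} {w : Finset V → ℝ} {lam : ℝ}

theorem log_Xi (w : Finset V → ℝ) (S : Finset V) :
    Real.log (Xi w S) = ∑ X ∈ S.powerset, Ph w X :=
  mob_inv (fun Y => Real.log (Xi w Y)) S

theorem Ph_empty (h : Gas N w lam) : Ph w ∅ = 0 := by
  unfold Ph mob
  rw [Finset.powerset_empty, Finset.sum_singleton]
  beta_reduce
  rw [Xi_empty h, Real.log_one, mul_zero]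

private theorem PhZ_sum (τ : V ≃ V) (g : Finset V → ℝ) (Y : Finset V) :
    ∑ F ∈ (Y.image τ).powerset, g F = ∑ F ∈ Y.powerset, g (F.image τ) := by
  symm
  refine Finset.sum_nbij' (fun F => F.image τ) (fun F => F.image τ.symm) ?_ ?_ ?_ ?_ ?_
  · intro F hF
    rw [Finset.mem_powerset] at hF ⊢
    exact Finset.image_subset_image hF
  · intro F hF
    rw [Finset.mem_powerset] at hF ⊢
    have := Finset.image_subset_image (f := τ.symm) hF
    rwa [Finset.image_image, Equiv.symm_comp_self, Finset.image_id] at this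
  · intro F _
    simp [Finset.image_image]
  · intro F _
    simp [Finset.image_image]
  · intro F _
    rfl

theorem Ph_map (τ : V ≃ V) (hw : ∀ F : Finset V, w (F.image τ) = w F) (X : Finset V) :
    Ph w (X.image τ) = Ph w X := by
  unfold Ph mob
  rw [PhZ_sum]
  refine Finset.sum_congr rfl fun Z _ => ?_
  have e1 : Xi w (Z.image τ) = Xi w Z := by
    unfold Xi
    rw [PhZ_sum]
    exact Finset.sum_congr rfl fun F _ => hw F
  beta_reduce
  rw [e1, Finset.card_image_of_injective _ τ.injective, Finset.card_image_of_injective _ τ.injective]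

/-- the transform vanishes if the function does not depend on one of the elements -/
private theorem PhZ_mob0 {g : Finset V → ℝ} {b : V} {X : Finset V} (hb : b ∈ X)
    (hg : ∀ Y, g (insert b Y) = g Y) : mob g X = 0 := by
  unfold mob
  have hX : insert b (X.erase b) = X := Finset.insert_erase hb
  have hn : b ∉ X.erase b := Finset.notMem_erase b X
  have hc : X.card = (X.erase b).card + 1 := by
    rw [← Finset.card_insert_of_notMem hn, hX]
  have e := Finset.sum_powerset_insert hn (fun Z => (-1 : ℝ) ^ (X.card - Z.card) * g Z)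
  rw [hX] at e
  rw [e, ← Finset.sum_add_distrib]
  refine Finset.sum_eq_zero fun Z hZ => ?_
  have hZ' := Finset.mem_powerset.1 hZ
  have hbZ : b ∉ Z := fun h => hn (hZ' h)
  have hle : Z.card ≤ (X.erase b).card := Finset.card_le_card hZ'
  rw [hg, Finset.card_insert_of_notMem hbZ, hc,
    show (X.erase b).card + 1 - Z.card = ((X.erase b).card - Z.card) + 1 by omega,
    show (X.erase b).card + 1 - (Z.card + 1) = (X.erase b).card - Z.card by omega, pow_succ]
  ring

theorem Ph_disc (h : Gas N w lam) (X : Finset V)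
    (hX : ¬ Cn (fun a b => b ∈ N a) (X : Set V)) : Ph w X = 0 := by
  classical
  unfold Cn at hX
  push Not at hX
  obtain ⟨G, hG, ⟨a, ha⟩, hne⟩ := hX
  obtain ⟨b, hbX, hbG⟩ : ∃ b ∈ X, b ∉ G := by
    by_contra hno
    push Not at hno
    exact hne (Set.Subset.antisymm hG.1 fun x hx => hno x hx)
  have haX : a ∈ X := hG.1 ha
  have hsep : ∀ Y : Finset V, Y ⊆ X → Real.log (Xi w Y) =
      Real.log (Xi w (Y.filter fun x => x ∈ G)) + Real.log (Xi w (Y.filter fun x => x ∉ G)) := by
    intro Y hY
    have e1 : Xi w Y = Xi w (Y.filter fun x => x ∈ G) * Xi w (Y.filter fun x => x ∉ G) := by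
      rw [← Xi_union h, Finset.filter_union_filter_not_eq]
      intro x hx y hy hxy
      rw [Finset.mem_filter] at hx hy
      exact hy.2 (hG.2 x hx.2 y (hY hy.1) hxy)
    rw [e1, Real.log_mul]
    · exact (lt_of_lt_of_le one_pos (Xi_pos h _)).ne'
    · exact (lt_of_lt_of_le one_pos (Xi_pos h _)).ne'
  have e2 : Ph w X = mob (fun Y => Real.log (Xi w (Y.filter fun x => x ∈ G)) +
      Real.log (Xi w (Y.filter fun x => x ∉ G))) X := mob_congr fun Z hZ => hsep Z hZ
  have e3 : mob (fun Y => Real.log (Xi w (Y.filter fun x => x ∈ G)) +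
      Real.log (Xi w (Y.filter fun x => x ∉ G))) X =
      mob (fun Y => Real.log (Xi w (Y.filter fun x => x ∈ G))) X +
        mob (fun Y => Real.log (Xi w (Y.filter fun x => x ∉ G))) X := by
    unfold mob
    rw [← Finset.sum_add_distrib]
    exact Finset.sum_congr rfl fun Z _ => by ring
  rw [e2, e3, PhZ_mob0 hbX, PhZ_mob0 haX, add_zero]
  · intro Y
    rw [Finset.filter_insert, if_neg (not_not.2 ha)]
  · intro Y
    rw [Finset.filter_insert, if_neg hbG]

end Pool.Agent.H78.DB
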