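import Pool.Agent.H78.DB.PhB
import Pool.Agent.H78.DB.PhZ
import Pool.Agent.H78.DB.Nnu
import Pool.Agent.H78.DB.BasS

/-!
# Module GasE: the gas of closed edges

`gas_wt`: neighbourhoods `adF` (`mem_adF`, `Ad_self`, `Ad.symm`, `adF_card`), `w ∅ = r^0 q^(nn ∅) = 1` (`nn_empty`), `wmul`: `nn_union` and
`|C| = |A| + |B|` (disjoint by `Ad_self`); `wle`: `nn F ≤ |hor F| ≤ |F|` (`nn_hor`), `1 ≤ q`.
`bulk`: `empty`, `conn` from PhZ (`mem_adF`: the two relations agree), `shift` from `Ph_map` with the equivalence `sh s`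
(inverse `sh (-s)`) and `nn_sh`; `sum`: `|Φ X| ≤ |X| θ^|X| ≤ (2 θ)^|X|` and `Φ X = 0` unless `X` is connected, so
`∑ |Φ X| ≤ 2 (256 * 2 θ)^m` by `cnt_sum` with `d = 16`, `t = 2 θ`, if `512 θ ≤ 1/2`.
-/

set_option autoImplicit false

namespace Pool.Agent.H78.DB

open Pool.Agent.H72.DJ

private lemma GasE_hor (F : Finset Edge) : (hor (F : Set Edge)).Finite :=
  F.finite_toSet.subset fun _ he => he.1

private lemma GasE_nn (F : Finset Edge) : nn (F : Set Edge) ≤ F.card := by
  refine (nn_hor (GasE_hor F)).trans ?_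
  rw [← Set.ncard_coe_finset F]
  exact Set.ncard_le_ncard (fun _ he => he.1) F.finite_toSet

private lemma GasE_rel : (fun a b : Edge => b ∈ adF a) = Ad := by
  funext a b
  exact propext mem_adF

theorem gas_wt {r q : ℝ} (hr : 0 ≤ r) (hq : 1 ≤ q) : Gas adF (wt r q) (r * q) where
  self e := mem_adF.2 (Ad_self e)
  symm e f h := mem_adF.2 (mem_adF.1 h).symm
  card := adF_card
  w0 := by
    unfold wt
    rw [Finset.coe_empty, nn_empty, Finset.card_empty, pow_zero, pow_zero, one_mul]
  wpos F := by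
    unfold wt
    have : 0 ≤ q := by linarith
    positivity
  wmul A B h C hC := by
    have hCe : C = A ∪ B := by
      ext x
      rw [hC, Finset.mem_union]
    have hdis : Disjoint A B := by
      rw [Finset.disjoint_left]
      intro x hx hx'
      exact h x hx x hx' (mem_adF.2 (Ad_self x))
    have hnn : nn ((A : Set Edge) ∪ (B : Set Edge)) = nn (A : Set Edge) + nn (B : Set Edge) :=
      nn_union (GasE_hor A) (GasE_hor B) fun e he f hf hef => h e he f hf (mem_adF.2 hef)
    unfold wt
    rw [hCe, Finset.coe_union, hnn, Finset.card_union_of_disjoint hdis, pow_add, pow_add]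
    ring
  wle F := by
    unfold wt
    rw [mul_pow]
    exact mul_le_mul_of_nonneg_left (pow_le_pow_right₀ hq (GasE_nn F)) (pow_nonneg hr _)

/-- vertical translation as an equivalence -/
private def GasE_eq (s : ℤ) : Edge ≃ Edge where
  toFun := sh s
  invFun := sh (-s)
  left_inv e := by rw [sh_sh, neg_add_cancel, sh_zero]
  right_inv e := by rw [sh_sh, add_neg_cancel, sh_zero]

theorem bulk {r q θ : ℝ} (hr : 0 ≤ r) (hq : 1 ≤ q) (h0 : 0 < θ) (h1 : 512 * θ ≤ 1 / 2)
    (hs : 256 * (2 ^ 16 * (r * q)) ≤ θ / 4) : Bulk (Ph (wt r q)) (512 * θ) := by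
  classical
  have hG := gas_wt hr hq
  have hconn : ∀ X : Finset Edge, ¬ Cn Ad (X : Set Edge) → Ph (wt r q) X = 0 := by
    intro X hX
    refine Ph_disc hG X ?_
    rw [GasE_rel]
    exact hX
  refine ⟨Ph_empty hG, hconn, ?_, ?_⟩
  · intro s X
    refine Ph_map (GasE_eq s) ?_ X
    intro F
    have e1 : ((F.image (GasE_eq s) : Finset Edge) : Set Edge) = sh s '' (F : Set Edge) :=
      Finset.coe_image
    have e2 : (F.image (GasE_eq s)).card = F.card :=
      Finset.card_image_of_injective _ (GasE_eq s).injective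
    unfold wt
    rw [e1, e2, nn_sh]
  · intro g m 𝒳 h𝒳
    have hl : 0 ≤ r * q := mul_nonneg hr (by linarith)
    have hle : ∀ X : Finset Edge, |Ph (wt r q) X| ≤ (2 * θ) ^ X.card := by
      intro X
      refine (Ph_le hG hl h0 (by linarith) hs X).trans ?_
      rw [mul_pow]
      refine mul_le_mul_of_nonneg_right ?_ (pow_nonneg h0.le _)
      exact_mod_cast (Nat.lt_two_pow_self (n := X.card)).le
    have e : ∑ X ∈ 𝒳, |Ph (wt r q) X| =
        ∑ X ∈ 𝒳.filter (fun X : Finset Edge => Cn Ad (X : Set Edge)), |Ph (wt r q) X| := by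
      symm
      refine Finset.sum_filter_of_ne ?_
      intro X _ hX
      by_contra hc
      exact hX (by rw [hconn X hc, abs_zero])
    rw [e]
    have h2 := cnt_sum adF 16 (by norm_num) adF_card
      (fun a b hab => mem_adF.2 (mem_adF.1 hab).symm) g m (2 * θ) (by linarith)
      (by norm_num; linarith) (𝒳.filter (fun X : Finset Edge => Cn Ad (X : Set Edge)))
      (by
        intro X hX
        obtain ⟨h3, h4⟩ := Finset.mem_filter.1 hX
        refine ⟨(h𝒳 X h3).1, (h𝒳 X h3).2, ?_⟩
        rw [GasE_rel]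
        exact h4)
    refine (Finset.sum_le_sum fun X _ => hle X).trans (h2.trans (le_of_eq ?_))
    congr 2
    push_cast
    ring

end Pool.Agent.H78.DB
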