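import Pool.Agent.H78.DB.JSm
import Pool.Agent.H78.DB.Cnt

/-!
# Module Obs: the observable

The sum `x = ∑' X, if X ⊆ V ∧ (X meets A) ∧ ¬ hit Δ X then Φ X else 0` is summable and `|x| ≤ |A| * 2 μ ≤ |A|` (`tsum_meet` with `G = A`,
`m = 1`). `FA_le`, `FAm_le`: `exp (-x) ≤ exp |A|`. `FA_lim`: dominated convergence as in `JV_lim`.
`obs`: the set `𝒞` of the finite connected `X` with at most `m` elements which meet `A` is finite: `cnt_conn` (`N = adF`, `d = 16`, `mem_adF`,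
`adF_card`) bounds the cardinality of each finite family of such sets (`Set.finite_of_...`: a set all of whose finite subsets have
at most `B` elements is finite). Take `L₀` with `X ⊆ EL L` for all `X ∈ 𝒞`, `L ≥ L₀` (finitely many edges, `bs e ∩ sqr L ≠ ∅` for large
`L`), and `K = ⋃_{X ∈ 𝒞} NQ (bU X) ∪ bU A`. `Loc K (FAm Φ A m)`: for `X` with `Φ X ≠ 0` (so connected), `|X| ≤ m`, meeting `A`:
`hit Δ X` depends only on the edges `e` of `Δ` with `Ad e f`, `f ∈ X`, and `bs e ⊆ NQ (bU X) ⊆ K`; for `e ∈ A`, `bs e ⊆ K`.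
The difference of the two exponents is a sum of `± Φ X` over sets meeting `A` with more than `m` elements, so at most
`|A| * 2 μ^(m+1)` in absolute value, `≤ |A| * (2 μ^m)`; `|exp(-x) - exp(-y)| ≤ exp(|A|) |x - y|` for `|x|, |y| ≤ |A|`.
-/

set_option autoImplicit false

open Filter Topology

namespace Pool.Agent.H78.DB

open Pool.Agent.H72.DJ

variable {Φ : Finset Edge → ℝ} {μ : ℝ}

private theorem obs_ite_le (Φ : Finset Edge → ℝ) (X : Finset Edge) (p : Prop) [Decidable p] :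
    |if p then Φ X else 0| ≤ |Φ X| := by
  by_cases h : p
  · rw [if_pos h]
  · rw [if_neg h, abs_zero]; exact abs_nonneg _

private theorem obs_card_pos {X A : Finset Edge} (h : ∃ e ∈ X, e ∈ A) :
    (∃ g ∈ A, g ∈ X) ∧ 1 ≤ X.card := by
  obtain ⟨e, h1, h2⟩ := h
  exact ⟨⟨e, h2, h1⟩, Finset.card_pos.2 ⟨e, h1⟩⟩

private theorem obs_x_le (hΦ : Bulk Φ μ) (h1 : 2 * μ ≤ 1) (A : Finset Edge)
    (p : Finset Edge → Prop) [DecidablePred p] (hp : ∀ X, p X → ∃ e ∈ X, e ∈ A) :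
    |∑' X : Finset Edge, if p X then Φ X else 0| ≤ A.card := by
  have h := tsum_meet hΦ A 1 (fun X => if p X then Φ X else 0) (fun X => obs_ite_le Φ X (p X)) (by
    intro X hX
    by_cases h : p X
    · exact obs_card_pos (hp X h)
    · exact absurd (if_neg h) hX)
  refine h.trans ?_
  rw [pow_one]
  exact mul_le_of_le_one_right (Nat.cast_nonneg _) h1

private theorem obs_exp_le (hΦ : Bulk Φ μ) (h1 : 2 * μ ≤ 1) (A : Finset Edge)
    (p : Finset Edge → Prop) [DecidablePred p] (hp : ∀ X, p X → ∃ e ∈ X, e ∈ A) :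
    Real.exp (-∑' X : Finset Edge, if p X then Φ X else 0) ≤ Real.exp A.card := by
  have h := obs_x_le hΦ h1 A p hp
  exact Real.exp_le_exp.2 ((neg_le_abs _).trans h)

private theorem obs_exp_sub {c x y : ℝ} (hx : |x| ≤ c) (hy : |y| ≤ c) :
    |Real.exp (-x) - Real.exp (-y)| ≤ Real.exp c * |x - y| := by
  have key : ∀ a b : ℝ, |a| ≤ c → Real.exp (-a) - Real.exp (-b) ≤ Real.exp c * |a - b| := by
    intro a b ha
    have e1 : Real.exp (-b) = Real.exp (-a) * Real.exp (a - b) := by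
      rw [← Real.exp_add]; congr 1; ring
    have e2 : (a - b) + 1 ≤ Real.exp (a - b) := Real.add_one_le_exp _
    have e3 : Real.exp (-a) ≤ Real.exp c := Real.exp_le_exp.2 ((neg_le_abs a).trans ha)
    have e4 : 0 < Real.exp (-a) := Real.exp_pos _
    have e5 : -(a - b) ≤ |a - b| := neg_le_abs _
    have e6 : Real.exp (-a) - Real.exp (-b) = Real.exp (-a) * (1 - Real.exp (a - b)) := by
      rw [e1]; ring
    rw [e6]
    calc Real.exp (-a) * (1 - Real.exp (a - b)) ≤ Real.exp (-a) * |a - b| :=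
          mul_le_mul_of_nonneg_left (by linarith) e4.le
      _ ≤ Real.exp c * |a - b| := mul_le_mul_of_nonneg_right e3 (abs_nonneg _)
  rw [abs_le]
  constructor
  · have h := key y x hy
    rw [abs_sub_comm] at h
    linarith
  · exact key x y hx

private theorem obs_fin (m : ℕ) (A : Finset Edge) :
    {X : Finset Edge | Cn Ad (X : Set Edge) ∧ X.card ≤ m ∧ ∃ e ∈ X, e ∈ A}.Finite := by
  classical
  have h1 : ∀ (v : Edge) (n : ℕ),
      {X : Finset Edge | v ∈ X ∧ X.card = n ∧ Cn Ad (X : Set Edge)}.Finite := by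
    intro v n
    by_contra hinf
    obtain ⟨t, ht, hc⟩ := Set.Infinite.exists_subset_card_eq hinf ((16 ^ 2) ^ n + 1)
    have h := cnt_conn (V := Edge) adF 16 (by norm_num) adF_card
      (fun a b hb => mem_adF.2 (mem_adF.1 hb).symm) v n t (by
        intro X hX
        have hX' := ht (Finset.mem_coe.2 hX)
        refine ⟨hX'.1, hX'.2.1, ?_⟩
        have e : (fun a b : Edge => b ∈ adF a) = Ad := by
          funext a b
          exact propext mem_adF
        rw [e]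
        exact hX'.2.2)
    omega
  have h2 : (⋃ v ∈ A, ⋃ n ∈ Finset.range (m + 1),
      {X : Finset Edge | v ∈ X ∧ X.card = n ∧ Cn Ad (X : Set Edge)}).Finite :=
    Set.Finite.biUnion A.finite_toSet fun v _ =>
      Set.Finite.biUnion (Finset.range (m + 1)).finite_toSet fun n _ => h1 v n
  refine h2.subset ?_
  rintro X ⟨hX1, hX2, e, he1, he2⟩
  refine Set.mem_biUnion he2 (Set.mem_biUnion (x := X.card) ?_ ⟨he1, rfl, hX1⟩)
  exact Finset.mem_coe.2 (Finset.mem_range.2 (by omega))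

private theorem obs_EL (X : Finset Edge) : ∃ L₀ : ℕ, ∀ L, L₀ ≤ L → (X : Set Edge) ⊆ EL L := by
  classical
  refine ⟨X.sup fun e => (pr e.1).1.natAbs + (pr e.1).2.natAbs, ?_⟩
  intro L hL e he
  have h : (pr e.1).1.natAbs + (pr e.1).2.natAbs ≤ L :=
    (Finset.le_sup (f := fun e : Edge => (pr e.1).1.natAbs + (pr e.1).2.natAbs)
      (Finset.mem_coe.1 he)).trans hL
  refine ⟨pr e.1, pr_mem_bs e, ?_⟩
  unfold sqr
  rw [Finset.mem_product, Finset.mem_Icc, Finset.mem_Icc]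
  refine ⟨⟨?_, ?_⟩, ?_, ?_⟩ <;> omega

private theorem obs_hit {Δ Δ' : Set Edge} {K : Finset Col} {X : Finset Edge}
    (hK : NQ (bU X) ⊆ K) (h : ∀ e, bs e ⊆ K → (e ∈ Δ ↔ e ∈ Δ')) (hh : hit Δ X) : hit Δ' X := by
  obtain ⟨f, hf, e, he, ha⟩ := hh
  refine ⟨f, hf, e, ?_, ha⟩
  refine (h e ?_).1 he
  intro a hae
  refine hK (mem_NQ.2 ⟨pr f.1, ?_, Ad_near ha hae (pr_mem_bs f)⟩)
  unfold bU
  exact Finset.mem_biUnion.2 ⟨f, hf, pr_mem_bs f⟩

theorem FA_nonneg (Φ : Finset Edge → ℝ) (V : Set Edge) (A : Finset Edge) (Δ : Set Edge) :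
    0 ≤ FA Φ V A Δ := by
  unfold FA
  split_ifs
  · exact (Real.exp_pos _).le
  · exact le_rfl

theorem FAm_nonneg (Φ : Finset Edge → ℝ) (A : Finset Edge) (m : ℕ) (Δ : Set Edge) :
    0 ≤ FAm Φ A m Δ := by
  unfold FAm
  split_ifs
  · exact (Real.exp_pos _).le
  · exact le_rfl

theorem FA_le (hΦ : Bulk Φ μ) (h0 : 0 ≤ μ) (h1 : 2 * μ ≤ 1) (V : Set Edge) (A : Finset Edge)
    (Δ : Set Edge) : FA Φ V A Δ ≤ Real.exp A.card := by
  classical
  unfold FA
  split_ifs
  · exact obs_exp_le hΦ h1 A (fun X => (X : Set Edge) ⊆ V ∧ (∃ e ∈ X, e ∈ A) ∧ ¬ hit Δ X)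
      fun X hX => hX.2.1
  · exact (Real.exp_pos _).le

theorem FAm_le (hΦ : Bulk Φ μ) (h0 : 0 ≤ μ) (h1 : 2 * μ ≤ 1) (A : Finset Edge) (m : ℕ)
    (Δ : Set Edge) : FAm Φ A m Δ ≤ Real.exp A.card := by
  classical
  unfold FAm
  split_ifs
  · exact obs_exp_le hΦ h1 A (fun X => X.card ≤ m ∧ (∃ e ∈ X, e ∈ A) ∧ ¬ hit Δ X)
      fun X hX => hX.2.1
  · exact (Real.exp_pos _).le

theorem FA_empty (Φ : Finset Edge → ℝ) (V Δ : Set Edge) : FA Φ V ∅ Δ = 1 := by
  classical
  unfold FA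
  rw [if_pos (fun e he => absurd he (Finset.notMem_empty e))]
  have h : ∀ X : Finset Edge, (if (X : Set Edge) ⊆ V ∧ (∃ e ∈ X, e ∈ (∅ : Finset Edge)) ∧
      ¬ hit Δ X then Φ X else 0) = 0 := by
    intro X
    rw [if_neg]
    rintro ⟨_, ⟨e, _, he⟩, _⟩
    exact Finset.notMem_empty e he
  simp only [h]
  rw [tsum_zero, neg_zero, Real.exp_zero]

theorem FA_lim (hΦ : Bulk Φ μ) (L : ℕ) (A : Finset Edge) (Δ : Set Edge) :
    Tendsto (fun M => FA Φ (edges L M : Set Edge) A Δ) atTop (𝓝 (FA Φ (EL L) A Δ)) := by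
  classical
  unfold FA
  by_cases hA : ∀ e ∈ A, e ∉ Δ
  · simp only [if_pos hA]
    refine (Real.continuous_exp.tendsto _).comp (Tendsto.neg ?_)
    refine tendsto_tsum_of_dominated_convergence
      (bound := fun X => if (∃ e ∈ X, e ∈ A) then |Φ X| else 0) ?_ ?_ ?_
    · refine summ_meet hΦ A _ ?_ ?_
      · intro X
        by_cases h : ∃ e ∈ X, e ∈ A
        · rw [if_pos h, abs_abs]
        · rw [if_neg h, abs_zero]; exact abs_nonneg _
      · intro X hX
        by_cases h : ∃ e ∈ X, e ∈ A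
        · exact (obs_card_pos h).1
        · exact absurd (if_neg h) hX
    · intro X
      by_cases hX : (X : Set Edge) ⊆ EL L
      · obtain ⟨M₀, hM⟩ := EL_edges L X hX
        refine tendsto_const_nhds.congr' ?_
        filter_upwards [eventually_ge_atTop M₀] with M hM'
        have h1 : (X : Set Edge) ⊆ (edges L M : Set Edge) := Finset.coe_subset.2 (hM M hM')
        by_cases h2 : (∃ e ∈ X, e ∈ A) ∧ ¬ hit Δ X
        · rw [if_pos ⟨hX, h2⟩, if_pos ⟨h1, h2⟩]
        · rw [if_neg (fun h => h2 h.2), if_neg (fun h => h2 h.2)]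
      · refine tendsto_const_nhds.congr' ?_
        filter_upwards with M
        rw [if_neg (fun h => hX h.1), if_neg (fun h => hX (h.1.trans (edges_EL L M)))]
    · filter_upwards with M X
      rw [Real.norm_eq_abs]
      by_cases h2 : (X : Set Edge) ⊆ (edges L M : Set Edge) ∧ (∃ e ∈ X, e ∈ A) ∧ ¬ hit Δ X
      · rw [if_pos h2, if_pos h2.2.1]
      · rw [if_neg h2, abs_zero]
        by_cases h3 : ∃ e ∈ X, e ∈ A
        · rw [if_pos h3]; exact abs_nonneg _
        · rw [if_neg h3]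
  · simp only [if_neg hA]
    exact tendsto_const_nhds

theorem obs (hΦ : Bulk Φ μ) (h0 : 0 ≤ μ) (h1 : 2 * μ ≤ 1) (A : Finset Edge) (m : ℕ) :
    ∃ (K : Finset Col) (L₀ : ℕ), Loc K (FAm Φ A m) ∧ ∀ L, L₀ ≤ L → ∀ Δ : Set Edge,
      |FA Φ (EL L) A Δ - FAm Φ A m Δ| ≤ Real.exp A.card * (A.card * (2 * μ ^ m)) := by
  classical
  obtain ⟨𝒞, h𝒞⟩ := (obs_fin m A).exists_finset
  choose l hl using obs_EL
  refine ⟨𝒞.biUnion (fun X => NQ (bU X)) ∪ bU A, 𝒞.sup l, ?_, ?_⟩
  · intro Δ Δ' h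
    have hA : (∀ e ∈ A, e ∉ Δ) ↔ ∀ e ∈ A, e ∉ Δ' := by
      have key : ∀ e ∈ A, (e ∈ Δ ↔ e ∈ Δ') := by
        intro e he
        refine h e ?_
        intro a ha
        refine Finset.mem_union_right _ ?_
        unfold bU
        exact Finset.mem_biUnion.2 ⟨e, he, ha⟩
      constructor
      · intro h1 e he h2
        exact h1 e he ((key e he).2 h2)
      · intro h1 e he h2
        exact h1 e he ((key e he).1 h2)
    unfold FAm
    by_cases h1 : ∀ e ∈ A, e ∉ Δ
    · rw [if_pos h1, if_pos (hA.1 h1)]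
      congr 2
      refine tsum_congr ?_
      intro X
      by_cases h2 : Φ X = 0
      · rw [h2, ite_self, ite_self]
      · have h3 : Cn Ad (X : Set Edge) := by
          by_contra h4
          exact h2 (hΦ.conn X h4)
        by_cases h4 : X.card ≤ m ∧ ∃ e ∈ X, e ∈ A
        · have h5 : X ∈ 𝒞 := (h𝒞 X).2 ⟨h3, h4.1, h4.2⟩
          have h6 : NQ (bU X) ⊆ 𝒞.biUnion (fun X => NQ (bU X)) ∪ bU A := by
            intro a ha
            exact Finset.mem_union_left _ (Finset.mem_biUnion.2 ⟨X, h5, ha⟩)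
          have h7 : hit Δ X ↔ hit Δ' X :=
            ⟨obs_hit h6 h, obs_hit h6 fun e he => (h e he).symm⟩
          by_cases h8 : hit Δ X
          · rw [if_neg (fun h => h.2.2 h8), if_neg (fun h => h.2.2 (h7.1 h8))]
          · rw [if_pos ⟨h4.1, h4.2, h8⟩, if_pos ⟨h4.1, h4.2, fun h => h8 (h7.2 h)⟩]
        · rw [if_neg (fun h => h4 ⟨h.1, h.2.1⟩), if_neg (fun h => h4 ⟨h.1, h.2.1⟩)]
    · rw [if_neg h1, if_neg (fun h2 => h1 (hA.2 h2))]
  · intro L hL Δ
    have hμ : 0 ≤ Real.exp A.card * (A.card * (2 * μ ^ m)) := by positivity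
    unfold FA FAm
    by_cases h2 : ∀ e ∈ A, e ∉ Δ
    · rw [if_pos h2, if_pos h2]
      have hx := obs_x_le hΦ h1 A (fun X => (X : Set Edge) ⊆ EL L ∧ (∃ e ∈ X, e ∈ A) ∧ ¬ hit Δ X)
        fun X hX => hX.2.1
      have hy := obs_x_le hΦ h1 A (fun X => X.card ≤ m ∧ (∃ e ∈ X, e ∈ A) ∧ ¬ hit Δ X)
        fun X hX => hX.2.1
      refine (obs_exp_sub hx hy).trans (mul_le_mul_of_nonneg_left ?_ (Real.exp_pos _).le)
      have s1 : Summable fun X : Finset Edge =>
          if (X : Set Edge) ⊆ EL L ∧ (∃ e ∈ X, e ∈ A) ∧ ¬ hit Δ X then Φ X else 0 := by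
        refine summ_meet hΦ A _ (fun X => obs_ite_le Φ X _) ?_
        intro X hX
        by_cases h : (X : Set Edge) ⊆ EL L ∧ (∃ e ∈ X, e ∈ A) ∧ ¬ hit Δ X
        · exact (obs_card_pos h.2.1).1
        · exact absurd (if_neg h) hX
      have s2 : Summable fun X : Finset Edge =>
          if X.card ≤ m ∧ (∃ e ∈ X, e ∈ A) ∧ ¬ hit Δ X then Φ X else 0 := by
        refine summ_meet hΦ A _ (fun X => obs_ite_le Φ X _) ?_
        intro X hX
        by_cases h : X.card ≤ m ∧ (∃ e ∈ X, e ∈ A) ∧ ¬ hit Δ X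
        · exact (obs_card_pos h.2.1).1
        · exact absurd (if_neg h) hX
      rw [← s1.tsum_sub s2]
      have key : ∀ X : Finset Edge, X.card ≤ m → Φ X ≠ 0 → (∃ e ∈ X, e ∈ A) →
          (X : Set Edge) ⊆ EL L := by
        intro X h3 h4 h5
        have h6 : Cn Ad (X : Set Edge) := by
          by_contra h7
          exact h4 (hΦ.conn X h7)
        have h8 : X ∈ 𝒞 := (h𝒞 X).2 ⟨h6, h3, h5⟩
        exact hl X L ((Finset.le_sup (f := l) h8).trans hL)
      refine tsum_meet hΦ A m _ ?_ ?_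
      · intro X
        by_cases h3 : X.card ≤ m
        · by_cases h4 : (∃ e ∈ X, e ∈ A) ∧ ¬ hit Δ X
          · by_cases h5 : Φ X = 0
            · rw [h5, ite_self, ite_self, sub_zero]
            · rw [if_pos ⟨key X h3 h5 h4.1, h4⟩, if_pos ⟨h3, h4⟩, sub_self, abs_zero]
              exact abs_nonneg _
          · rw [if_neg (fun h => h4 h.2), if_neg (fun h => h4 h.2), sub_self, abs_zero]
            exact abs_nonneg _
        · rw [if_neg (c := X.card ≤ m ∧ (∃ e ∈ X, e ∈ A) ∧ ¬ hit Δ X) (fun h => h3 h.1), sub_zero]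
          exact obs_ite_le Φ X _
      · intro X hX
        by_cases h4 : (∃ e ∈ X, e ∈ A) ∧ ¬ hit Δ X
        · refine ⟨(obs_card_pos h4.1).1, ?_⟩
          by_contra h3
          have h3' : X.card ≤ m := by omega
          apply hX
          by_cases h5 : Φ X = 0
          · simp only [h5, ite_self, sub_zero]
          · simp only [if_pos (show (X : Set Edge) ⊆ EL L ∧ (∃ e ∈ X, e ∈ A) ∧ ¬ hit Δ X from
              ⟨key X h3' h5 h4.1, h4⟩), if_pos (show X.card ≤ m ∧ (∃ e ∈ X, e ∈ A) ∧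
              ¬ hit Δ X from ⟨h3', h4⟩), sub_self]
        · exact absurd (by simp only [if_neg (show ¬ ((X : Set Edge) ⊆ EL L ∧
            (∃ e ∈ X, e ∈ A) ∧ ¬ hit Δ X) from fun h => h4 h.2), if_neg (show ¬ (X.card ≤ m ∧
            (∃ e ∈ X, e ∈ A) ∧ ¬ hit Δ X) from fun h => h4 h.2), sub_zero]) hX
    · rw [if_neg h2, if_neg h2, sub_zero, abs_zero]
      exact hμ

end Pool.Agent.H78.DB
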