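import Pool.Agent.H78.DB.Shl
import Pool.Agent.H78.DB.PhZ
import Pool.Agent.H78.DB.GasE
import Pool.Agent.H78.DB.Obs

/-!
# Module Fvf: the weights of the interfaces in finite volume

`V = edges L M`, `Φ = Ph (wt r q)`, `w = wt r q`. Let `Δ = D ∪ out L M`, `D ⊆ V`, `Intf Δ`. `fv_gas`: the sum of `w F'` over the `F' ⊆ V` with `¬ hit Δ F'` and
`F' ∩ A = ∅` is `Xi w S`, `S = {f ∈ V | f` not adjacent to an edge of `Δ`, `f ∉ A}` `= exp (∑_{X ⊆ S} Φ X)` (`log_Xi`, `Xi_pos`). `X ⊆ S ↔ X ⊆ V ∧ ¬ hit Δ X ∧ X ∩ A = ∅`. So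
`∑_{X ⊆ S} Φ X = ∑_{X ⊆ V, ¬ hit PP X} Φ X - ∑_{X ⊆ V} Φ X chi Δ X - ∑_{X ⊆ V, X ∩ A ≠ ∅, ¬ hit Δ X} Φ X`; the first term is a constant `log Z₀(V)`, the second
`JV Φ V Δ`, the third is the exponent in `FA Φ V A Δ` (finite sums as `tsum`: `tsum_eq_sum` over `V.powerset`).
`fv_form`: multiply by `[A ∩ Δ = ∅]`, `r^|D| q^(nn Δ)` and use `fv_card`, `nn_dec`, `fv_dec` with `φ F = r^|F| q^(nn (F ∪ out)) [A ∩ (F ∪ out) = ∅] `.
`fv_form2`: the same sum with an arbitrary factor `ψ F ∈ [0,1]` in place of the indicator and `ψ (D ∪ F') = 0` unless `M ≤ en Δ`: at most the sum over the `D` with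
`M ≤ en Δ`, without `A`.
-/

set_option autoImplicit false

namespace Pool.Agent.H78.DB

open Pool.Agent.H72.DJ

open Classical in
/-- the normalised sum over the interfaces in the box -/
noncomputable def NF (r q : ℝ) (L M : ℕ) (A : Finset Edge) (P : Set Edge → Prop) : ℝ :=
  ∑ D ∈ (edges L M).powerset.filter (fun D : Finset Edge => Intf ((D : Set Edge) ∪ out L M) ∧ P ((D : Set Edge) ∪ out L M)),
    r ^ en ((D : Set Edge) ∪ out L M) * q ^ nn ((D : Set Edge) ∪ out L M) *
      Real.exp (-JV (Ph (wt r q)) (edges L M : Set Edge) ((D : Set Edge) ∪ out L M)) *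
        FA (Ph (wt r q)) (edges L M : Set Edge) A ((D : Set Edge) ∪ out L M)

open Classical in
/-- the constant -/
private noncomputable def fvf_c (w : Finset Edge → ℝ) (V : Finset Edge) : ℝ :=
  ∑ X ∈ V.powerset, if hit PP X then 0 else Ph w X

open Classical in
private theorem fvf_gas {r q : ℝ} (hr : 0 ≤ r) (hq : 1 ≤ q) (V A : Finset Edge) (Δ : Set Edge) :
    ∑ F' ∈ V.powerset.filter (fun F' : Finset Edge => ¬ hit Δ F'),
      (if ∀ e ∈ A, e ∉ F' then wt r q F' else 0) =
    Real.exp (fvf_c (wt r q) V) * (Real.exp (-JV (Ph (wt r q)) (V : Set Edge) Δ) *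
      Real.exp (-∑' X : Finset Edge, if (X : Set Edge) ⊆ (V : Set Edge) ∧ (∃ e ∈ X, e ∈ A) ∧
        ¬ hit Δ X then Ph (wt r q) X else 0)) := by
  set S := V.filter (fun f => (∀ e ∈ Δ, ¬ Ad e f) ∧ f ∉ A) with hS
  have hsub : ∀ X : Finset Edge, X ⊆ S ↔ X ⊆ V ∧ ¬ hit Δ X ∧ ∀ e ∈ A, e ∉ X := by
    intro X
    constructor
    · intro h
      refine ⟨fun f hf => (Finset.mem_filter.1 (h hf)).1, ?_, ?_⟩
      · rintro ⟨f, hf, e, he, hA⟩
        exact (Finset.mem_filter.1 (h hf)).2.1 e he hA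
      · intro e he heX
        exact (Finset.mem_filter.1 (h heX)).2.2 he
    · rintro ⟨h1, h2, h3⟩ f hf
      exact Finset.mem_filter.2 ⟨h1 hf, fun e he hA => h2 ⟨f, hf, e, he, hA⟩, fun h => h3 f h hf⟩
  have h1 : ∑ F' ∈ V.powerset.filter (fun F' : Finset Edge => ¬ hit Δ F'),
      (if ∀ e ∈ A, e ∉ F' then wt r q F' else 0) = Xi (wt r q) S := by
    rw [Xi, ← Finset.sum_filter, Finset.filter_filter]
    refine Finset.sum_congr ?_ (fun _ _ => rfl)
    ext X
    rw [Finset.mem_filter, Finset.mem_powerset, Finset.mem_powerset, hsub]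
  have hpos : 0 < Xi (wt r q) S := lt_of_lt_of_le one_pos (Xi_pos (gas_wt hr hq) S)
  rw [h1, ← Real.exp_log hpos, log_Xi, ← Real.exp_add, ← Real.exp_add]
  congr 1
  have hJ : JV (Ph (wt r q)) (V : Set Edge) Δ =
      ∑ X ∈ V.powerset, Ph (wt r q) X * chi Δ X := by
    rw [JV, tsum_eq_sum (s := V.powerset)]
    · refine Finset.sum_congr rfl fun X hX => ?_
      rw [if_pos (Finset.coe_subset.2 (Finset.mem_powerset.1 hX))]
    · intro X hX
      rw [if_neg]
      intro h
      exact hX (Finset.mem_powerset.2 (Finset.coe_subset.1 h))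
  have hK : (∑' X : Finset Edge, if (X : Set Edge) ⊆ (V : Set Edge) ∧ (∃ e ∈ X, e ∈ A) ∧
        ¬ hit Δ X then Ph (wt r q) X else 0) =
      ∑ X ∈ V.powerset, if (∃ e ∈ X, e ∈ A) ∧ ¬ hit Δ X then Ph (wt r q) X else 0 := by
    rw [tsum_eq_sum (s := V.powerset)]
    · refine Finset.sum_congr rfl fun X hX => ?_
      have h2 : (X : Set Edge) ⊆ (V : Set Edge) := Finset.coe_subset.2 (Finset.mem_powerset.1 hX)
      by_cases h3 : (∃ e ∈ X, e ∈ A) ∧ ¬ hit Δ X
      · rw [if_pos h3, if_pos ⟨h2, h3⟩]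
      · rw [if_neg h3, if_neg (fun h => h3 h.2)]
    · intro X hX
      rw [if_neg]
      intro h
      exact hX (Finset.mem_powerset.2 (Finset.coe_subset.1 h.1))
  have hL : ∑ X ∈ S.powerset, Ph (wt r q) X =
      ∑ X ∈ V.powerset, if ¬ hit Δ X ∧ ∀ e ∈ A, e ∉ X then Ph (wt r q) X else 0 := by
    rw [← Finset.sum_filter]
    refine Finset.sum_congr ?_ (fun _ _ => rfl)
    ext X
    rw [Finset.mem_filter, Finset.mem_powerset, Finset.mem_powerset, hsub]
  rw [hJ, hK, hL, fvf_c, ← Finset.sum_neg_distrib, ← Finset.sum_neg_distrib,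
    ← Finset.sum_add_distrib, ← Finset.sum_add_distrib]
  refine Finset.sum_congr rfl fun X _ => ?_
  have e1 : (∀ e ∈ A, e ∉ X) ↔ ¬ ∃ e ∈ X, e ∈ A := by
    constructor
    · rintro h ⟨e, he, heA⟩
      exact h e heA he
    · intro h e heA he
      exact h ⟨e, he, heA⟩
  simp only [chi, e1]
  by_cases hd : hit Δ X
  · by_cases hp : hit PP X
    · simp [hd, hp]
    · simp [hd, hp]
  · by_cases hA : ∃ e ∈ X, e ∈ A
    · by_cases hp : hit PP X
      · simp only [hd, hp, hA, not_false_eq_true, not_true_eq_false, and_false, and_true, if_true, if_false]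
        ring
      · simp only [hd, hp, hA, not_false_eq_true, not_true_eq_false, and_false, and_true, if_true, if_false]
        ring
    · by_cases hp : hit PP X
      · simp only [hd, hp, hA, not_false_eq_true, false_and, and_true, if_true, if_false]
        ring
      · simp only [hd, hp, hA, not_false_eq_true, false_and, and_true, if_true, if_false]
        ring

/-- the weight of `D ∪ F'` -/
private theorem fvf_wt {r q : ℝ} {L M : ℕ} {D F' : Finset Edge} (hD : D ⊆ edges L M)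
    (hI : Intf ((D : Set Edge) ∪ out L M)) (h : ¬ hit ((D : Set Edge) ∪ out L M) F') :
    r ^ (D ∪ F').card * q ^ nn (((D ∪ F' : Finset Edge) : Set Edge) ∪ out L M) =
      r ^ ((2 * L + 1) ^ 2) * (r ^ en ((D : Set Edge) ∪ out L M) * q ^ nn ((D : Set Edge) ∪ out L M)) *
        wt r q F' := by
  have hdis : Disjoint D F' := by
    rw [Finset.disjoint_left]
    intro f hfD hfF
    exact h ⟨f, hfF, f, Or.inl hfD, Ad_self f⟩
  rw [Finset.card_union_of_disjoint hdis, nn_dec hD h, fv_card hD hI.1, wt]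
  simp only [pow_add]
  ring

open Classical in
private theorem fvf_sum {r q : ℝ} (hr : 0 ≤ r) (hq : 1 ≤ q) {L M : ℕ} (A : Finset Edge)
    {D : Finset Edge} (hD : D ⊆ edges L M) (hI : Intf ((D : Set Edge) ∪ out L M)) :
    ∑ F' ∈ (edges L M).powerset.filter
        (fun F' : Finset Edge => ¬ hit ((D : Set Edge) ∪ out L M) F'),
      (if ∀ e ∈ A, e ∉ ((D ∪ F' : Finset Edge) : Set Edge) ∪ out L M then
        r ^ (D ∪ F').card * q ^ nn (((D ∪ F' : Finset Edge) : Set Edge) ∪ out L M) else 0) =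
    (r ^ ((2 * L + 1) ^ 2) * Real.exp (fvf_c (wt r q) (edges L M))) *
      (r ^ en ((D : Set Edge) ∪ out L M) * q ^ nn ((D : Set Edge) ∪ out L M) *
        Real.exp (-JV (Ph (wt r q)) (edges L M : Set Edge) ((D : Set Edge) ∪ out L M)) *
          FA (Ph (wt r q)) (edges L M : Set Edge) A ((D : Set Edge) ∪ out L M)) := by
  by_cases hA : ∀ e ∈ A, e ∉ (D : Set Edge) ∪ out L M
  · have h1 : ∀ F' ∈ (edges L M).powerset.filter
        (fun F' : Finset Edge => ¬ hit ((D : Set Edge) ∪ out L M) F'),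
        (if ∀ e ∈ A, e ∉ ((D ∪ F' : Finset Edge) : Set Edge) ∪ out L M then
          r ^ (D ∪ F').card * q ^ nn (((D ∪ F' : Finset Edge) : Set Edge) ∪ out L M) else 0) =
        r ^ ((2 * L + 1) ^ 2) *
          (r ^ en ((D : Set Edge) ∪ out L M) * q ^ nn ((D : Set Edge) ∪ out L M)) *
          (if ∀ e ∈ A, e ∉ F' then wt r q F' else 0) := by
      intro F' hF'
      rw [Finset.mem_filter] at hF'
      have hiff : (∀ e ∈ A, e ∉ ((D ∪ F' : Finset Edge) : Set Edge) ∪ out L M) ↔
          ∀ e ∈ A, e ∉ F' := by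
        constructor
        · intro h e he heF
          exact h e he (Or.inl (Finset.mem_coe.2 (Finset.mem_union_right _ heF)))
        · intro h e he heU
          rcases heU with heU | heU
          · rcases Finset.mem_union.1 (Finset.mem_coe.1 heU) with h2 | h2
            · exact hA e he (Or.inl h2)
            · exact h e he h2
          · exact hA e he (Or.inr heU)
      by_cases h2 : ∀ e ∈ A, e ∉ F'
      · rw [if_pos h2, if_pos (hiff.2 h2), fvf_wt hD hI hF'.2]
      · rw [if_neg h2, if_neg (fun h => h2 (hiff.1 h)), mul_zero]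
    rw [Finset.sum_congr rfl h1, ← Finset.mul_sum, fvf_gas hr hq, FA, if_pos hA]
    ring
  · rw [FA, if_neg hA, mul_zero, mul_zero]
    refine Finset.sum_eq_zero fun F' _ => ?_
    rw [if_neg]
    intro h
    apply hA
    intro e he heU
    refine h e he ?_
    rcases heU with heU | heU
    · exact Or.inl (Finset.mem_coe.2 (Finset.mem_union_left _ heU))
    · exact Or.inr heU

open Classical in
theorem fv_form {r q : ℝ} (hr : 0 < r) (hq : 1 ≤ q) (L M : ℕ) : ∃ Z₀ : ℝ, 0 < Z₀ ∧
    (∀ A : Finset Edge, ∑ F ∈ (edges L M).powerset.filter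
      (fun F : Finset Edge => Sep ((F : Set Edge) ∪ out L M) ∧ ∀ e ∈ A, e ∉ (F : Set Edge) ∪ out L M),
        r ^ F.card * q ^ nn ((F : Set Edge) ∪ out L M) = Z₀ * NF r q L M A (fun _ => True)) ∧
    ∀ T : Finset Edge → Prop, (∀ D F' : Finset Edge, D ⊆ edges L M → F' ⊆ edges L M →
        Intf ((D : Set Edge) ∪ out L M) → ¬ hit ((D : Set Edge) ∪ out L M) F' → T (D ∪ F') →
          M ≤ en ((D : Set Edge) ∪ out L M)) →
      ∑ F ∈ (edges L M).powerset.filter (fun F : Finset Edge => Sep ((F : Set Edge) ∪ out L M) ∧ T F),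
        r ^ F.card * q ^ nn ((F : Set Edge) ∪ out L M) ≤ Z₀ * NF r q L M ∅ (fun Δ => M ≤ en Δ) := by
  have hq0 : 0 < q := lt_of_lt_of_le one_pos hq
  refine ⟨r ^ ((2 * L + 1) ^ 2) * Real.exp (fvf_c (wt r q) (edges L M)),
    mul_pos (pow_pos hr _) (Real.exp_pos _), ?_, ?_⟩
  · intro A
    rw [← Finset.filter_filter, Finset.sum_filter, fv_dec, NF, Finset.mul_sum]
    simp only [and_true]
    refine Finset.sum_congr rfl fun D hD => ?_
    rw [Finset.mem_filter, Finset.mem_powerset] at hD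
    exact fvf_sum hr.le hq A hD.1 hD.2
  · intro T hT
    have hR : ∀ c : ℝ, c * NF r q L M ∅ (fun Δ => M ≤ en Δ) =
        ∑ D ∈ (edges L M).powerset.filter (fun D : Finset Edge => Intf ((D : Set Edge) ∪ out L M)),
          if M ≤ en ((D : Set Edge) ∪ out L M) then c *
            (r ^ en ((D : Set Edge) ∪ out L M) * q ^ nn ((D : Set Edge) ∪ out L M) *
              Real.exp (-JV (Ph (wt r q)) (edges L M : Set Edge) ((D : Set Edge) ∪ out L M)) *
                FA (Ph (wt r q)) (edges L M : Set Edge) ∅ ((D : Set Edge) ∪ out L M)) else 0 := by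
      intro c
      rw [NF, Finset.mul_sum, ← Finset.filter_filter, Finset.sum_filter]
      refine Finset.sum_congr rfl fun D _ => ?_
      split_ifs <;> rfl
    rw [hR, ← Finset.filter_filter, Finset.sum_filter, fv_dec]
    refine Finset.sum_le_sum fun D hD => ?_
    rw [Finset.mem_filter, Finset.mem_powerset] at hD
    by_cases hM : M ≤ en ((D : Set Edge) ∪ out L M)
    · rw [if_pos hM, ← fvf_sum hr.le hq ∅ hD.1 hD.2]
      refine Finset.sum_le_sum fun F' _ => ?_
      have h0 : 0 ≤ r ^ (D ∪ F').card * q ^ nn (((D ∪ F' : Finset Edge) : Set Edge) ∪ out L M) :=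
        mul_nonneg (pow_nonneg hr.le _) (pow_nonneg hq0.le _)
      rw [if_pos (fun e he => absurd he (Finset.notMem_empty e))]
      split_ifs
      · exact le_rfl
      · exact h0
    · rw [if_neg hM]
      refine le_of_eq (Finset.sum_eq_zero fun F' hF' => ?_)
      rw [Finset.mem_filter, Finset.mem_powerset] at hF'
      rw [if_neg]
      intro h
      exact hM (hT D F' hD.1 hF'.1 hD.2 hF'.2 h)

end Pool.Agent.H78.DB
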