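import Pool.Agent.H78.DB.Enr

/-!
# Module GlN: the dimension is additive under gluing

Every `c ∈ Z0 Δ` vanishes on the edges with a regular base column `a`: horizontal edges and `ve a z`, `z ≠ HH Δ a` are not in `Δ`
(`reg_iff`), so `c (ve a (HH Δ a)) = 0` by `par0` (`Z0_reg`). Let `H_i = HH Δ_i`. The linear map
`T : Z0 Δ → Z0 Δ₁ × Z0 Δ₂`, `T c = (c₁, c₂)`, `c₁ e = if To S₁ e then c (sh (H₂ (pr e.1)) e) else 0`, `c₂` symmetric.
* `c₁ ∈ Z0 Δ₁`: support: if `c₁ e ≠ 0` then `e` touches `S₁`, so not `S₂` and `sh (H₂) e ∈ Δ`, hence `e ∈ Δ₁` by `g1`; finite support: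
  `sec_fin` for `Δ₁` and `K = S₁`. Closed (`cl_loc`): on a square not touching `S₁` it is zero; otherwise the square does not touch
  `S₂` (`sq_case`), `H₂ = s` on its columns, and `c₁ e = c (sh s e)` also for the edges `e` of the square not touching `S₁`:
  these touch neither `S₁` nor `S₂`, their base columns are regular for `Δ`, `c (sh s e) = 0`.
* injective: if `c₁ = c₂ = 0` then `c e = 0` for all `e` touching `S₁` or `S₂` and, by `Z0_reg`, for the others (`i`).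
* surjective: for `(d₁, d₂)` put `c e = d₁ (sh (-H₂ (pr e.1)) e)` if `To S₁ e`, `d₂ (sh (-H₁ (pr e.1)) e)` if `To S₂ e`, else `0`;
  closed by `cl_loc` in the same way (on a square not touching `S₂` the function equals `d₁ (sh (-s) e)` also for the edges not
  touching `S₁`, where `d₁` vanishes by `Z0_reg` for `Δ₁`), support in `Δ`, finite support. `T c = (d₁, d₂)`: `d₁ e = 0` if `e` does
  not touch `S₁` (`Z0_reg`, `i1`).
So `Z0 Δ ≃ Z0 Δ₁ × Z0 Δ₂` (`LinearEquiv.ofBijective`), `Module.finrank_prod` (`Z0_fin`, `hor_fin`).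
-/

set_option autoImplicit false

namespace Pool.Agent.H78.DB

open Pool.Agent.H72.DJ

variable {S₁ S₂ : Finset Col} {Δ Δ₁ Δ₂ : Set Edge}

theorem Z0_reg (h : PI Δ) {c : Edge → ZMod 2} (hc : c ∈ Z0 Δ) {a : Col} (ha : a ∉ irr Δ) {e : Edge}
    (he : a ∈ bs e) : c e = 0 := by
  obtain ⟨hf, hs, hcl⟩ := hc
  by_contra hne
  have h1 : e ∈ Δ := hs e hne
  have h2 : e = ve a (HH Δ a) := (reg_iff h ha he).1 h1
  refine hne ?_
  rw [h2]
  refine par0 hcl hf a (HH Δ a) fun z hz => ?_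
  by_contra hn
  have h3 : a ∈ bs (ve a z) := by
    rw [bs_ve]
    exact Finset.mem_singleton_self a
  exact hz (ve_inj a ((reg_iff h ha h3).1 (hs _ hn)))

open Classical in
/-- the part of a cochain over `S`, shifted by `σ` -/
private noncomputable def GlN_cut (S : Finset Col) (σ : Col → ℤ) :
    (Edge → ZMod 2) →ₗ[ZMod 2] (Edge → ZMod 2) where
  toFun c := fun e => if To S e then c (sh (σ (pr e.1)) e) else 0
  map_add' c d := by
    funext e
    by_cases h : To S e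
    · simp only [Pi.add_apply, if_pos h]
    · simp only [Pi.add_apply, if_neg h, add_zero]
  map_smul' k c := by
    funext e
    by_cases h : To S e
    · simp only [Pi.smul_apply, if_pos h, RingHom.id_apply]
    · simp only [Pi.smul_apply, if_neg h, smul_zero]

private theorem GlN_pos {S : Finset Col} {σ : Col → ℤ} {c : Edge → ZMod 2} {e : Edge}
    (h : To S e) : GlN_cut S σ c e = c (sh (σ (pr e.1)) e) := by
  classical
  change (if To S e then c (sh (σ (pr e.1)) e) else 0) = _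
  rw [if_pos h]

private theorem GlN_neg {S : Finset Col} {σ : Col → ℤ} {c : Edge → ZMod 2} {e : Edge}
    (h : ¬ To S e) : GlN_cut S σ c e = 0 := by
  classical
  change (if To S e then c (sh (σ (pr e.1)) e) else 0) = _
  rw [if_neg h]

private theorem GlN_notmem {S : Finset Col} {e : Edge} (h : ¬ To S e) : pr e.1 ∉ S :=
  fun hn => h ⟨pr e.1, pr_mem_bs e, hn⟩

private theorem GlN_mem {S T : Finset Col} {E F : Set Edge} {σ : Col → ℤ} (hE : PI E)
    (hsp : Sp S T) (hσ : Fl T σ) (hi : irr E ⊆ S ∪ T)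
    (hfin : {e | e ∈ F ∧ To S e}.Finite)
    (hg : ∀ e, To S e → ¬ To T e → sh (σ (pr e.1)) e ∈ E → e ∈ F)
    {c : Edge → ZMod 2} (hc : c ∈ Z0 E) : GlN_cut S σ c ∈ Z0 F := by
  have hsup : ∀ e, GlN_cut S σ c e ≠ 0 → e ∈ F ∧ To S e := by
    intro e he
    have h1 : To S e := by
      by_contra hn
      exact he (GlN_neg hn)
    rw [GlN_pos h1] at he
    have h2 : ¬ To T e := (To_case hsp e).resolve_left fun h => h h1
    exact ⟨hg e h1 h2 (hc.2.1 _ he), h1⟩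
  refine ⟨hfin.subset fun e he => hsup e he, fun e he => (hsup e he).1, ?_⟩
  refine cl_loc fun x i j hij => ?_
  rcases sq_case hsp (x := x) hij with hS | hT
  · exact ⟨fun _ => 0, 0, cl_zero, fun e he => GlN_neg (hS e he)⟩
  · refine ⟨c, σ (pr x), hc.2.2, fun e he => ?_⟩
    by_cases h1 : To S e
    · rw [GlN_pos h1, sq_const hσ hij hT he (pr_mem_bs e)]
    · rw [GlN_neg h1]
      have h2 : pr e.1 ∉ irr E := by
        intro hn
        rcases Finset.mem_union.1 (hi hn) with h3 | h3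
        · exact GlN_notmem h1 h3
        · exact GlN_notmem (hT e he) h3
      have h3 : pr e.1 ∈ bs (sh (σ (pr x)) e) := by
        rw [bs_sh]
        exact pr_mem_bs e
      exact (Z0_reg hE hc h2 h3).symm

private theorem GlN_inv {S : Finset Col} {E : Set Edge} {σ τ : Col → ℤ} (hE : PI E)
    (hi : irr E ⊆ S) (hστ : ∀ a, σ a + τ a = 0) {c : Edge → ZMod 2} (hc : c ∈ Z0 E) :
    GlN_cut S σ (GlN_cut S τ c) = c := by
  funext e
  by_cases h : To S e
  · have h2 : To S (sh (σ (pr e.1)) e) := (To_sh _ e).2 h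
    rw [GlN_pos h, GlN_pos h2, pr_sh, sh_sh]
    have h3 : τ (pr e.1) + σ (pr e.1) = 0 := by
      have := hστ (pr e.1)
      omega
    rw [h3, sh_zero]
  · rw [GlN_neg h]
    exact (Z0_reg hE hc (fun hn => GlN_notmem h (hi hn)) (pr_mem_bs e)).symm

private theorem GlN_off {S T : Finset Col} (hsp : Sp S T) (σ τ : Col → ℤ) (c : Edge → ZMod 2) :
    GlN_cut S σ (GlN_cut T τ c) = 0 := by
  funext e
  by_cases h : To S e
  · have h2 : ¬ To T (sh (σ (pr e.1)) e) := by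
      rw [To_sh]
      exact (To_case hsp e).resolve_left fun h' => h' h
    rw [GlN_pos h, GlN_neg h2]
    rfl
  · rw [GlN_neg h]
    rfl

private theorem GlN_zero {S : Finset Col} {σ : Col → ℤ} {c : Edge → ZMod 2}
    (h : GlN_cut S σ c = 0) {e : Edge} (he : To S e) : c e = 0 := by
  have h1 := congrFun h (sh (-σ (pr e.1)) e)
  have h2 : To S (sh (-σ (pr e.1)) e) := (To_sh _ e).2 he
  rw [GlN_pos h2, pr_sh, sh_sh, add_neg_cancel, sh_zero] at h1
  exact h1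

private theorem GlN_fwd (h : Gl S₁ S₂ Δ Δ₁ Δ₂) {c : Edge → ZMod 2} (hc : c ∈ Z0 Δ) :
    GlN_cut S₁ (HH Δ₂) c ∈ Z0 Δ₁ := by
  refine GlN_mem h.pi h.sp ((HH_Fl h.pi2).mono h.i2) h.i (sec_fin h.pi1 S₁) (fun e _ h2 h3 => ?_) hc
  have h4 : ¬ To S₂ (sh (HH Δ₂ (pr e.1)) e) := by
    rw [To_sh]
    exact h2
  have h5 := (h.g1 _ h4).1 h3
  rw [pr_sh, sh_sh, neg_add_cancel, sh_zero] at h5
  exact h5

private theorem GlN_bwd (h : Gl S₁ S₂ Δ Δ₁ Δ₂) {c : Edge → ZMod 2} (hc : c ∈ Z0 Δ₁) :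
    GlN_cut S₁ (fun a => -HH Δ₂ a) c ∈ Z0 Δ := by
  have hfl : Fl S₂ (fun a => -HH Δ₂ a) := by
    intro a b hab ha hb
    have h1 := ((HH_Fl h.pi2).mono h.i2) a b hab ha hb
    change -HH Δ₂ a = -HH Δ₂ b
    rw [h1]
  exact GlN_mem h.pi1 h.sp hfl (h.i1.trans Finset.subset_union_left) (sec_fin h.pi S₁)
    (fun e _ h2 h3 => (h.g1 e h2).2 h3) hc

theorem Gl.nn_eq (h : Gl S₁ S₂ Δ Δ₁ Δ₂) : nn Δ = nn Δ₁ + nn Δ₂ := by
  set F₁ : Z0 Δ →ₗ[ZMod 2] Z0 Δ₁ :=
    (GlN_cut S₁ (HH Δ₂)).restrict (fun c hc => GlN_fwd h hc) with hF₁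
  set F₂ : Z0 Δ →ₗ[ZMod 2] Z0 Δ₂ :=
    (GlN_cut S₂ (HH Δ₁)).restrict (fun c hc => GlN_fwd h.symm hc) with hF₂
  have e₁ : ∀ c : Z0 Δ, (F₁ c : Edge → ZMod 2) = GlN_cut S₁ (HH Δ₂) (c : Edge → ZMod 2) :=
    fun c => rfl
  have e₂ : ∀ c : Z0 Δ, (F₂ c : Edge → ZMod 2) = GlN_cut S₂ (HH Δ₁) (c : Edge → ZMod 2) :=
    fun c => rfl
  have hinj : Function.Injective (F₁.prod F₂) := by
    rw [injective_iff_map_eq_zero]
    intro c hc
    have h1 : F₁ c = 0 := congrArg Prod.fst hc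
    have h2 : F₂ c = 0 := congrArg Prod.snd hc
    have h1' : GlN_cut S₁ (HH Δ₂) (c : Edge → ZMod 2) = 0 := by
      rw [← e₁, h1]
      rfl
    have h2' : GlN_cut S₂ (HH Δ₁) (c : Edge → ZMod 2) = 0 := by
      rw [← e₂, h2]
      rfl
    refine Subtype.ext (funext fun e => ?_)
    by_cases t1 : To S₁ e
    · exact GlN_zero h1' t1
    · by_cases t2 : To S₂ e
      · exact GlN_zero h2' t2
      · have h3 : pr e.1 ∉ irr Δ := by
          intro hn
          rcases Finset.mem_union.1 (h.i hn) with h3 | h3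
          · exact GlN_notmem t1 h3
          · exact GlN_notmem t2 h3
        exact Z0_reg h.pi c.2 h3 (pr_mem_bs e)
  have hsur : Function.Surjective (F₁.prod F₂) := by
    rintro ⟨d₁, d₂⟩
    refine ⟨⟨GlN_cut S₁ (fun a => -HH Δ₂ a) d₁, GlN_bwd h d₁.2⟩ +
      ⟨GlN_cut S₂ (fun a => -HH Δ₁ a) d₂, GlN_bwd h.symm d₂.2⟩, ?_⟩
    refine Prod.ext ?_ ?_
    · refine Subtype.ext ?_
      change GlN_cut S₁ (HH Δ₂) (GlN_cut S₁ (fun a => -HH Δ₂ a) d₁ +
        GlN_cut S₂ (fun a => -HH Δ₁ a) d₂) = d₁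
      rw [map_add, GlN_inv h.pi1 h.i1 (fun a => by ring) d₁.2, GlN_off h.sp, add_zero]
    · refine Subtype.ext ?_
      change GlN_cut S₂ (HH Δ₁) (GlN_cut S₁ (fun a => -HH Δ₂ a) d₁ +
        GlN_cut S₂ (fun a => -HH Δ₁ a) d₂) = d₂
      rw [map_add, GlN_inv h.pi2 h.i2 (fun a => by ring) d₂.2, GlN_off h.sp.symm, zero_add]
  have f₁ : Module.Finite (ZMod 2) (Z0 Δ₁) := Z0_fin (hor_fin h.pi1)
  have f₂ : Module.Finite (ZMod 2) (Z0 Δ₂) := Z0_fin (hor_fin h.pi2)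
  have hfr := (LinearEquiv.ofBijective (F₁.prod F₂) ⟨hinj, hsur⟩).finrank_eq
  rw [Module.finrank_prod] at hfr
  exact hfr

end Pool.Agent.H78.DB
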