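import Pool.Agent.H78.DB.SBd
import Pool.Agent.H78.DB.GlN

/-!
# Module GwM: the decorated weights are multiplicative

`conn_case`: a connected (`nb2`) non-empty `Q ⊆ S₁ ∪ S₂` with `Sp S₁ S₂` is contained in `S₁` or in `S₂` (`Q ∩ S₁` is closed under
`nb2`-steps in `Q`, `nb2_near`). The families `𝒬 ⊆ QR R` with `irr Δ ∪ ⋃𝒬 = S₁ ∪ S₂` correspond to the pairs `(𝒬₁, 𝒬₂)` with
`irr Δ_i ∪ ⋃𝒬_i = S_i`: `𝒬_i = {Q ∈ 𝒬 | Q ⊆ S_i}`, `𝒬 = 𝒬₁ ∪ 𝒬₂` (disjoint, as `S₁`, `S₂` are disjoint and `Q ≠ ∅`), `Gl.irr_eq`, `i1`, `i2`;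
`∏_{𝒬} fQ Δ = ∏_{𝒬₁} fQ Δ₁ ∏_{𝒬₂} fQ Δ₂` (`Gl.fQ_eq`, for `𝒬₂` with `Gl.symm`). `Gl.en_eq`, `Gl.nn_eq`; the exponent:
`∑_{irr Δ} mE Δ a tR a` splits over `irr Δ₁`, `irr Δ₂` (disjoint) with `Gl.mE_eq`.
-/

set_option autoImplicit false

namespace Pool.Agent.H78.DB

open Pool.Agent.H72.DJ

variable {S₁ S₂ : Finset Col} {Δ Δ₁ Δ₂ : Set Edge}

private theorem GwM_not (hS : Sp S₁ S₂) {a : Col} (h2 : a ∈ S₂) : a ∉ S₁ := fun h1 =>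
  hS a h1 a h2 (near_self a)

theorem conn_case (hS : Sp S₁ S₂) {Q : Finset Col} (hQ : Cn nb2 (Q : Set Col)) (hne : Q.Nonempty)
    (hQS : Q ⊆ S₁ ∪ S₂) : Q ⊆ S₁ ∨ Q ⊆ S₂ := by
  by_cases h : ∃ a ∈ Q, a ∈ S₁
  · left
    obtain ⟨a, haQ, haS⟩ := h
    have h1 : ({b | b ∈ Q ∧ b ∈ S₁} : Set Col) = (Q : Set Col) := by
      apply hQ
      · refine ⟨fun b hb => hb.1, ?_⟩
        rintro e ⟨he, heS⟩ f hf hef
        have hf' : f ∈ Q := hf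
        refine ⟨hf', ?_⟩
        rcases Finset.mem_union.1 (hQS hf') with h2 | h2
        · exact h2
        · exact absurd (nb2_near hef) (hS e heS f h2)
      · exact ⟨a, haQ, haS⟩
    intro b hb
    have h2 : b ∈ (Q : Set Col) := hb
    rw [← h1] at h2
    exact h2.2
  · right
    intro b hb
    rcases Finset.mem_union.1 (hQS hb) with h2 | h2
    · exact absurd ⟨b, hb, h2⟩ h
    · exact h2

private theorem GwM_mem {R : Finset Col} {Q : Finset Col} (hQ : Q ∈ QR R) :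
    Q.Nonempty ∧ Cn nb2 (Q : Set Col) := by
  classical
  unfold QR at hQ
  exact (Finset.mem_filter.1 hQ).2

private theorem GwM_sub {𝒬 : Finset (Finset Col)} {I S : Finset Col} (h : I ∪ 𝒬.biUnion id = S)
    {Q : Finset Col} (hQ : Q ∈ 𝒬) : Q ⊆ S := by
  intro a ha
  rw [← h, Finset.mem_union]
  right
  exact Finset.mem_biUnion.2 ⟨Q, hQ, ha⟩

open Classical in
private theorem GwM_part (h : Gl S₁ S₂ Δ Δ₁ Δ₂) {R : Finset Col} {𝒬 : Finset (Finset Col)}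
    (h𝒬 : 𝒬 ⊆ QR R) (hu : irr Δ ∪ 𝒬.biUnion id = S₁ ∪ S₂) :
    irr Δ₁ ∪ (𝒬.filter fun Q => Q ⊆ S₁).biUnion id = S₁ := by
  ext a
  rw [Finset.mem_union, Finset.mem_biUnion]
  constructor
  · rintro (ha | ⟨Q, hQ, ha⟩)
    · exact h.i1 ha
    · exact (Finset.mem_filter.1 hQ).2 ha
  · intro ha
    have h1 : a ∈ irr Δ ∪ 𝒬.biUnion id := by
      rw [hu]
      exact Finset.mem_union_left _ ha
    rw [Finset.mem_union, h.irr_eq, Finset.mem_union, Finset.mem_biUnion] at h1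
    rcases h1 with (h1 | h1) | ⟨Q, hQ, h1⟩
    · exact Or.inl h1
    · exact absurd ha (GwM_not h.sp (h.i2 h1))
    · right
      obtain ⟨hne, hc⟩ := GwM_mem (h𝒬 hQ)
      rcases conn_case h.sp hc hne (GwM_sub hu hQ) with h2 | h2
      · exact ⟨Q, Finset.mem_filter.2 ⟨hQ, h2⟩, h1⟩
      · exact absurd ha (GwM_not h.sp (h2 h1))

open Classical in
private theorem GwM_inv (hS : Sp S₁ S₂) {R I₁ I₂ : Finset Col} {𝒬₁ 𝒬₂ : Finset (Finset Col)}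
    (h𝒬 : 𝒬₂ ⊆ QR R) (h1 : I₁ ∪ 𝒬₁.biUnion id = S₁) (h2 : I₂ ∪ 𝒬₂.biUnion id = S₂) :
    ((𝒬₁ ∪ 𝒬₂).filter fun Q => Q ⊆ S₁) = 𝒬₁ := by
  ext Q
  rw [Finset.mem_filter, Finset.mem_union]
  constructor
  · rintro ⟨hQ | hQ, hs⟩
    · exact hQ
    · obtain ⟨⟨a, ha⟩, -⟩ := GwM_mem (h𝒬 hQ)
      exact absurd (hs ha) (GwM_not hS (GwM_sub h2 hQ ha))
  · intro hQ
    exact ⟨Or.inl hQ, GwM_sub h1 hQ⟩

open Classical in
private theorem GwM_sum (h : Gl S₁ S₂ Δ Δ₁ Δ₂) {Φ : Finset Edge → ℝ} {μ : ℝ} (hΦ : Bulk Φ μ) (τ : ℝ)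
    (L : ℕ) (R : Finset Col) :
    ∑ 𝒬 ∈ (QR R).powerset.filter (fun 𝒬 => irr Δ ∪ 𝒬.biUnion id = S₁ ∪ S₂),
        ∏ Q ∈ 𝒬, fQ Φ τ L Q Δ =
      (∑ 𝒬 ∈ (QR R).powerset.filter (fun 𝒬 => irr Δ₁ ∪ 𝒬.biUnion id = S₁), ∏ Q ∈ 𝒬, fQ Φ τ L Q Δ₁) *
      ∑ 𝒬 ∈ (QR R).powerset.filter (fun 𝒬 => irr Δ₂ ∪ 𝒬.biUnion id = S₂),
        ∏ Q ∈ 𝒬, fQ Φ τ L Q Δ₂ := by
  rw [Finset.sum_mul_sum, ← Finset.sum_product']
  refine Finset.sum_bij' (fun 𝒬 _ => (𝒬.filter fun Q => Q ⊆ S₁, 𝒬.filter fun Q => Q ⊆ S₂))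
    (fun p _ => p.1 ∪ p.2) ?_ ?_ ?_ ?_ ?_
  · intro 𝒬 h𝒬
    rw [Finset.mem_filter, Finset.mem_powerset] at h𝒬
    rw [Finset.mem_product, Finset.mem_filter, Finset.mem_filter, Finset.mem_powerset,
      Finset.mem_powerset]
    refine ⟨⟨(Finset.filter_subset _ _).trans h𝒬.1, GwM_part h h𝒬.1 h𝒬.2⟩,
      ⟨(Finset.filter_subset _ _).trans h𝒬.1, GwM_part h.symm h𝒬.1 ?_⟩⟩
    rw [h𝒬.2, Finset.union_comm]
  · rintro ⟨𝒬₁, 𝒬₂⟩ hp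
    rw [Finset.mem_product, Finset.mem_filter, Finset.mem_filter, Finset.mem_powerset,
      Finset.mem_powerset] at hp
    obtain ⟨⟨h1, h1'⟩, h2, h2'⟩ := hp
    simp only at h1 h1' h2 h2'
    rw [Finset.mem_filter, Finset.mem_powerset]
    refine ⟨Finset.union_subset h1 h2, ?_⟩
    rw [h.irr_eq, Finset.union_biUnion, ← Finset.union_union_union_comm, h1', h2']
  · intro 𝒬 h𝒬
    rw [Finset.mem_filter, Finset.mem_powerset] at h𝒬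
    ext Q
    simp only [Finset.mem_union, Finset.mem_filter]
    constructor
    · rintro (hQ | hQ)
      · exact hQ.1
      · exact hQ.1
    · intro hQ
      obtain ⟨hne, hc⟩ := GwM_mem (h𝒬.1 hQ)
      rcases conn_case h.sp hc hne (GwM_sub h𝒬.2 hQ) with h2 | h2
      · exact Or.inl ⟨hQ, h2⟩
      · exact Or.inr ⟨hQ, h2⟩
  · rintro ⟨𝒬₁, 𝒬₂⟩ hp
    rw [Finset.mem_product, Finset.mem_filter, Finset.mem_filter, Finset.mem_powerset,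
      Finset.mem_powerset] at hp
    obtain ⟨⟨h1, h1'⟩, h2, h2'⟩ := hp
    simp only at h1 h1' h2 h2'
    simp only [Prod.mk.injEq]
    refine ⟨GwM_inv h.sp h2 h1' h2', ?_⟩
    rw [Finset.union_comm]
    exact GwM_inv h.sp.symm h1 h2' h1'
  · intro 𝒬 h𝒬
    rw [Finset.mem_filter, Finset.mem_powerset] at h𝒬
    have hsp : 𝒬 = (𝒬.filter fun Q => Q ⊆ S₁) ∪ 𝒬.filter fun Q => Q ⊆ S₂ := by
      ext Q
      simp only [Finset.mem_union, Finset.mem_filter]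
      constructor
      · intro hQ
        obtain ⟨hne, hc⟩ := GwM_mem (h𝒬.1 hQ)
        rcases conn_case h.sp hc hne (GwM_sub h𝒬.2 hQ) with h2 | h2
        · exact Or.inl ⟨hQ, h2⟩
        · exact Or.inr ⟨hQ, h2⟩
      · rintro (hQ | hQ)
        · exact hQ.1
        · exact hQ.1
    have hd : Disjoint (𝒬.filter fun Q => Q ⊆ S₁) (𝒬.filter fun Q => Q ⊆ S₂) := by
      rw [Finset.disjoint_left]
      intro Q hQ1 hQ2
      rw [Finset.mem_filter] at hQ1 hQ2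
      obtain ⟨⟨a, ha⟩, -⟩ := GwM_mem (h𝒬.1 hQ1.1)
      exact GwM_not h.sp (hQ2.2 ha) (hQ1.2 ha)
    have e1 : ∏ Q ∈ 𝒬, fQ Φ τ L Q Δ =
        ∏ Q ∈ (𝒬.filter fun Q => Q ⊆ S₁) ∪ 𝒬.filter fun Q => Q ⊆ S₂, fQ Φ τ L Q Δ :=
      Finset.prod_congr hsp fun _ _ => rfl
    rw [e1, Finset.prod_union hd]
    refine congrArg₂ (· * ·) (Finset.prod_congr rfl ?_) (Finset.prod_congr rfl ?_)
    · intro Q hQ
      rw [Finset.mem_filter] at hQ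
      exact h.fQ_eq hΦ τ L (GwM_mem (h𝒬.1 hQ.1)).2 hQ.2
    · intro Q hQ
      rw [Finset.mem_filter] at hQ
      exact h.symm.fQ_eq hΦ τ L (GwM_mem (h𝒬.1 hQ.1)).2 hQ.2

theorem Gl.gw_eq (h : Gl S₁ S₂ Δ Δ₁ Δ₂) {Φ : Finset Edge → ℝ} {μ : ℝ} (hΦ : Bulk Φ μ) (r q τ : ℝ)
    (L : ℕ) (R : Finset Col) :
    gw Φ r q τ L R Δ (S₁ ∪ S₂) = gw Φ r q τ L R Δ₁ S₁ * gw Φ r q τ L R Δ₂ S₂ := by
  classical
  have hd : Disjoint (irr Δ₁) (irr Δ₂) := by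
    rw [Finset.disjoint_left]
    intro a h1 h2
    exact GwM_not h.sp (h.i2 h2) (h.i1 h1)
  have hex : ∑ a ∈ irr Δ, (mE Δ a : ℝ) * tR τ R a =
      ∑ a ∈ irr Δ₁, (mE Δ₁ a : ℝ) * tR τ R a + ∑ a ∈ irr Δ₂, (mE Δ₂ a : ℝ) * tR τ R a := by
    rw [h.irr_eq, Finset.sum_union hd]
    refine congrArg₂ (· + ·) (Finset.sum_congr rfl ?_) (Finset.sum_congr rfl ?_)
    · intro a ha
      rw [h.mE_eq fun h2 => GwM_not h.sp h2 (h.i1 ha)]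
    · intro a ha
      rw [h.symm.mE_eq (GwM_not h.sp (h.i2 ha))]
  unfold gw
  rw [h.en_eq, h.nn_eq, hex, GwM_sum h hΦ τ L R, neg_add, Real.exp_add, pow_add, pow_add]
  ring

end Pool.Agent.H78.DB
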