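import Pool.Agent.H78.DB.SumL
import Pool.Agent.H78.DB.GlV

/-!
# Module JSm: the interaction with the gas

`JV_sum`: for `X ⊆ EL L`, `X ≠ ∅`, `Φ X ≠ 0`: `X` is connected (`Bulk.conn`), so `bU X` is connected (`bU_conn`), non-empty, contained in
`sqr (L+1) ⊆ R`, i.e. `bU X ∈ QR R`; so `∑_{Q ∈ QR R} (if X ⊆ EL L ∧ bU X = Q then Φ X chi else 0) = if X ⊆ EL L then Φ X chi else 0`
(`Bulk.empty` for `X = ∅`); exchange the finite sum with the sum over `X` (`Summable.tsum_finsetSum`, all summable by `hit_G` with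
`K = sqr (L+1)` for `Δ` and for `PP`, and `summ_meet`: `chi Δ X ≠ 0` implies `hit Δ X` or `hit PP X`, `|chi| ≤ 1`).
`JV_le`: `tsum_meet` with `G = G(Δ) ∪ G(PP)` (`hit_G`, `K = sqr (L+1)`), `m = 1` (`chi _ ∅ = 0`), `over_le`, `en_PP`; for `V ⊆ EL L` all
`f ∈ X ⊆ V` have `bs f ⊆ sqr (L+1)`. `|JV| ≤ 16 (2 c + en Δ) 2 μ ≤ 2 c + en Δ`, `c = |NQ (sqr (L+1))|`, if `32 μ ≤ 1`.
`JV_lim`: `tendsto_tsum_of_dominated_convergence` with the bound `|Φ X|` on the `X` meeting `G(Δ) ∪ G(PP)` and `0` elsewhere;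
`X ⊆ EL L` implies `X ⊆ edges L M` for large `M` (`mem_edges`, `mem_box`: a finite set of edges), and `edges L M ⊆ EL L`.
`edges_EL`: an endpoint in the box has its column in `sqr L`.
-/

set_option autoImplicit false

open Filter Topology

namespace Pool.Agent.H78.DB

open Pool.Agent.H72.DJ

variable {Φ : Finset Edge → ℝ} {μ : ℝ}

private theorem JSm_pr (x : Vtx) (i : Fin 3) : pr (x + unit i) = pr x + dirc i := by
  fin_cases i <;> simp [pr, unit, dirc]

private theorem JSm_sqr {L : ℕ} {a : Col} : a ∈ sqr L ↔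
    (-(L : ℤ) ≤ a.1 ∧ a.1 ≤ L) ∧ (-(L : ℤ) ≤ a.2 ∧ a.2 ≤ L) := by
  unfold sqr
  rw [Finset.mem_product, Finset.mem_Icc, Finset.mem_Icc]

private theorem JSm_bs {e : Edge} {a : Col} : a ∈ bs e ↔ a = pr e.1 ∨ a = pr e.1 + dirc e.2 := by
  unfold bs
  rw [Finset.mem_insert, Finset.mem_singleton]

private theorem JSm_chi_le (Δ : Set Edge) (X : Finset Edge) : |chi Δ X| ≤ 1 := by
  unfold chi
  split_ifs <;> simp

private theorem JSm_chi_hit {Δ : Set Edge} {X : Finset Edge} (h : chi Δ X ≠ 0) :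
    hit Δ X ∨ hit PP X := by
  by_contra hn
  rw [not_or] at hn
  apply h
  unfold chi
  rw [if_neg hn.1, if_neg hn.2, sub_zero]

theorem edges_EL (L M : ℕ) : (edges L M : Set Edge) ⊆ EL L := by
  intro e he
  have he' : e ∈ edges L M := Finset.mem_coe.1 he
  rw [mem_edges] at he'
  rcases he' with h | h
  · rw [mem_box] at h
    refine ⟨pr e.1, JSm_bs.2 (Or.inl rfl), JSm_sqr.2 ⟨h.1, h.2.1⟩⟩
  · rw [mem_box] at h
    refine ⟨pr e.1 + dirc e.2, JSm_bs.2 (Or.inr rfl), ?_⟩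
    rw [← JSm_pr]
    exact JSm_sqr.2 ⟨h.1, h.2.1⟩

theorem EL_edges (L : ℕ) (X : Finset Edge) (hX : (X : Set Edge) ⊆ EL L) :
    ∃ M₀ : ℕ, ∀ M, M₀ ≤ M → X ⊆ edges L M := by
  refine ⟨X.sup fun e => e.1.2.2.natAbs + 1, fun M hM e he => ?_⟩
  have h1 : e.1.2.2.natAbs + 1 ≤ M :=
    le_trans (Finset.le_sup (f := fun e : Edge => e.1.2.2.natAbs + 1) he) hM
  obtain ⟨a, ha, haL⟩ := hX (Finset.mem_coe.2 he)
  rw [JSm_sqr] at haL
  rw [mem_edges]
  rcases JSm_bs.1 ha with h | h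
  · left
    rw [mem_box]
    subst h
    refine ⟨haL.1, haL.2, ?_⟩
    omega
  · right
    rw [mem_box]
    rw [← JSm_pr] at h
    subst h
    refine ⟨haL.1, haL.2, ?_⟩
    have h2 : 0 ≤ (unit e.2).2.2 ∧ (unit e.2).2.2 ≤ 1 := by
      generalize e.2 = i
      fin_cases i <;> simp [unit]
    have h3 : (e.1 + unit e.2).2.2 = e.1.2.2 + (unit e.2).2.2 := rfl
    rw [h3]
    omega

theorem EL_bs {L : ℕ} {e : Edge} (he : e ∈ EL L) : bs e ⊆ sqr (L + 1) := by
  obtain ⟨a, ha, haL⟩ := he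
  intro b hb
  rw [JSm_sqr] at haL ⊢
  have hd : (0 ≤ (dirc e.2).1 ∧ (dirc e.2).1 ≤ 1) ∧ (0 ≤ (dirc e.2).2 ∧ (dirc e.2).2 ≤ 1) := by
    generalize e.2 = i
    fin_cases i <;> simp [dirc]
  have e1 : (pr e.1 + dirc e.2).1 = (pr e.1).1 + (dirc e.2).1 := rfl
  have e2 : (pr e.1 + dirc e.2).2 = (pr e.1).2 + (dirc e.2).2 := rfl
  push_cast
  rcases JSm_bs.1 ha with h | h <;> rcases JSm_bs.1 hb with h' | h' <;> subst h <;> subst h' <;>
    (try rw [e1] at haL) <;> (try rw [e2] at haL) <;> (try rw [e1]) <;> (try rw [e2]) <;> omega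

private theorem JSm_G {Δ : Set Edge} (h : PI Δ) (L : ℕ) : ∃ G : Finset Edge,
    (G.card : ℝ) ≤ 16 * (2 * (NQ (sqr (L + 1))).card + en Δ) ∧
      ∀ X : Finset Edge, (X : Set Edge) ⊆ EL L → chi Δ X ≠ 0 → ∃ g ∈ G, g ∈ X := by
  classical
  obtain ⟨G₁, c₁, h₁⟩ := hit_G h (sqr (L + 1))
  obtain ⟨G₂, c₂, h₂⟩ := hit_G PI_PP (sqr (L + 1))
  refine ⟨G₁ ∪ G₂, ?_, ?_⟩
  · have k₁ := over_le h (NQ (sqr (L + 1)))
    have k₂ := over_le PI_PP (NQ (sqr (L + 1)))
    rw [en_PP] at k₂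
    have k₃ := Finset.card_union_le G₁ G₂
    have k₄ : (G₁ ∪ G₂).card ≤ 16 * (2 * (NQ (sqr (L + 1))).card + en Δ) := by omega
    exact_mod_cast k₄
  · intro X hX hc
    have hb : ∀ f ∈ X, bs f ⊆ sqr (L + 1) := fun f hf => EL_bs (hX (Finset.mem_coe.2 hf))
    rcases JSm_chi_hit hc with k | k
    · obtain ⟨g, hg, hgX⟩ := h₁ X hb k
      exact ⟨g, Finset.mem_union_left _ hg, hgX⟩
    · obtain ⟨g, hg, hgX⟩ := h₂ X hb k
      exact ⟨g, Finset.mem_union_right _ hg, hgX⟩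

private theorem JSm_le (c : ℝ) (hc : |c| ≤ 1) (a : ℝ) : |a * c| ≤ |a| := by
  rw [abs_mul]
  exact mul_le_of_le_one_right (abs_nonneg a) hc

theorem JV_sum (hΦ : Bulk Φ μ) {Δ : Set Edge} (h : PI Δ) (L : ℕ) {R : Finset Col}
    (hR : sqr (L + 1) ⊆ R) : JV Φ (EL L) Δ = ∑ Q ∈ QR R, sQ Φ L Q Δ := by
  classical
  obtain ⟨G, -, hG⟩ := JSm_G h L
  have hs : ∀ Q ∈ QR R, Summable fun X : Finset Edge =>
      if (X : Set Edge) ⊆ EL L ∧ bU X = Q then Φ X * chi Δ X else 0 := by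
    intro Q _
    refine summ_meet hΦ G _ (fun X => ?_) (fun X hX => ?_)
    · split_ifs
      · exact JSm_le _ (JSm_chi_le Δ X) _
      · rw [abs_zero]
        exact abs_nonneg _
    · split_ifs at hX with k
      · exact hG X k.1 (right_ne_zero_of_mul hX)
      · exact absurd rfl hX
  have e1 : JV Φ (EL L) Δ = ∑' X : Finset Edge, ∑ Q ∈ QR R,
      if (X : Set Edge) ⊆ EL L ∧ bU X = Q then Φ X * chi Δ X else 0 := by
    unfold JV
    refine tsum_congr fun X => ?_
    by_cases hX : (X : Set Edge) ⊆ EL L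
    · rw [if_pos hX]
      have e2 : ∀ Q ∈ QR R, (if (X : Set Edge) ⊆ EL L ∧ bU X = Q then Φ X * chi Δ X else 0)
          = if bU X = Q then Φ X * chi Δ X else 0 := by
        intro Q _
        by_cases hQ : bU X = Q
        · rw [if_pos ⟨hX, hQ⟩, if_pos hQ]
        · rw [if_neg fun k => hQ k.2, if_neg hQ]
      rw [Finset.sum_congr rfl e2, Finset.sum_ite_eq]
      split_ifs with hQ
      · rfl
      · have hz : Φ X = 0 := by
          by_contra hz
          have hc : Cn Ad (X : Set Edge) := by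
            by_contra hc
            exact hz (hΦ.conn X hc)
          have hne : X.Nonempty := by
            rw [Finset.nonempty_iff_ne_empty]
            intro h0
            exact hz (by rw [h0]; exact hΦ.empty)
          apply hQ
          unfold QR
          rw [Finset.mem_filter, Finset.mem_powerset]
          refine ⟨?_, ?_, bU_conn hc⟩
          · intro b hb
            unfold bU at hb
            obtain ⟨f, hf, hbf⟩ := Finset.mem_biUnion.1 hb
            exact hR (EL_bs (hX (Finset.mem_coe.2 hf)) hbf)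
          · obtain ⟨f, hf⟩ := hne
            refine ⟨pr f.1, ?_⟩
            unfold bU
            exact Finset.mem_biUnion.2 ⟨f, hf, JSm_bs.2 (Or.inl rfl)⟩
        rw [hz, zero_mul]
    · rw [if_neg hX]
      symm
      refine Finset.sum_eq_zero fun Q _ => ?_
      rw [if_neg fun k => hX k.1]
  rw [e1, Summable.tsum_finsetSum hs]
  refine Finset.sum_congr rfl fun Q _ => ?_
  unfold sQ
  refine tsum_congr fun X => ?_
  congr

theorem JV_le (hΦ : Bulk Φ μ) (h0 : 0 ≤ μ) (h1 : 32 * μ ≤ 1) {Δ : Set Edge} (h : PI Δ) (L : ℕ)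
    {V : Set Edge} (hV : V ⊆ EL L) : |JV Φ V Δ| ≤ 2 * (NQ (sqr (L + 1))).card + en Δ := by
  classical
  obtain ⟨G, hc, hG⟩ := JSm_G h L
  have k := tsum_meet hΦ G 1
    (fun X : Finset Edge => if (X : Set Edge) ⊆ V then Φ X * chi Δ X else 0)
    (fun X => by
      split_ifs
      · exact JSm_le _ (JSm_chi_le Δ X) _
      · rw [abs_zero]
        exact abs_nonneg _)
    (fun X hX => by
      split_ifs at hX with k
      · obtain ⟨g, hg, hgX⟩ := hG X (k.trans hV) (right_ne_zero_of_mul hX)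
        exact ⟨⟨g, hg, hgX⟩, Finset.card_pos.2 ⟨g, hgX⟩⟩
      · exact absurd rfl hX)
  have e1 : JV Φ V Δ = ∑' X : Finset Edge, (if (X : Set Edge) ⊆ V then Φ X * chi Δ X else 0) := by
    unfold JV
    refine tsum_congr fun X => ?_
    congr
  rw [e1]
  refine k.trans ?_
  rw [pow_one]
  have c0 : (0 : ℝ) ≤ 2 * (NQ (sqr (L + 1))).card + en Δ := by positivity
  calc (G.card : ℝ) * (2 * μ) ≤ 16 * (2 * (NQ (sqr (L + 1))).card + en Δ) * (2 * μ) :=
        mul_le_mul_of_nonneg_right hc (by linarith)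
    _ = 32 * μ * (2 * (NQ (sqr (L + 1))).card + en Δ) := by ring
    _ ≤ 1 * (2 * (NQ (sqr (L + 1))).card + en Δ) := mul_le_mul_of_nonneg_right h1 c0
    _ = 2 * (NQ (sqr (L + 1))).card + en Δ := one_mul _

theorem JV_lim (hΦ : Bulk Φ μ) {Δ : Set Edge} (h : PI Δ) (L : ℕ) :
    Tendsto (fun M => JV Φ (edges L M : Set Edge) Δ) atTop (𝓝 (JV Φ (EL L) Δ)) := by
  classical
  obtain ⟨G, -, hG⟩ := JSm_G h L
  unfold JV
  refine tendsto_tsum_of_dominated_convergence
    (bound := fun X : Finset Edge => if ∃ g ∈ G, g ∈ X then |Φ X| else 0) ?_ ?_ ?_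
  · refine summ_meet hΦ G _ (fun X => ?_) (fun X hX => ?_)
    · split_ifs
      · rw [abs_abs]
      · rw [abs_zero]
        exact abs_nonneg _
    · split_ifs at hX with k
      · exact k
      · exact absurd rfl hX
  · intro X
    refine tendsto_const_nhds.congr' ?_
    by_cases hX : (X : Set Edge) ⊆ EL L
    · obtain ⟨M₀, hM₀⟩ := EL_edges L X hX
      filter_upwards [eventually_ge_atTop M₀] with M hM
      rw [if_pos hX, if_pos (Finset.coe_subset.2 (hM₀ M hM))]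
    · filter_upwards with M
      rw [if_neg hX, if_neg fun k => hX (k.trans (edges_EL L M))]
  · filter_upwards with M X
    by_cases hX : (X : Set Edge) ⊆ (edges L M : Set Edge)
    · rw [if_pos hX, Real.norm_eq_abs]
      split_ifs with k
      · exact JSm_le _ (JSm_chi_le Δ X) _
      · have hc : chi Δ X = 0 := by
          by_contra hc
          exact k (hG X (hX.trans (edges_EL L M)) hc)
        rw [hc, mul_zero, abs_zero]
    · rw [if_neg hX, norm_zero]
      split_ifs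
      · exact abs_nonneg _
      · exact le_refl _

end Pool.Agent.H78.DB
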