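import Pool.Agent.H78.DB.SBd
import Pool.Agent.H78.DB.JSm

/-!
# Module GwS: resummation of the decorations

`mQ_sum`: `∑_{Q ∈ QR R} τ^|Q| mQ Δ Q = ∑_{a ∈ irr Δ} mE Δ a * tR τ R a`: `mQ Δ Q = ∑_{a ∈ NQ Q} mx Δ a`, `mx` vanishes outside `irr Δ`;
exchange the sums. `gw_sum`: `∏_{Q ∈ QR R} (1 + fQ) = ∑_{𝒬 ⊆ QR R} ∏_{Q ∈ 𝒬} fQ` (`Finset.prod_one_add` or `Finset.prod_add`), and every `𝒬 ⊆ QR R` has
`irr Δ ∪ 𝒬.biUnion id ⊆ R`, so the sum over `S ⊆ R` of the inner sums of `gw` is the sum over all `𝒬` (`Finset.sum_fiberwise`).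
`∏ (1 + fQ) = exp (∑ τ^|Q| mQ - ∑ sQ) = exp (∑_{a ∈ irr Δ} mE tR) * exp (-JV)` (`mQ_sum`, `JV_sum`).
-/

set_option autoImplicit false

namespace Pool.Agent.H78.DB

open Pool.Agent.H72.DJ

theorem mQ_sum (τ : ℝ) (R : Finset Col) (Δ : Set Edge) :
    ∑ Q ∈ QR R, τ ^ Q.card * (mQ Δ Q : ℝ) = ∑ a ∈ irr Δ, (mE Δ a : ℝ) * tR τ R a := by
  have h1 : ∀ Q : Finset Col, (mQ Δ Q : ℝ) = ∑ a ∈ irr Δ, if a ∈ NQ Q then (mE Δ a : ℝ) else 0 := by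
    intro Q
    unfold mQ mx
    push_cast
    rw [Finset.sum_ite_mem, Finset.sum_ite_mem, Finset.inter_comm]
  have h2 : ∀ a : Col, tR τ R a = ∑ Q ∈ QR R, if a ∈ NQ Q then τ ^ Q.card else 0 := by
    intro a
    unfold tR
    rw [Finset.sum_filter]
  simp only [h1, h2, Finset.mul_sum]
  rw [Finset.sum_comm]
  refine Finset.sum_congr rfl fun a _ => Finset.sum_congr rfl fun Q _ => ?_
  split_ifs
  · ring
  · ring

theorem gw_sum {Φ : Finset Edge → ℝ} {μ : ℝ} (hΦ : Bulk Φ μ) (r q τ : ℝ) (L : ℕ) {R : Finset Col}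
    (hR : sqr (L + 1) ⊆ R) {Δ : Set Edge} (h : PI Δ) (hi : irr Δ ⊆ R) :
    ∑ S ∈ R.powerset, gw Φ r q τ L R Δ S = wL Φ r q L Δ := by
  classical
  have h1 : ∑ Q ∈ QR R, (τ ^ Q.card * (mQ Δ Q : ℝ) - sQ Φ L Q Δ) =
      ∑ a ∈ irr Δ, (mE Δ a : ℝ) * tR τ R a - JV Φ (EL L) Δ := by
    rw [Finset.sum_sub_distrib, mQ_sum, JV_sum hΦ h L hR]
  have h2 : ∑ 𝒬 ∈ (QR R).powerset, ∏ Q ∈ 𝒬, fQ Φ τ L Q Δ =
      Real.exp (∑ a ∈ irr Δ, (mE Δ a : ℝ) * tR τ R a - JV Φ (EL L) Δ) := by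
    rw [← Finset.prod_one_add, ← h1, Real.exp_sum]
    refine Finset.prod_congr rfl fun Q _ => ?_
    unfold fQ
    ring
  have h3 : ∀ 𝒬 ∈ (QR R).powerset, irr Δ ∪ 𝒬.biUnion id ∈ R.powerset := by
    intro 𝒬 h𝒬
    rw [Finset.mem_powerset] at h𝒬 ⊢
    refine Finset.union_subset hi (Finset.biUnion_subset.2 fun Q hQ => ?_)
    have h4 := h𝒬 hQ
    unfold QR at h4
    exact Finset.mem_powerset.1 (Finset.mem_filter.1 h4).1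
  have h4 := Finset.sum_fiberwise_of_maps_to h3 fun 𝒬 => ∏ Q ∈ 𝒬, fQ Φ τ L Q Δ
  unfold gw wL
  rw [← Finset.mul_sum]
  have h5 : ∑ S ∈ R.powerset, ∑ 𝒬 ∈ (QR R).powerset.filter (fun 𝒬 => irr Δ ∪ 𝒬.biUnion id = S),
      ∏ Q ∈ 𝒬, fQ Φ τ L Q Δ =
      Real.exp (∑ a ∈ irr Δ, (mE Δ a : ℝ) * tR τ R a - JV Φ (EL L) Δ) := by
    rw [← h2, ← h4]
  rw [h5, mul_assoc (r ^ en Δ * q ^ nn Δ), ← Real.exp_add]
  congr 2
  ring

/-- the weight of base `S` vanishes unless the irregular columns are in `S` -/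
theorem gw_zero {Φ : Finset Edge → ℝ} (r q τ : ℝ) (L : ℕ) (R : Finset Col) {Δ : Set Edge}
    {S : Finset Col} (hS : ¬ irr Δ ⊆ S) : gw Φ r q τ L R Δ S = 0 := by
  unfold gw
  have h1 : ((QR R).powerset.filter fun 𝒬 => irr Δ ∪ 𝒬.biUnion id = S) = ∅ := by
    refine Finset.filter_eq_empty_iff.2 fun 𝒬 _ h𝒬 => hS ?_
    rw [← h𝒬]
    exact Finset.subset_union_left
  rw [h1, Finset.sum_empty, mul_zero]

end Pool.Agent.H78.DB
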