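import Pool.Agent.H78.DB.MInv
import Pool.Agent.H78.DB.XiR
import Pool.Agent.H78.DB.Cnt

/-!
# Module KPr: the Kotecky-Preiss induction in the algebra of Moebius transforms

Fix a finite `X`. For finite `S` write `[S] Y = Xi w (S ∩ Y)`, a positive function on subsets `Y` of `X`.
Claim, by strong induction on `|S|`: for `e ∉ S`, `nrm ([insert e S] / [S] - 1) ≤ 1/2`.
(a) (`ratio_prod`) If the claim holds for all sets of smaller cardinality than `S`, then `nrm ([S \ T] / [S]) ≤ 2 ^ |S ∩ T|` for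
every `T`: induction on `|S ∩ T|`: remove the elements one at a time, `[S']/[insert e S']` has norm at most `2` by `nrm_inv`
(`|S'| < |S|`), `nrm_mul`.
(b) For `Y ⊆ X`: `[insert e S] Y / [S] Y - 1 = ∑_γ w γ * 1_{γ ⊆ Y} * Xi ((S \ N̄ γ) ∩ Y) / Xi (S ∩ Y)`, the sum over the connected
`γ ⊆ insert e S`, `γ ∋ e`: if `e ∉ Y` both sides are zero; if `e ∈ Y` this is `Xi_insert` for `S ∩ Y`
(`insert e S ∩ Y = insert e (S ∩ Y)`; the `γ ⊆ insert e (S ∩ Y)` are the `γ ⊆ insert e S` with `γ ⊆ Y`).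
(c) `nrm ≤ ∑_γ lam^|γ| θ^{-|γ|} 2^(16 |γ|)` (`nrm_sum`, `nrm_mul`, `nrm_ind`, (a) with `T = N̄ γ`, `|N̄ γ| ≤ 16 |γ|`)
`≤ 2 (256 * lam * θ⁻¹ * 2^16) ≤ 1/2` by `cnt_sum` with `d = 16`, `m = 1`, `t = lam θ⁻¹ 2^16`.
-/

set_option autoImplicit false

namespace Pool.Agent.H78.DB

variable {V : Type} [DecidableEq V] {N : V → Finset V} {w : Finset V → ℝ} {lam : ℝ}

private theorem KPr_pos (h : Gas N w lam) (S : Finset V) : 0 < Xi w S :=
  lt_of_lt_of_le one_pos (Xi_pos h S)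

private theorem KPr_ratio (h : Gas N w lam) {θ : ℝ} (h0 : 0 < θ) (h1 : θ ≤ 1) (X : Finset V) (n : ℕ)
    (IH : ∀ S' : Finset V, S'.card < n → ∀ u, u ∉ S' →
      nrm θ X (fun Y => Xi w (insert u S' ∩ Y) / Xi w (S' ∩ Y) - 1) ≤ 1 / 2)
    (R U : Finset V) (hn : (R ∪ U).card ≤ n) :
    nrm θ X (fun Y => Xi w (R ∩ Y) / Xi w ((R ∪ U) ∩ Y)) ≤ 2 ^ U.card := by
  induction U using Finset.induction_on with
  | empty =>
    have e1 : nrm θ X (fun Y => Xi w (R ∩ Y) / Xi w ((R ∪ ∅) ∩ Y)) = nrm θ X (fun _ => 1) := by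
      refine nrm_congr fun Y _ => ?_
      rw [Finset.union_empty]
      exact div_self (KPr_pos h _).ne'
    rw [e1, nrm_one, Finset.card_empty, pow_zero]
  | insert u U hu ih =>
    have hsub : R ∪ U ⊆ R ∪ insert u U := Finset.union_subset_union_right (Finset.subset_insert u U)
    have ih' := ih ((Finset.card_le_card hsub).trans hn)
    rw [Finset.card_insert_of_notMem hu, pow_succ]
    by_cases hm : u ∈ R ∪ U
    · have e1 : R ∪ insert u U = R ∪ U := by
        rw [Finset.union_insert, Finset.insert_eq_of_mem hm]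
      rw [e1]
      refine ih'.trans ?_
      have : (0 : ℝ) < 2 ^ U.card := by positivity
      linarith
    · have e1 : R ∪ insert u U = insert u (R ∪ U) := Finset.union_insert _ _ _
      have hlt : (R ∪ U).card < n := by
        rw [e1, Finset.card_insert_of_notMem hm] at hn
        omega
      rw [e1]
      have e2 : nrm θ X (fun Y => Xi w (R ∩ Y) / Xi w (insert u (R ∪ U) ∩ Y)) =
          nrm θ X (fun Y => Xi w (R ∩ Y) / Xi w ((R ∪ U) ∩ Y) *
            (Xi w (insert u (R ∪ U) ∩ Y) / Xi w ((R ∪ U) ∩ Y))⁻¹) := by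
        refine nrm_congr fun Y _ => ?_
        have p1 := KPr_pos h ((R ∪ U) ∩ Y)
        have p2 := KPr_pos h (insert u (R ∪ U) ∩ Y)
        field_simp
      rw [e2]
      refine (nrm_mul h0 h1 X _ _).trans ?_
      exact mul_le_mul ih' (nrm_inv h0 h1 X _ (IH (R ∪ U) hlt u hm)) (nrm_nonneg h0 X _)
        (by positivity)

private theorem KPr_rat (h : Gas N w lam) {θ : ℝ} (h0 : 0 < θ) (h1 : θ ≤ 1) (X S : Finset V)
    (IH : ∀ S' : Finset V, S'.card < S.card → ∀ u, u ∉ S' →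
      nrm θ X (fun Y => Xi w (insert u S' ∩ Y) / Xi w (S' ∩ Y) - 1) ≤ 1 / 2)
    (γ : Finset V) :
    nrm θ X (fun Y => Xi w ((S \ γ.biUnion N) ∩ Y) / Xi w (S ∩ Y)) ≤ (2 ^ 16 : ℝ) ^ γ.card := by
  have e1 : (S \ γ.biUnion N) ∪ (S ∩ γ.biUnion N) = S := by
    ext a
    simp only [Finset.mem_union, Finset.mem_sdiff, Finset.mem_inter]
    tauto
  have h2 := KPr_ratio h h0 h1 X S.card IH (S \ γ.biUnion N) (S ∩ γ.biUnion N) (by rw [e1])
  rw [e1] at h2
  refine h2.trans ?_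
  have h3 : (S ∩ γ.biUnion N).card ≤ 16 * γ.card := by
    refine (Finset.card_le_card Finset.inter_subset_right).trans ?_
    rw [mul_comm]
    exact Finset.card_biUnion_le_card_mul _ _ _ fun a _ => h.card a
  rw [← pow_mul]
  exact pow_le_pow_right₀ (by norm_num) h3

open Classical in
private theorem KPr_id (h : Gas N w lam) (S : Finset V) (e : V) (he : e ∉ S) (Y : Finset V) :
    Xi w (insert e S ∩ Y) / Xi w (S ∩ Y) - 1 =
      ∑ γ ∈ (insert e S).powerset.filter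
        (fun γ : Finset V => e ∈ γ ∧ Cn (fun a b => b ∈ N a) (γ : Set V)),
        w γ * ((if γ ⊆ Y then 1 else 0) * (Xi w ((S \ γ.biUnion N) ∩ Y) / Xi w (S ∩ Y))) := by
  have p1 := KPr_pos h (S ∩ Y)
  by_cases heY : e ∈ Y
  · have e1 : insert e S ∩ Y = insert e (S ∩ Y) := Finset.insert_inter_of_mem heY
    have he' : e ∉ S ∩ Y := fun hh => he (Finset.mem_inter.1 hh).1
    have e2 : Xi w (insert e S ∩ Y) / Xi w (S ∩ Y) - 1 =
        (∑ γ ∈ (insert e (S ∩ Y)).powerset.filter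
          (fun γ : Finset V => e ∈ γ ∧ Cn (fun a b => b ∈ N a) (γ : Set V)),
          w γ * Xi w ((S ∩ Y) \ γ.biUnion N)) / Xi w (S ∩ Y) := by
      rw [e1, Xi_insert h (S ∩ Y) e he']
      field_simp
      ring
    have e3 : (insert e (S ∩ Y)).powerset.filter
        (fun γ : Finset V => e ∈ γ ∧ Cn (fun a b => b ∈ N a) (γ : Set V)) =
        ((insert e S).powerset.filter
          (fun γ : Finset V => e ∈ γ ∧ Cn (fun a b => b ∈ N a) (γ : Set V))).filter
            (fun γ : Finset V => γ ⊆ Y) := by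
      ext γ
      simp only [Finset.mem_filter, Finset.mem_powerset]
      constructor
      · rintro ⟨a1, a2, a3⟩
        refine ⟨⟨a1.trans (Finset.insert_subset_insert _ Finset.inter_subset_left), a2, a3⟩, ?_⟩
        exact a1.trans (Finset.insert_subset heY Finset.inter_subset_right)
      · rintro ⟨⟨a1, a2, a3⟩, a4⟩
        refine ⟨?_, a2, a3⟩
        rw [← e1]
        exact Finset.subset_inter a1 a4
    rw [e2, e3, Finset.sum_filter, Finset.sum_div]
    refine Finset.sum_congr rfl fun γ _ => ?_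
    by_cases hg : γ ⊆ Y
    · rw [if_pos hg, if_pos hg, one_mul, mul_div_assoc]
      have e4 : (S ∩ Y) \ γ.biUnion N = (S \ γ.biUnion N) ∩ Y := by
        ext a
        simp only [Finset.mem_sdiff, Finset.mem_inter]
        tauto
      rw [e4]
    · rw [if_neg hg, if_neg hg]
      simp
  · have e1 : insert e S ∩ Y = S ∩ Y := Finset.insert_inter_of_notMem heY
    rw [e1, div_self p1.ne', sub_self]
    symm
    refine Finset.sum_eq_zero fun γ hγ => ?_
    have hg : ¬ γ ⊆ Y := fun hh => heY (hh (Finset.mem_filter.1 hγ).2.1)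
    rw [if_neg hg]
    simp

theorem kp (h : Gas N w lam) (hl : 0 ≤ lam) {θ : ℝ} (h0 : 0 < θ) (h1 : θ ≤ 1)
    (hs : 256 * (2 ^ 16 * lam) ≤ θ / 4) (X S : Finset V) (e : V) (he : e ∉ S) :
    nrm θ X (fun Y => Xi w (insert e S ∩ Y) / Xi w (S ∩ Y) - 1) ≤ 1 / 2 := by
  classical
  induction hc : S.card using Nat.strong_induction_on generalizing S e with
  | _ n ih =>
  have IH : ∀ S' : Finset V, S'.card < S.card → ∀ u, u ∉ S' →
      nrm θ X (fun Y => Xi w (insert u S' ∩ Y) / Xi w (S' ∩ Y) - 1) ≤ 1 / 2 := by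
    intro S' hS' u hu
    exact ih S'.card (by rw [← hc]; exact hS') S' u hu rfl
  have e1 : nrm θ X (fun Y => Xi w (insert e S ∩ Y) / Xi w (S ∩ Y) - 1) =
      nrm θ X (fun Y => ∑ γ ∈ (insert e S).powerset.filter
        (fun γ : Finset V => e ∈ γ ∧ Cn (fun a b => b ∈ N a) (γ : Set V)),
        w γ * ((if γ ⊆ Y then 1 else 0) * (Xi w ((S \ γ.biUnion N) ∩ Y) / Xi w (S ∩ Y)))) :=
    nrm_congr fun Y _ => KPr_id h S e he Y
  rw [e1]
  refine (nrm_sum h0 X _ (fun (γ : Finset V) (Y : Finset V) =>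
    w γ * ((if γ ⊆ Y then 1 else 0) * (Xi w ((S \ γ.biUnion N) ∩ Y) / Xi w (S ∩ Y))))).trans ?_
  have hθ : 0 < θ⁻¹ := inv_pos.2 h0
  set t : ℝ := lam * θ⁻¹ * 2 ^ 16 with ht
  have ht0 : 0 ≤ t := by positivity
  have h256 : (16 : ℝ) ^ 2 * t ≤ 1 / 4 := by
    have e2 : (16 : ℝ) ^ 2 * t = 256 * (2 ^ 16 * lam) * θ⁻¹ := by
      rw [ht]
      ring
    rw [e2]
    calc 256 * (2 ^ 16 * lam) * θ⁻¹ ≤ θ / 4 * θ⁻¹ := mul_le_mul_of_nonneg_right hs hθ.le
      _ = 1 / 4 := by field_simp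
  have hterm : ∀ γ ∈ (insert e S).powerset.filter
      (fun γ : Finset V => e ∈ γ ∧ Cn (fun a b => b ∈ N a) (γ : Set V)),
      nrm θ X (fun Y => w γ * ((if γ ⊆ Y then 1 else 0) *
        (Xi w ((S \ γ.biUnion N) ∩ Y) / Xi w (S ∩ Y)))) ≤ t ^ γ.card := by
    intro γ _
    rw [nrm_smul X (w γ) (fun Y => (if γ ⊆ Y then 1 else 0) *
        (Xi w ((S \ γ.biUnion N) ∩ Y) / Xi w (S ∩ Y))), abs_of_nonneg (h.wpos γ)]
    have a1 := nrm_mul h0 h1 X (fun Y => if γ ⊆ Y then 1 else 0)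
      (fun Y => Xi w ((S \ γ.biUnion N) ∩ Y) / Xi w (S ∩ Y))
    have a2 := nrm_ind h0 X γ
    have a3 := KPr_rat h h0 h1 X S IH γ
    have a4 : nrm θ X (fun Y => (if γ ⊆ Y then 1 else 0) *
        (Xi w ((S \ γ.biUnion N) ∩ Y) / Xi w (S ∩ Y))) ≤ θ⁻¹ ^ γ.card * (2 ^ 16 : ℝ) ^ γ.card :=
      a1.trans (mul_le_mul a2 a3 (nrm_nonneg h0 X _) (by positivity))
    calc w γ * nrm θ X (fun Y => (if γ ⊆ Y then 1 else 0) *
        (Xi w ((S \ γ.biUnion N) ∩ Y) / Xi w (S ∩ Y)))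
        ≤ lam ^ γ.card * (θ⁻¹ ^ γ.card * (2 ^ 16 : ℝ) ^ γ.card) :=
          mul_le_mul (h.wle γ) a4 (nrm_nonneg h0 X _) (by positivity)
      _ = t ^ γ.card := by rw [ht, mul_pow, mul_pow, mul_assoc]
  refine (Finset.sum_le_sum hterm).trans ?_
  have hcnt := cnt_sum N 16 (by norm_num) h.card h.symm e 1 t ht0
    (by push_cast; linarith) ((insert e S).powerset.filter
      (fun γ : Finset V => e ∈ γ ∧ Cn (fun a b => b ∈ N a) (γ : Set V))) (by
      intro γ hγ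
      have h2 := (Finset.mem_filter.1 hγ).2
      exact ⟨h2.1, Finset.card_pos.2 ⟨e, h2.1⟩, h2.2⟩)
  rw [pow_one] at hcnt
  push_cast at hcnt
  linarith

end Pool.Agent.H78.DB
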