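import Pool.Agent.H78.DB.SwC
import Pool.Agent.H78.DB.APr

/-!
# Module TwV: comparison of two cylinders

`R = sqr (L'+1)`. `Sw K L C (2κ) a a' aF aF'` with `a S = aR Φ r q τ L R 1 S`, `a' S = aR .. L' ..`, `aF S = aR Φ r q τ L R F S`, `aF'`: `toReal` of `aS_le` (with `C`
and with `1`), `aS_mono`, `aS_empty`, `aS_mul` (with `F = 1`, and with `F` and `Gl.loc` for `Away K T`), `aS_ind` (`L ≤ L'`); `4374 * 2κ ≤ 1` by `κ1`.
The sums over `R.powerset` are `NR` (`aS_sum`, `sqr (L+1) ⊆ R`, `sqr (L'+1) ⊆ R`, `ENNReal.toReal_sum`). `sw_main`.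
`NR_pos`: `NL ≥ aS ∅ = 1` and finite.
-/

set_option autoImplicit false

namespace Pool.Agent.H78.DB

open Pool.Agent.H72.DJ

variable {Φ : Finset Edge → ℝ} {r q τ κ ν : ℝ}

private theorem TwV_sqr {L L' : ℕ} (h : L ≤ L') : sqr L ⊆ sqr L' := by
  intro a ha
  rw [sqr, Finset.mem_product, Finset.mem_Icc, Finset.mem_Icc] at ha ⊢
  have h' : (L : ℤ) ≤ L' := by exact_mod_cast h
  refine ⟨⟨?_, ?_⟩, ?_, ?_⟩ <;> omega

private theorem TwV_fin (hP : Par Φ r q τ κ ν) (L : ℕ) (R : Finset Col) {F : Set Edge → ℝ} {C : ℝ}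
    (hC : 0 ≤ C) (hF : ∀ Δ, F Δ ≤ C) (S : Finset Col) : aS Φ r q τ L R F S ≠ ⊤ :=
  ne_top_of_le_ne_top ENNReal.ofReal_ne_top (aS_le hP L R hC hF S)

private theorem TwV_mono (hP : Par Φ r q τ κ ν) (L : ℕ) (R : Finset Col) {F : Set Edge → ℝ} {C : ℝ}
    (hC : 0 ≤ C) (hF : ∀ Δ, F Δ ≤ C) (S : Finset Col) :
    aR Φ r q τ L R F S ≤ C * aR Φ r q τ L R (fun _ => 1) S := by
  have h1 := ENNReal.toReal_mono (ENNReal.mul_ne_top ENNReal.ofReal_ne_top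
    (TwV_fin hP L R (F := fun _ => 1) zero_le_one (fun _ => le_rfl) S)) (aS_mono hP L R hC hF S)
  rw [ENNReal.toReal_mul, ENNReal.toReal_ofReal hC] at h1
  exact h1

private theorem TwV_bd (hP : Par Φ r q τ κ ν) (L : ℕ) (R : Finset Col) (hκ : 0 ≤ 2 * κ)
    (S : Finset Col) : aR Φ r q τ L R (fun _ => 1) S ≤ (2 * κ) ^ S.card := by
  have h1 := ENNReal.toReal_mono ENNReal.ofReal_ne_top
    (aS_le hP L R (F := fun _ => 1) (C := 1) zero_le_one (fun _ => le_rfl) S)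
  rw [one_mul, ENNReal.toReal_ofReal (pow_nonneg hκ _)] at h1
  exact h1

private theorem TwV_sum (hP : Par Φ r q τ κ ν) (L : ℕ) {R : Finset Col} (hR : sqr (L + 1) ⊆ R)
    {F : Set Edge → ℝ} {C : ℝ} (h0 : ∀ Δ, 0 ≤ F Δ) (hC : 0 ≤ C) (hF : ∀ Δ, F Δ ≤ C) :
    ∑ S ∈ R.powerset, aR Φ r q τ L R F S = NR Φ r q L F := by
  rw [NR, ← aS_sum hP L hR h0, ENNReal.toReal_sum fun S _ => TwV_fin hP L R hC hF S]
  rfl

theorem NL_lt_top (hP : Par Φ r q τ κ ν) (L : ℕ) {F : Set Edge → ℝ} {C : ℝ} (h0 : ∀ Δ, 0 ≤ F Δ)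
    (hF : ∀ Δ, F Δ ≤ C) : NL Φ r q L F ≠ ⊤ := by
  rw [← aS_sum hP L (Finset.Subset.refl (sqr (L + 1))) h0]
  exact ENNReal.sum_ne_top.2 fun S _ => TwV_fin hP L _ ((h0 ∅).trans (hF ∅)) hF S

theorem NR_one (hP : Par Φ r q τ κ ν) (L : ℕ) : 1 ≤ NR Φ r q L (fun _ => 1) := by
  have h1 : (1 : ENNReal) ≤ NL Φ r q L (fun _ => 1) := by
    rw [← aS_sum hP L (Finset.Subset.refl (sqr (L + 1))) (fun _ => zero_le_one),
      ← aS_empty hP L (sqr (L + 1))]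
    exact Finset.single_le_sum (f := fun S => aS Φ r q τ L (sqr (L + 1)) (fun _ => 1) S)
      (fun _ _ => zero_le) (Finset.empty_mem_powerset _)
  have h2 := ENNReal.toReal_mono (NL_lt_top hP L (F := fun _ => 1) (C := 1)
    (fun _ => zero_le_one) (fun _ => le_rfl)) h1
  rw [ENNReal.toReal_one] at h2
  exact h2

theorem two_vol (hP : Par Φ r q τ κ ν) {K : Finset Col} {ρ L L' : ℕ} (hK : K ⊆ sqr ρ) (hρ : ρ ≤ L)
    (hL : L ≤ L') {F : Set Edge → ℝ} {C : ℝ} (hF : Loc K F) (h0 : ∀ Δ, 0 ≤ F Δ)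
    (hC : ∀ Δ, F Δ ≤ C) :
    |NR Φ r q L F * NR Φ r q L' (fun _ => 1) - NR Φ r q L (fun _ => 1) * NR Φ r q L' F| ≤
      C * (K.card * (1 / 2) ^ (L - ρ)) * (NR Φ r q L (fun _ => 1) * NR Φ r q L' (fun _ => 1)) := by
  have hC0 : 0 ≤ C := (h0 ∅).trans (hC ∅)
  have hκ : 0 ≤ 2 * κ := by
    have h1 := hP.τ0
    have h2 := hP.τκ
    linarith
  have h4374 : 4374 * (2 * κ) ≤ 1 := by
    have h1 := hP.κ1
    linarith
  have hone : ∀ Δ : Set Edge, (fun _ : Set Edge => (1 : ℝ)) Δ ≤ 1 := fun _ => le_rfl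
  have hone0 : ∀ Δ : Set Edge, 0 ≤ (fun _ : Set Edge => (1 : ℝ)) Δ := fun _ => zero_le_one
  have hR : sqr (L + 1) ⊆ sqr (L' + 1) := TwV_sqr (by omega)
  have hR' : sqr (L' + 1) ⊆ sqr (L' + 1) := Finset.Subset.refl _
  have hSw : Sw K L C (2 * κ) (fun S => aR Φ r q τ L (sqr (L' + 1)) (fun _ => 1) S)
      (fun S => aR Φ r q τ L' (sqr (L' + 1)) (fun _ => 1) S)
      (fun S => aR Φ r q τ L (sqr (L' + 1)) F S)
      (fun S => aR Φ r q τ L' (sqr (L' + 1)) F S) := by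
    refine ⟨hC0, hκ, ?_, ?_, ?_, ?_, ?_, ?_, ?_⟩
    · intro S
      exact ⟨ENNReal.toReal_nonneg, ENNReal.toReal_nonneg, ENNReal.toReal_nonneg,
        ENNReal.toReal_nonneg⟩
    · refine ⟨?_, ?_⟩
      · show aR Φ r q τ L (sqr (L' + 1)) (fun _ => 1) ∅ = 1
        rw [aR, aS_empty hP, ENNReal.toReal_one]
      · show aR Φ r q τ L' (sqr (L' + 1)) (fun _ => 1) ∅ = 1
        rw [aR, aS_empty hP, ENNReal.toReal_one]
    · intro S
      exact ⟨TwV_mono hP L _ hC0 hC S, TwV_mono hP L' _ hC0 hC S⟩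
    · intro S T hST
      refine ⟨?_, ?_⟩
      · show aR Φ r q τ L (sqr (L' + 1)) (fun _ => 1) (S ∪ T) =
          aR Φ r q τ L (sqr (L' + 1)) (fun _ => 1) S * aR Φ r q τ L (sqr (L' + 1)) (fun _ => 1) T
        rw [aR, aS_mul hP L _ hone0 hST (fun _ _ _ _ => rfl), ENNReal.toReal_mul]
        rfl
      · show aR Φ r q τ L' (sqr (L' + 1)) (fun _ => 1) (S ∪ T) =
          aR Φ r q τ L' (sqr (L' + 1)) (fun _ => 1) S * aR Φ r q τ L' (sqr (L' + 1)) (fun _ => 1) T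
        rw [aR, aS_mul hP L' _ hone0 hST (fun _ _ _ _ => rfl), ENNReal.toReal_mul]
        rfl
    · intro S T hST hA
      refine ⟨?_, ?_⟩
      · show aR Φ r q τ L (sqr (L' + 1)) F (S ∪ T) =
          aR Φ r q τ L (sqr (L' + 1)) F S * aR Φ r q τ L (sqr (L' + 1)) (fun _ => 1) T
        rw [aR, aS_mul hP L _ h0 hST (fun _ _ _ h => h.loc hA hF), ENNReal.toReal_mul]
        rfl
      · show aR Φ r q τ L' (sqr (L' + 1)) F (S ∪ T) =
          aR Φ r q τ L' (sqr (L' + 1)) F S * aR Φ r q τ L' (sqr (L' + 1)) (fun _ => 1) T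
        rw [aR, aS_mul hP L' _ h0 hST (fun _ _ _ h => h.loc hA hF), ENNReal.toReal_mul]
        rfl
    · intro S hS
      refine ⟨?_, ?_⟩
      · show aR Φ r q τ L (sqr (L' + 1)) (fun _ => 1) S =
          aR Φ r q τ L' (sqr (L' + 1)) (fun _ => 1) S
        rw [aR, aR, aS_ind Φ r q τ hL _ _ hS]
      · show aR Φ r q τ L (sqr (L' + 1)) F S = aR Φ r q τ L' (sqr (L' + 1)) F S
        rw [aR, aR, aS_ind Φ r q τ hL _ _ hS]
    · intro S
      exact ⟨TwV_bd hP L _ hκ S, TwV_bd hP L' _ hκ S⟩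
  have hmain := sw_main hSw h4374 hK hρ (sqr (L' + 1))
  rw [TwV_sum hP L hR h0 hC0 hC, TwV_sum hP L' hR' hone0 zero_le_one hone,
    TwV_sum hP L hR hone0 zero_le_one hone, TwV_sum hP L' hR' h0 hC0 hC] at hmain
  exact hmain

end Pool.Agent.H78.DB
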