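import Pool.Agent.H78.DB.Fvf
import Pool.Agent.H78.DB.TwV

/-!
# Module Lim: the limit `M → ∞`

`Φ = Ph (wt r q)`, `Par Φ r q τ κ ν`. `NF r q L M A P` is a `tsum` over `Δ ∈ DL L (sqr (L+1))` of
`t_M Δ = if InV (edges L M) Δ ∧ P Δ then r^en q^nn exp(-JV (edges L M) Δ) FA (edges L M) A Δ else 0` (`fv_inV`, `InV_EL`, `inV_eq`, `InV_irr`; a sum over a finite
subset). Bound: `t_M Δ ≤ B_L (3 r q)^(en Δ)` with `B_L = exp (2 |NQ (sqr (L+1))|) exp |A|` (`nn_le`, `JV_le` with `V = edges L M ⊆ EL L`, `FA_le`,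
`exp 1 ≤ 3`), summable by `cnt_fin` (`s = 3 r q ≤ κ^38`, `u = κ`). `lim_NF`: `P = True`: `t_M Δ → wL Δ * FA (EL L) A Δ` for each `Δ` (`inV_ev`,
`JV_lim`, `FA_lim`): dominated convergence; the limit is `NR Φ r q L (FA Φ (EL L) A)` (`ENNReal.tsum_toReal_eq`/`ENNReal.ofReal_tsum_of_nonneg`).
`lim_err`: `P = (M ≤ en)`: `t_M Δ → 0` for each `Δ` (zero for `M > en Δ`).
-/

set_option autoImplicit false

open Filter Topology

namespace Pool.Agent.H78.DB

open Pool.Agent.H72.DJ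

variable {r q τ κ ν : ℝ}

open Classical in
/-- the weight of an interface in the box, extended by zero -/
private noncomputable def limt (r q : ℝ) (L M : ℕ) (A : Finset Edge) (P : Set Edge → Prop)
    (Δ : Set Edge) : ℝ :=
  if InV (edges L M : Set Edge) Δ ∧ P Δ then
    r ^ en Δ * q ^ nn Δ * Real.exp (-JV (Ph (wt r q)) (edges L M : Set Edge) Δ) *
      FA (Ph (wt r q)) (edges L M : Set Edge) A Δ
  else 0

private theorem lim_inj {L M : ℕ} {D D' : Finset Edge} (hD : D ⊆ edges L M) (hD' : D' ⊆ edges L M)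
    (h : (D : Set Edge) ∪ out L M = (D' : Set Edge) ∪ out L M) : D = D' := by
  ext e
  have h1 : e ∈ (D : Set Edge) ∪ out L M ↔ e ∈ (D' : Set Edge) ∪ out L M := by rw [h]
  rw [Set.mem_union, Set.mem_union, Finset.mem_coe, Finset.mem_coe] at h1
  constructor
  · intro he
    rcases h1.1 (Or.inl he) with h2 | h2
    · exact h2
    · exact absurd (Finset.mem_coe.2 (hD he)) h2.2
  · intro he
    rcases h1.2 (Or.inl he) with h2 | h2
    · exact h2
    · exact absurd (Finset.mem_coe.2 (hD' he)) h2.2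

private theorem lim_NFe (r q : ℝ) (L M : ℕ) (A : Finset Edge) (P : Set Edge → Prop) :
    NF r q L M A P = ∑' Δ : DL L (sqr (L + 1)), limt r q L M A P (Δ : Set Edge) := by
  classical
  rw [tsum_subtype (DL L (sqr (L + 1))) (limt r q L M A P)]
  rw [tsum_eq_sum (s := ((edges L M).powerset.filter (fun D : Finset Edge =>
    Intf ((D : Set Edge) ∪ out L M) ∧ P ((D : Set Edge) ∪ out L M))).image
      (fun D : Finset Edge => (D : Set Edge) ∪ out L M))]
  · rw [Finset.sum_image]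
    · unfold NF
      refine Finset.sum_congr (by congr) ?_
      intro D hD
      rw [Finset.mem_filter, Finset.mem_powerset] at hD
      obtain ⟨hD1, hD2, hD3⟩ := hD
      have h1 : InV (edges L M : Set Edge) ((D : Set Edge) ∪ out L M) := fv_inV hD1
      have h2 : ((D : Set Edge) ∪ out L M) ∈ DL L (sqr (L + 1)) :=
        ⟨hD2, InV_EL h1, InV_irr hD2.1 (InV_EL h1)⟩
      rw [Set.indicator_of_mem h2]
      unfold limt
      rw [if_pos ⟨h1, hD3⟩]
    · intro D hD D' hD' h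
      have hD1 := (Finset.mem_filter.1 (Finset.mem_coe.1 hD)).1
      have hD1' := (Finset.mem_filter.1 (Finset.mem_coe.1 hD')).1
      exact lim_inj (Finset.mem_powerset.1 hD1) (Finset.mem_powerset.1 hD1') h
  · intro Δ hΔ
    by_cases hD : Δ ∈ DL L (sqr (L + 1))
    · rw [Set.indicator_of_mem hD]
      unfold limt
      rw [if_neg]
      rintro ⟨h1, h2⟩
      apply hΔ
      rw [Finset.mem_image]
      refine ⟨(edges L M).filter fun e => e ∈ Δ, ?_, ?_⟩
      · rw [Finset.mem_filter, Finset.mem_powerset]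
        refine ⟨Finset.filter_subset _ _, ?_⟩
        have h3 := inV_eq h1
        have h4 : (((edges L M).filter fun e => e ∈ Δ : Finset Edge) : Set Edge) ∪ out L M = Δ := by
          rw [← h3]
        rw [h4]
        exact ⟨hD.1, h2⟩
      · exact (inV_eq h1).symm
    · rw [Set.indicator_of_notMem hD]

private theorem lim_par (hP : Par (Ph (wt r q)) r q τ κ ν) :
    0 < κ ∧ 512 * κ ≤ 1 ∧ 32 * ν ^ 2 ≤ 1 ∧ 2 * ν ^ 2 ≤ 1 := by
  have h1 := hP.ντ
  have h2 := hP.τκ
  have h3 := hP.κ1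
  have h4 := hP.τ0
  have h5 := hP.ν0
  have h6 : 0 < κ := by linarith
  have h7 : ν ≤ 1 / 100 := by linarith
  have h8 : ν ^ 2 ≤ (1 / 100) ^ 2 := pow_le_pow_left₀ h5 h7 2
  refine ⟨h6, by linarith, ?_, ?_⟩ <;> nlinarith

private theorem limt_nonneg (hP : Par (Ph (wt r q)) r q τ κ ν) (L M : ℕ) (A : Finset Edge)
    (P : Set Edge → Prop) (Δ : Set Edge) : 0 ≤ limt r q L M A P Δ := by
  unfold limt
  split_ifs
  · have h1 : 0 ≤ r ^ en Δ := pow_nonneg hP.r0.le _
    have h2 : 0 ≤ q ^ nn Δ := pow_nonneg (by linarith [hP.q1]) _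
    have h3 := FA_nonneg (Ph (wt r q)) (edges L M : Set Edge) A Δ
    have h4 := (Real.exp_pos (-JV (Ph (wt r q)) (edges L M : Set Edge) Δ)).le
    positivity
  · exact le_refl _

private theorem limt_le (hP : Par (Ph (wt r q)) r q τ κ ν) (L M : ℕ) (A : Finset Edge)
    (P : Set Edge → Prop) {Δ : Set Edge} (hΔ : PI Δ) :
    limt r q L M A P Δ ≤
      (Real.exp (2 * (NQ (sqr (L + 1))).card) * Real.exp A.card) * (3 * (r * q)) ^ en Δ := by
  obtain ⟨hκ, hκ1, hν1, hν2⟩ := lim_par hP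
  have hr : 0 ≤ r := hP.r0.le
  have hq : 0 ≤ q := by linarith [hP.q1]
  have hν : 0 ≤ ν ^ 2 := sq_nonneg ν
  unfold limt
  split_ifs with hc
  · have h1 : q ^ nn Δ ≤ q ^ en Δ := pow_le_pow_right₀ hP.q1 (nn_le hΔ)
    have h2 : Real.exp (-JV (Ph (wt r q)) (edges L M : Set Edge) Δ) ≤
        Real.exp (2 * (NQ (sqr (L + 1))).card) * 3 ^ en Δ := by
      have h3 := JV_le hP.bulk hν hν1 hΔ L (edges_EL L M)
      have h4 : -JV (Ph (wt r q)) (edges L M : Set Edge) Δ ≤
          2 * ((NQ (sqr (L + 1))).card : ℝ) + en Δ := by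
        have h5 := (abs_le.1 h3).1
        linarith
      refine le_trans (Real.exp_le_exp.2 h4) ?_
      rw [Real.exp_add]
      refine mul_le_mul_of_nonneg_left ?_ (Real.exp_pos _).le
      have h6 : Real.exp ((en Δ : ℕ) : ℝ) = Real.exp 1 ^ en Δ := by
        rw [← Real.exp_nat_mul, mul_one]
      rw [h6]
      exact pow_le_pow_left₀ (Real.exp_pos _).le (by linarith [Real.exp_one_lt_d9]) _
    have h3 := FA_le hP.bulk hν hν2 (edges L M : Set Edge) A Δ
    have h4 := FA_nonneg (Ph (wt r q)) (edges L M : Set Edge) A Δ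
    calc r ^ en Δ * q ^ nn Δ * Real.exp (-JV (Ph (wt r q)) (edges L M : Set Edge) Δ) *
          FA (Ph (wt r q)) (edges L M : Set Edge) A Δ
        ≤ r ^ en Δ * q ^ en Δ * (Real.exp (2 * (NQ (sqr (L + 1))).card) * 3 ^ en Δ) *
            Real.exp A.card := by gcongr
      _ = (Real.exp (2 * (NQ (sqr (L + 1))).card) * Real.exp A.card) * (3 * (r * q)) ^ en Δ := by
          rw [mul_pow, mul_pow]
          ring
  · have h5 := hP.r0
    positivity

private theorem lim_sum (hP : Par (Ph (wt r q)) r q τ κ ν) (L : ℕ) (A : Finset Edge) :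
    Summable fun Δ : DL L (sqr (L + 1)) =>
      (Real.exp (2 * (NQ (sqr (L + 1))).card) * Real.exp A.card) *
        (3 * (r * q)) ^ en (Δ : Set Edge) := by
  obtain ⟨hκ, hκ1, _, _⟩ := lim_par hP
  have hr : 0 ≤ r := hP.r0.le
  have hq : 0 ≤ q := by linarith [hP.q1]
  exact (cnt_fin (by positivity) hP.rq hκ hκ1 L (sqr (L + 1))).mul_left _

private theorem lim_NR (hP : Par (Ph (wt r q)) r q τ κ ν) (L : ℕ) (A : Finset Edge) :
    NR (Ph (wt r q)) r q L (FA (Ph (wt r q)) (EL L) A) =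
      ∑' Δ : DL L (sqr (L + 1)), r ^ en (Δ : Set Edge) * q ^ nn (Δ : Set Edge) *
        Real.exp (-JV (Ph (wt r q)) (EL L) (Δ : Set Edge)) *
          FA (Ph (wt r q)) (EL L) A (Δ : Set Edge) := by
  unfold NR NL
  rw [ENNReal.tsum_toReal_eq (fun _ => ENNReal.ofReal_ne_top)]
  refine tsum_congr fun Δ => ?_
  have h1 : 0 ≤ r ^ en (Δ : Set Edge) := pow_nonneg hP.r0.le _
  have h2 : 0 ≤ q ^ nn (Δ : Set Edge) := pow_nonneg (by linarith [hP.q1]) _
  have h3 := FA_nonneg (Ph (wt r q)) (EL L) A (Δ : Set Edge)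
  have h4 := (Real.exp_pos (-JV (Ph (wt r q)) (EL L) (Δ : Set Edge))).le
  rw [ENNReal.toReal_ofReal]
  · unfold wL
    ring
  · unfold wL
    positivity

theorem lim_NF (hP : Par (Ph (wt r q)) r q τ κ ν) (L : ℕ) (A : Finset Edge) :
    Tendsto (fun M => NF r q L M A (fun _ => True)) atTop
      (𝓝 (NR (Ph (wt r q)) r q L (FA (Ph (wt r q)) (EL L) A))) := by
  rw [lim_NR hP L A]
  have h0 : (fun M => NF r q L M A (fun _ => True)) = fun M =>
      ∑' Δ : DL L (sqr (L + 1)), limt r q L M A (fun _ => True) (Δ : Set Edge) := by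
    funext M
    exact lim_NFe r q L M A _
  rw [h0]
  refine tendsto_tsum_of_dominated_convergence (lim_sum hP L A) ?_ ?_
  · intro Δ
    obtain ⟨M₀, hM₀⟩ := inV_ev Δ.2.1.1 Δ.2.2.1
    have h1 : (fun M => r ^ en (Δ : Set Edge) * q ^ nn (Δ : Set Edge) *
        Real.exp (-JV (Ph (wt r q)) (edges L M : Set Edge) (Δ : Set Edge)) *
          FA (Ph (wt r q)) (edges L M : Set Edge) A (Δ : Set Edge)) =ᶠ[atTop]
        fun M => limt r q L M A (fun _ => True) (Δ : Set Edge) := by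
      filter_upwards [eventually_ge_atTop M₀] with M hM
      unfold limt
      rw [if_pos ⟨hM₀ M hM, trivial⟩]
    refine Tendsto.congr' h1 ?_
    refine Tendsto.mul ?_ (FA_lim hP.bulk L A (Δ : Set Edge))
    refine Tendsto.const_mul _ ?_
    exact (Real.continuous_exp.tendsto _).comp (JV_lim hP.bulk Δ.2.1.1 L).neg
  · filter_upwards with M Δ
    rw [Real.norm_eq_abs, abs_of_nonneg (limt_nonneg hP L M A _ _)]
    exact limt_le hP L M A _ Δ.2.1.1

theorem lim_err (hP : Par (Ph (wt r q)) r q τ κ ν) (L : ℕ) :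
    Tendsto (fun M => NF r q L M ∅ (fun Δ => M ≤ en Δ)) atTop (𝓝 0) := by
  have h0 : (fun M => NF r q L M ∅ (fun Δ => M ≤ en Δ)) = fun M =>
      ∑' Δ : DL L (sqr (L + 1)), limt r q L M ∅ (fun Δ => M ≤ en Δ) (Δ : Set Edge) := by
    funext M
    exact lim_NFe r q L M ∅ _
  rw [h0]
  have h2 : (0 : ℝ) = ∑' _ : DL L (sqr (L + 1)), (0 : ℝ) := tsum_zero.symm
  rw [h2]
  refine tendsto_tsum_of_dominated_convergence (lim_sum hP L ∅) ?_ ?_
  · intro Δ
    refine tendsto_const_nhds.congr' ?_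
    filter_upwards [eventually_gt_atTop (en (Δ : Set Edge))] with M hM
    unfold limt
    rw [if_neg]
    rintro ⟨_, h3⟩
    exact absurd h3 (not_le.2 hM)
  · filter_upwards with M Δ
    rw [Real.norm_eq_abs, abs_of_nonneg (limt_nonneg hP L M ∅ _ _)]
    exact limt_le hP L M ∅ _ Δ.2.1.1

end Pool.Agent.H78.DB
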