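import Pool.Agent.H78.DB.Mob

/-!
# Module MInv: inverse and logarithm in the algebra of Moebius transforms

Let `nrm (f - 1) ≤ δ < 1`, `u = f - 1`. `|f Y - 1| ≤ δ` for `Y ⊆ X` (`abs_le_nrm`), so `f Y ≥ 1 - δ > 0`. `nrm_inv`: `g = 1/f`
satisfies `g = 1 - u g` on the subsets of `X` (`nrm_congr`), so `nrm g ≤ 1 + δ nrm g` (`nrm_one`, `nrm_add`, `nrm_smul` with `-1`,
`nrm_mul`) and `nrm g ≤ 1/(1-δ)`. `nrm_log`: with `δ = 1/2`: for `|u| ≤ 1/2`, `log (1 + u) = lim_n p_n(u)`,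
`p_n(u) = -∑_{k<n} (-u)^(k+1)/(k+1)` (`Real.abs_log_sub_add_sum_range_le` for `x = -u`: error
`≤ |u|^(n+1)/(1-|u|) ≤ 2^(-n)`), and `nrm (p_n u) ≤ ∑_{k<n} (1/2)^(k+1) ≤ 1` (`nrm_sum`, `nrm_mul` iterated); `nrm` is a finite sum of
absolute values of linear functions of the values on the subsets of `X`, hence `nrm (p_n u) → nrm (log f)`; `le_of_tendsto`.
-/

set_option autoImplicit false

open Filter Topology

namespace Pool.Agent.H78.DB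

variable {V : Type} [DecidableEq V]

private theorem MInv_abs {θ : ℝ} (h0 : 0 < θ) (h1 : θ ≤ 1) {X Y : Finset V} (hY : Y ⊆ X)
    {f : Finset V → ℝ} (hf : nrm θ X (fun Y => f Y - 1) ≤ 1 / 2) : |f Y - 1| ≤ 1 / 2 :=
  (abs_le_nrm h0 h1 hY (fun Y => f Y - 1)).trans hf

theorem pos_of_nrm {θ : ℝ} (h0 : 0 < θ) (h1 : θ ≤ 1) {X Y : Finset V} (hY : Y ⊆ X)
    {f : Finset V → ℝ} (hf : nrm θ X (fun Y => f Y - 1) ≤ 1 / 2) : 1 / 2 ≤ f Y := by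
  have h2 := (abs_le.1 (MInv_abs h0 h1 hY hf)).1
  linarith

theorem nrm_inv {θ : ℝ} (h0 : 0 < θ) (h1 : θ ≤ 1) (X : Finset V) (f : Finset V → ℝ)
    (hf : nrm θ X (fun Y => f Y - 1) ≤ 1 / 2) : nrm θ X (fun Y => (f Y)⁻¹) ≤ 2 := by
  have e1 : nrm θ X (fun Y => (f Y)⁻¹) =
      nrm θ X (fun Y => 1 + (-1) * ((f Y - 1) * (f Y)⁻¹)) := by
    refine nrm_congr fun Z hZ => ?_
    have h2 : 1 / 2 ≤ f Z := pos_of_nrm h0 h1 hZ hf
    have h3 : f Z ≠ 0 := by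
      intro h
      rw [h] at h2
      linarith
    field_simp
    ring
  have e2 : nrm θ X (fun Y => 1 + (-1) * ((f Y - 1) * (f Y)⁻¹)) ≤
      nrm θ X (fun _ => 1) + nrm θ X (fun Y => (-1) * ((f Y - 1) * (f Y)⁻¹)) :=
    nrm_add h0 X (fun _ => 1) (fun Y => (-1) * ((f Y - 1) * (f Y)⁻¹))
  have e3 : nrm θ X (fun Y => (-1) * ((f Y - 1) * (f Y)⁻¹)) =
      |(-1 : ℝ)| * nrm θ X (fun Y => (f Y - 1) * (f Y)⁻¹) :=
    nrm_smul X (-1) (fun Y => (f Y - 1) * (f Y)⁻¹)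
  have e4 : nrm θ X (fun Y => (f Y - 1) * (f Y)⁻¹) ≤
      nrm θ X (fun Y => f Y - 1) * nrm θ X (fun Y => (f Y)⁻¹) :=
    nrm_mul h0 h1 X (fun Y => f Y - 1) (fun Y => (f Y)⁻¹)
  have e5 : 0 ≤ nrm θ X (fun Y => (f Y)⁻¹) := nrm_nonneg h0 X _
  have e6 : nrm θ X (fun Y => f Y - 1) * nrm θ X (fun Y => (f Y)⁻¹) ≤
      1 / 2 * nrm θ X (fun Y => (f Y)⁻¹) := mul_le_mul_of_nonneg_right hf e5
  rw [nrm_one] at e2
  rw [abs_neg, abs_one, one_mul] at e3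
  linarith

private theorem MInv_one_sub {θ : ℝ} (X : Finset V) (f : Finset V → ℝ)
    (hf : nrm θ X (fun Y => f Y - 1) ≤ 1 / 2) : nrm θ X (fun Y => 1 - f Y) ≤ 1 / 2 := by
  have e1 : nrm θ X (fun Y => 1 - f Y) = nrm θ X (fun Y => (-1) * (f Y - 1)) :=
    nrm_congr fun Z _ => by ring
  rw [e1, nrm_smul X (-1) (fun Y => f Y - 1), abs_neg, abs_one, one_mul]
  exact hf

private theorem MInv_pow {θ : ℝ} (h0 : 0 < θ) (h1 : θ ≤ 1) (X : Finset V) (u : Finset V → ℝ)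
    (hu : nrm θ X u ≤ 1 / 2) (k : ℕ) : nrm θ X (fun Y => u Y ^ k) ≤ (1 / 2 : ℝ) ^ k := by
  induction k with
  | zero =>
    have : nrm θ X (fun Y => u Y ^ 0) = nrm θ X (fun _ => 1) :=
      nrm_congr fun Z _ => pow_zero _
    rw [this, nrm_one, pow_zero]
  | succ k ih =>
    have e : nrm θ X (fun Y => u Y ^ (k + 1)) = nrm θ X (fun Y => u Y ^ k * u Y) :=
      nrm_congr fun Z _ => pow_succ _ _
    rw [e, pow_succ]
    exact (nrm_mul h0 h1 X (fun Y => u Y ^ k) u).trans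
      (mul_le_mul ih hu (nrm_nonneg h0 X u) (by positivity))

private theorem MInv_term {θ : ℝ} (h0 : 0 < θ) (h1 : θ ≤ 1) (X : Finset V) (u : Finset V → ℝ)
    (hu : nrm θ X u ≤ 1 / 2) (k : ℕ) :
    nrm θ X (fun Y => u Y ^ (k + 1) / ((k : ℝ) + 1)) ≤ (1 / 2 : ℝ) ^ (k + 1) := by
  have e : nrm θ X (fun Y => u Y ^ (k + 1) / ((k : ℝ) + 1)) =
      nrm θ X (fun Y => (((k : ℝ) + 1)⁻¹) * u Y ^ (k + 1)) :=
    nrm_congr fun Z _ => by rw [div_eq_mul_inv, mul_comm]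
  rw [e, nrm_smul X (((k : ℝ) + 1)⁻¹) (fun Y => u Y ^ (k + 1))]
  have hk : (0 : ℝ) < (k : ℝ) + 1 := by positivity
  have h2 : |((k : ℝ) + 1)⁻¹| ≤ 1 := by
    rw [abs_of_pos (inv_pos.2 hk)]
    refine inv_le_one_of_one_le₀ ?_
    have : (0 : ℝ) ≤ k := Nat.cast_nonneg k
    linarith
  calc |((k : ℝ) + 1)⁻¹| * nrm θ X (fun Y => u Y ^ (k + 1))
      ≤ 1 * nrm θ X (fun Y => u Y ^ (k + 1)) :=
        mul_le_mul_of_nonneg_right h2 (nrm_nonneg h0 X _)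
    _ = nrm θ X (fun Y => u Y ^ (k + 1)) := one_mul _
    _ ≤ (1 / 2 : ℝ) ^ (k + 1) := MInv_pow h0 h1 X u hu (k + 1)

private theorem MInv_geo (n : ℕ) : ∑ k ∈ Finset.range n, (1 / 2 : ℝ) ^ (k + 1) ≤ 1 := by
  have h : ∀ n : ℕ, ∑ k ∈ Finset.range n, (1 / 2 : ℝ) ^ (k + 1) = 1 - (1 / 2 : ℝ) ^ n := by
    intro n
    induction n with
    | zero => simp
    | succ n ih =>
      rw [Finset.sum_range_succ, ih, pow_succ]
      ring
  rw [h]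
  have : (0 : ℝ) < (1 / 2) ^ n := by positivity
  linarith

theorem nrm_log {θ : ℝ} (h0 : 0 < θ) (h1 : θ ≤ 1) (X : Finset V) (f : Finset V → ℝ)
    (hf : nrm θ X (fun Y => f Y - 1) ≤ 1 / 2) : nrm θ X (fun Y => Real.log (f Y)) ≤ 1 := by
  have hu := MInv_one_sub X f hf
  have hq : ∀ n : ℕ, nrm θ X (fun Y => ∑ k ∈ Finset.range n, (1 - f Y) ^ (k + 1) / ((k : ℝ) + 1))
      ≤ 1 := by
    intro n
    refine (nrm_sum h0 X (Finset.range n)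
      (fun (k : ℕ) (Y : Finset V) => (1 - f Y) ^ (k + 1) / ((k : ℝ) + 1))).trans ?_
    exact (Finset.sum_le_sum fun k _ => MInv_term h0 h1 X (fun Y => 1 - f Y) hu k).trans
      (MInv_geo n)
  have hp : ∀ Y, Y ⊆ X → Tendsto
      (fun n : ℕ => ∑ k ∈ Finset.range n, (1 - f Y) ^ (k + 1) / ((k : ℝ) + 1)) atTop
      (𝓝 (-Real.log (f Y))) := by
    intro Y hY
    have h2 : |1 - f Y| < 1 := by
      rw [abs_sub_comm]
      exact (MInv_abs h0 h1 hY hf).trans_lt (by norm_num)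
    have h3 := (Real.hasSum_pow_div_log_of_abs_lt_one h2).tendsto_sum_nat
    rw [sub_sub_cancel] at h3
    exact h3
  have hm : ∀ Y, Y ⊆ X → Tendsto
      (fun n : ℕ => mob (fun Y => ∑ k ∈ Finset.range n, (1 - f Y) ^ (k + 1) / ((k : ℝ) + 1)) Y) atTop
      (𝓝 (mob (fun Y => -Real.log (f Y)) Y)) := by
    intro Y hY
    unfold mob
    refine tendsto_finsetSum _ fun Z hZ => ?_
    exact (hp Z ((Finset.mem_powerset.1 hZ).trans hY)).const_mul _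
  have hn : Tendsto
      (fun n : ℕ => nrm θ X (fun Y => ∑ k ∈ Finset.range n, (1 - f Y) ^ (k + 1) / ((k : ℝ) + 1)))
      atTop (𝓝 (nrm θ X (fun Y => -Real.log (f Y)))) := by
    unfold nrm
    refine tendsto_finsetSum _ fun Y hY => ?_
    exact (hm Y (Finset.mem_powerset.1 hY)).abs.mul_const _
  have h4 : nrm θ X (fun Y => -Real.log (f Y)) ≤ 1 := le_of_tendsto' hn hq
  have e : nrm θ X (fun Y => -Real.log (f Y)) = nrm θ X (fun Y => (-1) * Real.log (f Y)) :=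
    nrm_congr fun Z _ => by ring
  rw [e, nrm_smul X (-1) (fun Y => Real.log (f Y)), abs_neg, abs_one, one_mul] at h4
  exact h4

end Pool.Agent.H78.DB
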