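import Pool.Agent.H78.DB.Defs

/-!
# Module Mob: the algebra of Moebius transforms

`mob f Y = ∑_{Z ⊆ Y} (-1)^|Y \ Z| f Z`. `mob_inv`: Moebius inversion `f Y = ∑_{Z ⊆ Y} mob f Z` (exchange the sums, the inner sum
`∑_{Z ⊆ W ⊆ Y} (-1)^(|W|-|Z|)` is `0` unless `Z = Y`, `Finset.sum_powerset_neg_one_pow_card` or `Finset.prod_add`-type identities).
`mob_mul`: `mob (f g) Y = ∑ mob f U * mob g W` over the pairs `U, W ⊆ Y` with `U ∪ W = Y` (both sides have the same sums over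
the subsets of every `Y`: uniqueness in Moebius inversion `mob_unique`: if `f Y = ∑_{Z ⊆ Y} m Z` for all `Y ⊆ X` then
`mob f Y = m Y` for all `Y ⊆ X`). `nrm_mul`: `θ⁻¹ ^ |U ∪ W| ≤ θ⁻¹ ^ |U| * θ⁻¹ ^ |W|` (`θ ≤ 1`), so
`nrm (f g) ≤ ∑_{U, W ⊆ X} |mob f U| |mob g W| θ⁻¹^|U| θ⁻¹^|W|`. `nrm_ind`: the Moebius transform of `Y ↦ 1_{γ ⊆ Y}` is
the indicator of `{γ}` (`mob_unique`). `abs_le_nrm`: `mob_inv`, `1 ≤ θ⁻¹ ^ n`. `mob_congr`: `mob f Y` depends only on the values of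
`f` on subsets of `Y`.
-/

set_option autoImplicit false

namespace Pool.Agent.H78.DB

variable {V : Type} [DecidableEq V]

private theorem Mob_insert (f : Finset V → ℝ) {a : V} {Y : Finset V} (ha : a ∉ Y) :
    mob f (insert a Y) = mob (fun Z => f (insert a Z)) Y - mob f Y := by
  unfold mob
  rw [Finset.sum_powerset_insert ha, Finset.card_insert_of_notMem ha, sub_eq_neg_add,
    ← Finset.sum_neg_distrib]
  congr 1
  · refine Finset.sum_congr rfl fun Z hZ => ?_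
    have h1 : Z.card ≤ Y.card := Finset.card_le_card (Finset.mem_powerset.1 hZ)
    have h2 : Y.card + 1 - Z.card = (Y.card - Z.card) + 1 := by omega
    rw [h2, pow_succ]
    ring
  · refine Finset.sum_congr rfl fun Z hZ => ?_
    have h1 : a ∉ Z := fun h => ha (Finset.mem_powerset.1 hZ h)
    rw [Finset.card_insert_of_notMem h1, Nat.add_sub_add_right]

theorem mob_inv (f : Finset V → ℝ) (Y : Finset V) : f Y = ∑ Z ∈ Y.powerset, mob f Z := by
  induction Y using Finset.induction_on generalizing f with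
  | empty =>
    rw [Finset.powerset_empty, Finset.sum_singleton]
    unfold mob
    rw [Finset.powerset_empty, Finset.sum_singleton]
    simp
  | insert a Y ha ih =>
    rw [Finset.sum_powerset_insert ha]
    have h1 : ∑ Z ∈ Y.powerset, mob f (insert a Z) =
        ∑ Z ∈ Y.powerset, (mob (fun Z => f (insert a Z)) Z - mob f Z) := by
      refine Finset.sum_congr rfl fun Z hZ => ?_
      exact Mob_insert f fun h => ha (Finset.mem_powerset.1 hZ h)
    rw [h1, Finset.sum_sub_distrib, ← ih, ← ih]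
    ring

private theorem Mob_unique {f m : Finset V → ℝ} {X : Finset V}
    (h : ∀ Y, Y ⊆ X → f Y = ∑ Z ∈ Y.powerset, m Z) : ∀ Y, Y ⊆ X → mob f Y = m Y := by
  intro Y
  induction Y using Finset.strongInduction with
  | H Y ih =>
    intro hY
    have h1 : ∑ Z ∈ Y.powerset, mob f Z = ∑ Z ∈ Y.powerset, m Z := by
      rw [← mob_inv, h Y hY]
    have hmem : Y ∈ Y.powerset := Finset.mem_powerset_self Y
    rw [← Finset.add_sum_erase _ _ hmem, ← Finset.add_sum_erase _ m hmem] at h1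
    have h2 : ∑ Z ∈ Y.powerset.erase Y, mob f Z = ∑ Z ∈ Y.powerset.erase Y, m Z := by
      refine Finset.sum_congr rfl fun Z hZ => ?_
      rw [Finset.mem_erase, Finset.mem_powerset] at hZ
      exact ih Z (Finset.ssubset_iff_subset_ne.2 ⟨hZ.2, hZ.1⟩) (hZ.2.trans hY)
    rw [h2] at h1
    exact add_right_cancel h1

theorem mob_congr {f g : Finset V → ℝ} {Y : Finset V} (h : ∀ Z, Z ⊆ Y → f Z = g Z) :
    mob f Y = mob g Y := by
  unfold mob
  exact Finset.sum_congr rfl fun Z hZ => by rw [h Z (Finset.mem_powerset.1 hZ)]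

theorem nrm_congr {θ : ℝ} {X : Finset V} {f g : Finset V → ℝ} (h : ∀ Z, Z ⊆ X → f Z = g Z) :
    nrm θ X f = nrm θ X g := by
  unfold nrm
  refine Finset.sum_congr rfl fun Y hY => ?_
  rw [mob_congr fun Z hZ => h Z (hZ.trans (Finset.mem_powerset.1 hY))]

theorem nrm_nonneg {θ : ℝ} (h0 : 0 < θ) (X : Finset V) (f : Finset V → ℝ) : 0 ≤ nrm θ X f :=
  Finset.sum_nonneg fun Y _ => mul_nonneg (abs_nonneg _) (pow_nonneg (inv_nonneg.2 h0.le) _)

theorem abs_le_nrm {θ : ℝ} (h0 : 0 < θ) (h1 : θ ≤ 1) {X Y : Finset V} (hY : Y ⊆ X)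
    (f : Finset V → ℝ) : |f Y| ≤ nrm θ X f := by
  have h2 : (1 : ℝ) ≤ θ⁻¹ := (one_le_inv₀ h0).2 h1
  rw [mob_inv f Y]
  refine (Finset.abs_sum_le_sum_abs _ _).trans ?_
  unfold nrm
  refine (Finset.sum_le_sum_of_subset_of_nonneg (Finset.powerset_mono.2 hY)
    fun Z _ _ => abs_nonneg _).trans ?_
  exact Finset.sum_le_sum fun Z _ => le_mul_of_one_le_right (abs_nonneg _) (one_le_pow₀ h2)

private theorem Mob_add (f g : Finset V → ℝ) (Y : Finset V) :
    mob (fun Y => f Y + g Y) Y = mob f Y + mob g Y := by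
  unfold mob
  rw [← Finset.sum_add_distrib]
  exact Finset.sum_congr rfl fun Z _ => by ring

private theorem Mob_smul (k : ℝ) (f : Finset V → ℝ) (Y : Finset V) :
    mob (fun Y => k * f Y) Y = k * mob f Y := by
  unfold mob
  rw [Finset.mul_sum]
  exact Finset.sum_congr rfl fun Z _ => by ring

theorem nrm_add {θ : ℝ} (h0 : 0 < θ) (X : Finset V) (f g : Finset V → ℝ) :
    nrm θ X (fun Y => f Y + g Y) ≤ nrm θ X f + nrm θ X g := by
  unfold nrm
  rw [← Finset.sum_add_distrib]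
  refine Finset.sum_le_sum fun Y _ => ?_
  rw [Mob_add, ← add_mul]
  exact mul_le_mul_of_nonneg_right (abs_add_le _ _) (pow_nonneg (inv_nonneg.2 h0.le) _)

theorem nrm_smul {θ : ℝ} (X : Finset V) (k : ℝ) (f : Finset V → ℝ) :
    nrm θ X (fun Y => k * f Y) = |k| * nrm θ X f := by
  unfold nrm
  rw [Finset.mul_sum]
  refine Finset.sum_congr rfl fun Y _ => ?_
  rw [Mob_smul, abs_mul, mul_assoc]

theorem nrm_sum {θ : ℝ} (h0 : 0 < θ) (X : Finset V) {ι : Type} (s : Finset ι)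
    (f : ι → Finset V → ℝ) : nrm θ X (fun Y => ∑ i ∈ s, f i Y) ≤ ∑ i ∈ s, nrm θ X (f i) := by
  classical
  induction s using Finset.induction_on with
  | empty =>
    simp only [Finset.sum_empty]
    have h : nrm θ X (fun _ => (0 : ℝ)) = |(0 : ℝ)| * nrm θ X (fun _ => (0 : ℝ)) := by
      rw [← nrm_smul]
      simp
    rw [abs_zero, zero_mul] at h
    exact h.le
  | insert a s ha ih =>
    simp only [Finset.sum_insert ha]
    exact (nrm_add h0 X (f a) (fun Y => ∑ i ∈ s, f i Y)).trans (by linarith)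

theorem nrm_one {θ : ℝ} (X : Finset V) : nrm θ X (fun _ => 1) = 1 := by
  have h : ∀ Y, Y ⊆ X → mob (fun _ => (1 : ℝ)) Y = if Y = ∅ then 1 else 0 := by
    refine Mob_unique fun Y _ => ?_
    rw [Finset.sum_ite_eq' Y.powerset ∅, if_pos (Finset.empty_mem_powerset Y)]
  unfold nrm
  have h2 : ∀ Y ∈ X.powerset, |mob (fun _ => (1 : ℝ)) Y| * θ⁻¹ ^ Y.card =
      if Y = ∅ then 1 else 0 := by
    intro Y hY
    rw [h Y (Finset.mem_powerset.1 hY)]
    by_cases hY0 : Y = ∅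
    · rw [if_pos hY0, hY0, Finset.card_empty, pow_zero, abs_one, mul_one]
    · rw [if_neg hY0, abs_zero, zero_mul]
  rw [Finset.sum_congr rfl h2, Finset.sum_ite_eq' X.powerset ∅,
    if_pos (Finset.empty_mem_powerset X)]

private theorem Mob_mul (f g : Finset V → ℝ) (Y : Finset V) :
    mob (fun Y => f Y * g Y) Y =
      ∑ p ∈ (Y.powerset ×ˢ Y.powerset).filter (fun p => p.1 ∪ p.2 = Y),
        mob f p.1 * mob g p.2 := by
  refine Mob_unique (X := Y) (m := fun Y => ∑ p ∈ (Y.powerset ×ˢ Y.powerset).filter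
    (fun p => p.1 ∪ p.2 = Y), mob f p.1 * mob g p.2) (fun W _ => ?_) Y (Finset.Subset.refl Y)
  have h1 : f W * g W = ∑ p ∈ W.powerset ×ˢ W.powerset, mob f p.1 * mob g p.2 := by
    rw [mob_inv f W, mob_inv g W, Finset.sum_mul_sum, Finset.sum_product]
  have hmaps : ∀ p ∈ W.powerset ×ˢ W.powerset, p.1 ∪ p.2 ∈ W.powerset := by
    intro p hp
    rw [Finset.mem_product, Finset.mem_powerset, Finset.mem_powerset] at hp
    rw [Finset.mem_powerset]
    exact Finset.union_subset hp.1 hp.2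
  rw [h1, ← Finset.sum_fiberwise_of_maps_to hmaps]
  refine Finset.sum_congr rfl fun Z hZ => ?_
  refine Finset.sum_congr ?_ fun _ _ => rfl
  ext p
  rw [Finset.mem_filter, Finset.mem_filter, Finset.mem_product, Finset.mem_product,
    Finset.mem_powerset, Finset.mem_powerset, Finset.mem_powerset, Finset.mem_powerset]
  have hZW := Finset.mem_powerset.1 hZ
  constructor
  · rintro ⟨_, h⟩
    exact ⟨⟨h ▸ Finset.subset_union_left, h ▸ Finset.subset_union_right⟩, h⟩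
  · rintro ⟨⟨h1, h2⟩, h⟩
    exact ⟨⟨h1.trans hZW, h2.trans hZW⟩, h⟩

theorem nrm_mul {θ : ℝ} (h0 : 0 < θ) (h1 : θ ≤ 1) (X : Finset V) (f g : Finset V → ℝ) :
    nrm θ X (fun Y => f Y * g Y) ≤ nrm θ X f * nrm θ X g := by
  have h2 : (1 : ℝ) ≤ θ⁻¹ := (one_le_inv₀ h0).2 h1
  have h3 : (0 : ℝ) ≤ θ⁻¹ := inv_nonneg.2 h0.le
  have hmaps : ∀ p ∈ X.powerset ×ˢ X.powerset, p.1 ∪ p.2 ∈ X.powerset := by
    intro p hp
    rw [Finset.mem_product, Finset.mem_powerset, Finset.mem_powerset] at hp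
    rw [Finset.mem_powerset]
    exact Finset.union_subset hp.1 hp.2
  have h4 : nrm θ X f * nrm θ X g = ∑ Y ∈ X.powerset,
      ∑ p ∈ (X.powerset ×ˢ X.powerset).filter (fun p => p.1 ∪ p.2 = Y),
        (|mob f p.1| * θ⁻¹ ^ p.1.card) * (|mob g p.2| * θ⁻¹ ^ p.2.card) := by
    rw [Finset.sum_fiberwise_of_maps_to hmaps, Finset.sum_product]
    unfold nrm
    rw [Finset.sum_mul_sum]
  rw [h4]
  unfold nrm
  refine Finset.sum_le_sum fun Y hY => ?_
  rw [Mob_mul]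
  have hYX := Finset.mem_powerset.1 hY
  calc |∑ p ∈ (Y.powerset ×ˢ Y.powerset).filter (fun p => p.1 ∪ p.2 = Y),
        mob f p.1 * mob g p.2| * θ⁻¹ ^ Y.card
      ≤ (∑ p ∈ (Y.powerset ×ˢ Y.powerset).filter (fun p => p.1 ∪ p.2 = Y),
        |mob f p.1 * mob g p.2|) * θ⁻¹ ^ Y.card :=
        mul_le_mul_of_nonneg_right (Finset.abs_sum_le_sum_abs _ _) (pow_nonneg h3 _)
    _ = ∑ p ∈ (Y.powerset ×ˢ Y.powerset).filter (fun p => p.1 ∪ p.2 = Y),
        |mob f p.1 * mob g p.2| * θ⁻¹ ^ Y.card := Finset.sum_mul _ _ _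
    _ ≤ ∑ p ∈ (Y.powerset ×ˢ Y.powerset).filter (fun p => p.1 ∪ p.2 = Y),
        (|mob f p.1| * θ⁻¹ ^ p.1.card) * (|mob g p.2| * θ⁻¹ ^ p.2.card) := by
        refine Finset.sum_le_sum fun p hp => ?_
        have hp2 := (Finset.mem_filter.1 hp).2
        have h5 : θ⁻¹ ^ Y.card ≤ θ⁻¹ ^ p.1.card * θ⁻¹ ^ p.2.card := by
          rw [← pow_add, ← hp2]
          exact pow_le_pow_right₀ h2 (Finset.card_union_le _ _)
        rw [abs_mul]
        calc |mob f p.1| * |mob g p.2| * θ⁻¹ ^ Y.card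
            ≤ |mob f p.1| * |mob g p.2| * (θ⁻¹ ^ p.1.card * θ⁻¹ ^ p.2.card) :=
              mul_le_mul_of_nonneg_left h5 (mul_nonneg (abs_nonneg _) (abs_nonneg _))
          _ = _ := by ring
    _ ≤ ∑ p ∈ (X.powerset ×ˢ X.powerset).filter (fun p => p.1 ∪ p.2 = Y),
        (|mob f p.1| * θ⁻¹ ^ p.1.card) * (|mob g p.2| * θ⁻¹ ^ p.2.card) := by
        refine Finset.sum_le_sum_of_subset_of_nonneg ?_ fun p _ _ => by positivity
        intro p hp
        rw [Finset.mem_filter, Finset.mem_product, Finset.mem_powerset,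
          Finset.mem_powerset] at hp ⊢
        exact ⟨⟨hp.1.1.trans hYX, hp.1.2.trans hYX⟩, hp.2⟩

theorem nrm_ind {θ : ℝ} (h0 : 0 < θ) (X γ : Finset V) :
    nrm θ X (fun Y => if γ ⊆ Y then 1 else 0) ≤ θ⁻¹ ^ γ.card := by
  have h3 : (0 : ℝ) ≤ θ⁻¹ := inv_nonneg.2 h0.le
  have h : ∀ Y, Y ⊆ X → mob (fun Y => if γ ⊆ Y then (1 : ℝ) else 0) Y =
      if Y = γ then 1 else 0 := by
    refine Mob_unique fun Y _ => ?_
    rw [Finset.sum_ite_eq' Y.powerset γ]
    simp only [Finset.mem_powerset]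
  unfold nrm
  have h2 : ∀ Y ∈ X.powerset, |mob (fun Y => if γ ⊆ Y then (1 : ℝ) else 0) Y| * θ⁻¹ ^ Y.card =
      if Y = γ then θ⁻¹ ^ γ.card else 0 := by
    intro Y hY
    rw [h Y (Finset.mem_powerset.1 hY)]
    by_cases hY0 : Y = γ
    · rw [if_pos hY0, if_pos hY0, hY0, abs_one, one_mul]
    · rw [if_neg hY0, if_neg hY0, abs_zero, zero_mul]
  rw [Finset.sum_congr rfl h2, Finset.sum_ite_eq' X.powerset γ]
  split_ifs
  · exact le_rfl
  · exact pow_nonneg h3 _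

theorem mob_le_nrm {θ : ℝ} (h0 : 0 < θ) (X : Finset V) (f : Finset V → ℝ) :
    |mob f X| ≤ nrm θ X f * θ ^ X.card := by
  have h3 : (0 : ℝ) ≤ θ⁻¹ := inv_nonneg.2 h0.le
  have h1 : |mob f X| * θ⁻¹ ^ X.card ≤ nrm θ X f :=
    Finset.single_le_sum (f := fun Y => |mob f Y| * θ⁻¹ ^ Y.card)
      (fun Y _ => mul_nonneg (abs_nonneg _) (pow_nonneg h3 _)) (Finset.mem_powerset_self X)
  have h2 : θ⁻¹ ^ X.card * θ ^ X.card = 1 := by
    rw [← mul_pow, inv_mul_cancel₀ h0.ne', one_pow]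
  calc |mob f X| = |mob f X| * θ⁻¹ ^ X.card * θ ^ X.card := by
        rw [mul_assoc, h2, mul_one]
    _ ≤ nrm θ X f * θ ^ X.card := mul_le_mul_of_nonneg_right h1 (pow_nonneg h0.le _)

end Pool.Agent.H78.DB
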