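import Pool.Agent.H78.DB.Lim
import Pool.Agent.H78.DB.Evt

/-!
# Module PBr: the conditioned measures in terms of interfaces

Let `p ∈ (0,1)`, `r = (1-p)/p`. `η ↦ F = {e ∈ edges L M | η e = false}` is a bijection from `edges L M → Bool` to `(edges L M).powerset`; `clo (extend L M η) = F ∪ out L M`.
On the event (`ev_sep`) `weight L M p q (extend L M η) = p^|V| r^|F| q^(nn (F ∪ out) + t)`, `t = [touchTop] + [touchBot] ≤ 2` (`clusters_nn`), so it is
`p^|V| q^2 r^|F| q^nn` times a factor `c_F ∈ [0,1]`, equal to `1` unless `¬ (touchTop ∧ touchBot)`. With `N(A)` = the sum of `r^|F| q^nn` over the `F` with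
`Sep (F ∪ out)` and `A ∩ (F ∪ out) = ∅`, and `B` = the sum over the `F` with `Sep` and `T F` (`T F`: not both touching): the measure of
`{ω | ∀ e ∈ A, ω e = true}` is `N'(A)/N'(∅)` with `N(A) - B ≤ N'(A) ≤ N(A)`. Dividing by `Z₀` (`fv_form`, `shell` for the hypothesis on `T`): `n'(A)/n'(∅)` with
`|n'(A) - NF A| ≤ NF ∅ (M ≤ en)`. By `lim_NF`, `lim_err` both converge, the denominator to `NR L 1 ≥ 1` (`FA_empty`, `NR_one`).
`phi_prob`: `phiBar` is a probability measure: `ZI > 0` (`η` = all edges open except those of `PP` is in the event: `Sep PP`; weights positive).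
-/

set_option autoImplicit false

open Filter Topology MeasureTheory

namespace Pool.Agent.H78.DB

open Pool.Agent.H72.DJ

variable {q τ κ ν : ℝ}

private noncomputable def PBr_W (L M : ℕ) (p q : ℝ) (η : edges L M → Bool) : ℝ :=
  open Classical in
  if extend L M η ∈ interfaceEvent L M then weight L M p q (extend L M η) else 0

open Classical in
private theorem PBr_W_eq (L M : ℕ) (p q : ℝ) (η : edges L M → Bool) : PBr_W L M p q η =
    if extend L M η ∈ interfaceEvent L M then weight L M p q (extend L M η) else 0 := rfl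

open Classical in
private theorem PBr_div (L M : ℕ) (p q : ℝ) (η : edges L M → Bool) :
    (if extend L M η ∈ interfaceEvent L M
      then weight L M p q (extend L M η) / ZI L M p q else 0) = PBr_W L M p q η / ZI L M p q := by
  rw [PBr_W_eq]
  split_ifs <;> simp

private theorem PBr_ZI (L M : ℕ) (p q : ℝ) :
    ZI L M p q = ∑ η : edges L M → Bool, PBr_W L M p q η := rfl

private theorem PBr_weight_pos {p : ℝ} (hp0 : 0 < p) (hp1 : p < 1) (hq : 1 ≤ q) (L M : ℕ)
    (ω : Conf) : 0 < weight L M p q ω := by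
  refine mul_pos (Finset.prod_pos fun e _ => ?_) (pow_pos (by linarith) _)
  split_ifs
  · exact hp0
  · linarith

private theorem PBr_W_nonneg {p : ℝ} (hp0 : 0 < p) (hp1 : p < 1) (hq : 1 ≤ q) (L M : ℕ)
    (η : edges L M → Bool) : 0 ≤ PBr_W L M p q η := by
  classical
  rw [PBr_W_eq]
  split_ifs
  · exact (PBr_weight_pos hp0 hp1 hq L M _).le
  · exact le_rfl

private theorem PBr_meas (F : Finset Edge) :
    MeasurableSet {ω : Conf | ∀ e ∈ F, ω e = true} := by
  have h : {ω : Conf | ∀ e ∈ F, ω e = true} = ⋂ e ∈ F, (fun ω : Conf => ω e) ⁻¹' {true} := by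
    ext ω
    simp
  rw [h]
  exact Finset.measurableSet_biInter _ fun e _ => (measurable_pi_apply e) (measurableSet_singleton _)

open Classical in
private noncomputable def PBr_I (L M : ℕ) (p q : ℝ) (S : Set Conf) : ℝ :=
  ∑ η : edges L M → Bool, if extend L M η ∈ S then PBr_W L M p q η else 0

open Classical in
private theorem PBr_mass' {p : ℝ} (hp0 : 0 < p) (hp1 : p < 1) (hq : 1 ≤ q) (L M : ℕ)
    {S : Set Conf} (hS : MeasurableSet S) :
    phiBar L M p q S = ENNReal.ofReal (PBr_I L M p q S / ZI L M p q) := by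
  have hZ : 0 ≤ ZI L M p q := by
    rw [PBr_ZI]
    exact Finset.sum_nonneg fun η _ => PBr_W_nonneg hp0 hp1 hq L M η
  have h0 : ∀ η : edges L M → Bool, 0 ≤ (if extend L M η ∈ S
        then PBr_W L M p q η / ZI L M p q else 0) := fun η => by
    split_ifs
    · exact div_nonneg (PBr_W_nonneg hp0 hp1 hq L M η) hZ
    · exact le_rfl
  have h1 : phiBar L M p q S =
      ∑ η : edges L M → Bool, ENNReal.ofReal (if extend L M η ∈ S
        then PBr_W L M p q η / ZI L M p q else 0) := by
    rw [phiBar, Measure.finsetSum_apply]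
    refine Finset.sum_congr rfl fun η _ => ?_
    rw [Measure.smul_apply, Measure.dirac_apply' _ hS, smul_eq_mul, PBr_div]
    by_cases h : extend L M η ∈ S
    · rw [if_pos h, Set.indicator_of_mem h]
      simp
    · rw [if_neg h, Set.indicator_of_notMem h]
      simp
  rw [h1, ← ENNReal.ofReal_sum_of_nonneg (fun η _ => h0 η), PBr_I, Finset.sum_div]
  congr 1
  refine Finset.sum_congr rfl fun η _ => ?_
  split_ifs <;> simp

private theorem PBr_clo (L M : ℕ) (η : edges L M → Bool) (F : Finset Edge)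
    (hF : F ⊆ edges L M) (h : ∀ e (he : e ∈ edges L M), η ⟨e, he⟩ = false ↔ e ∈ F) :
    clo (extend L M η) = (F : Set Edge) ∪ out L M := by
  ext e
  rw [clo, Set.mem_ofPred_eq, Set.mem_union, out, Set.mem_sdiff, Finset.mem_coe, Finset.mem_coe]
  by_cases he : e ∈ edges L M
  · rw [Pool.Agent.H72.DJ.extend, dif_pos he, h e he]
    simp [he]
  · rw [Pool.Agent.H72.DJ.extend, dif_neg he]
    have h1 : e ∉ F := fun h2 => he (hF h2)
    simp only [h1, false_or, he, not_false_eq_true, and_true, dob, PP, Set.mem_ofPred_eq,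
      Bool.not_eq_false', decide_eq_true_eq]

private noncomputable def PBr_cf (L M : ℕ) (F : Finset Edge) : edges L M → Bool :=
  fun e => decide (e.1 ∉ F)

private theorem PBr_clo_cf (L M : ℕ) (F : Finset Edge) (hF : F ⊆ edges L M) :
    clo (extend L M (PBr_cf L M F)) = (F : Set Edge) ∪ out L M := by
  refine PBr_clo L M _ F hF fun e he => ?_
  simp [PBr_cf]

private theorem PBr_sum (L M : ℕ) (f : (edges L M → Bool) → ℝ) :
    ∑ η : edges L M → Bool, f η = ∑ F ∈ (edges L M).powerset, f (PBr_cf L M F) := by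
  classical
  have h1 : ∀ η : edges L M → Bool,
      PBr_cf L M ((edges L M).filter fun e => extend L M η e = false) = η := by
    intro η
    funext e
    have h2 : extend L M η e.1 = η e := by
      rw [Pool.Agent.H72.DJ.extend, dif_pos e.2]
    simp only [PBr_cf, Finset.mem_filter, e.2, true_and, h2]
    cases η e <;> simp
  refine Finset.sum_bij' (fun η _ => (edges L M).filter fun e => extend L M η e = false)
    (fun F _ => PBr_cf L M F) (fun η _ => Finset.mem_powerset.2 (Finset.filter_subset _ _))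
    (fun F _ => Finset.mem_univ _) (fun η _ => h1 η) (fun F hF => ?_) (fun η _ => by rw [h1 η])
  ext e
  rw [Finset.mem_filter]
  constructor
  · rintro ⟨he, h⟩
    rw [Pool.Agent.H72.DJ.extend, dif_pos he] at h
    simpa [PBr_cf] using h
  · intro he
    have he' := Finset.mem_powerset.1 hF he
    refine ⟨he', ?_⟩
    rw [Pool.Agent.H72.DJ.extend, dif_pos he']
    simpa [PBr_cf] using he

private theorem PBr_prod {p : ℝ} (hp0 : 0 < p) (L M : ℕ) (F : Finset Edge)
    (hF : F ⊆ edges L M) :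
    (∏ e ∈ edges L M, if extend L M (PBr_cf L M F) e = true then p else 1 - p) =
      p ^ (edges L M).card * ((1 - p) / p) ^ F.card := by
  classical
  have h1 : ∀ e ∈ edges L M, (if extend L M (PBr_cf L M F) e = true then p else 1 - p) =
      p * if e ∈ F then (1 - p) / p else 1 := by
    intro e he
    rw [Pool.Agent.H72.DJ.extend, dif_pos he]
    by_cases h : e ∈ F
    · simp only [PBr_cf, h, not_true_eq_false, decide_false, if_true]
      rw [if_neg (by simp)]
      field_simp
    · simp [PBr_cf, h]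
  rw [Finset.prod_congr rfl h1, Finset.prod_mul_distrib, Finset.prod_const, Finset.prod_ite,
    Finset.prod_const, Finset.prod_const_one, mul_one]
  congr 3
  ext e
  rw [Finset.mem_filter]
  exact ⟨fun h => h.2, fun h => ⟨hF h, h⟩⟩

open Classical in
private noncomputable def PBr_t (L M : ℕ) (F : Finset Edge) : ℕ :=
  (if touchTop L M (extend L M (PBr_cf L M F)) then 1 else 0) +
    if touchBot L M (extend L M (PBr_cf L M F)) then 1 else 0

private def PBr_T (L M : ℕ) (F : Finset Edge) : Prop :=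
  ¬ (touchTop L M (extend L M (PBr_cf L M F)) ∧ touchBot L M (extend L M (PBr_cf L M F)))

private theorem PBr_t_le (L M : ℕ) (F : Finset Edge) : PBr_t L M F ≤ 2 := by
  unfold PBr_t
  split_ifs <;> norm_num

private theorem PBr_t_eq (L M : ℕ) (F : Finset Edge) (h : ¬ PBr_T L M F) : PBr_t L M F = 2 := by
  unfold PBr_T at h
  rw [not_not] at h
  unfold PBr_t
  rw [if_pos h.1, if_pos h.2]

private noncomputable def PBr_c (q : ℝ) (L M : ℕ) (F : Finset Edge) : ℝ :=
  q ^ PBr_t L M F / q ^ 2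

private theorem PBr_c_nonneg (hq : 1 ≤ q) (L M : ℕ) (F : Finset Edge) : 0 ≤ PBr_c q L M F := by
  unfold PBr_c
  have : 0 < q := by linarith
  positivity

private theorem PBr_c_le (hq : 1 ≤ q) (L M : ℕ) (F : Finset Edge) : PBr_c q L M F ≤ 1 := by
  unfold PBr_c
  have : 0 < q := by linarith
  rw [div_le_one (by positivity)]
  exact pow_le_pow_right₀ hq (PBr_t_le L M F)

private theorem PBr_c_eq (hq : 1 ≤ q) (L M : ℕ) (F : Finset Edge) (h : ¬ PBr_T L M F) :
    PBr_c q L M F = 1 := by
  unfold PBr_c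
  rw [PBr_t_eq L M F h]
  have : 0 < q := by linarith
  exact div_self (by positivity)

open Classical in
private theorem PBr_W_cf {p : ℝ} (hp0 : 0 < p) (hq : 1 ≤ q) (L M : ℕ) (F : Finset Edge)
    (hF : F ⊆ edges L M) : PBr_W L M p q (PBr_cf L M F) =
      p ^ (edges L M).card * q ^ 2 * if Sep ((F : Set Edge) ∪ out L M) then
        ((1 - p) / p) ^ F.card * q ^ nn ((F : Set Edge) ∪ out L M) * PBr_c q L M F else 0 := by
  have hq0 : 0 < q := by linarith
  have h1 := ev_sep (PBr_cf L M F)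
  rw [PBr_clo_cf L M F hF] at h1
  rw [PBr_W_eq]
  by_cases h : extend L M (PBr_cf L M F) ∈ interfaceEvent L M
  · rw [if_pos h, if_pos (h1.1 h), weight, PBr_prod hp0 L M F hF, clusters_nn _ h,
      PBr_clo_cf L M F hF, PBr_c]
    change _ * q ^ (_ + PBr_t L M F) = _
    rw [pow_add]
    field_simp
  · rw [if_neg h, if_neg (fun h2 => h (h1.2 h2)), mul_zero]

/-- the sum over the configurations which are open on `A` -/
private noncomputable def PBr_N (r q : ℝ) (L M : ℕ) (A : Finset Edge) : ℝ :=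
  open Classical in
  ∑ F ∈ (edges L M).powerset.filter
      (fun F : Finset Edge => Sep ((F : Set Edge) ∪ out L M) ∧ ∀ e ∈ A, e ∉ (F : Set Edge) ∪ out L M),
        r ^ F.card * q ^ nn ((F : Set Edge) ∪ out L M) * PBr_c q L M F

open Classical in
private theorem PBr_sumW {p : ℝ} (hp0 : 0 < p) (hq : 1 ≤ q) (L M : ℕ) (A : Finset Edge) :
    PBr_I L M p q {ω : Conf | ∀ e ∈ A, ω e = true} =
      p ^ (edges L M).card * q ^ 2 * PBr_N ((1 - p) / p) q L M A := by
  rw [PBr_I, PBr_sum, PBr_N, Finset.mul_sum, Finset.sum_filter]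
  refine Finset.sum_congr rfl fun F hF => ?_
  have hF' := Finset.mem_powerset.1 hF
  rw [PBr_W_cf hp0 hq L M F hF']
  have h1 : extend L M (PBr_cf L M F) ∈ {ω : Conf | ∀ e ∈ A, ω e = true} ↔
      ∀ e ∈ A, e ∉ (F : Set Edge) ∪ out L M := by
    rw [← PBr_clo_cf L M F hF', Set.mem_ofPred_eq]
    refine forall₂_congr fun e _ => ?_
    rw [clo, Set.mem_ofPred_eq, Bool.not_eq_false]
  by_cases h2 : Sep ((F : Set Edge) ∪ out L M) <;>
    by_cases h3 : ∀ e ∈ A, e ∉ (F : Set Edge) ∪ out L M
  · rw [if_pos (h1.2 h3), if_pos h2, if_pos ⟨h2, h3⟩]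
  · rw [if_neg (fun h => h3 (h1.1 h)), if_neg (fun h => h3 h.2)]
  · rw [if_pos (h1.2 h3), if_neg h2, if_neg (fun h => h2 h.1), mul_zero]
  · rw [if_neg (fun h => h3 (h1.1 h)), if_neg (fun h => h3 h.2)]

private theorem PBr_mass {p : ℝ} (hp0 : 0 < p) (hp1 : p < 1) (hq : 1 ≤ q) (L M : ℕ)
    (A : Finset Edge) : (phiBar L M p q).real {ω | ∀ e ∈ A, ω e = true} =
      PBr_N ((1 - p) / p) q L M A / PBr_N ((1 - p) / p) q L M ∅ := by
  classical
  have hq0 : 0 < q := by linarith
  have hr : 0 ≤ (1 - p) / p := div_nonneg (by linarith) hp0.le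
  have hN : ∀ B, 0 ≤ PBr_N ((1 - p) / p) q L M B := by
    intro B
    refine Finset.sum_nonneg fun F _ => ?_
    have := PBr_c_nonneg hq L M F
    positivity
  have hZ : ZI L M p q = p ^ (edges L M).card * q ^ 2 * PBr_N ((1 - p) / p) q L M ∅ := by
    rw [← PBr_sumW hp0 hq L M ∅, PBr_ZI, PBr_I]
    refine Finset.sum_congr rfl fun η _ => ?_
    rw [if_pos]
    simp
  rw [Measure.real, PBr_mass' hp0 hp1 hq L M (PBr_meas A), PBr_sumW hp0 hq L M A, hZ,
    mul_div_mul_left _ _ (by positivity), ENNReal.toReal_ofReal (div_nonneg (hN _) (hN _))]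

private theorem PBr_ZI_pos {p : ℝ} (hp0 : 0 < p) (hp1 : p < 1) (hq : 1 ≤ q) (L M : ℕ) :
    0 < ZI L M p q := by
  classical
  rw [PBr_ZI]
  have h1 := PBr_clo_cf L M ((edges L M).filter fun e => e ∈ PP) (Finset.filter_subset _ _)
  have h2 : ((((edges L M).filter fun e => e ∈ PP : Finset Edge) : Set Edge) ∪ out L M) = PP := by
    ext e
    simp only [Finset.coe_filter, Set.mem_union, Set.mem_ofPred_eq, out, Set.mem_sdiff,
      Finset.mem_coe]
    tauto
  have h3 : extend L M (PBr_cf L M ((edges L M).filter fun e => e ∈ PP)) ∈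
      interfaceEvent L M := by
    rw [ev_sep, h1, h2]
    exact PI_PP.2
  refine lt_of_lt_of_le ?_ (Finset.single_le_sum (f := fun η => PBr_W L M p q η)
    (fun η _ => PBr_W_nonneg hp0 hp1 hq L M η)
    (Finset.mem_univ (PBr_cf L M ((edges L M).filter fun e => e ∈ PP))))
  change 0 < PBr_W L M p q _
  rw [PBr_W_eq, if_pos h3]
  exact PBr_weight_pos hp0 hp1 hq L M _

private theorem PBr_est {r : ℝ} (hr : 0 < r) (hq : 1 ≤ q) (L M : ℕ) : ∃ Z₀ : ℝ, 0 < Z₀ ∧
    ∀ A : Finset Edge, |NF r q L M A (fun _ => True) - PBr_N r q L M A / Z₀| ≤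
      NF r q L M ∅ (fun Δ => M ≤ en Δ) := by
  classical
  have hq0 : 0 < q := by linarith
  obtain ⟨Z₀, hZ, h1, h2⟩ := fv_form hr hq L M
  refine ⟨Z₀, hZ, fun A => ?_⟩
  have h3 := h2 (PBr_T L M) (by
    intro D F' hD hF' hI hh hT
    refine shell (PBr_cf L M (D ∪ F')) hT ?_ hD hF' hI hh
    exact PBr_clo_cf L M (D ∪ F') (Finset.union_subset hD hF'))
  have h4 : NF r q L M A (fun _ => True) - PBr_N r q L M A / Z₀ =
      (∑ F ∈ (edges L M).powerset.filter
        (fun F : Finset Edge => Sep ((F : Set Edge) ∪ out L M) ∧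
          ∀ e ∈ A, e ∉ (F : Set Edge) ∪ out L M),
        r ^ F.card * q ^ nn ((F : Set Edge) ∪ out L M) * (1 - PBr_c q L M F)) / Z₀ := by
    have h5 : NF r q L M A (fun _ => True) = (∑ F ∈ (edges L M).powerset.filter
      (fun F : Finset Edge => Sep ((F : Set Edge) ∪ out L M) ∧ ∀ e ∈ A, e ∉ (F : Set Edge) ∪ out L M),
        r ^ F.card * q ^ nn ((F : Set Edge) ∪ out L M)) / Z₀ := by
      rw [h1 A, mul_comm, mul_div_assoc, div_self hZ.ne', mul_one]
    rw [h5, PBr_N, ← sub_div, ← Finset.sum_sub_distrib]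
    congr 1
    refine Finset.sum_congr rfl fun F _ => ?_
    ring
  have h6 : 0 ≤ ∑ F ∈ (edges L M).powerset.filter
        (fun F : Finset Edge => Sep ((F : Set Edge) ∪ out L M) ∧
          ∀ e ∈ A, e ∉ (F : Set Edge) ∪ out L M),
        r ^ F.card * q ^ nn ((F : Set Edge) ∪ out L M) * (1 - PBr_c q L M F) :=
    Finset.sum_nonneg fun F _ => mul_nonneg (by positivity) (by
      have := PBr_c_le hq L M F
      linarith)
  have h7 : (∑ F ∈ (edges L M).powerset.filter
        (fun F : Finset Edge => Sep ((F : Set Edge) ∪ out L M) ∧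
          ∀ e ∈ A, e ∉ (F : Set Edge) ∪ out L M),
        r ^ F.card * q ^ nn ((F : Set Edge) ∪ out L M) * (1 - PBr_c q L M F)) ≤
      ∑ F ∈ (edges L M).powerset.filter (fun F : Finset Edge => Sep ((F : Set Edge) ∪ out L M) ∧
        PBr_T L M F), r ^ F.card * q ^ nn ((F : Set Edge) ∪ out L M) := by
    rw [Finset.sum_filter, Finset.sum_filter]
    refine Finset.sum_le_sum fun F _ => ?_
    have hpos : 0 ≤ r ^ F.card * q ^ nn ((F : Set Edge) ∪ out L M) := by positivity
    by_cases hT : PBr_T L M F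
    · by_cases hS : Sep ((F : Set Edge) ∪ out L M)
      · rw [if_pos (c := Sep ((F : Set Edge) ∪ out L M) ∧ PBr_T L M F) ⟨hS, hT⟩]
        split_ifs
        · refine mul_le_of_le_one_right hpos ?_
          have := PBr_c_nonneg hq L M F
          linarith
        · exact hpos
      · rw [if_neg (fun h => hS h.1), if_neg (fun h => hS h.1)]
    · rw [PBr_c_eq hq L M F hT, sub_self, mul_zero, ite_self]
      split_ifs
      · exact hpos
      · exact le_rfl
  rw [h4, abs_of_nonneg (div_nonneg h6 hZ.le), div_le_iff₀ hZ, mul_comm]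
  exact h7.trans h3

theorem phi_prob {p : ℝ} (hp0 : 0 < p) (hp1 : p < 1) (hq : 1 ≤ q) (L M : ℕ) :
    IsProbabilityMeasure (phiBar L M p q) := by
  classical
  have hZ := PBr_ZI_pos hp0 hp1 hq L M
  refine ⟨?_⟩
  rw [PBr_mass' hp0 hp1 hq L M MeasurableSet.univ]
  have h1 : PBr_I L M p q Set.univ = ZI L M p q := by
    rw [PBr_ZI, PBr_I]
    refine Finset.sum_congr rfl fun η _ => ?_
    rw [if_pos (Set.mem_univ _)]
  rw [h1, div_self hZ.ne', ENNReal.ofReal_one]

theorem phi_lim {p : ℝ} (hp0 : 0 < p) (hp1 : p < 1)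
    (hP : Par (Ph (wt ((1 - p) / p) q)) ((1 - p) / p) q τ κ ν) (L : ℕ) (A : Finset Edge) :
    Tendsto (fun M => (phiBar L M p q).real {ω | ∀ e ∈ A, ω e = true}) atTop
      (𝓝 (NR (Ph (wt ((1 - p) / p) q)) ((1 - p) / p) q L (FA (Ph (wt ((1 - p) / p) q)) (EL L) A) /
        NR (Ph (wt ((1 - p) / p) q)) ((1 - p) / p) q L (fun _ => 1))) := by
  have hq := hP.q1
  choose Z₀ hZ hest using fun M => PBr_est hP.r0 hq L M
  have h1 : ∀ B : Finset Edge, Tendsto (fun M => PBr_N ((1 - p) / p) q L M B / Z₀ M) atTop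
      (𝓝 (NR (Ph (wt ((1 - p) / p) q)) ((1 - p) / p) q L
        (FA (Ph (wt ((1 - p) / p) q)) (EL L) B))) := by
    intro B
    have h2 : Tendsto (fun M => NF ((1 - p) / p) q L M B (fun _ => True) -
        PBr_N ((1 - p) / p) q L M B / Z₀ M) atTop (𝓝 0) := by
      refine squeeze_zero_norm' (Eventually.of_forall fun M => ?_) (lim_err hP L)
      rw [Real.norm_eq_abs]
      exact hest M B
    have h3 := (lim_NF hP L B).sub h2
    rw [sub_zero] at h3
    refine h3.congr fun M => ?_
    ring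
  have h4 : FA (Ph (wt ((1 - p) / p) q)) (EL L) ∅ = fun _ => 1 :=
    funext fun Δ => FA_empty _ _ Δ
  have h5 := h1 ∅
  rw [h4] at h5
  have h6 := NR_one hP L
  refine ((h1 A).div h5 (by linarith)).congr fun M => ?_
  rw [PBr_mass hp0 hp1 hq L M A]
  exact div_div_div_cancel_right₀ (hZ M).ne' _ _

end Pool.Agent.H78.DB
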