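import Pool.Agent.H78.DB.KPr

/-!
# Module PhB: bound of the Moebius coefficients of the logarithm

`Ph w X = mob (fun Y => log (Xi w Y)) X = mob (fun Y => log (Xi w (X ∩ Y))) X` (`mob_congr`). Enumerate `X`; by induction on `S ⊆ X`:
`nrm (fun Y => log (Xi w (S ∩ Y))) ≤ |S|` (for `insert e S`: `log [insert e S] = log [S] + log ([insert e S]/[S])`, `nrm_log` and
`kp`; for `S = ∅`: `log 1 = 0`, norm `0`). With `S = X` and `mob_le_nrm`: `|Ph w X| ≤ |X| θ^|X|`.
-/

set_option autoImplicit false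

namespace Pool.Agent.H78.DB

variable {V : Type} [DecidableEq V] {N : V → Finset V} {w : Finset V → ℝ} {lam : ℝ}

private theorem PhB_nrm (h : Gas N w lam) (hl : 0 ≤ lam) {θ : ℝ} (h0 : 0 < θ) (h1 : θ ≤ 1)
    (hs : 256 * (2 ^ 16 * lam) ≤ θ / 4) (X S : Finset V) :
    nrm θ X (fun Y => Real.log (Xi w (S ∩ Y))) ≤ S.card := by
  induction S using Finset.induction_on with
  | empty =>
    have e : nrm θ X (fun Y => Real.log (Xi w (∅ ∩ Y))) = nrm θ X (fun Y => 0 * (fun _ => 1) Y) := by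
      refine nrm_congr fun Z _ => ?_
      rw [Finset.empty_inter, Xi_empty h, Real.log_one, zero_mul]
    rw [e, nrm_smul X 0 (fun _ => 1), abs_zero, zero_mul]
    simp
  | insert e S he ih =>
    have e1 : nrm θ X (fun Y => Real.log (Xi w (insert e S ∩ Y))) =
        nrm θ X (fun Y => Real.log (Xi w (S ∩ Y)) +
          Real.log (Xi w (insert e S ∩ Y) / Xi w (S ∩ Y))) := by
      refine nrm_congr fun Z _ => ?_
      have p1 := Xi_pos h (insert e S ∩ Z)
      have p2 := Xi_pos h (S ∩ Z)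
      rw [Real.log_div (by linarith) (by linarith)]
      ring
    have e2 := nrm_add h0 X (fun Y => Real.log (Xi w (S ∩ Y)))
      (fun Y => Real.log (Xi w (insert e S ∩ Y) / Xi w (S ∩ Y)))
    have e3 := nrm_log h0 h1 X (fun Y => Xi w (insert e S ∩ Y) / Xi w (S ∩ Y))
      (kp h hl h0 h1 hs X S e he)
    rw [e1, Finset.card_insert_of_notMem he]
    push_cast
    linarith

theorem Ph_le (h : Gas N w lam) (hl : 0 ≤ lam) {θ : ℝ} (h0 : 0 < θ) (h1 : θ ≤ 1)
    (hs : 256 * (2 ^ 16 * lam) ≤ θ / 4) (X : Finset V) : |Ph w X| ≤ X.card * θ ^ X.card := by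
  have e : Ph w X = mob (fun Y => Real.log (Xi w (X ∩ Y))) X := by
    unfold Ph
    refine mob_congr fun Z hZ => ?_
    rw [Finset.inter_eq_right.2 hZ]
  rw [e]
  exact (mob_le_nrm h0 X _).trans
    (mul_le_mul_of_nonneg_right (PhB_nrm h hl h0 h1 hs X X) (by positivity))

end Pool.Agent.H78.DB
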