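import Pool.Agent.H78.DB.Defs

/-!
# Module Pot2: potentials in the plane

`u`, `v` are the values of a closed cochain of finite support on the edges `a → a + (1,0)` and `a → a + (0,1)`. Take `N` with
`u a = v a = 0` unless `|a.1|, |a.2| ≤ N` and put `g (x,y) = ∑ s ∈ Finset.Ico (-N) y, v (x,s)`
(`Finset.Ico (-(N:ℤ)) y`). Then `g (x,y+1) - g (x,y) = v (x,y)` (for `y < -N` both sides are zero), and
`g (x+1,y) - g (x,y) = ∑_{s<y} (v (x+1,s) - v (x,s)) = ∑_{s<y} (u (x,s+1) - u (x,s)) = u (x,y)` (telescoping, `u (x,-N) = 0`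
if `N` is increased by one). Finite support: for `|x| > N` all is zero; for `y < -N` zero; for `y > N` `g (x,y)` does not
depend on `y` nor (by `u (x,y) = 0`) on `x`, and it is zero for large `x`.
-/

set_option autoImplicit false

namespace Pool.Agent.H78.DB

private theorem pot2_bd {A : Type} [AddCommGroup A] (u : Col → A) (hu : {a | u a ≠ 0}.Finite) :
    ∃ N : ℤ, 0 ≤ N ∧ ∀ a, u a ≠ 0 → |a.1| < N ∧ |a.2| < N := by
  classical
  refine ⟨∑ a ∈ hu.toFinset, (|a.1| + |a.2| + 1) , ?_, fun a ha => ?_⟩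
  · exact Finset.sum_nonneg fun a _ => by positivity
  · have h1 : |a.1| + |a.2| + 1 ≤ ∑ a ∈ hu.toFinset, (|a.1| + |a.2| + 1) :=
      Finset.single_le_sum (f := fun a : Col => |a.1| + |a.2| + 1)
        (fun b _ => by positivity) (hu.mem_toFinset.2 ha)
    have h2 := abs_nonneg a.1
    have h3 := abs_nonneg a.2
    constructor <;> linarith

theorem pot2 {A : Type} [AddCommGroup A] (u v : Col → A)
    (hc : ∀ a : Col, u a + v (a.1 + 1, a.2) = v a + u (a.1, a.2 + 1))
    (hu : {a | u a ≠ 0}.Finite) (hv : {a | v a ≠ 0}.Finite) :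
    ∃ g : Col → A, {a | g a ≠ 0}.Finite ∧ (∀ a, g (a.1 + 1, a.2) = g a + u a) ∧
      ∀ a, g (a.1, a.2 + 1) = g a + v a := by
  classical
  obtain ⟨N₁, hN₁, h1⟩ := pot2_bd u hu
  obtain ⟨N₂, hN₂, h2⟩ := pot2_bd v hv
  obtain ⟨N, hN, hun, hvn⟩ : ∃ N : ℤ, 0 ≤ N ∧ (∀ a : Col, (N ≤ |a.1| ∨ N ≤ |a.2|) → u a = 0) ∧
      ∀ a : Col, (N ≤ |a.1| ∨ N ≤ |a.2|) → v a = 0 := by
    refine ⟨max N₁ N₂, le_max_of_le_left hN₁, fun a ha => ?_, fun a ha => ?_⟩
    · by_contra h
      obtain ⟨h3, h4⟩ := h1 a h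
      rcases ha with ha | ha
      · exact absurd (le_max_left N₁ N₂) (by linarith)
      · exact absurd (le_max_left N₁ N₂) (by linarith)
    · by_contra h
      obtain ⟨h3, h4⟩ := h2 a h
      rcases ha with ha | ha
      · exact absurd (le_max_right N₁ N₂) (by linarith)
      · exact absurd (le_max_right N₁ N₂) (by linarith)
  let g : Col → A := fun a => ∑ s ∈ Finset.Ico (-N) a.2, v (a.1, s)
  have hg0 : ∀ x y : ℤ, y ≤ -N → g (x, y) = 0 := by
    intro x y hy
    change ∑ s ∈ Finset.Ico (-N) y, v (x, s) = 0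
    rw [Finset.Ico_eq_empty (by omega), Finset.sum_empty]
  have hgy : ∀ x y : ℤ, g (x, y + 1) = g (x, y) + v (x, y) := by
    intro x y
    rcases lt_or_ge y (-N) with hy | hy
    · rw [hg0 x (y + 1) (by omega), hg0 x y (by omega), hvn (x, y) (Or.inr ?_), add_zero]
      change N ≤ |y|
      rw [abs_of_nonpos (by omega)]
      omega
    · have h3 : Finset.Ico (-N) (y + 1) = insert y (Finset.Ico (-N) y) := by
        ext s
        simp only [Finset.mem_Ico, Finset.mem_insert]
        omega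
      change ∑ s ∈ Finset.Ico (-N) (y + 1), v (x, s) = (∑ s ∈ Finset.Ico (-N) y, v (x, s)) + v (x, y)
      rw [h3, Finset.sum_insert (by simp), add_comm]
  have hgx : ∀ x y : ℤ, g (x + 1, y) = g (x, y) + u (x, y) := by
    intro x y
    rcases le_total y (-N) with hy | hy
    · rw [hg0 (x + 1) y hy, hg0 x y hy, hun (x, y) (Or.inr ?_), add_zero]
      change N ≤ |y|
      rw [abs_of_nonpos (by omega)]
      omega
    · induction y, hy using Int.le_induction with
      | base =>
        rw [hg0 (x + 1) (-N) le_rfl, hg0 x (-N) le_rfl, hun (x, -N) (Or.inr ?_), add_zero]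
        change N ≤ |-N|
        rw [abs_neg, abs_of_nonneg hN]
      | succ y hy ih =>
        rw [hgy, hgy, ih]
        have h4 := hc (x, y)
        change u (x, y) + v (x + 1, y) = v (x, y) + u (x, y + 1) at h4
        rw [add_assoc, h4, add_assoc]
  have hgN : ∀ x y : ℤ, N ≤ |x| → g (x, y) = 0 := by
    intro x y hx
    exact Finset.sum_eq_zero fun s _ => hvn (x, s) (Or.inl hx)
  have hgk : ∀ (x y : ℤ), N ≤ y → ∀ k : ℕ, g (x + k, y) = g (x, y) := by
    intro x y hy k
    induction k with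
    | zero => simp
    | succ k ih =>
      have h5 := hgx (x + k) y
      rw [hun (x + k, y) (Or.inr ?_), add_zero, ih] at h5
      · rw [← h5]
        push_cast
        rw [add_assoc]
      · change N ≤ |y|
        rw [abs_of_nonneg (by omega)]
        exact hy
  refine ⟨g, ?_, fun a => hgx a.1 a.2, fun a => hgy a.1 a.2⟩
  refine (Finset.finite_toSet (Finset.Icc (-N) N ×ˢ Finset.Icc (-N) N)).subset fun a ha => ?_
  obtain ⟨x, y⟩ := a
  have ha' : g (x, y) ≠ 0 := ha
  have hx : |x| < N := by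
    by_contra h
    exact ha' (hgN x y (not_lt.1 h))
  have hy1 : -N < y := by
    by_contra h
    exact ha' (hg0 x y (not_lt.1 h))
  have hy2 : y < N := by
    by_contra h
    have h6 := hgk x y (not_lt.1 h) (N - x).toNat
    apply ha'
    rw [← h6]
    refine hgN _ _ ?_
    have h7 : (((N - x).toNat : ℕ) : ℤ) = N - x := Int.toNat_of_nonneg (by
      have := (abs_lt.1 hx).2
      omega)
    rw [h7]
    have h8 : x + (N - x) = N := by ring
    rw [h8, abs_of_nonneg hN]
  rw [abs_lt] at hx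
  simp only [Finset.coe_product, Set.mem_prod, Finset.mem_coe, Finset.mem_Icc]
  exact ⟨⟨hx.1.le, hx.2.le⟩, ⟨hy1.le, hy2.le⟩⟩

end Pool.Agent.H78.DB
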