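import Pool.Agent.H78.DB.ClL

/-!
# Module Pot3: potentials in space

As in Pot2: for `c` closed of finite support let `N` be such that `c (x,i) = 0` unless all coordinates of `x` are at most
`N` in absolute value, and `g (x,y,z) = ∑ s ∈ Finset.Ico (-N) z, c ((x,y,s), 2)` in `ZMod 2` (addition = subtraction,
`CharTwo`). `g x + g (x + unit 2) = c (x,2)`. For `i = 0, 1`: `D z = g (x,y,z) + g ((x,y,z) + unit i) + c ((x,y,z), i)`
satisfies `D (z+1) = D z` by closedness of the square `((x,y,z), i, 2)`, and `D z = 0` for `z < -N`. Finite support: above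
the support of `c` the function `g` does not depend on `z` nor on `(x,y)` (by the relation for `i = 0, 1`), and it is zero
for large `x`.
`pot3P`: apply `pot3` to `c` minus the indicator of `PP`, which is `cl_flat 0`; the indicator of `PP` is the coboundary of
the indicator of `0 < z`. The parity statements: over the column `a`, `c (ve a z) = g (a,z) + g (a,z+1)`; if
`c (ve a z) = 0` for `z ≠ z0` then `g` is constant on `z ≤ z0` and on `z ≥ z0 + 1`, with the values at `-∞` and `+∞`
(finite support): `0, 0` in `par0`, `0, 1` in `par1`. `par_ex`: otherwise `g` would be constant on the column.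
-/

set_option autoImplicit false

namespace Pool.Agent.H78.DB

open Pool.Agent.H72.DJ

private lemma Pot3_per {f : ℤ → ZMod 2} (h : ∀ z, f (z + 1) = f z) (z w : ℤ) : f z = f w := by
  have hp : Function.Periodic f 1 := h
  have h1 := hp.int_mul (z - w) w
  have h2 : w + ((z - w : ℤ) : ℤ) * 1 = z := by ring
  simp only [Int.cast_id] at h1
  rw [h2] at h1
  exact h1

private lemma Pot3_up {f : ℤ → ZMod 2} {z0 : ℤ} (h : ∀ z, z0 ≤ z → f (z + 1) = f z) :
    ∀ z, z0 ≤ z → f z = f z0 := by
  intro z hz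
  induction z, hz using Int.leInduction with
  | base => rfl
  | succ n hn ih => rw [h n hn, ih]

private lemma Pot3_down {f : ℤ → ZMod 2} {z0 : ℤ} (h : ∀ z, z < z0 → f (z + 1) = f z) :
    ∀ z, z ≤ z0 → f z = f z0 := by
  intro z hz
  induction z, hz using Int.leInductionDown with
  | base => rfl
  | pred n hn ih =>
    have h1 := h (n - 1) (by omega)
    rw [sub_add_cancel] at h1
    rw [← h1, ih]

private lemma Pot3_sum (f : ℤ → ZMod 2) {a z : ℤ} (h : a ≤ z) :
    ∑ s ∈ Finset.Ico a (z + 1), f s = ∑ s ∈ Finset.Ico a z, f s + f z := by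
  have e : Finset.Ico a (z + 1) = insert z (Finset.Ico a z) := by
    ext s
    simp only [Finset.mem_Ico, Finset.mem_insert]
    omega
  rw [e, Finset.sum_insert (by simp), add_comm]

private lemma Pot3_two (a : ZMod 2) : a + a = 0 := CharTwo.add_self_eq_zero a

private lemma Pot3_bound {c : Edge → ZMod 2} (hf : {e | c e ≠ 0}.Finite) :
    ∃ N : ℤ, ∀ x i, (N < |x.1| ∨ N < |x.2.1| ∨ N < |x.2.2|) → c (x, i) = 0 := by
  obtain ⟨N, hN⟩ := (hf.image fun e => |e.1.1| + |e.1.2.1| + |e.1.2.2|).bddAbove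
  refine ⟨N, fun x i h => ?_⟩
  by_contra hc
  have h1 := hN ⟨(x, i), hc, rfl⟩
  simp only at h1
  have h2 := abs_nonneg x.1
  have h3 := abs_nonneg x.2.1
  have h4 := abs_nonneg x.2.2
  rcases h with h | h | h <;> linarith

theorem pot3 {c : Edge → ZMod 2} (h : Cl c) (hf : {e | c e ≠ 0}.Finite) :
    ∃ g : Vtx → ZMod 2, {x | g x ≠ 0}.Finite ∧ ∀ x i, c (x, i) = g x + g (x + unit i) := by
  obtain ⟨N, hN⟩ := Pot3_bound hf
  set g : Vtx → ZMod 2 := fun x => ∑ s ∈ Finset.Ico (-N) x.2.2, c ((x.1, x.2.1, s), 2) with hg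
  have g0 : ∀ x : Vtx, x.2.2 ≤ -N → g x = 0 := by
    intro x hx
    rw [hg]
    simp only
    rw [Finset.Ico_eq_empty (by omega), Finset.sum_empty]
  have gA : ∀ x : Vtx, (N < |x.1| ∨ N < |x.2.1|) → g x = 0 := by
    intro x hx
    rw [hg]
    simp only
    refine Finset.sum_eq_zero fun s _ => hN _ _ ?_
    rcases hx with hx | hx
    · exact Or.inl hx
    · exact Or.inr (Or.inl hx)
  have g2 : ∀ x y z : ℤ, g (x, y, z + 1) = g (x, y, z) + c ((x, y, z), 2) := by
    intro x y z
    rcases le_or_gt (-N) z with hz | hz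
    · exact Pot3_sum (fun s => c ((x, y, s), 2)) hz
    · rw [g0 (x, y, z + 1) (by simp only; omega), g0 (x, y, z) (by simp only; omega),
        hN (x, y, z) 2 (Or.inr (Or.inr ?_)), add_zero]
      simp only
      exact lt_of_lt_of_le (by omega) (neg_le_abs z)
  have hD : ∀ i : Fin 3, i ≠ 2 → ∀ x y z : ℤ,
      g (x, y, z) + g ((x, y, z) + unit i) + c ((x, y, z), i) = 0 := by
    intro i hi x y z
    have hu : (unit i).2.2 = 0 := by
      fin_cases i
      · rfl
      · rfl
      · exact absurd rfl hi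
    have e1 : ∀ z : ℤ, ((x, y, z) : Vtx) + unit i = (x + (unit i).1, y + (unit i).2.1, z) := by
      intro z
      refine Prod.ext rfl (Prod.ext rfl ?_)
      change z + (unit i).2.2 = z
      rw [hu, add_zero]
    have e2 : ∀ z : ℤ, ((x, y, z) : Vtx) + unit 2 = (x, y, z + 1) := by
      intro z
      refine Prod.ext ?_ (Prod.ext ?_ rfl)
      · change x + 0 = x
        rw [add_zero]
      · change y + 0 = y
        rw [add_zero]
    have hper : ∀ z : ℤ,
        g (x, y, z + 1) + g ((x, y, z + 1) + unit i) + c ((x, y, z + 1), i) =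
          g (x, y, z) + g ((x, y, z) + unit i) + c ((x, y, z), i) := by
      intro z
      have h1 := h (x, y, z) i 2 hi
      rw [e2 z, e1 z] at h1
      rw [e1 z, e1 (z + 1), g2, g2]
      have h3 := Pot3_two (c ((x, y, z), 2))
      have h4 := Pot3_two (c ((x, y, z + 1), i))
      linear_combination h1 + h3 + h4 - Pot3_two (c ((x, y, z), i))
    have hz0 : g (x, y, -|N| - 1) + g ((x, y, -|N| - 1) + unit i) + c ((x, y, -|N| - 1), i) = 0 := by
      have hn : -|N| - 1 ≤ -N := by
        have := le_abs_self N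
        omega
      rw [e1, g0 _ hn, g0 _ hn, hN (x, y, -|N| - 1) i (Or.inr (Or.inr ?_)), add_zero, add_zero]
      simp only
      have h5 := neg_le_abs (-|N| - 1)
      have h6 := le_abs_self N
      omega
    exact (Pot3_per (f := fun z => g (x, y, z) + g ((x, y, z) + unit i) + c ((x, y, z), i))
      hper z (-|N| - 1)).trans hz0
  refine ⟨g, ?_, ?_⟩
  · have gB : ∀ x y z : ℤ, N < z → g (x, y, z) = 0 := by
      intro x y z hz
      have hper : ∀ x : ℤ, g (x + 1, y, z) = g (x, y, z) := by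
        intro x
        have h1 := hD 0 (by decide) x y z
        rw [hN (x, y, z) 0 (Or.inr (Or.inr (lt_of_lt_of_le hz (le_abs_self z)))), add_zero] at h1
        have e3 : ((x, y, z) : Vtx) + unit 0 = (x + 1, y, z) := by
          refine Prod.ext rfl (Prod.ext ?_ ?_)
          · change y + 0 = y
            rw [add_zero]
          · change z + 0 = z
            rw [add_zero]
        rw [e3] at h1
        have h2 := Pot3_two (g (x, y, z))
        linear_combination h1 - h2
      have h3 : g (x, y, z) = g (|N| + 1, y, z) :=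
        Pot3_per (f := fun x => g (x, y, z)) hper x (|N| + 1)
      rw [h3]
      refine gA _ (Or.inl ?_)
      simp only
      have h4 := le_abs_self N
      have h5 := le_abs_self (|N| + 1)
      omega
    refine ((Finset.Icc (-N) N ×ˢ Finset.Icc (-N) N ×ˢ Finset.Icc (-N) N :
      Finset Vtx).finite_toSet).subset ?_
    rintro ⟨x, y, z⟩ hx
    have hx' : g (x, y, z) ≠ 0 := hx
    have k1 : |x| ≤ N := by
      by_contra hc
      exact hx' (gA _ (Or.inl (not_le.1 hc)))
    have k2 : |y| ≤ N := by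
      by_contra hc
      exact hx' (gA _ (Or.inr (not_le.1 hc)))
    have k3 : z ≤ N := by
      by_contra hc
      exact hx' (gB _ _ _ (not_le.1 hc))
    have k4 : -N ≤ z := by
      by_contra hc
      exact hx' (g0 _ (not_le.1 hc).le)
    rw [abs_le] at k1 k2
    simp only [Finset.coe_product, Finset.coe_Icc, Set.mem_prod, Set.mem_Icc]
    exact ⟨k1, k2, k4, k3⟩
  · rintro ⟨x, y, z⟩ i
    by_cases hi : i = 2
    · subst hi
      have e2 : ((x, y, z) : Vtx) + unit 2 = (x, y, z + 1) := by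
        refine Prod.ext ?_ (Prod.ext ?_ rfl)
        · change x + 0 = x
          rw [add_zero]
        · change y + 0 = y
          rw [add_zero]
      rw [e2, g2]
      linear_combination -Pot3_two (g (x, y, z))
    · have h1 := hD i hi x y z
      linear_combination Pot3_two (c ((x, y, z), i)) - h1

theorem pot3P {F : Set Edge} {c : Edge → ZMod 2} (h : SepC F c) :
    ∃ g : Vtx → ZMod 2, {x | g x ≠ if 0 < x.2.2 then 1 else 0}.Finite ∧
      ∀ x i, c (x, i) = g x + g (x + unit i) := by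
  classical
  obtain ⟨h1, _, h3⟩ := h
  have hcl := h1.add (cl_flat 0)
  have hfin : {e : Edge | (c + fun e : Edge => if e.2 = 2 ∧ e.1.2.2 = 0 then (1 : ZMod 2) else 0 :
      Edge → ZMod 2) e ≠ 0}.Finite := by
    refine h3.subset ?_
    intro e he hc
    refine he ?_
    have hc' : c e = if e.2 = 2 ∧ e.1.2.2 = 0 then 1 else 0 := by
      rw [hc]
      by_cases hm : e.2 = 2 ∧ e.1.2.2 = 0
      · have hm' : e ∈ PP := hm
        rw [if_pos hm, if_pos hm']
      · have hm' : e ∉ PP := hm
        rw [if_neg hm, if_neg hm']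
    rw [Pi.add_apply, hc']
    exact Pot3_two _
  obtain ⟨g, hg1, hg2⟩ := pot3 hcl hfin
  refine ⟨fun x => g x + if 0 < x.2.2 then 1 else 0, ?_, ?_⟩
  · refine hg1.subset ?_
    intro x hx hx0
    refine hx ?_
    have hx0' : g x = 0 := hx0
    simp only [hx0', zero_add]
  · rintro ⟨x, y, z⟩ i
    have h4 := hg2 (x, y, z) i
    rw [Pi.add_apply] at h4
    simp only at h4
    have key : (if i = 2 ∧ z = 0 then (1 : ZMod 2) else 0) =
        (if 0 < z then 1 else 0) + if 0 < ((x, y, z) + unit i : Vtx).2.2 then 1 else 0 := by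
      have e5 : ((x, y, z) + unit i : Vtx).2.2 = z + (unit i).2.2 := rfl
      rw [e5]
      by_cases hi : i = 2
      · subst hi
        have hu : (unit 2).2.2 = 1 := rfl
        rw [hu]
        rcases lt_trichotomy z 0 with hz | hz | hz
        · rw [if_neg (by omega), if_neg (by omega), if_neg (by omega)]
          rfl
        · subst hz
          rw [if_pos ⟨rfl, rfl⟩, if_neg (by omega), if_pos (by omega)]
          rfl
        · rw [if_neg (by omega), if_pos (by omega), if_pos (by omega)]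
          rfl
      · have hu : (unit i).2.2 = 0 := by
          fin_cases i
          · rfl
          · rfl
          · exact absurd rfl hi
        rw [hu, add_zero, if_neg (fun hh => hi hh.1)]
        exact (Pot3_two _).symm
    simp only
    rw [key] at h4
    have k1 := Pot3_two (if 0 < z then (1 : ZMod 2) else 0)
    have k2 := Pot3_two (if 0 < ((x, y, z) + unit i : Vtx).2.2 then (1 : ZMod 2) else 0)
    linear_combination h4 - k1 - k2

private lemma Pot3_col {g : Vtx → ZMod 2} {θ : ℤ → ZMod 2}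
    (hg : {x : Vtx | g x ≠ θ x.2.2}.Finite) (a : Col) (z0 : ℤ) :
    (∃ z, z ≤ z0 ∧ z ≤ 0 ∧ g (a.1, a.2, z) = θ z) ∧
      ∃ z, z0 + 1 ≤ z ∧ 1 ≤ z ∧ g (a.1, a.2, z) = θ z := by
  have hinj : Function.Injective (fun z : ℤ => ((a.1, a.2, z) : Vtx)) := by
    intro z w hzw
    exact (Prod.ext_iff.1 (Prod.ext_iff.1 hzw).2).2
  have hf : {z : ℤ | g (a.1, a.2, z) ≠ θ z}.Finite := hg.preimage hinj.injOn
  constructor
  · obtain ⟨z, hz1, hz2⟩ := (Set.Iic_infinite (min z0 0)).exists_notMem_finite hf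
    rw [Set.mem_Iic, le_min_iff] at hz1
    exact ⟨z, hz1.1, hz1.2, not_not.1 hz2⟩
  · obtain ⟨z, hz1, hz2⟩ := (Set.Ici_infinite (max (z0 + 1) 1)).exists_notMem_finite hf
    rw [Set.mem_Ici, max_le_iff] at hz1
    exact ⟨z, hz1.1, hz1.2, not_not.1 hz2⟩

private lemma Pot3_ve {g : Vtx → ZMod 2} {c : Edge → ZMod 2}
    (hc : ∀ x i, c (x, i) = g x + g (x + unit i)) (a : Col) (z : ℤ) :
    c (ve a z) = g (a.1, a.2, z) + g (a.1, a.2, z + 1) := by
  have h1 := hc (a.1, a.2, z) 2
  have e2 : ((a.1, a.2, z) : Vtx) + unit 2 = (a.1, a.2, z + 1) := by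
    refine Prod.ext ?_ (Prod.ext ?_ rfl)
    · change a.1 + 0 = a.1
      rw [add_zero]
    · change a.2 + 0 = a.2
      rw [add_zero]
  rw [e2] at h1
  exact h1

private lemma Pot3_step {g : Vtx → ZMod 2} {c : Edge → ZMod 2}
    (hc : ∀ x i, c (x, i) = g x + g (x + unit i)) {a : Col} {z : ℤ} (h : c (ve a z) = 0) :
    g (a.1, a.2, z + 1) = g (a.1, a.2, z) := by
  rw [Pot3_ve hc] at h
  linear_combination h - Pot3_two (g (a.1, a.2, z))

private lemma Pot3_val {g : Vtx → ZMod 2} {c : Edge → ZMod 2} {θ : ℤ → ZMod 2}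
    (hc : ∀ x i, c (x, i) = g x + g (x + unit i))
    (hg : {x : Vtx | g x ≠ θ x.2.2}.Finite) (a : Col) (z0 : ℤ)
    (hz : ∀ z, z ≠ z0 → c (ve a z) = 0) :
    ∃ z w, z ≤ 0 ∧ 1 ≤ w ∧ c (ve a z0) = θ z + θ w := by
  obtain ⟨⟨z, z1, z2, z3⟩, ⟨w, w1, w2, w3⟩⟩ := Pot3_col hg a z0
  have h1 : g (a.1, a.2, z) = g (a.1, a.2, z0) :=
    Pot3_down (f := fun z => g (a.1, a.2, z)) (z0 := z0)
      (fun z hzz => Pot3_step hc (hz z hzz.ne)) z z1
  have h2 : g (a.1, a.2, w) = g (a.1, a.2, z0 + 1) :=
    Pot3_up (f := fun z => g (a.1, a.2, z)) (z0 := z0 + 1)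
      (fun z hzz => Pot3_step hc (hz z (by omega))) w w1
  refine ⟨z, w, z2, w2, ?_⟩
  rw [Pot3_ve hc, ← h1, ← h2, z3, w3]

theorem par0 {c : Edge → ZMod 2} (h : Cl c) (hf : {e | c e ≠ 0}.Finite) (a : Col) (z0 : ℤ)
    (hz : ∀ z, z ≠ z0 → c (ve a z) = 0) : c (ve a z0) = 0 := by
  obtain ⟨g, hg1, hg2⟩ := pot3 h hf
  obtain ⟨z, w, _, _, h3⟩ := Pot3_val (θ := fun _ => 0) hg2 hg1 a z0 hz
  rw [h3, add_zero]

theorem par1 {F : Set Edge} {c : Edge → ZMod 2} (h : SepC F c) (a : Col) (z0 : ℤ)
    (hz : ∀ z, z ≠ z0 → c (ve a z) = 0) : c (ve a z0) = 1 := by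
  obtain ⟨g, hg1, hg2⟩ := pot3P h
  obtain ⟨z, w, h1, h2, h3⟩ := Pot3_val (θ := fun z => if 0 < z then 1 else 0) hg2 hg1 a z0 hz
  rw [h3, if_neg (by omega), if_pos (by omega), zero_add]

theorem par_ex {F : Set Edge} {c : Edge → ZMod 2} (h : SepC F c) (a : Col) :
    ∃ z, c (ve a z) ≠ 0 := by
  by_contra hc
  push Not at hc
  have h1 := par1 h a 0 (fun z _ => hc z)
  rw [hc 0] at h1
  exact zero_ne_one h1

end Pool.Agent.H78.DB
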