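import Pool.Agent.H78.DB.BasS
import Pool.Agent.H78.DB.Pot2

/-!
# Module RngP: the potential of a colouring of the ring of a connected set of columns

`B` is connected with respect to `near`, `φ` is constant along `nb2`-steps inside `NQ B \ B`. Let `ψ = φ` on `NQ B \ B`, `ψ = 0` elsewhere.
(2) For an edge `{a, b}` of `Z²` let `c(a,b) = ψ a + ψ b` if `a ∈ B` or `b ∈ B`, else `0` (`u a = c(a, a+(1,0))`, `v a = c(a, a+(0,1))`).
    Closed: if the square `a, a+(1,0), a+(0,1), a+(1,1)` contains a point of `B`, all its columns are in `NQ B`, and for an edge without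
    end in `B` also `ψ a + ψ b = 0` by the hypothesis; so all four values are `ψ a + ψ b`; otherwise all are zero. Finite support
    (`B` finite).
(3) `pot2` (`A = ZMod 2`): `g` of finite support with these differences. `g` is constant `= g0` on `B` (if `B ≠ ∅`; else `g0 = 0`): for
    `b, b' ∈ B` near, `nb2`: the difference is `ψ b + ψ b' = 0`; diagonal: through a common neighbour `u`: `(ψ b + ψ u) + (ψ u + ψ b') = 0`.
    `B` is connected: `{b ∈ B | g b = g b₀}` is closed under `near`-steps in `B`.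
    For `y ∈ NQ B \ B`: `g y = g0 + φ y`: if `nb2 b y`, `b ∈ B`: clear; if diagonal to `b ∈ B`, take a common neighbour `u` (both are
    `nb2`): if `u ∈ B` clear; else `u ∈ NQ B \ B`, `g u = g0 + φ u`, `g y = g u` and `φ y = φ u` by the hypothesis.
    `g a = g b` if `nb2 a b`, `a, b ∉ B`.
-/

set_option autoImplicit false

namespace Pool.Agent.H78.DB

private lemma RngP_mem {B : Finset Col} {y : Col} : y ∈ NQ B ↔ ∃ b ∈ B, near b y := by
  unfold NQ near
  simp only [Finset.mem_biUnion, Finset.mem_product, Finset.mem_Icc, abs_le]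
  constructor
  · rintro ⟨b, hb, h⟩
    exact ⟨b, hb, by omega, by omega⟩
  · rintro ⟨b, hb, h⟩
    exact ⟨b, hb, by omega, by omega⟩

private lemma RngP_nb2 {a b : Col} (h : nb2 a b) : b = a ∨ b = (a.1 + 1, a.2) ∨
    a = (b.1 + 1, b.2) ∨ b = (a.1, a.2 + 1) ∨ a = (b.1, b.2 + 1) := by
  obtain ⟨a1, a2⟩ := a
  obtain ⟨b1, b2⟩ := b
  simp only [nb2] at h
  simp only [Prod.mk.injEq]
  rcases abs_cases (a1 - b1) with h1 | h1 <;> rcases abs_cases (a2 - b2) with h2 | h2 <;> omega

private lemma RngP_near_nb2 {a b : Col} (h : near a b) : nb2 a (b.1, a.2) ∧ nb2 (b.1, a.2) b := by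
  obtain ⟨h1, h2⟩ := h
  constructor
  · unfold nb2
    simpa using h1
  · unfold nb2
    simpa using h2

private noncomputable def RngP_psi (B : Finset Col) (φ : Col → ZMod 2) (a : Col) : ZMod 2 :=
  if a ∈ NQ B ∧ a ∉ B then φ a else 0

private noncomputable def RngP_c (B : Finset Col) (φ : Col → ZMod 2) (a b : Col) : ZMod 2 :=
  if a ∈ B ∨ b ∈ B then RngP_psi B φ a + RngP_psi B φ b else 0

private lemma RngP_near_of_nb2 {a b : Col} (h : nb2 a b) : near a b := by
  unfold nb2 at h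
  have h1 := abs_nonneg (a.1 - b.1)
  have h2 := abs_nonneg (a.2 - b.2)
  exact ⟨by omega, by omega⟩

private lemma RngP_comm (B : Finset Col) (φ : Col → ZMod 2) (a b : Col) :
    RngP_c B φ a b = RngP_c B φ b a := by
  unfold RngP_c
  rw [add_comm]
  simp only [or_comm]

private lemma RngP_edge {B : Finset Col} (φ : Col → ZMod 2)
    (hφ : ∀ y y', y ∈ NQ B → y ∉ B → y' ∈ NQ B → y' ∉ B → nb2 y y' → φ y = φ y')
    {a b : Col} (hab : nb2 a b) (ha : a ∈ NQ B) (hb : b ∈ NQ B) :
    RngP_c B φ a b = RngP_psi B φ a + RngP_psi B φ b := by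
  unfold RngP_c
  split_ifs with h
  · rfl
  · push Not at h
    have h1 : RngP_psi B φ a = φ a := by
      unfold RngP_psi
      rw [if_pos ⟨ha, h.1⟩]
    have h2 : RngP_psi B φ b = φ b := by
      unfold RngP_psi
      rw [if_pos ⟨hb, h.2⟩]
    rw [h1, h2, hφ a b ha h.1 hb h.2 hab, CharTwo.add_self_eq_zero]

theorem ring_pot {B : Finset Col} (hc : Cn near (B : Set Col)) (φ : Col → ZMod 2)
    (hφ : ∀ y y', y ∈ NQ B → y ∉ B → y' ∈ NQ B → y' ∉ B → nb2 y y' → φ y = φ y') :
    ∃ (g : Col → ZMod 2) (g0 : ZMod 2), {a | g a ≠ 0}.Finite ∧ (∀ b ∈ B, g b = g0) ∧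
      (∀ y ∈ NQ B, y ∉ B → g y = g0 + φ y) ∧ ∀ a b, nb2 a b → a ∉ B → b ∉ B → g a = g b := by
  have htwo : (2 : ZMod 2) = 0 := rfl
  have hadd : ∀ x : ZMod 2, x + x = 0 := fun x => CharTwo.add_self_eq_zero x
  have hpsiB : ∀ b ∈ B, RngP_psi B φ b = 0 := by
    intro b hb
    unfold RngP_psi
    rw [if_neg (fun h => h.2 hb)]
  have hpsiN : ∀ y ∈ NQ B, y ∉ B → RngP_psi B φ y = φ y := by
    intro y hy hyB
    unfold RngP_psi
    rw [if_pos ⟨hy, hyB⟩]
  -- the cochain is closed
  have hclosed : ∀ a : Col,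
      RngP_c B φ a (a.1 + 1, a.2) + RngP_c B φ (a.1 + 1, a.2) (a.1 + 1, a.2 + 1) =
        RngP_c B φ a (a.1, a.2 + 1) + RngP_c B φ (a.1, a.2 + 1) (a.1 + 1, a.2 + 1) := by
    rintro ⟨x, y⟩
    simp only
    by_cases hB : (x, y) ∈ B ∨ (x + 1, y) ∈ B ∨ (x, y + 1) ∈ B ∨ (x + 1, y + 1) ∈ B
    · have hN : (x, y) ∈ NQ B ∧ (x + 1, y) ∈ NQ B ∧ (x, y + 1) ∈ NQ B ∧
          (x + 1, y + 1) ∈ NQ B := by
        have hex : ∃ p q : ℤ, (p, q) ∈ B ∧ x ≤ p ∧ p ≤ x + 1 ∧ y ≤ q ∧ q ≤ y + 1 := by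
          rcases hB with h | h | h | h
          · exact ⟨x, y, h, by omega⟩
          · exact ⟨x + 1, y, h, by omega⟩
          · exact ⟨x, y + 1, h, by omega⟩
          · exact ⟨x + 1, y + 1, h, by omega⟩
        obtain ⟨p, q, hpq, h1⟩ := hex
        refine ⟨RngP_mem.2 ⟨(p, q), hpq, ?_⟩, RngP_mem.2 ⟨(p, q), hpq, ?_⟩,
          RngP_mem.2 ⟨(p, q), hpq, ?_⟩, RngP_mem.2 ⟨(p, q), hpq, ?_⟩⟩ <;>
        · unfold near
          simp only [abs_le]
          omega
      obtain ⟨h00, h10, h01, h11⟩ := hN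
      rw [RngP_edge φ hφ (by simp [nb2]) h00 h10, RngP_edge φ hφ (by simp [nb2]) h10 h11,
        RngP_edge φ hφ (by simp [nb2]) h00 h01, RngP_edge φ hφ (by simp [nb2]) h01 h11]
      linear_combination (RngP_psi B φ (x + 1, y) - RngP_psi B φ (x, y + 1)) * htwo
    · push Not at hB
      obtain ⟨h00, h10, h01, h11⟩ := hB
      unfold RngP_c
      simp only [h00, h10, h01, h11, or_self, if_false]
  have hfinu : {a : Col | RngP_c B φ a (a.1 + 1, a.2) ≠ 0}.Finite := by
    refine Set.Finite.subset ((B.finite_toSet).union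
      ((B.finite_toSet).image fun b : Col => (b.1 - 1, b.2))) ?_
    intro a ha
    by_contra hn
    apply ha
    have h1 : a ∉ B := fun h => hn (Or.inl h)
    have h2 : (a.1 + 1, a.2) ∉ B := fun h => hn (Or.inr ⟨_, h, by ext <;> simp⟩)
    unfold RngP_c
    simp only [h1, h2, or_self, if_false]
  have hfinv : {a : Col | RngP_c B φ a (a.1, a.2 + 1) ≠ 0}.Finite := by
    refine Set.Finite.subset ((B.finite_toSet).union
      ((B.finite_toSet).image fun b : Col => (b.1, b.2 - 1))) ?_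
    intro a ha
    by_contra hn
    apply ha
    have h1 : a ∉ B := fun h => hn (Or.inl h)
    have h2 : (a.1, a.2 + 1) ∉ B := fun h => hn (Or.inr ⟨_, h, by ext <;> simp⟩)
    unfold RngP_c
    simp only [h1, h2, or_self, if_false]
  obtain ⟨g, hgf, hg1, hg2⟩ := pot2 (fun a => RngP_c B φ a (a.1 + 1, a.2))
    (fun a => RngP_c B φ a (a.1, a.2 + 1)) (fun a => hclosed a) hfinu hfinv
  have hnb : ∀ a b : Col, nb2 a b → g a + g b = RngP_c B φ a b := by
    intro a b hab
    rcases RngP_nb2 hab with h | h | h | h | h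
    · subst h
      rw [hadd]
      unfold RngP_c
      split_ifs
      · rw [hadd]
      · rfl
    · have h1 := hg1 a
      rw [← h] at h1
      rw [h1]
      linear_combination g a * htwo
    · have h1 := hg1 b
      rw [← h] at h1
      rw [h1, RngP_comm]
      linear_combination g b * htwo
    · have h1 := hg2 a
      rw [← h] at h1
      rw [h1]
      linear_combination g a * htwo
    · have h1 := hg2 b
      rw [← h] at h1
      rw [h1, RngP_comm]
      linear_combination g b * htwo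
  have hBnb : ∀ a b : Col, nb2 a b → a ∈ B → g a + g b = RngP_psi B φ b := by
    intro a b hab ha
    rw [hnb a b hab]
    unfold RngP_c
    rw [if_pos (Or.inl ha), hpsiB a ha, zero_add]
  have hsymm : ∀ a b : Col, nb2 a b → nb2 b a := by
    intro a b h
    unfold nb2 at h ⊢
    rwa [abs_sub_comm b.1 a.1, abs_sub_comm b.2 a.2]
  have hnear : ∀ a ∈ B, ∀ b ∈ B, near a b → g a = g b := by
    intro a ha b hb hab
    obtain ⟨h1, h2⟩ := RngP_near_nb2 hab
    have h3 := hBnb a _ h1 ha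
    have h4 := hBnb b _ (hsymm _ _ h2) hb
    linear_combination h3 - h4
  have hoff : ∀ a b, nb2 a b → a ∉ B → b ∉ B → g a = g b := by
    intro a b hab ha hb
    have h1 := hnb a b hab
    unfold RngP_c at h1
    rw [if_neg (fun h => h.elim ha hb)] at h1
    exact CharTwo.add_eq_zero.1 h1
  rcases B.eq_empty_or_nonempty with hBe | ⟨b0, hb0⟩
  · refine ⟨g, 0, hgf, ?_, ?_, hoff⟩
    · intro b hb
      rw [hBe] at hb
      exact absurd hb (Finset.notMem_empty _)
    · intro y hy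
      obtain ⟨b, hb, _⟩ := RngP_mem.1 hy
      rw [hBe] at hb
      exact absurd hb (Finset.notMem_empty _)
  · have hall : ∀ b ∈ B, g b = g b0 := by
      have hG := hc {b | b ∈ B ∧ g b = g b0} ⟨fun b hb => hb.1, fun e he f hf hef =>
        ⟨hf, by rw [← hnear e he.1 f hf hef]; exact he.2⟩⟩ ⟨b0, hb0, rfl⟩
      intro b hb
      have h1 : b ∈ {b | b ∈ B ∧ g b = g b0} := by
        rw [hG]
        exact hb
      exact h1.2
    refine ⟨g, g b0, hgf, hall, ?_, hoff⟩
    intro y hy hyB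
    obtain ⟨b, hb, hby⟩ := RngP_mem.1 hy
    obtain ⟨h1, h2⟩ := RngP_near_nb2 hby
    by_cases hu : (y.1, b.2) ∈ B
    · have h3 := hBnb _ _ h2 hu
      rw [hpsiN y hy hyB, hall _ hu] at h3
      linear_combination h3 - g b0 * htwo
    · have huN : (y.1, b.2) ∈ NQ B := RngP_mem.2 ⟨b, hb, RngP_near_of_nb2 h1⟩
      have h3 := hBnb _ _ h1 hb
      rw [hpsiN _ huN hu, hall _ hb, hφ _ _ huN hu hy hyB h2] at h3
      have h4 := hoff _ _ h2 hu hyB
      rw [← h4]
      linear_combination h3 - g b0 * htwo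

end Pool.Agent.H78.DB
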