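import Pool.Agent.H78.DB.Enr
import Pool.Agent.H78.DB.RngP

/-!
# Module Rng: the interface over a connected set of irregular columns is connected

Let `B = irr Δ` be non-empty and connected with respect to `near`, `D = {e ∈ Δ | bs e ⊆ NQ B}` (finite, `over_fin`), and `G ⊆ D` non-empty,
`Isol Ad D G`. Suppose `G ≠ D`; then `G' = D \ G` is non-empty and isolated in `D` as well. For `y ∈ NQ B \ B` let
`φ y = 1` if `ve y (HH Δ y) ∈ G`, `φ y = 0` otherwise; `φ = 0` on `B` and outside `NQ B` (values in `ZMod 2`).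
(1) If `y, y' ∈ NQ B \ B`, `nb2 y y'`, then `φ y = φ y'`: both regular, `HH Δ y = HH Δ y'` (`HH_Fl`), the edges `ve y _`, `ve y' _` are
    equal or adjacent (vertical square) and in `D`.
(2),(3) `ring_pot` (module RngP) for this `φ` (hypothesis: (1)) gives `g`, `g0`: `g` of finite support, `g = g0` on `B`, `g y = g0 + φ y` for
    `y ∈ NQ B \ B`, `g a = g b` if `nb2 a b`, `a, b ∉ B`.
(4) Every `e ∈ Δ` with `¬ bs e ⊆ NQ B` is `ve y (HH Δ y)` with `y = pr e.1 ∉ NQ B` (a base column outside `NQ B` is regular, `reg_iff`).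
    If `e ∈ Δ` is adjacent to such an edge `ve y (HH Δ y)`, `y ∉ NQ B`, then `e = ve y' (HH Δ y')` with `nb2 y y'`, `y' ∉ B` (the square
    contains the vertical edge over `y`; it is the vertical square over `y` and a neighbour `y'`, `e` is over `y'` or over `y` or
    horizontal touching `y`, which is not in `Δ`; `y' ∉ B` because `y ∉ NQ B`).
(5) Put `G* = {e ∈ Δ | (bs e ⊆ NQ B ∧ e ∈ P) ∨ (¬ bs e ⊆ NQ B ∧ g (pr e.1) = 1)}` with `P = G` if `g0 = 0` and `P = D \ G` if `g0 = 1`. In both cases,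
    for `y ∈ NQ B \ B`: `ve y (HH Δ y) ∈ P ↔ g y = 1`. `G*` is finite (`D` finite, `g` of finite support; over each `y` one edge),
    non-empty, and isolated in `Δ`: two edges over `NQ B`: `P` isolated in `D`; otherwise use (4): at least one is
    `ve y (HH Δ y)`, `y ∉ NQ B`, the other is `ve y' (HH Δ y')`, `y' ∉ B`, and `g y = g y'`. Contradiction to `Intf Δ`.
-/

set_option autoImplicit false

namespace Pool.Agent.H78.DB

open Pool.Agent.H72.DJ

private theorem Rng_sq {x : Vtx} {i j : Fin 3} {e : Edge}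
    (h : e = (x, i) ∨ e = (x, j) ∨ e = (x + unit i, j) ∨ e = (x + unit j, i)) : e ∈ sq x i j := by
  unfold sq
  simpa only [Finset.mem_insert, Finset.mem_singleton] using h

private theorem Rng_Ad0 (a : Col) (z : ℤ) (i : Fin 3) (hi : i ≠ 2) :
    Ad (ve a z) (ve (a + dirc i) z) := by
  refine ⟨(a.1, a.2, z), 2, i, fun h => hi h.symm, Rng_sq (Or.inl rfl),
    Rng_sq (Or.inr (Or.inr (Or.inr ?_)))⟩
  unfold ve
  refine Prod.ext ?_ rfl
  fin_cases i
  · simp [dirc, unit]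
  · simp [dirc, unit]
  · exact absurd rfl hi

private theorem Rng_nb {a b : Col} (h : nb2 a b) : b = a ∨ b = a + dirc 0 ∨ b = a + dirc 1 ∨
    a = b + dirc 0 ∨ a = b + dirc 1 := by
  obtain ⟨a1, a2⟩ := a
  obtain ⟨b1, b2⟩ := b
  have e0 : dirc 0 = (1, 0) := rfl
  have e1 : dirc 1 = (0, 1) := rfl
  unfold nb2 at h
  dsimp only at h
  rw [e0, e1]
  simp only [Prod.mk.injEq, Prod.mk_add_mk]
  rcases abs_cases (a1 - b1) with h1 | h1 <;> rcases abs_cases (a2 - b2) with h2 | h2 <;> omega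

private theorem Rng_Ad {a b : Col} (h : nb2 a b) (z : ℤ) : Ad (ve a z) (ve b z) := by
  rcases Rng_nb h with rfl | rfl | rfl | rfl | rfl
  · exact Ad_self _
  · exact Rng_Ad0 _ _ _ (by decide)
  · exact Rng_Ad0 _ _ _ (by decide)
  · exact (Rng_Ad0 _ _ _ (by decide)).symm
  · exact (Rng_Ad0 _ _ _ (by decide)).symm

private theorem Rng_sub {B : Finset Col} {a : Col} (ha : a ∈ B) : a ∈ NQ B :=
  mem_NQ.2 ⟨a, ha, near_self a⟩

/-- an edge of `Δ` not over `NQ B` -/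
private theorem Rng_out {Δ : Set Edge} (h : Intf Δ) {B : Finset Col} (hB : irr Δ = B) {e : Edge}
    (he : e ∈ Δ) (hn : ¬ bs e ⊆ NQ B) : ∃ y, y ∉ NQ B ∧ e = ve y (HH Δ y) := by
  rw [Finset.not_subset] at hn
  obtain ⟨y, hy, hyn⟩ := hn
  refine ⟨y, hyn, (reg_iff h.1 (a := y) ?_ hy).1 he⟩
  rw [hB]
  exact fun h' => hyn (Rng_sub h')

/-- the neighbours of an edge not over `NQ B` -/
private theorem Rng_adj {Δ : Set Edge} (h : Intf Δ) {B : Finset Col} (hB : irr Δ = B) {e : Edge}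
    (he : e ∈ Δ) {y : Col} (hy : y ∉ NQ B) (z : ℤ) (had : Ad e (ve y z)) :
    ∃ y', nb2 y' y ∧ y' ∉ B ∧ e = ve y' (HH Δ y') := by
  obtain ⟨a, ha, b, hb, hab⟩ := Ad_nb2 had
  rw [bs_ve, Finset.mem_singleton] at hb
  subst hb
  have hn : a ∉ B := fun h' => hy (mem_NQ.2 ⟨a, h', near_symm (nb2_near hab)⟩)
  refine ⟨a, hab, hn, (reg_iff h.1 (a := a) ?_ ha).1 he⟩
  rw [hB]
  exact hn

theorem ring_conn {Δ : Set Edge} (h : Intf Δ) {B : Finset Col} (hB : irr Δ = B) (hne : B.Nonempty)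
    (hc : Cn near (B : Set Col)) : Cn Ad {e | e ∈ Δ ∧ bs e ⊆ NQ B} := by
  classical
  intro G hG hGne
  by_contra hGD
  set D : Set Edge := {e | e ∈ Δ ∧ bs e ⊆ NQ B} with hD
  have hve : ∀ y ∈ NQ B, ve y (HH Δ y) ∈ D := fun y hy =>
    ⟨HH_mem h.1 y, by rw [bs_ve]; exact Finset.singleton_subset_iff.2 hy⟩
  have hHH : ∀ y y', y ∉ B → y' ∉ B → nb2 y y' → HH Δ y = HH Δ y' := fun y y' hy hy' hn =>
    HH_Fl h.1 y y' hn (by rw [hB]; exact hy) (by rw [hB]; exact hy')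
  set φ : Col → ZMod 2 := fun y => if ve y (HH Δ y) ∈ G then 1 else 0 with hφ
  have hstep : ∀ y y', y ∈ NQ B → y ∉ B → y' ∈ NQ B → y' ∉ B → nb2 y y' →
      ve y (HH Δ y) ∈ G → ve y' (HH Δ y') ∈ G := by
    intro y y' _ hyB hy' hyB' hn hmem
    refine hG.2 _ hmem _ (hve y' hy') ?_
    rw [hHH y y' hyB hyB' hn]
    exact Rng_Ad hn _
  have hφc : ∀ y y', y ∈ NQ B → y ∉ B → y' ∈ NQ B → y' ∉ B → nb2 y y' → φ y = φ y' := by
    intro y y' hy hyB hy' hyB' hn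
    have h1 : ve y (HH Δ y) ∈ G ↔ ve y' (HH Δ y') ∈ G :=
      ⟨hstep y y' hy hyB hy' hyB' hn, hstep y' y hy' hyB' hy hyB (nb2_symm hn)⟩
    simp only [hφ]
    by_cases h2 : ve y (HH Δ y) ∈ G
    · rw [if_pos h2, if_pos (h1.1 h2)]
    · rw [if_neg h2, if_neg fun h3 => h2 (h1.2 h3)]
  obtain ⟨g, g0, hgf, -, hg2, hg3⟩ := ring_pot hc φ hφc
  have h01 : ∀ x : ZMod 2, x = 0 ∨ x = 1 := by decide
  have h2 : (1 : ZMod 2) + 1 = 0 := by decide
  have h10 : (1 : ZMod 2) ≠ 0 := by decide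
  obtain ⟨P, hPD, hPne, hPI, hPg⟩ : ∃ P : Set Edge, P ⊆ D ∧ P.Nonempty ∧
      (∀ e ∈ P, ∀ f ∈ D, Ad e f → f ∈ P) ∧
      ∀ y ∈ NQ B, y ∉ B → (ve y (HH Δ y) ∈ P ↔ g y = 1) := by
    rcases h01 g0 with rfl | rfl
    · refine ⟨G, hG.1, hGne, hG.2, fun y hy hyB => ?_⟩
      rw [hg2 y hy hyB, zero_add]
      simp only [hφ]
      by_cases h3 : ve y (HH Δ y) ∈ G
      · rw [if_pos h3]
        exact ⟨fun _ => rfl, fun _ => h3⟩
      · rw [if_neg h3]
        exact ⟨fun h4 => absurd h4 h3, fun h4 => absurd h4.symm h10⟩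
    · refine ⟨D \ G, Set.sdiff_subset, ?_, ?_, fun y hy hyB => ?_⟩
      · rw [Set.sdiff_nonempty]
        exact fun h3 => hGD (Set.Subset.antisymm hG.1 h3)
      · rintro e ⟨he1, he2⟩ f hf had
        exact ⟨hf, fun h3 => he2 (hG.2 f h3 e he1 had.symm)⟩
      · rw [hg2 y hy hyB]
        simp only [hφ]
        by_cases h3 : ve y (HH Δ y) ∈ G
        · rw [if_pos h3, h2]
          exact ⟨fun h4 => absurd h3 h4.2, fun h4 => absurd h4.symm h10⟩
        · rw [if_neg h3, add_zero]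
          exact ⟨fun _ => rfl, fun _ => ⟨hve y hy, h3⟩⟩
  set G' : Set Edge := {e | e ∈ Δ ∧ ((bs e ⊆ NQ B ∧ e ∈ P) ∨ (¬ bs e ⊆ NQ B ∧ g (pr e.1) = 1))}
    with hG'
  have hprve : ∀ (a : Col) (z : ℤ), pr (ve a z).1 = a := fun _ _ => rfl
  have hfin : G'.Finite := by
    refine ((over_fin h.1 (NQ B)).union (hgf.image fun a => ve a (HH Δ a))).subset ?_
    rintro e ⟨he, he' | he'⟩
    · exact Or.inl ⟨he, he'.1⟩
    · obtain ⟨y, hy, rfl⟩ := Rng_out h hB he he'.1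
      refine Or.inr ⟨y, ?_, rfl⟩
      have h3 := he'.2
      rw [hprve] at h3
      change g y ≠ 0
      rw [h3]
      exact h10
  have hne' : G'.Nonempty := by
    obtain ⟨e, he⟩ := hPne
    exact ⟨e, (hPD he).1, Or.inl ⟨(hPD he).2, he⟩⟩
  have hiso : Isol Ad Δ G' := by
    refine ⟨fun e he => he.1, ?_⟩
    rintro e ⟨he, he' | he'⟩ f hf had
    · by_cases h3 : bs f ⊆ NQ B
      · exact ⟨hf, Or.inl ⟨h3, hPI e he'.2 f ⟨hf, h3⟩ had⟩⟩
      · obtain ⟨y, hy, rfl⟩ := Rng_out h hB hf h3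
        obtain ⟨y', hn, hy', rfl⟩ := Rng_adj h hB he hy _ had
        refine ⟨hf, Or.inr ⟨h3, ?_⟩⟩
        rw [hprve]
        have h4 : y' ∈ NQ B := he'.1 (by rw [bs_ve]; exact Finset.mem_singleton_self _)
        rw [← hg3 y' y hn hy' fun h5 => hy (Rng_sub h5)]
        exact (hPg y' h4 hy').1 he'.2
    · obtain ⟨y, hy, rfl⟩ := Rng_out h hB he he'.1
      obtain ⟨y', hn, hy', rfl⟩ := Rng_adj h hB hf hy _ had.symm
      have h4 : g y' = 1 := by
        rw [hg3 y' y hn hy' fun h5 => hy (Rng_sub h5)]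
        have h5 := he'.2
        rwa [hprve] at h5
      by_cases h3 : bs (ve y' (HH Δ y')) ⊆ NQ B
      · refine ⟨hf, Or.inl ⟨h3, (hPg y' (h3 ?_) hy').2 h4⟩⟩
        rw [bs_ve]
        exact Finset.mem_singleton_self _
      · exact ⟨hf, Or.inr ⟨h3, h4⟩⟩
  have := h.2 G' hfin hiso
  rw [this] at hne'
  exact Set.not_nonempty_empty hne'

end Pool.Agent.H78.DB
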