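import Pool.Agent.H78.DB.SLoc

/-!
# Module SBd: the bound `|sQ| ≤ τ^|Q| mQ`

If `mQ Δ Q = 0`, no `a ∈ NQ Q` is irregular (an irregular `a` has `mE Δ a ≥ nE Δ a ≥ 1`), and `sQ_zero` applies. Otherwise
`mQ Δ Q ≥ 1`. `sQ = A(Δ) - A(PP)` as in SLoc; a set `X` with `bU X = Q` has `|Q| ≤ 2 |X|` (`card_bU`), so `|X| ≥ m = (|Q| + 1) / 2` and
`(ν^2)^m ≤ ν^|Q|` (`ν ≤ 1`). By `hit_G` (`K = Q`) and `tsum_meet`: `|A(Δ)| ≤ 16 #{e ∈ Δ | bs e ⊆ NQ Q} * 2 ν^|Q| ≤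
32 (|NQ Q| + mQ Δ Q) ν^|Q|` (`over_le'`), `|A(PP)| ≤ 32 |NQ Q| ν^|Q|` (`en_PP`, `over_le`). With `|NQ Q| ≤ 9 |Q|` (`card_NQ`), `|Q| ≥ 1`, `mQ ≥ 1`:
`|sQ| ≤ 32 (18 |Q| + mQ) ν^|Q| ≤ 608 |Q| mQ ν^|Q| ≤ (1216 ν)^|Q| mQ ≤ τ^|Q| mQ` (`608 n ≤ 608 * 2^n ≤ 1216^n` for `n ≥ 1`).
-/

set_option autoImplicit false

namespace Pool.Agent.H78.DB

open Pool.Agent.H72.DJ

open Classical in
/-- the terms of `A(Δ)` -/
private noncomputable def sbd_A (Φ : Finset Edge → ℝ) (L : ℕ) (Q : Finset Col) (Δ : Set Edge)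
    (X : Finset Edge) : ℝ :=
  if ((X : Set Edge) ⊆ EL L ∧ bU X = Q) ∧ hit Δ X then Φ X else 0

private theorem sbd_bound {Φ : Finset Edge → ℝ} {ν : ℝ} (hΦ : Bulk Φ (ν ^ 2)) (h0 : 0 ≤ ν)
    (h1 : ν ≤ 1) {Δ : Set Edge} (h : PI Δ) (L : ℕ) (Q : Finset Col) :
    Summable (sbd_A Φ L Q Δ) ∧
      |∑' X, sbd_A Φ L Q Δ X| ≤ 16 * ({e | e ∈ Δ ∧ bs e ⊆ NQ Q}.ncard : ℝ) * (2 * ν ^ Q.card) := by
  classical
  obtain ⟨G, hG1, hG2⟩ := hit_G h Q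
  have hf : ∀ X, |sbd_A Φ L Q Δ X| ≤ |Φ X| := by
    intro X
    unfold sbd_A
    split_ifs
    · exact le_refl _
    · rw [abs_zero]; exact abs_nonneg _
  have hne : ∀ X, sbd_A Φ L Q Δ X ≠ 0 → bU X = Q ∧ hit Δ X := by
    intro X hX
    unfold sbd_A at hX
    split_ifs at hX with h2
    · exact ⟨h2.1.2, h2.2⟩
    · exact absurd rfl hX
  have hmeet : ∀ X, sbd_A Φ L Q Δ X ≠ 0 → ∃ g ∈ G, g ∈ X := by
    intro X hX
    obtain ⟨h2, h3⟩ := hne X hX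
    refine hG2 X (fun f hf => ?_) h3
    rw [← h2]
    exact Finset.subset_biUnion_of_mem bs hf
  have hcard : ∀ X, sbd_A Φ L Q Δ X ≠ 0 → (Q.card + 1) / 2 ≤ X.card := by
    intro X hX
    have h2 := card_bU X
    rw [(hne X hX).1] at h2
    omega
  refine ⟨summ_meet hΦ G _ hf hmeet, ?_⟩
  have h2 := tsum_meet hΦ G ((Q.card + 1) / 2) (sbd_A Φ L Q Δ) hf
    (fun X hX => ⟨hmeet X hX, hcard X hX⟩)
  refine h2.trans ?_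
  have h3 : (ν ^ 2) ^ ((Q.card + 1) / 2) ≤ ν ^ Q.card := by
    rw [← pow_mul]
    exact pow_le_pow_of_le_one h0 h1 (by omega)
  have h4 : (G.card : ℝ) ≤ 16 * ({e | e ∈ Δ ∧ bs e ⊆ NQ Q}.ncard : ℝ) := by
    exact_mod_cast hG1
  exact mul_le_mul h4 (by linarith) (by positivity) (by positivity)

private theorem sbd_split {Φ : Finset Edge → ℝ} {ν : ℝ} (hΦ : Bulk Φ (ν ^ 2)) (h0 : 0 ≤ ν)
    (h1 : ν ≤ 1) {Δ : Set Edge} (h : PI Δ) (L : ℕ) (Q : Finset Col) :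
    sQ Φ L Q Δ = (∑' X, sbd_A Φ L Q Δ X) - ∑' X, sbd_A Φ L Q PP X := by
  classical
  rw [← (sbd_bound hΦ h0 h1 h L Q).1.tsum_sub (sbd_bound hΦ h0 h1 PI_PP L Q).1]
  unfold sQ
  refine tsum_congr fun X => ?_
  unfold sbd_A chi
  by_cases h2 : (X : Set Edge) ⊆ EL L ∧ bU X = Q
  · rw [if_pos h2]
    by_cases h3 : hit Δ X <;> by_cases h4 : hit PP X <;> simp [h2, h3, h4]
  · rw [if_neg h2, if_neg (fun h3 => h2 h3.1), if_neg (fun h3 => h2 h3.1), sub_zero]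

private theorem sbd_zero {Δ : Set Edge} (h : PI Δ) {Q : Finset Col} (hm : mQ Δ Q = 0) :
    ∀ a ∈ NQ Q, a ∉ irr Δ := by
  intro a ha hi
  unfold mQ at hm
  rw [Finset.sum_eq_zero_iff] at hm
  have h1 := hm a ha
  unfold mx at h1
  rw [if_pos hi] at h1
  have h2 := nE_pos h a
  have h3 := nE_le_mE h a
  omega

theorem sQ_le {Φ : Finset Edge → ℝ} {ν τ : ℝ} (hΦ : Bulk Φ (ν ^ 2)) (h0 : 0 ≤ ν) (h1 : ν ≤ 1)
    (hτ : 1216 * ν ≤ τ) {Δ : Set Edge} (h : PI Δ) (L : ℕ) {Q : Finset Col} (hne : Q.Nonempty)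
    (hQ : Cn nb2 (Q : Set Col)) : |sQ Φ L Q Δ| ≤ τ ^ Q.card * mQ Δ Q := by
  by_cases hm : mQ Δ Q = 0
  · rw [sQ_zero hΦ h L hQ (sbd_zero h hm), hm, abs_zero, Nat.cast_zero, mul_zero]
  · have hM : (1 : ℝ) ≤ (mQ Δ Q : ℝ) := by exact_mod_cast Nat.one_le_iff_ne_zero.2 hm
    have hn0 : 1 ≤ Q.card := Finset.card_pos.2 hne
    have hn : (1 : ℝ) ≤ (Q.card : ℝ) := by exact_mod_cast hn0
    have e1 := (sbd_bound hΦ h0 h1 h L Q).2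
    have e2 := (sbd_bound hΦ h0 h1 PI_PP L Q).2
    have e3 : ({e | e ∈ Δ ∧ bs e ⊆ NQ Q}.ncard : ℝ) ≤ 9 * Q.card + mQ Δ Q := by
      have h2 := over_le' h (NQ Q)
      have h3 := card_NQ Q
      have h4 : {e | e ∈ Δ ∧ bs e ⊆ NQ Q}.ncard ≤ 9 * Q.card + mQ Δ Q := by
        unfold mQ
        omega
      exact_mod_cast h4
    have e4 : ({e | e ∈ PP ∧ bs e ⊆ NQ Q}.ncard : ℝ) ≤ 9 * Q.card := by
      have h2 := over_le PI_PP (NQ Q)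
      have h3 := card_NQ Q
      rw [en_PP] at h2
      have h4 : {e | e ∈ PP ∧ bs e ⊆ NQ Q}.ncard ≤ 9 * Q.card := by omega
      exact_mod_cast h4
    have hp : 0 ≤ ν ^ Q.card := pow_nonneg h0 _
    have e5 : |sQ Φ L Q Δ| ≤ 32 * (18 * (Q.card : ℝ) + mQ Δ Q) * ν ^ Q.card := by
      rw [sbd_split hΦ h0 h1 h L Q]
      refine (abs_sub _ _).trans ?_
      have f1 : 16 * ({e | e ∈ Δ ∧ bs e ⊆ NQ Q}.ncard : ℝ) * (2 * ν ^ Q.card) ≤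
          16 * (9 * Q.card + mQ Δ Q) * (2 * ν ^ Q.card) := by
        refine mul_le_mul_of_nonneg_right ?_ (by positivity)
        linarith
      have f2 : 16 * ({e | e ∈ PP ∧ bs e ⊆ NQ Q}.ncard : ℝ) * (2 * ν ^ Q.card) ≤
          16 * (9 * Q.card) * (2 * ν ^ Q.card) := by
        refine mul_le_mul_of_nonneg_right ?_ (by positivity)
        linarith
      nlinarith [e1, e2, f1, f2]
    refine e5.trans ?_
    have e6 : 32 * (18 * (Q.card : ℝ) + mQ Δ Q) ≤ 608 * (Q.card : ℝ) * mQ Δ Q := by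
      nlinarith [mul_nonneg (sub_nonneg.2 hn) (sub_nonneg.2 hM)]
    have e7 : 608 * (Q.card : ℝ) ≤ 1216 ^ Q.card := by
      have h2 : (Q.card : ℝ) ≤ 2 ^ Q.card := by
        exact_mod_cast (Nat.lt_two_pow_self (n := Q.card)).le
      have h3 : (608 : ℝ) ≤ 608 ^ Q.card := by
        calc (608 : ℝ) = 608 ^ 1 := by norm_num
          _ ≤ 608 ^ Q.card := pow_le_pow_right₀ (by norm_num) hn0
      have h4 : (1216 : ℝ) ^ Q.card = 608 ^ Q.card * 2 ^ Q.card := by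
        rw [← mul_pow]; norm_num
      rw [h4]
      exact mul_le_mul h3 h2 (by positivity) (by positivity)
    have e8 : (1216 * ν) ^ Q.card ≤ τ ^ Q.card :=
      pow_le_pow_left₀ (by positivity) hτ _
    have hM0 : (0 : ℝ) ≤ (mQ Δ Q : ℝ) := by linarith
    calc 32 * (18 * (Q.card : ℝ) + mQ Δ Q) * ν ^ Q.card
        ≤ 608 * (Q.card : ℝ) * mQ Δ Q * ν ^ Q.card := mul_le_mul_of_nonneg_right e6 hp
      _ ≤ 1216 ^ Q.card * mQ Δ Q * ν ^ Q.card :=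
          mul_le_mul_of_nonneg_right (mul_le_mul_of_nonneg_right e7 hM0) hp
      _ = (1216 * ν) ^ Q.card * mQ Δ Q := by rw [mul_pow]; ring
      _ ≤ τ ^ Q.card * mQ Δ Q := mul_le_mul_of_nonneg_right e8 hM0

theorem fQ_nonneg {Φ : Finset Edge → ℝ} {ν τ : ℝ} (hΦ : Bulk Φ (ν ^ 2)) (h0 : 0 ≤ ν) (h1 : ν ≤ 1)
    (hτ : 1216 * ν ≤ τ) {Δ : Set Edge} (h : PI Δ) (L : ℕ) {Q : Finset Col} (hne : Q.Nonempty)
    (hQ : Cn nb2 (Q : Set Col)) : 0 ≤ fQ Φ τ L Q Δ := by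
  have h2 := (le_abs_self _).trans (sQ_le hΦ h0 h1 hτ h L hne hQ)
  unfold fQ
  have h3 := Real.add_one_le_exp (τ ^ Q.card * (mQ Δ Q : ℝ) - sQ Φ L Q Δ)
  linarith

theorem fQ_le {Φ : Finset Edge → ℝ} {ν τ : ℝ} (hΦ : Bulk Φ (ν ^ 2)) (h0 : 0 ≤ ν) (h1 : ν ≤ 1)
    (hτ : 1216 * ν ≤ τ) {Δ : Set Edge} (h : PI Δ) (L : ℕ) {Q : Finset Col} (hne : Q.Nonempty)
    (hQ : Cn nb2 (Q : Set Col)) : fQ Φ τ L Q Δ ≤ Real.exp (2 * (τ ^ Q.card * mQ Δ Q)) - 1 := by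
  have h2 := (neg_abs_le _).trans' (neg_le_neg (sQ_le hΦ h0 h1 hτ h L hne hQ))
  unfold fQ
  have h3 : Real.exp (τ ^ Q.card * (mQ Δ Q : ℝ) - sQ Φ L Q Δ) ≤
      Real.exp (2 * (τ ^ Q.card * mQ Δ Q)) := Real.exp_le_exp.2 (by linarith)
  linarith

end Pool.Agent.H78.DB
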