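import Pool.Agent.H78.DB.SumL
import Pool.Agent.H78.DB.GlA

/-!
# Module SLoc: locality and shift invariance of the decorations

Put `A(Δ) = ∑' X, if X ⊆ EL L ∧ bU X = Q ∧ hit Δ X then Φ X else 0`. `sQ Φ L Q Δ = A(Δ) - A(PP)`: both sums are summable by `hit_G`
(`K = Q`, `bs f ⊆ bU X = Q`) and `summ_meet`. `sQ_loc`: `A(Δ) = A(Δ')`: reindex by the equivalence `X ↦ X.image (sh s)` (inverse with `-s`,
`Equiv.tsum_eq`): `X ⊆ EL L ↔ X.image (sh s) ⊆ EL L` (`sh_EL`), `bU` is unchanged (`bs_sh`), `Φ` is unchanged (`Bulk.shift`), and for `bU X = Q`: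
`hit Δ X ↔ hit Δ' (X.image (sh s))`: if `f ∈ X`, `e ∈ Δ`, `Ad e f` then `bs e ⊆ NQ Q` (`Ad_near`), so `sh s e ∈ Δ'`, `Ad_sh`; conversely
for `e' ∈ Δ'` take `e = sh (-s) e'`.
`sQ_zero`: `Q = ∅`: `bU X = ∅` means `X = ∅` and `chi _ ∅ = 0`. Otherwise `HH Δ` is constant `= s` on `NQ Q` (`NQ_conn`,
`const_of_conn`, `HH_Fl`), so by `reg_iff` `e ∈ Δ ↔ e.2 = 2 ∧ e.1.2.2 = s ↔ sh (-s) e ∈ PP` for `bs e ⊆ NQ Q`; `sQ_loc` with `Δ' = PP`, and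
`chi PP X = 0`.
`Gl.sQ_eq`: `NQ Q` is disjoint from `S₂` (`Sp`, `mem_NQ`), `HH Δ₂` is constant `= s` on it, and `e ∈ Δ ↔ sh (-s) e ∈ Δ₁` for `bs e ⊆ NQ Q` (`g1`);
`sQ_loc`. `Gl.mQ_eq`: `Gl.mx_eq` for all `a ∈ NQ Q`. `Gl.fQ_eq`: both.
-/

set_option autoImplicit false

namespace Pool.Agent.H78.DB

open Pool.Agent.H72.DJ

variable {Φ : Finset Edge → ℝ} {μ : ℝ}

open Classical in
/-- the part of the sum over the sets hitting `Δ` -/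
private noncomputable def sA (Φ : Finset Edge → ℝ) (L : ℕ) (Q : Finset Col) (Δ : Set Edge)
    (X : Finset Edge) : ℝ :=
  if ((X : Set Edge) ⊆ EL L ∧ bU X = Q) ∧ hit Δ X then Φ X else 0

private theorem sA_summable (hΦ : Bulk Φ μ) {Δ : Set Edge} (h : PI Δ) (L : ℕ) (Q : Finset Col) :
    Summable (sA Φ L Q Δ) := by
  obtain ⟨G, -, hG⟩ := hit_G h Q
  refine summ_meet hΦ G _ ?_ ?_
  · intro X
    unfold sA
    split_ifs
    · exact le_rfl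
    · rw [abs_zero]; exact abs_nonneg _
  · intro X hX
    unfold sA at hX
    by_cases h1 : ((X : Set Edge) ⊆ EL L ∧ bU X = Q) ∧ hit Δ X
    · refine hG X ?_ h1.2
      intro f hf
      rw [← h1.1.2]
      exact Finset.subset_biUnion_of_mem bs hf
    · rw [if_neg h1] at hX
      exact absurd rfl hX

private theorem sQ_eq (hΦ : Bulk Φ μ) {Δ : Set Edge} (h : PI Δ) (L : ℕ) (Q : Finset Col) :
    sQ Φ L Q Δ = ∑' X, sA Φ L Q Δ X - ∑' X, sA Φ L Q PP X := by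
  rw [← (sA_summable hΦ h L Q).tsum_sub (sA_summable hΦ PI_PP L Q)]
  unfold sQ
  refine tsum_congr fun X => ?_
  unfold sA chi
  by_cases h1 : (X : Set Edge) ⊆ EL L ∧ bU X = Q
  · by_cases h2 : hit Δ X <;> by_cases h3 : hit PP X <;> simp [h1, h2, h3]
  · simp [h1]

private theorem mem_bU {X : Finset Edge} {a : Col} : a ∈ bU X ↔ ∃ e ∈ X, a ∈ bs e := by
  unfold bU
  rw [Finset.mem_biUnion]

private theorem sh_cancel (s : ℤ) (e : Edge) : sh (-s) (sh s e) = e := by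
  rw [sh_sh, neg_add_cancel, sh_zero]

private theorem sh_cancel' (s : ℤ) (e : Edge) : sh s (sh (-s) e) = e := by
  rw [sh_sh, add_neg_cancel, sh_zero]

/-- translation as a permutation of the finite sets of edges -/
private def shE (s : ℤ) : Finset Edge ≃ Finset Edge where
  toFun X := X.image (sh s)
  invFun X := X.image (sh (-s))
  left_inv X := by
    ext e
    simp only [Finset.mem_image]
    constructor
    · rintro ⟨f, ⟨g, hg, rfl⟩, rfl⟩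
      rw [sh_cancel]; exact hg
    · intro he
      exact ⟨sh s e, ⟨e, he, rfl⟩, sh_cancel s e⟩
  right_inv X := by
    ext e
    simp only [Finset.mem_image]
    constructor
    · rintro ⟨f, ⟨g, hg, rfl⟩, rfl⟩
      rw [sh_cancel']; exact hg
    · intro he
      exact ⟨sh (-s) e, ⟨e, he, rfl⟩, sh_cancel' s e⟩

private theorem bU_sh (s : ℤ) (X : Finset Edge) : bU (X.image (sh s)) = bU X := by
  ext a
  rw [mem_bU, mem_bU]
  constructor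
  · rintro ⟨e, he, ha⟩
    rw [Finset.mem_image] at he
    obtain ⟨f, hf, rfl⟩ := he
    rw [bs_sh] at ha
    exact ⟨f, hf, ha⟩
  · rintro ⟨e, he, ha⟩
    exact ⟨sh s e, Finset.mem_image_of_mem _ he, by rw [bs_sh]; exact ha⟩

private theorem EL_sh (s : ℤ) (L : ℕ) (X : Finset Edge) :
    ((X.image (sh s) : Finset Edge) : Set Edge) ⊆ EL L ↔ (X : Set Edge) ⊆ EL L := by
  constructor
  · intro h e he
    have h1 := h (Finset.mem_coe.2 (Finset.mem_image_of_mem (sh s) (Finset.mem_coe.1 he)))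
    rwa [sh_EL] at h1
  · intro h e he
    rw [Finset.mem_coe, Finset.mem_image] at he
    obtain ⟨f, hf, rfl⟩ := he
    rw [sh_EL]
    exact h (Finset.mem_coe.2 hf)

private theorem hit_sh {Δ Δ' : Set Edge} {Q : Finset Col} {s : ℤ}
    (hs : ∀ e, bs e ⊆ NQ Q → (e ∈ Δ ↔ sh s e ∈ Δ')) {X : Finset Edge} (hX : bU X = Q) :
    hit Δ' (X.image (sh s)) ↔ hit Δ X := by
  have key : ∀ f ∈ X, ∀ e, Ad e f → bs e ⊆ NQ Q := by
    intro f hf e hef a ha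
    rw [mem_NQ]
    refine ⟨pr f.1, ?_, Ad_near hef ha (pr_mem_bs f)⟩
    rw [← hX, mem_bU]
    exact ⟨f, hf, pr_mem_bs f⟩
  constructor
  · rintro ⟨f', hf', e', he', had⟩
    rw [Finset.mem_image] at hf'
    obtain ⟨f, hf, rfl⟩ := hf'
    have h1 : Ad (sh (-s) e') f := by
      rw [← Ad_sh s, sh_cancel']
      exact had
    refine ⟨f, hf, sh (-s) e', ?_, h1⟩
    rw [hs _ (key f hf _ h1), sh_cancel']
    exact he'
  · rintro ⟨f, hf, e, he, had⟩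
    refine ⟨sh s f, Finset.mem_image_of_mem _ hf, sh s e, ?_, ?_⟩
    · exact (hs e (key f hf e had)).1 he
    · rw [Ad_sh]; exact had

theorem sQ_loc (hΦ : Bulk Φ μ) {Δ Δ' : Set Edge} (h : PI Δ) (h' : PI Δ') (L : ℕ) (Q : Finset Col)
    (s : ℤ) (hs : ∀ e, bs e ⊆ NQ Q → (e ∈ Δ ↔ sh s e ∈ Δ')) : sQ Φ L Q Δ = sQ Φ L Q Δ' := by
  rw [sQ_eq hΦ h, sQ_eq hΦ h']
  congr 1
  rw [← (shE s).tsum_eq (sA Φ L Q Δ')]
  refine tsum_congr fun X => ?_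
  have e0 : shE s X = X.image (sh s) := rfl
  unfold sA
  rw [e0, EL_sh, bU_sh, hΦ.shift]
  by_cases h1 : (X : Set Edge) ⊆ EL L ∧ bU X = Q
  · rw [hit_sh hs h1.2]
  · rw [if_neg (fun h2 => h1 h2.1), if_neg (fun h2 => h1 h2.1)]

private theorem sQ_PP (Φ : Finset Edge → ℝ) (L : ℕ) (Q : Finset Col) : sQ Φ L Q PP = 0 := by
  unfold sQ
  rw [← tsum_zero (α := ℝ) (β := Finset Edge)]
  refine tsum_congr fun X => ?_
  unfold chi
  simp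

private theorem flat_shift {Δ : Set Edge} (h : PI Δ) {Q : Finset Col} {s : ℤ}
    (hd : ∀ a ∈ NQ Q, a ∉ irr Δ) (hs : ∀ a ∈ NQ Q, HH Δ a = s) (e : Edge) (he : bs e ⊆ NQ Q) :
    e ∈ Δ ↔ sh (-s) e ∈ PP := by
  have h1 := he (pr_mem_bs e)
  rw [reg_iff h (hd _ h1) (pr_mem_bs e), hs _ h1, sh_PP, neg_neg]
  constructor
  · intro h2
    rw [h2]
    exact ⟨rfl, rfl⟩
  · rintro ⟨h2, h3⟩
    have h4 := eq_ve h2 (pr_mem_bs e)
    rw [h3] at h4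
    exact h4

theorem sQ_zero (hΦ : Bulk Φ μ) {Δ : Set Edge} (h : PI Δ) (L : ℕ) {Q : Finset Col}
    (hQ : Cn nb2 (Q : Set Col)) (hd : ∀ a ∈ NQ Q, a ∉ irr Δ) : sQ Φ L Q Δ = 0 := by
  obtain ⟨s, hs⟩ : ∃ s, ∀ a ∈ NQ Q, HH Δ a = s := by
    rcases (NQ Q).eq_empty_or_nonempty with h0 | ⟨a0, h0⟩
    · refine ⟨0, fun a ha => ?_⟩
      rw [h0] at ha
      exact absurd ha (Finset.notMem_empty a)
    · exact ⟨HH Δ a0, fun a ha => const_of_conn (HH_Fl h) (NQ_conn hQ) hd ha h0⟩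
  rw [sQ_loc hΦ h PI_PP L Q (-s) (flat_shift h hd hs), sQ_PP]

variable {S₁ S₂ : Finset Col} {Δ Δ₁ Δ₂ : Set Edge}

private theorem NQ_disj (hS : Sp S₁ S₂) {Q : Finset Col} (hQS : Q ⊆ S₁) {a : Col}
    (ha : a ∈ NQ Q) : a ∉ S₂ := by
  intro h2
  rw [mem_NQ] at ha
  obtain ⟨b, hb, hab⟩ := ha
  exact hS b (hQS hb) a h2 (near_symm hab)

theorem Gl.sQ_eq (h : Gl S₁ S₂ Δ Δ₁ Δ₂) (hΦ : Bulk Φ μ) (L : ℕ) {Q : Finset Col}
    (hQ : Cn nb2 (Q : Set Col)) (hQS : Q ⊆ S₁) : sQ Φ L Q Δ = sQ Φ L Q Δ₁ := by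
  have hd : ∀ a ∈ NQ Q, a ∉ S₂ := fun a ha => NQ_disj h.sp hQS ha
  obtain ⟨s, hs⟩ : ∃ s, ∀ a ∈ NQ Q, HH Δ₂ a = s := by
    rcases (NQ Q).eq_empty_or_nonempty with h0 | ⟨a0, h0⟩
    · refine ⟨0, fun a ha => ?_⟩
      rw [h0] at ha
      exact absurd ha (Finset.notMem_empty a)
    · exact ⟨HH Δ₂ a0, fun a ha => const_of_conn ((HH_Fl h.pi2).mono h.i2) (NQ_conn hQ) hd ha h0⟩
  refine sQ_loc hΦ h.pi h.pi1 L Q (-s) ?_
  intro e he
  have h1 : ¬ To S₂ e := by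
    rintro ⟨a, ha, ha2⟩
    exact hd a (he ha) ha2
  rw [h.g1 e h1, hs _ (he (pr_mem_bs e))]

theorem Gl.mQ_eq (h : Gl S₁ S₂ Δ Δ₁ Δ₂) {Q : Finset Col} (hQS : Q ⊆ S₁) : mQ Δ Q = mQ Δ₁ Q := by
  unfold mQ
  exact Finset.sum_congr rfl fun a ha => h.mx_eq (NQ_disj h.sp hQS ha)

theorem Gl.fQ_eq (h : Gl S₁ S₂ Δ Δ₁ Δ₂) (hΦ : Bulk Φ μ) (τ : ℝ) (L : ℕ) {Q : Finset Col}
    (hQ : Cn nb2 (Q : Set Col)) (hQS : Q ⊆ S₁) : fQ Φ τ L Q Δ = fQ Φ τ L Q Δ₁ := by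
  unfold fQ
  rw [h.sQ_eq hΦ L hQ hQS, h.mQ_eq hQS]

end Pool.Agent.H78.DB
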