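import Pool.Agent.H78.DB.Fvd
import Pool.Agent.H78.DB.Fve
import Pool.Agent.H78.DB.Enr
import Pool.Agent.H72.DJ.Geo

/-!
# Module Shl: if a boundary cluster does not touch the box, the interface is long

Let `ω = extend L M η`, `F = {e ∈ edges L M | ω e = false}`, so `clo ω = F ∪ out L M`. Suppose `¬ touchTop L M ω`. For `1 ≤ z ≤ M` the edge `e_z = ((L,0,z), 0)` joins
`(L,0,z)` in the box and `(L+1,0,z)` outside, the latter is reachable from `(0,0,M+1)` (`reach_top`); so `e_z` is closed: `e_z ∈ F`. `e_1` is adjacent to the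
edge `ve (L+1,0) 0 ∈ out L M` (square at `(L,0,0)` with directions `0, 2`), and `e_(z+1)` to `e_z` (square at `(L,0,z)`). So if a finite `G` isolated in
`F ∪ out L M` contained some `e_z`, it would contain `e_1` (going down) and the edge of `out L M`, contradiction to `out_iso`. If `¬ touchBot`: the same
with `e_z`, `-M ≤ z ≤ 0`: `e_0` is adjacent to `ve (L+1,0) 0`.
Let `D ⊆ F` and suppose that every edge of `F \ D` lies in a finite set isolated in `F ∪ out L M` (as in `fv_dec`, where `F = D ∪ F'`, `¬ hit (D ∪ out) F'`,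
`F'` being isolated). Then all `e_z` are in `D`, at least `M` horizontal edges starting over the column `(L,0)`; with the vertical edge
`ve (L,0) (HH Δ (L,0))` this gives `nE Δ (L,0) ≥ M + 1`, `Δ = D ∪ out L M`, so `en Δ ≥ M` (`(L,0)` is irregular if `M ≥ 1`; `en_sum`).
-/

set_option autoImplicit false

namespace Pool.Agent.H78.DB

open Pool.Agent.H72.DJ

private theorem Shl_edge (L : ℕ) (z : ℤ) :
    (((L : ℤ), (0 : ℤ), z) : Vtx) + unit 0 = (((L : ℤ) + 1, (0 : ℤ), z) : Vtx) := by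
  simp [unit]

private theorem Shl_up (a b z : ℤ) : ((a, b, z) : Vtx) + unit 2 = (a, b, z + 1) := by
  simp [unit]

private theorem Shl_notbox (L M : ℕ) (z : ℤ) : (((L : ℤ) + 1, (0 : ℤ), z) : Vtx) ∉ box L M := by
  rw [mem_box]
  simp only
  omega

private theorem Shl_box {L M : ℕ} {z : ℤ} (h1 : -(M : ℤ) ≤ z) (h2 : z ≤ M) :
    (((L : ℤ), (0 : ℤ), z) : Vtx) ∈ box L M := by
  rw [mem_box]
  simp only
  omega

private theorem Shl_out (L M : ℕ) : ((((L : ℤ) + 1, (0 : ℤ), (0 : ℤ)) : Vtx), (2 : Fin 3)) ∈ out L M := by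
  refine ⟨⟨rfl, rfl⟩, ?_⟩
  rw [Finset.mem_coe, mem_edges]
  rintro (h | h)
  · exact Shl_notbox L M 0 h
  · simp only at h
    rw [Shl_up] at h
    exact Shl_notbox L M _ h

private theorem Shl_adj (L : ℕ) (z : ℤ) :
    Ad ((((L : ℤ), (0 : ℤ), z) : Vtx), (0 : Fin 3)) ((((L : ℤ), (0 : ℤ), z + 1) : Vtx), (0 : Fin 3)) := by
  refine ⟨((L : ℤ), 0, z), 0, 2, by decide, ?_, ?_⟩
  · simp [sq]
  · have h := Shl_up (L : ℤ) 0 z
    simp only [sq, Finset.mem_insert, Finset.mem_singleton]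
    right; right; right
    rw [h]

private theorem Shl_adj' (L : ℕ) (z : ℤ) :
    Ad ((((L : ℤ), (0 : ℤ), z + 1) : Vtx), (0 : Fin 3)) ((((L : ℤ), (0 : ℤ), z) : Vtx), (0 : Fin 3)) := by
  obtain ⟨x, i, j, h, h1, h2⟩ := Shl_adj L z
  exact ⟨x, i, j, h, h2, h1⟩

private theorem Shl_ad0 (L : ℕ) :
    Ad ((((L : ℤ) + 1, (0 : ℤ), (0 : ℤ)) : Vtx), (2 : Fin 3)) ((((L : ℤ), (0 : ℤ), (0 : ℤ)) : Vtx), (0 : Fin 3)) := by
  refine ⟨((L : ℤ), 0, 0), 0, 2, by decide, ?_, ?_⟩
  · simp only [sq, Finset.mem_insert, Finset.mem_singleton]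
    right; right; left
    rw [Shl_edge]
  · simp [sq]

private theorem Shl_ad1 (L : ℕ) :
    Ad ((((L : ℤ) + 1, (0 : ℤ), (0 : ℤ)) : Vtx), (2 : Fin 3)) ((((L : ℤ), (0 : ℤ), (1 : ℤ)) : Vtx), (0 : Fin 3)) := by
  refine ⟨((L : ℤ), 0, 0), 0, 2, by decide, ?_, ?_⟩
  · simp only [sq, Finset.mem_insert, Finset.mem_singleton]
    right; right; left
    rw [Shl_edge]
  · have h := Shl_up (L : ℤ) 0 0
    simp only [sq, Finset.mem_insert, Finset.mem_singleton]
    right; right; right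
    rw [h, zero_add]

private theorem Shl_closed {L M : ℕ} (η : edges L M → Bool) {z : ℤ} (h1 : -(M : ℤ) ≤ z)
    (h2 : z ≤ M) {y : Vtx}
    (hr : (openGraph (extend L M η)).Reachable (((L : ℤ) + 1, (0 : ℤ), z) : Vtx) y)
    (hn : ¬ ∃ x ∈ box L M, (openGraph (extend L M η)).Reachable x y) :
    ((((L : ℤ), (0 : ℤ), z) : Vtx), (0 : Fin 3)) ∈ clo (extend L M η) := by
  by_contra hcon
  have h3 : extend L M η ((((L : ℤ), (0 : ℤ), z) : Vtx), (0 : Fin 3)) = true := by
    cases h4 : extend L M η ((((L : ℤ), (0 : ℤ), z) : Vtx), (0 : Fin 3)) with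
    | true => rfl
    | false => exact absurd h4 hcon
  refine hn ⟨_, Shl_box h1 h2, SimpleGraph.Reachable.trans ?_ hr⟩
  exact SimpleGraph.Adj.reachable ⟨0, Or.inl ⟨(Shl_edge L z).symm, h3⟩⟩

private theorem Shl_mem {L M : ℕ} {ω : Conf} {D F' : Finset Edge}
    (hF : clo ω = ((D ∪ F' : Finset Edge) : Set Edge) ∪ out L M)
    (hh : ¬ hit ((D : Set Edge) ∪ out L M) F') {z : ℤ}
    (hc : ((((L : ℤ), (0 : ℤ), z) : Vtx), (0 : Fin 3)) ∈ clo ω)
    {e : Edge} (he : e ∈ (D : Set Edge) ∪ out L M)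
    (ha : Ad e ((((L : ℤ), (0 : ℤ), z) : Vtx), (0 : Fin 3))) :
    ((((L : ℤ), (0 : ℤ), z) : Vtx), (0 : Fin 3)) ∈ D := by
  rw [hF] at hc
  rcases hc with hc | hc
  · rw [Finset.mem_coe, Finset.mem_union] at hc
    rcases hc with hc | hc
    · exact hc
    · exact absurd ⟨_, hc, e, he, ha⟩ hh
  · exact absurd (show (0 : Fin 3) = 2 from hc.1.1) (by decide)

theorem shell {L M : ℕ} (η : edges L M → Bool)
    (ht : ¬ (touchTop L M (extend L M η) ∧ touchBot L M (extend L M η)))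
    {D F' : Finset Edge} (hF : clo (extend L M η) = ((D ∪ F' : Finset Edge) : Set Edge) ∪ out L M)
    (hD : D ⊆ edges L M) (hF' : F' ⊆ edges L M) (hI : Intf ((D : Set Edge) ∪ out L M))
    (hh : ¬ hit ((D : Set Edge) ∪ out L M) F') : M ≤ en ((D : Set Edge) ∪ out L M) := by
  classical
  have key : ∃ g : ℕ → ℤ, Function.Injective g ∧
      ∀ k < M, ((((L : ℤ), (0 : ℤ), g k) : Vtx), (0 : Fin 3)) ∈ D := by
    rcases not_and_or.1 ht with h | h
    · refine ⟨fun k => (k : ℤ) + 1, fun a b hab => by simpa using hab, fun k => ?_⟩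
      have hcl : ∀ k : ℕ, k < M →
          ((((L : ℤ), (0 : ℤ), (k : ℤ) + 1) : Vtx), (0 : Fin 3)) ∈ clo (extend L M η) := fun k hk =>
        Shl_closed η (by omega) (by omega)
          (reach_top η (Shl_notbox L M _) (by simp only; omega)) h
      induction k with
      | zero =>
        intro hk
        have h1 := hcl 0 hk
        simp only [Nat.cast_zero, zero_add] at h1 ⊢
        exact Shl_mem hF hh h1 (Or.inr (Shl_out L M)) (Shl_ad1 L)
      | succ k ih =>
        intro hk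
        have h1 := hcl (k + 1) hk
        have h2 := ih (by omega)
        have h3 : ((k + 1 : ℕ) : ℤ) + 1 = ((k : ℤ) + 1) + 1 := by push_cast; ring
        simp only [h3] at h1 ⊢
        exact Shl_mem hF hh h1 (Or.inl (Finset.mem_coe.2 h2)) (Shl_adj L _)
    · refine ⟨fun k => -(k : ℤ), fun a b hab => by simpa using hab, fun k => ?_⟩
      have hcl : ∀ k : ℕ, k < M →
          ((((L : ℤ), (0 : ℤ), -(k : ℤ)) : Vtx), (0 : Fin 3)) ∈ clo (extend L M η) := fun k hk =>
        Shl_closed η (by omega) (by omega)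
          (reach_bot η (Shl_notbox L M _) (by simp only; omega)) h
      induction k with
      | zero =>
        intro hk
        have h1 := hcl 0 hk
        simp only [Nat.cast_zero, neg_zero] at h1 ⊢
        exact Shl_mem hF hh h1 (Or.inr (Shl_out L M)) (Shl_ad0 L)
      | succ k ih =>
        intro hk
        have h1 := hcl (k + 1) hk
        have h2 := ih (by omega)
        have h3 : -(k : ℤ) = -((k + 1 : ℕ) : ℤ) + 1 := by push_cast; ring
        simp only [h3] at h2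
        exact Shl_mem hF hh h1 (Or.inl (Finset.mem_coe.2 h2)) (Shl_adj' L _)
  obtain ⟨g, hg, hgD⟩ := key
  have hPI : PI ((D : Set Edge) ∪ out L M) := hI.1
  set Δ : Set Edge := (D : Set Edge) ∪ out L M with hΔ
  have hfin : {e | e ∈ Δ ∧ pr e.1 = ((L : ℤ), (0 : ℤ))}.Finite :=
    (sec_fin hPI {((L : ℤ), (0 : ℤ))}).subset fun e he =>
      ⟨he.1, pr e.1, pr_mem_bs e, by rw [he.2]; exact Finset.mem_singleton_self _⟩
  have h1 : M + 1 ≤ nE Δ ((L : ℤ), (0 : ℤ)) := by
    rw [nE, Set.ncard_eq_toFinset_card _ hfin]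
    have h2 : ve ((L : ℤ), (0 : ℤ)) (HH Δ ((L : ℤ), (0 : ℤ))) ∉
        (Finset.range M).image fun k => ((((L : ℤ), (0 : ℤ), g k) : Vtx), (0 : Fin 3)) := by
      intro h3
      obtain ⟨k, -, hk⟩ := Finset.mem_image.1 h3
      have h4 := congrArg Prod.snd hk
      simp only [ve] at h4
      exact absurd h4 (by decide)
    have h5 : (insert (ve ((L : ℤ), (0 : ℤ)) (HH Δ ((L : ℤ), (0 : ℤ))))
        ((Finset.range M).image fun k => ((((L : ℤ), (0 : ℤ), g k) : Vtx), (0 : Fin 3)))).card = M + 1 := by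
      rw [Finset.card_insert_of_notMem h2, Finset.card_image_of_injective, Finset.card_range]
      intro a b hab
      simp only [Prod.mk.injEq] at hab
      exact hg hab.1.2.2
    rw [← h5]
    refine Finset.card_le_card fun e he => ?_
    rw [Set.Finite.mem_toFinset]
    rw [Finset.mem_insert, Finset.mem_image] at he
    rcases he with rfl | ⟨k, hk, rfl⟩
    · exact ⟨HH_mem hPI _, rfl⟩
    · exact ⟨Or.inl (Finset.mem_coe.2 (hgD k (Finset.mem_range.1 hk))), rfl⟩
  have h6 := en_sum hPI (K := insert ((L : ℤ), (0 : ℤ)) (irr Δ)) (Finset.subset_insert _ _)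
  have h7 : nE Δ ((L : ℤ), (0 : ℤ)) - 1 ≤ en Δ := by
    rw [h6]
    exact Finset.single_le_sum (f := fun a => nE Δ a - 1) (fun _ _ => Nat.zero_le _)
      (Finset.mem_insert_self _ _)
  omega

end Pool.Agent.H78.DB
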