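import Pool.Agent.H78.DB.SplS

/-!
# Module SplE: one half of the splitting of an interface

Given `PI Δ`, `irr Δ ⊆ S₁ ∪ S₂`, and `σ₁`, `σ₂` as in `split_height` for `H = HH Δ`, put
`Δ₁ = {e | if To S₂ e then e.2 = 2 ∧ e.1.2.2 = σ₁ (pr e.1) else sh (σ₂ (pr e.1)) e ∈ Δ}` (`half`).
* `irr Δ₁ ⊆ S₁` and `HH Δ₁ = σ₁`: let `a ∈ S₂`: all edges with `a` in the base touch `S₂`, so `ve a z ∈ Δ₁ ↔ z = σ₁ a` and there is
  no horizontal edge: regular, `HH Δ₁ a = σ₁ a` (`reg_of`). Let `a ∉ S₂`: `ve a z ∈ Δ₁ ↔ ve a (z + σ₂ a) ∈ Δ`, so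
  `HH Δ₁ a = HH Δ a - σ₂ a = σ₁ a` (`HH_eq`, `HH_mem`, `HH_le`); if moreover `a ∉ S₁`, then `a` is regular for `Δ` and
  `ve a z ∈ Δ₁ ↔ z = σ₁ a`; a horizontal `e` with `a ∈ bs e` is not in `Δ₁`: clear if it touches `S₂`, otherwise
  `sh _ e ∈ Δ` contradicts `reg_iff`.
* finite difference to the plane: outside finitely many columns `σ₁ = σ₂ = 0` and `Δ` is the plane; over the others finitely many
  edges (as in GluE).
* separating: `c₁ e = if To S₂ e then (1 if e.2 = 2 ∧ e.1.2.2 = σ₁ (pr e.1) else 0) else c (sh (σ₂ (pr e.1)) e)`; closed by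
  `cl_loc`: a square not touching `S₂`: constant shift `σ₂ (pr x)` of `c` (`sq_const`); a square not touching `S₁`: on all its edges
  `c₁` is the indicator of the vertical edges at height `σ₁ (pr x)`: for the edges touching `S₂` by definition
  (`bs_const`, `sq_const`), for the others (touching neither) by `sep_reg`: `c (sh (σ₂ a) e) = 1` iff `e = ve a (HH Δ a - σ₂ a)
  = ve a (σ₁ a)`; closed by `cl_flat`.
-/

set_option autoImplicit false

namespace Pool.Agent.H78.DB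

open Pool.Agent.H72.DJ

open Classical in
/-- the first part of `Δ` -/
def half (S₂ : Finset Col) (σ₁ σ₂ : Col → ℤ) (Δ : Set Edge) : Set Edge :=
  {e | if To S₂ e then e.2 = 2 ∧ e.1.2.2 = σ₁ (pr e.1) else sh (σ₂ (pr e.1)) e ∈ Δ}

private theorem sple_yes {S₂ : Finset Col} {σ₁ σ₂ : Col → ℤ} {Δ : Set Edge} {e : Edge}
    (h : To S₂ e) : e ∈ half S₂ σ₁ σ₂ Δ ↔ e.2 = 2 ∧ e.1.2.2 = σ₁ (pr e.1) := by
  unfold half
  rw [Set.mem_ofPred_eq, if_pos h]

private theorem sple_no {S₂ : Finset Col} {σ₁ σ₂ : Col → ℤ} {Δ : Set Edge} {e : Edge}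
    (h : ¬ To S₂ e) : e ∈ half S₂ σ₁ σ₂ Δ ↔ sh (σ₂ (pr e.1)) e ∈ Δ := by
  unfold half
  rw [Set.mem_ofPred_eq, if_neg h]

private theorem sple_to {S : Finset Col} {a : Col} {z : ℤ} : To S (ve a z) ↔ a ∈ S := by
  unfold To
  rw [bs_ve]
  simp

private theorem sple_fin {Δ : Set Edge} (h : PI Δ) (S₂ : Finset Col) (σ₁ σ₂ : Col → ℤ)
    (T : Finset Col) : {e | e ∈ half S₂ σ₁ σ₂ Δ ∧ pr e.1 ∈ T}.Finite := by
  have h1 : ((fun a => ve a (σ₁ a)) '' (T : Set Col)).Finite := T.finite_toSet.image _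
  have h2 : ((fun e' : Edge => sh (-σ₂ (pr e'.1)) e') '' {e | e ∈ Δ ∧ To T e}).Finite :=
    (sec_fin h T).image _
  refine (h1.union h2).subset ?_
  rintro e ⟨he, hT⟩
  by_cases hS : To S₂ e
  · left
    have h3 := (sple_yes hS).1 he
    refine ⟨pr e.1, hT, ?_⟩
    show ve (pr e.1) (σ₁ (pr e.1)) = e
    rw [← h3.2]
    exact (eq_ve h3.1 (pr_mem_bs e)).symm
  · right
    have h3 := (sple_no hS).1 he
    refine ⟨sh (σ₂ (pr e.1)) e, ⟨h3, (To_sh _ _).2 ⟨pr e.1, pr_mem_bs e, hT⟩⟩, ?_⟩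
    show sh (-σ₂ (pr (sh (σ₂ (pr e.1)) e).1)) (sh (σ₂ (pr e.1)) e) = e
    rw [pr_sh, sh_sh, neg_add_cancel, sh_zero]

private theorem sple_PP (T : Finset Col) : {e | e ∈ PP ∧ pr e.1 ∈ T}.Finite := by
  refine (sec_fin PI_PP T).subset ?_
  rintro e ⟨he, hT⟩
  exact ⟨he, pr e.1, pr_mem_bs e, hT⟩

private theorem sple_ve {a : Col} {e : Edge} (s t : ℤ) :
    sh s e = ve a (t + s) ↔ e = ve a t := by
  constructor
  · intro h
    apply sh_inj s
    rw [h, ve_sh]
  · intro h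
    rw [h, ve_sh]

theorem half_spec {S₁ S₂ : Finset Col} (hS : Sp S₁ S₂) {Δ : Set Edge} (h : PI Δ)
    (hi : irr Δ ⊆ S₁ ∪ S₂) {σ₁ σ₂ : Col → ℤ} (f₁ : {a | σ₁ a ≠ 0}.Finite)
    (f₂ : {a | σ₂ a ≠ 0}.Finite) (l₁ : Fl S₁ σ₁) (l₂ : Fl S₂ σ₂) (hs : ∀ a, HH Δ a = σ₁ a + σ₂ a) :
    PI (half S₂ σ₁ σ₂ Δ) ∧ irr (half S₂ σ₁ σ₂ Δ) ⊆ S₁ ∧ ∀ a, HH (half S₂ σ₁ σ₂ Δ) a = σ₁ a := by
  classical
  set D := half S₂ σ₁ σ₂ Δ with hD
  -- columns in `S₂`
  have hA : ∀ a ∈ S₂, Reg D a ∧ HH D a = σ₁ a := by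
    intro a ha
    refine reg_of (fun z => ?_) fun e he hae => ?_
    · rw [hD, sple_yes (sple_to.2 ha)]
      constructor
      · exact fun h1 => h1.2
      · exact fun h1 => ⟨rfl, h1⟩
    · exact ((sple_yes ⟨a, hae, ha⟩).1 he).1
  have hv : ∀ a, a ∉ S₂ → ∀ z, ve a z ∈ D ↔ ve a (z + σ₂ a) ∈ Δ := by
    intro a ha z
    rw [hD, sple_no (fun h1 => ha (sple_to.1 h1))]
    show sh (σ₂ a) (ve a z) ∈ Δ ↔ _
    rw [ve_sh]
  have hB : ∀ a, a ∉ S₂ → HH D a = σ₁ a := by
    intro a ha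
    refine HH_eq ?_ fun z hz => ?_
    · rw [hv a ha, ← hs]
      exact HH_mem h a
    · rw [hv a ha] at hz
      have := HH_le h hz
      rw [hs] at this
      linarith
  have hC : ∀ a, a ∉ S₁ → a ∉ S₂ → Reg D a := by
    intro a h1 h2
    have hr : a ∉ irr Δ := fun h3 => by
      rcases Finset.mem_union.1 (hi h3) with h4 | h4
      · exact h1 h4
      · exact h2 h4
    refine (reg_of (s := σ₁ a) (fun z => ?_) fun e he hae => ?_).1
    · rw [hv a h2, reg_iff h hr (by rw [bs_ve]; simp), hs]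
      constructor
      · intro h3
        have := ve_inj a h3
        linarith
      · intro h3
        rw [h3]
    · by_cases h3 : To S₂ e
      · exact ((sple_yes h3).1 he).1
      · have h4 := (sple_no h3).1 he
        rw [reg_iff h hr (by rw [bs_sh]; exact hae)] at h4
        have h5 := congrArg Prod.snd h4
        exact h5
  -- finite difference to the plane
  have hfin : {e | ¬ (e ∈ D ↔ e ∈ PP)}.Finite := by
    obtain ⟨T, hT⟩ := flat_off h
    let T' : Finset Col := T ∪ f₁.toFinset ∪ f₂.toFinset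
    refine ((sple_fin h S₂ σ₁ σ₂ T').union (sple_PP T')).subset ?_
    intro e he
    have hmem : pr e.1 ∈ T' := by
      by_contra hn
      simp only [T', Finset.mem_union, Set.Finite.mem_toFinset, Set.mem_ofPred_eq, not_or,
        not_not] at hn
      obtain ⟨⟨n1, n2⟩, n3⟩ := hn
      apply he
      by_cases h3 : To S₂ e
      · rw [hD, sple_yes h3, n2]
        exact Iff.rfl
      · rw [hD, sple_no h3, n3, sh_zero]
        exact hT _ n1 e (pr_mem_bs e)
    by_cases h3 : e ∈ D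
    · exact Or.inl ⟨h3, hmem⟩
    · by_cases h4 : e ∈ PP
      · exact Or.inr ⟨h4, hmem⟩
      · exact absurd (iff_of_false h3 h4) he
  -- separating
  have hsep : Sep D := by
    obtain ⟨c, hc⟩ := h.2
    let c₁ : Edge → ZMod 2 := fun e => if To S₂ e then
      (if e.2 = 2 ∧ e.1.2.2 = σ₁ (pr e.1) then 1 else 0) else c (sh (σ₂ (pr e.1)) e)
    have y1 : ∀ e, To S₂ e → c₁ e = if e.2 = 2 ∧ e.1.2.2 = σ₁ (pr e.1) then 1 else 0 :=
      fun e he => if_pos he
    have y2 : ∀ e, ¬ To S₂ e → c₁ e = c (sh (σ₂ (pr e.1)) e) := fun e he => if_neg he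
    have hsupp : ∀ e, c₁ e ≠ 0 → e ∈ D := by
      intro e he
      by_cases h3 : To S₂ e
      · rw [hD, sple_yes h3]
        rw [y1 e h3] at he
        by_contra hn
        exact he (if_neg hn)
      · rw [hD, sple_no h3]
        rw [y2 e h3] at he
        exact hc.2.1 _ he
    refine ⟨c₁, ?_, hsupp, ?_⟩
    · apply cl_loc
      intro x i j hij
      rcases sq_case hS (x := x) hij with hq | hq
      · refine ⟨_, 0, cl_flat (σ₁ (pr x)), fun e he => ?_⟩
        rw [sh_zero]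
        have e1 : σ₁ (pr e.1) = σ₁ (pr x) := sq_const l₁ hij hq he (pr_mem_bs e)
        by_cases h3 : To S₂ e
        · rw [y1 e h3, e1]
        · rw [y2 e h3]
          have ha : pr e.1 ∈ bs e := pr_mem_bs e
          have hr : pr e.1 ∉ irr Δ := fun h4 => by
            rcases Finset.mem_union.1 (hi h4) with h5 | h5
            · exact hq e he ⟨_, ha, h5⟩
            · exact h3 ⟨_, ha, h5⟩
          obtain ⟨g1, g2⟩ := sep_reg h hc hr
          have hk : sh (σ₂ (pr e.1)) e = ve (pr e.1) (HH Δ (pr e.1)) ↔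
              e.2 = 2 ∧ e.1.2.2 = σ₁ (pr x) := by
            rw [hs, sple_ve, ← e1]
            constructor
            · intro h4
              refine ⟨congrArg Prod.snd h4, ?_⟩
              exact congrArg (fun f : Edge => f.1.2.2) h4
            · rintro ⟨h4, h5⟩
              rw [← h5]
              exact eq_ve h4 ha
          by_cases h4 : sh (σ₂ (pr e.1)) e = ve (pr e.1) (HH Δ (pr e.1))
          · rw [if_pos (hk.1 h4), h4, g1]
          · rw [if_neg (fun h5 => h4 (hk.2 h5))]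
            exact g2 _ (by rw [bs_sh]; exact ha) h4
      · refine ⟨c, σ₂ (pr x), hc.1, fun e he => ?_⟩
        rw [y2 e (hq e he), sq_const l₂ hij hq he (pr_mem_bs e)]
    · let T' : Finset Col := hc.2.2.toFinset.image (fun e => pr e.1) ∪ f₁.toFinset ∪ f₂.toFinset
      refine ((sple_fin h S₂ σ₁ σ₂ T').union (sple_PP T')).subset ?_
      intro e he
      have hmem : pr e.1 ∈ T' := by
        by_contra hn
        simp only [T', Finset.mem_union, Finset.mem_image, Set.Finite.mem_toFinset,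
          Set.mem_ofPred_eq, not_or, not_not, not_exists, not_and] at hn
        obtain ⟨⟨n1, n2⟩, n3⟩ := hn
        apply he
        by_cases h3 : To S₂ e
        · rw [y1 e h3, n2]
          by_cases h5 : e.2 = 2 ∧ e.1.2.2 = 0
          · rw [if_pos h5, if_pos (show e ∈ PP from h5)]
          · rw [if_neg h5, if_neg (show e ∉ PP from h5)]
        · rw [y2 e h3, n3, sh_zero]
          by_contra h4
          exact n1 e h4 rfl
      by_cases h3 : e ∈ PP
      · exact Or.inr ⟨h3, hmem⟩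
      · refine Or.inl ⟨hsupp e fun h4 => he ?_, hmem⟩
        rw [h4, if_neg h3]
  have hPI : PI D := ⟨hfin, hsep⟩
  refine ⟨hPI, ?_, ?_⟩
  · intro a ha
    by_contra hn
    rw [mem_irr hPI] at ha
    by_cases h2 : a ∈ S₂
    · exact ha (hA a h2).1
    · exact ha (hC a hn h2)
  · intro a
    by_cases h2 : a ∈ S₂
    · exact (hA a h2).2
    · exact hB a h2

end Pool.Agent.H78.DB
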