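import Pool.Agent.H78.DB.BscB
import Pool.Agent.H78.DB.Pot2

/-!
# Module SplS: splitting the height function

Let `H` be `Fl (S₁ ∪ S₂)` with finite support, `Sp S₁ S₂`. Then `H = σ₁ + σ₂` with `σ_i` of finite support and `Fl S_i`.
Let `u a = H (a.1+1,a.2) - H a` if `a ∈ S₁` or `(a.1+1,a.2) ∈ S₁`, and `0` otherwise; `v a` in the same way with
`(a.1,a.2+1)`. Closedness `u a + v (a.1+1,a.2) = v a + u (a.1,a.2+1)`: the four columns of the square `a, a+(1,0), a+(0,1),
a+(1,1)` are pairwise near, so (`Sp`) none of them is in `S₁`: all four terms are zero; or none of them is in `S₂`: then the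
terms of the edges not touching `S₁` would be the difference of `H` over an edge touching neither, which is `0` by `Fl`, so all
four terms are the differences of `H` and the identity is clear. `pot2` gives `σ₁` with these differences. `σ₂ = H - σ₁`.
`Fl S₁ σ₁`: for `nb2 a b`, `a, b ∉ S₁`: `a = b` or `b = a ± (1,0)` or `a ± (0,1)`, the difference is `u` or `v` of an edge
not touching `S₁`. `Fl S₂ σ₂`: the difference over an edge touching `S₁` is `0` by construction, over an edge touching neither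
`0 - 0`.
-/

set_option autoImplicit false

namespace Pool.Agent.H78.DB

open Pool.Agent.H72.DJ

/-- the four cases of nearest neighbours -/
private theorem SplS_cases {a b : Col} (h : nb2 a b) : a = b ∨ b = (a.1 + 1, a.2) ∨
    b = (a.1, a.2 + 1) ∨ a = (b.1 + 1, b.2) ∨ a = (b.1, b.2 + 1) := by
  obtain ⟨x, y⟩ := a
  obtain ⟨z, w⟩ := b
  unfold nb2 at h
  simp only [Prod.mk.injEq] at h ⊢
  rcases abs_cases (x - z) with h1 | h1 <;> rcases abs_cases (y - w) with h2 | h2 <;> omega

private theorem SplS_nbx (a : Col) : nb2 a (a.1 + 1, a.2) := by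
  unfold nb2
  simp

private theorem SplS_nby (a : Col) : nb2 a (a.1, a.2 + 1) := by
  unfold nb2
  simp

open Classical in
/-- the difference of `H` over an edge touching `S` -/
private noncomputable def SplS_D (S : Finset Col) (H : Col → ℤ) (p q : Col) : ℤ :=
  if p ∈ S ∨ q ∈ S then H q - H p else 0

private theorem SplS_D_eq {S₁ S₂ : Finset Col} {H : Col → ℤ} (hH : Fl (S₁ ∪ S₂) H) {p q : Col}
    (hn : nb2 p q) (hp : p ∉ S₂) (hq : q ∉ S₂) : SplS_D S₁ H p q = H q - H p := by
  unfold SplS_D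
  split_ifs with h
  · rfl
  · rw [not_or] at h
    have := hH p q hn (by simp [h.1, hp]) (by simp [h.2, hq])
    omega

private theorem SplS_D_zero {S : Finset Col} {H : Col → ℤ} {p q : Col}
    (hp : p ∉ S) (hq : q ∉ S) : SplS_D S H p q = 0 := by
  unfold SplS_D
  rw [if_neg]
  rw [not_or]
  exact ⟨hp, hq⟩

private theorem SplS_closed {S₁ S₂ : Finset Col} (hS : Sp S₁ S₂) {H : Col → ℤ}
    (hH : Fl (S₁ ∪ S₂) H) (a : Col) :
    SplS_D S₁ H a (a.1 + 1, a.2) + SplS_D S₁ H (a.1 + 1, a.2) (a.1 + 1, a.2 + 1) =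
      SplS_D S₁ H a (a.1, a.2 + 1) + SplS_D S₁ H (a.1, a.2 + 1) (a.1 + 1, a.2 + 1) := by
  obtain ⟨x, y⟩ := a
  show SplS_D S₁ H (x, y) (x + 1, y) + SplS_D S₁ H (x + 1, y) (x + 1, y + 1) =
      SplS_D S₁ H (x, y) (x, y + 1) + SplS_D S₁ H (x, y + 1) (x + 1, y + 1)
  by_cases hT : ∃ p ∈ S₁, (x ≤ p.1 ∧ p.1 ≤ x + 1) ∧ y ≤ p.2 ∧ p.2 ≤ y + 1
  · obtain ⟨p, hp, ⟨h1, h2⟩, h3, h4⟩ := hT
    have key : ∀ z w : ℤ, x ≤ z → z ≤ x + 1 → y ≤ w → w ≤ y + 1 → (z, w) ∉ S₂ := by
      intro z w h5 h6 h7 h8 h9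
      refine hS p hp (z, w) h9 ?_
      unfold near
      constructor
      · show |p.1 - z| ≤ 1
        rw [abs_le]
        omega
      · show |p.2 - w| ≤ 1
        rw [abs_le]
        omega
    have k1 := key x y (by omega) (by omega) (by omega) (by omega)
    have k2 := key (x + 1) y (by omega) (by omega) (by omega) (by omega)
    have k3 := key x (y + 1) (by omega) (by omega) (by omega) (by omega)
    have k4 := key (x + 1) (y + 1) (by omega) (by omega) (by omega) (by omega)
    rw [SplS_D_eq hH (SplS_nbx (x, y)) k1 k2, SplS_D_eq hH (SplS_nby (x + 1, y)) k2 k4,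
      SplS_D_eq hH (SplS_nby (x, y)) k1 k3, SplS_D_eq hH (SplS_nbx (x, y + 1)) k3 k4]
    ring
  · have key : ∀ z w : ℤ, x ≤ z → z ≤ x + 1 → y ≤ w → w ≤ y + 1 → (z, w) ∉ S₁ := by
      intro z w h5 h6 h7 h8 h9
      exact hT ⟨(z, w), h9, ⟨h5, h6⟩, h7, h8⟩
    have k1 := key x y (by omega) (by omega) (by omega) (by omega)
    have k2 := key (x + 1) y (by omega) (by omega) (by omega) (by omega)
    have k3 := key x (y + 1) (by omega) (by omega) (by omega) (by omega)
    have k4 := key (x + 1) (y + 1) (by omega) (by omega) (by omega) (by omega)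
    rw [SplS_D_zero k1 k2, SplS_D_zero k2 k4, SplS_D_zero k1 k3, SplS_D_zero k3 k4]

theorem split_height {S₁ S₂ : Finset Col} (hS : Sp S₁ S₂) {H : Col → ℤ} (hH : Fl (S₁ ∪ S₂) H)
    (hf : {a | H a ≠ 0}.Finite) : ∃ σ₁ σ₂ : Col → ℤ, {a | σ₁ a ≠ 0}.Finite ∧
      {a | σ₂ a ≠ 0}.Finite ∧ Fl S₁ σ₁ ∧ Fl S₂ σ₂ ∧ ∀ a, H a = σ₁ a + σ₂ a := by
  have hu : {a : Col | SplS_D S₁ H a (a.1 + 1, a.2) ≠ 0}.Finite := by
    have h1 : {a : Col | (a.1 + 1, a.2) ∈ S₁}.Finite := by
      refine Set.Finite.preimage (f := fun a : Col => ((a.1 + 1, a.2) : Col)) ?_ S₁.finite_toSet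
      intro a _ b _ hab
      simp only [Prod.mk.injEq, add_left_inj] at hab
      exact Prod.ext hab.1 hab.2
    refine (S₁.finite_toSet.union h1).subset ?_
    intro a ha
    by_contra hn
    rw [Set.mem_union, not_or] at hn
    exact ha (SplS_D_zero (by simpa using hn.1) (by simpa using hn.2))
  have hv : {a : Col | SplS_D S₁ H a (a.1, a.2 + 1) ≠ 0}.Finite := by
    have h1 : {a : Col | (a.1, a.2 + 1) ∈ S₁}.Finite := by
      refine Set.Finite.preimage (f := fun a : Col => ((a.1, a.2 + 1) : Col)) ?_ S₁.finite_toSet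
      intro a _ b _ hab
      simp only [Prod.mk.injEq, add_left_inj] at hab
      exact Prod.ext hab.1 hab.2
    refine (S₁.finite_toSet.union h1).subset ?_
    intro a ha
    by_contra hn
    rw [Set.mem_union, not_or] at hn
    exact ha (SplS_D_zero (by simpa using hn.1) (by simpa using hn.2))
  obtain ⟨g, hg, hgx, hgy⟩ := pot2 (fun a : Col => SplS_D S₁ H a (a.1 + 1, a.2))
    (fun a : Col => SplS_D S₁ H a (a.1, a.2 + 1)) (fun a => SplS_closed hS hH a) hu hv
  refine ⟨g, fun a => H a - g a, hg, ?_, ?_, ?_, fun a => by ring⟩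
  · refine (hf.union hg).subset ?_
    intro a ha
    by_contra hn
    rw [Set.mem_union, not_or] at hn
    have e1 : H a = 0 := not_not.1 hn.1
    have e2 : g a = 0 := not_not.1 hn.2
    apply ha
    show H a - g a = 0
    rw [e1, e2, sub_zero]
  · intro a b hab ha hb
    rcases SplS_cases hab with h | h | h | h | h
    · rw [h]
    · subst h
      rw [hgx a, SplS_D_zero ha hb, add_zero]
    · subst h
      rw [hgy a, SplS_D_zero ha hb, add_zero]
    · subst h
      rw [hgx b, SplS_D_zero hb ha, add_zero]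
    · subst h
      rw [hgy b, SplS_D_zero hb ha, add_zero]
  · intro a b hab ha hb
    show H a - g a = H b - g b
    rcases SplS_cases hab with h | h | h | h | h
    · rw [h]
    · subst h
      rw [hgx a, SplS_D_eq hH (SplS_nbx a) ha hb]
      ring
    · subst h
      rw [hgy a, SplS_D_eq hH (SplS_nby a) ha hb]
      ring
    · subst h
      rw [hgx b, SplS_D_eq hH (SplS_nbx b) hb ha]
      ring
    · subst h
      rw [hgy b, SplS_D_eq hH (SplS_nby b) hb ha]
      ring

end Pool.Agent.H78.DB
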