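import Pool.Agent.H78.DB.Enr

/-!
# Module SumL: sums over sets of edges meeting a finite set

`sum_meet`: `∑ |Φ X| ≤ ∑_{g ∈ G} ∑_{X ∋ g} |Φ X|` and `Bulk.sum`. `tsum_meet`: the terms with index not in a finite family are
controlled by `sum_meet` (`summable_of_sum_le` for `|f|`, then `Summable.of_abs`; `tsum_le_of_sum_le`, `abs_tsum_le`...).
`hit_G`: `G = ⋃ adF e` over the finite set (`over_fin`) of the `e ∈ Δ` with `bs e ⊆ NQ K`: if `f ∈ X`, `bs f ⊆ K`, `e ∈ Δ`, `Ad e f`, then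
`bs e ⊆ NQ K` (`Ad_near`, `mem_NQ`) and `f ∈ adF e` (`mem_adF`); `adF_card`.
-/

set_option autoImplicit false

namespace Pool.Agent.H78.DB

open Pool.Agent.H72.DJ

variable {Φ : Finset Edge → ℝ} {μ : ℝ}

theorem sum_meet (h : Bulk Φ μ) (G : Finset Edge) (m : ℕ) (𝒳 : Finset (Finset Edge))
    (hX : ∀ X ∈ 𝒳, (∃ g ∈ G, g ∈ X) ∧ m ≤ X.card) : ∑ X ∈ 𝒳, |Φ X| ≤ G.card * (2 * μ ^ m) := by
  classical
  calc ∑ X ∈ 𝒳, |Φ X| ≤ ∑ X ∈ 𝒳, ∑ g ∈ G, (if g ∈ X then |Φ X| else 0) := by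
        refine Finset.sum_le_sum fun X hX' => ?_
        obtain ⟨⟨g, hg, hgX⟩, -⟩ := hX X hX'
        have h1 : (if g ∈ X then |Φ X| else 0) ≤ ∑ g ∈ G, (if g ∈ X then |Φ X| else 0) :=
          Finset.single_le_sum (f := fun g => if g ∈ X then |Φ X| else 0)
            (fun g _ => by
              split_ifs
              · exact abs_nonneg _
              · exact le_rfl) hg
        rw [if_pos hgX] at h1
        exact h1
    _ = ∑ g ∈ G, ∑ X ∈ 𝒳, (if g ∈ X then |Φ X| else 0) := Finset.sum_comm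
    _ = ∑ g ∈ G, ∑ X ∈ 𝒳.filter (fun X => g ∈ X), |Φ X| :=
        Finset.sum_congr rfl fun g _ => (Finset.sum_filter _ _).symm
    _ ≤ ∑ _g ∈ G, 2 * μ ^ m := by
        refine Finset.sum_le_sum fun g _ => h.sum g m _ fun X hX' => ?_
        rw [Finset.mem_filter] at hX'
        exact ⟨hX'.2, (hX X hX'.1).2⟩
    _ = G.card * (2 * μ ^ m) := by rw [Finset.sum_const, nsmul_eq_mul]

private theorem SumL_aux (h : Bulk Φ μ) (G : Finset Edge) (m : ℕ) (f : Finset Edge → ℝ)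
    (hf : ∀ X, |f X| ≤ |Φ X|) (h0 : ∀ X, f X ≠ 0 → (∃ g ∈ G, g ∈ X) ∧ m ≤ X.card)
    (u : Finset (Finset Edge)) : ∑ X ∈ u, |f X| ≤ G.card * (2 * μ ^ m) := by
  classical
  have h1 : ∑ X ∈ u, |f X| = ∑ X ∈ u.filter (fun X => f X ≠ 0), |f X| := by
    rw [Finset.sum_filter_of_ne]
    intro X _ hX hX0
    exact hX (by rw [hX0, abs_zero])
  rw [h1]
  refine (Finset.sum_le_sum fun X _ => hf X).trans ?_
  exact sum_meet h G m _ fun X hX => h0 X (Finset.mem_filter.1 hX).2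

theorem summ_meet (h : Bulk Φ μ) (G : Finset Edge) (f : Finset Edge → ℝ) (hf : ∀ X, |f X| ≤ |Φ X|)
    (h0 : ∀ X, f X ≠ 0 → ∃ g ∈ G, g ∈ X) : Summable f := by
  have h1 : Summable fun X => |f X| :=
    summable_of_sum_le (fun X => abs_nonneg _) (SumL_aux h G 0 f hf fun X hX => ⟨h0 X hX, Nat.zero_le _⟩)
  exact h1.of_abs

theorem tsum_meet (h : Bulk Φ μ) (G : Finset Edge) (m : ℕ) (f : Finset Edge → ℝ)
    (hf : ∀ X, |f X| ≤ |Φ X|) (h0 : ∀ X, f X ≠ 0 → (∃ g ∈ G, g ∈ X) ∧ m ≤ X.card) :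
    |∑' X, f X| ≤ G.card * (2 * μ ^ m) := by
  have h1 : Summable fun X => |f X| :=
    summable_of_sum_le (fun X => abs_nonneg _) (SumL_aux h G m f hf h0)
  have h1' : Summable fun X => ‖f X‖ := by simpa only [Real.norm_eq_abs] using h1
  have h2 : |∑' X, f X| ≤ ∑' X, |f X| := by
    have h3 := norm_tsum_le_tsum_norm h1'
    simpa only [Real.norm_eq_abs] using h3
  exact h2.trans (h1.tsum_le_of_sum_le (SumL_aux h G m f hf h0))

theorem hit_G {Δ : Set Edge} (h : PI Δ) (K : Finset Col) : ∃ G : Finset Edge,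
    G.card ≤ 16 * {e | e ∈ Δ ∧ bs e ⊆ NQ K}.ncard ∧
      ∀ X : Finset Edge, (∀ f ∈ X, bs f ⊆ K) → hit Δ X → ∃ g ∈ G, g ∈ X := by
  classical
  refine ⟨(over_fin h (NQ K)).toFinset.biUnion adF, ?_, ?_⟩
  · rw [Set.ncard_eq_toFinset_card _ (over_fin h (NQ K)), mul_comm]
    exact Finset.card_biUnion_le_card_mul _ _ _ fun e _ => adF_card e
  · rintro X hX ⟨f, hf, e, he, had⟩
    refine ⟨f, ?_, hf⟩
    rw [Finset.mem_biUnion]
    refine ⟨e, ?_, mem_adF.2 had⟩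
    rw [Set.Finite.mem_toFinset]
    refine ⟨he, fun a ha => ?_⟩
    rw [mem_NQ]
    exact ⟨pr f.1, hX f hf (pr_mem_bs f), Ad_near had ha (pr_mem_bs f)⟩

end Pool.Agent.H78.DB
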