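import Pool.Agent.H78.DB.Cmp

/-!
# Module SwB: probability of a component

The pairs `(S, S')` of subsets of `R` for which `C` is a component of `S ∪ S'`: the map `(S, S') ↦ ((S ∩ C, S' ∩ C), (S \ C, S' \ C))` is injective, with
`(S ∩ C) ∪ (S' ∩ C) = C`, `S \ C, S' \ C ⊆ R`, and `a S = a (S ∩ C) a (S \ C)` (`Sp C ((S ∪ S') \ C)`, `Sp.mono`, `mul`). So the sum is at most
`(∑_{S₁ ∪ S₁' = C} a S₁ a' S₁') * (∑_{S ⊆ R} a S) (∑_{S ⊆ R} a' S)`, and `∑_{S₁ ∪ S₁' = C} ε^(|S₁| + |S₁'|) ≤ (3ε)^|C|` for `0 ≤ ε ≤ 1`: the pairs with union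
`C` number `3^|C|` (or: induction over `C`; each element is in `S₁` only, `S₁'` only or both, weights `ε, ε, ε²`), each has
`|S₁| + |S₁'| ≥ |C|`. (The number of pairs with union `C`: at most `3^|C|`, e.g. by the injection to the functions `C → Fin 3`.)
-/

set_option autoImplicit false

namespace Pool.Agent.H78.DB

private theorem SwB_card1 (C S : Finset Col) :
    (C.powerset.filter (fun T => S ∪ T = C)).card ≤ 2 ^ S.card := by
  rw [← Finset.card_powerset]
  apply Finset.card_le_card_of_injOn (fun T => T ∩ S)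
  · intro T _
    exact Finset.mem_coe.2 (Finset.mem_powerset.2 Finset.inter_subset_right)
  · intro T hT T' hT' h
    have hT1 : S ∪ T = C := (Finset.mem_filter.1 (Finset.mem_coe.1 hT)).2
    have hT2 : S ∪ T' = C := (Finset.mem_filter.1 (Finset.mem_coe.1 hT')).2
    have h' : T ∩ S = T' ∩ S := h
    ext x
    by_cases hx : x ∈ S
    · constructor
      · intro hxT
        have : x ∈ T' ∩ S := by rw [← h']; exact Finset.mem_inter.2 ⟨hxT, hx⟩
        exact (Finset.mem_inter.1 this).1
      · intro hxT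
        have : x ∈ T ∩ S := by rw [h']; exact Finset.mem_inter.2 ⟨hxT, hx⟩
        exact (Finset.mem_inter.1 this).1
    · constructor
      · intro hxT
        have : x ∈ S ∪ T' := by rw [hT2, ← hT1]; exact Finset.mem_union_right _ hxT
        rcases Finset.mem_union.1 this with h1 | h1
        · exact absurd h1 hx
        · exact h1
      · intro hxT
        have : x ∈ S ∪ T := by rw [hT1, ← hT2]; exact Finset.mem_union_right _ hxT
        rcases Finset.mem_union.1 this with h1 | h1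
        · exact absurd h1 hx
        · exact h1

private theorem SwB_card (C : Finset Col) :
    ((C.powerset ×ˢ C.powerset).filter (fun P => P.1 ∪ P.2 = C)).card ≤ 3 ^ C.card := by
  have h1 : ((C.powerset ×ˢ C.powerset).filter (fun P => P.1 ∪ P.2 = C)).card
      = ∑ S ∈ C.powerset, (C.powerset.filter (fun T => S ∪ T = C)).card := by
    rw [Finset.card_filter, Finset.sum_product]
    apply Finset.sum_congr rfl
    intro S _
    rw [Finset.card_filter]
  rw [h1]
  calc ∑ S ∈ C.powerset, (C.powerset.filter (fun T => S ∪ T = C)).card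
      ≤ ∑ S ∈ C.powerset, 2 ^ S.card * 1 ^ (C.card - S.card) := by
        apply Finset.sum_le_sum
        intro S _
        rw [one_pow, mul_one]
        exact SwB_card1 C S
    _ = (2 + 1) ^ C.card := Finset.sum_pow_mul_eq_add_pow 2 1 C
    _ = 3 ^ C.card := by norm_num

open Classical in
theorem sw_comp {K : Finset Col} {L : ℕ} {C₀ ε : ℝ} {a a' aF aF' : Finset Col → ℝ}
    (h : Sw K L C₀ ε a a' aF aF') (hε : ε ≤ 1) (R C : Finset Col) :
    ∑ P ∈ (R.powerset ×ˢ R.powerset).filter (fun P => IsComp (P.1 ∪ P.2) C), a P.1 * a' P.2 ≤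
      (3 * ε) ^ C.card * ((∑ S ∈ R.powerset, a S) * ∑ S ∈ R.powerset, a' S) := by
  set PP1 := (R.powerset ×ˢ R.powerset).filter (fun P => IsComp (P.1 ∪ P.2) C) with hPP1
  set QQ1 := (C.powerset ×ˢ C.powerset).filter (fun P => P.1 ∪ P.2 = C) with hQQ1
  set f : (Finset Col × Finset Col) × (Finset Col × Finset Col) → ℝ :=
    fun z => (a z.1.1 * a' z.1.2) * (a z.2.1 * a' z.2.2) with hf
  set φ : Finset Col × Finset Col → (Finset Col × Finset Col) × (Finset Col × Finset Col) :=
    fun P => ((P.1 ∩ C, P.2 ∩ C), (P.1 \ C, P.2 \ C)) with hφ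
  have hf0 : ∀ z, 0 ≤ f z := by
    intro z
    have h1 := (h.nn z.1.1).1
    have h2 := (h.nn z.1.2).2.1
    have h3 := (h.nn z.2.1).1
    have h4 := (h.nn z.2.2).2.1
    exact mul_nonneg (mul_nonneg h1 h2) (mul_nonneg h3 h4)
  have hsplit : ∀ S : Finset Col, (S ∩ C) ∪ (S \ C) = S := by
    intro S
    ext x
    simp only [Finset.mem_union, Finset.mem_inter, Finset.mem_sdiff]
    tauto
  have hval : ∀ P ∈ PP1, a P.1 * a' P.2 = f (φ P) := by
    intro P hP
    have hc : IsComp (P.1 ∪ P.2) C := (Finset.mem_filter.1 hP).2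
    have hs := hc.2.2.2
    have e1 : a P.1 = a (P.1 ∩ C) * a (P.1 \ C) := by
      conv_lhs => rw [← hsplit P.1]
      refine (h.mul _ _ (hs.mono Finset.inter_subset_right ?_)).1
      exact Finset.sdiff_subset_sdiff Finset.subset_union_left (Finset.Subset.refl C)
    have e2 : a' P.2 = a' (P.2 ∩ C) * a' (P.2 \ C) := by
      conv_lhs => rw [← hsplit P.2]
      refine (h.mul _ _ (hs.mono Finset.inter_subset_right ?_)).2
      exact Finset.sdiff_subset_sdiff Finset.subset_union_right (Finset.Subset.refl C)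
    simp only [hf, hφ]
    rw [e1, e2]
    ring
  have hinj : Set.InjOn φ (PP1 : Set (Finset Col × Finset Col)) := by
    intro P _ P' _ heq
    simp only [hφ, Prod.mk.injEq] at heq
    obtain ⟨⟨h1, h2⟩, h3, h4⟩ := heq
    apply Prod.ext
    · rw [← hsplit P.1, ← hsplit P'.1, h1, h3]
    · rw [← hsplit P.2, ← hsplit P'.2, h2, h4]
  have hmaps : ∀ P ∈ PP1, φ P ∈ QQ1 ×ˢ (R.powerset ×ˢ R.powerset) := by
    intro P hP
    have hc : IsComp (P.1 ∪ P.2) C := (Finset.mem_filter.1 hP).2
    have hR := Finset.mem_product.1 (Finset.mem_filter.1 hP).1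
    have hR1 := Finset.mem_powerset.1 hR.1
    have hR2 := Finset.mem_powerset.1 hR.2
    simp only [hφ, Finset.mem_product]
    refine ⟨?_, ?_, ?_⟩
    · rw [hQQ1, Finset.mem_filter, Finset.mem_product]
      refine ⟨⟨Finset.mem_powerset.2 Finset.inter_subset_right,
        Finset.mem_powerset.2 Finset.inter_subset_right⟩, ?_⟩
      ext x
      constructor
      · intro hx
        rcases Finset.mem_union.1 hx with h1 | h1
        · exact (Finset.mem_inter.1 h1).2
        · exact (Finset.mem_inter.1 h1).2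
      · intro hx
        rcases Finset.mem_union.1 (hc.1 hx) with h1 | h1
        · exact Finset.mem_union_left _ (Finset.mem_inter.2 ⟨h1, hx⟩)
        · exact Finset.mem_union_right _ (Finset.mem_inter.2 ⟨h1, hx⟩)
    · exact Finset.mem_powerset.2 (Finset.sdiff_subset.trans hR1)
    · exact Finset.mem_powerset.2 (Finset.sdiff_subset.trans hR2)
  have hQ : ∑ P ∈ QQ1, a P.1 * a' P.2 ≤ (3 * ε) ^ C.card := by
    have hb : ∀ P ∈ QQ1, a P.1 * a' P.2 ≤ ε ^ C.card := by
      intro P hP
      have hu : P.1 ∪ P.2 = C := (Finset.mem_filter.1 hP).2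
      have hcard : C.card ≤ P.1.card + P.2.card := by
        rw [← hu]; exact Finset.card_union_le _ _
      calc a P.1 * a' P.2 ≤ ε ^ P.1.card * ε ^ P.2.card :=
            mul_le_mul (h.bd P.1).1 (h.bd P.2).2 (h.nn P.2).2.1 (pow_nonneg h.ε0 _)
        _ = ε ^ (P.1.card + P.2.card) := (pow_add ε _ _).symm
        _ ≤ ε ^ C.card := pow_le_pow_of_le_one h.ε0 hε hcard
    calc ∑ P ∈ QQ1, a P.1 * a' P.2 ≤ ∑ _P ∈ QQ1, ε ^ C.card := Finset.sum_le_sum hb
      _ = QQ1.card * ε ^ C.card := by rw [Finset.sum_const, nsmul_eq_mul]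
      _ ≤ 3 ^ C.card * ε ^ C.card := by
          apply mul_le_mul_of_nonneg_right _ (pow_nonneg h.ε0 _)
          have := SwB_card C
          exact_mod_cast this
      _ = (3 * ε) ^ C.card := (mul_pow _ _ _).symm
  have hsum0 : 0 ≤ (∑ S ∈ R.powerset, a S) * ∑ S ∈ R.powerset, a' S :=
    mul_nonneg (Finset.sum_nonneg fun S _ => (h.nn S).1) (Finset.sum_nonneg fun S _ => (h.nn S).2.1)
  calc ∑ P ∈ PP1, a P.1 * a' P.2 = ∑ P ∈ PP1, f (φ P) := Finset.sum_congr rfl hval
    _ = ∑ z ∈ PP1.image φ, f z := (Finset.sum_image hinj).symm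
    _ ≤ ∑ z ∈ QQ1 ×ˢ (R.powerset ×ˢ R.powerset), f z := by
        apply Finset.sum_le_sum_of_subset_of_nonneg
        · intro z hz
          obtain ⟨P, hP, rfl⟩ := Finset.mem_image.1 hz
          exact hmaps P hP
        · intro z _ _
          exact hf0 z
    _ = (∑ P ∈ QQ1, a P.1 * a' P.2) * ∑ P ∈ R.powerset ×ˢ R.powerset, a P.1 * a' P.2 := by
        rw [Finset.sum_product, Finset.sum_mul_sum]
    _ = (∑ P ∈ QQ1, a P.1 * a' P.2) * ((∑ S ∈ R.powerset, a S) * ∑ S ∈ R.powerset, a' S) := by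
        congr 1
        rw [Finset.sum_product, Finset.sum_mul_sum]
    _ ≤ (3 * ε) ^ C.card * ((∑ S ∈ R.powerset, a S) * ∑ S ∈ R.powerset, a' S) :=
        mul_le_mul_of_nonneg_right hQ hsum0

end Pool.Agent.H78.DB
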