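import Pool.Agent.H78.DB.Cmp
import Pool.Agent.H78.DB.Cnt

/-!
# Module SwN: summing over the long components

`spread`: for connected (`near`) `C` and `b, c ∈ C`: `|b.1 - c.1| + 1 ≤ |C|` and `|b.2 - c.2| + 1 ≤ |C|`: the first coordinates of `C` form an interval
of integers: if `t` between two of them were not attained, `{x ∈ C | x.1 < t}` would be closed under `near`-steps, non-empty and
different from `C`; so the image of `C` under the first coordinate has at least `|b.1 - c.1| + 1` elements.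
`sw_long`: let `k ∈ K ⊆ sqr ρ`, `inbb C k`, `¬ C ⊆ sqr L`, `C` connected, `n = |C|`. There is `c ∈ C` with a coordinate larger than `L` in absolute value; by
`inbb` there is `b ∈ C` on the other side of `k` in this coordinate, so `n ≥ L - ρ + 1` (`spread`), and all points of `C` are in the square
`k + [-n, n]²` (`inbb` and `spread`). Hence, for each `n`, the number of these `C` with `|C| = n` is at most `(2n+1)^2 * 81^n` (`cnt_conn` with the 9 columns
near a given one, `d = 9`, for each point of the square as base point), and `(2n+1)^2 * 81^n * (3ε)^n ≤ (2187 ε)^n ≤ 2^(-n)`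
(`(2n+1)^2 ≤ 9^n` for `n ≥ 1`; `2187 ε ≤ 1/2`). Sum over `n ≥ L - ρ + 1`: at most `(1/2)^(L-ρ)`. Sum over `k ∈ K`. The sum is over the `C ⊆ R`.
-/

set_option autoImplicit false

namespace Pool.Agent.H78.DB

private theorem SwN_spread (g : Col → ℤ) (hg : ∀ a b, near a b → |g a - g b| ≤ 1) {C : Finset Col}
    (hC : Cn near (C : Set Col)) {b c : Col} (hb : b ∈ C) (hc : c ∈ C) :
    |g b - g c| + 1 ≤ (C.card : ℤ) := by
  classical
  have key : ∀ b c : Col, b ∈ C → c ∈ C → g b ≤ g c → (g c - g b) + 1 ≤ (C.card : ℤ) := by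
    intro b c hb hc hbc
    have hsub : Finset.Icc (g b) (g c) ⊆ C.image g := by
      intro t ht
      rw [Finset.mem_Icc] at ht
      by_contra hn
      have hne : ∀ x ∈ C, g x ≠ t := fun x hx h => hn (Finset.mem_image.mpr ⟨x, hx, h⟩)
      have hI : Isol near (C : Set Col) {x | x ∈ C ∧ g x < t} := by
        refine ⟨fun x hx => hx.1, ?_⟩
        intro e he f hf hef
        have h1 := abs_le.mp (hg e f hef)
        have h2 : g e < t := he.2
        have h3 := hne f hf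
        refine ⟨hf, ?_⟩
        omega
      have hG : {x | x ∈ C ∧ g x < t} = (C : Set Col) := by
        refine hC _ hI ⟨b, hb, ?_⟩
        have := hne b hb
        omega
      have hc' : c ∈ {x | x ∈ C ∧ g x < t} := by
        rw [hG]
        exact hc
      have h4 : g c < t := hc'.2
      omega
    have h1 := (Finset.card_le_card hsub).trans Finset.card_image_le
    rw [Int.card_Icc] at h1
    omega
  rcases le_total (g b) (g c) with h | h
  · rw [abs_sub_comm, abs_of_nonneg (sub_nonneg.mpr h)]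
    exact key b c hb hc h
  · rw [abs_of_nonneg (sub_nonneg.mpr h)]
    exact key c b hc hb h

/-- the columns near a column -/
private noncomputable def SwN_N (a : Col) : Finset Col :=
  Finset.Icc (a.1 - 1) (a.1 + 1) ×ˢ Finset.Icc (a.2 - 1) (a.2 + 1)

private theorem SwN_mem (a b : Col) : b ∈ SwN_N a ↔ near a b := by
  rw [SwN_N, Finset.mem_product, Finset.mem_Icc, Finset.mem_Icc, near, abs_le, abs_le]
  omega

private theorem SwN_card (a : Col) : (SwN_N a).card ≤ 9 := by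
  rw [SwN_N, Finset.card_product, Int.card_Icc, Int.card_Icc]
  have h1 : (a.1 + 1 + 1 - (a.1 - 1)).toNat = 3 := by omega
  have h2 : (a.2 + 1 + 1 - (a.2 - 1)).toNat = 3 := by omega
  rw [h1, h2]

private theorem SwN_rel : (fun a b : Col => b ∈ SwN_N a) = near := by
  funext a b
  exact propext (SwN_mem a b)

private theorem SwN_sq (n : ℕ) : (2 * n + 1) ^ 2 ≤ 9 ^ n := by
  have h : 2 * n + 1 ≤ 3 ^ n := by
    induction n with
    | zero => norm_num
    | succ n ih =>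
      rw [pow_succ]
      have : 1 ≤ 3 ^ n := Nat.one_le_pow _ _ (by norm_num)
      omega
  calc (2 * n + 1) ^ 2 ≤ (3 ^ n) ^ 2 := Nat.pow_le_pow_left h 2
    _ = 9 ^ n := by rw [← pow_mul, mul_comm, pow_mul]; norm_num

private theorem SwN_tail (a b : ℕ) : ∑ n ∈ (Finset.range b).filter (fun n => a + 1 ≤ n), (1 / 2 : ℝ) ^ n ≤
    (1 / 2) ^ a := by
  have h : ∀ b, ∑ n ∈ (Finset.range b).filter (fun n => a + 1 ≤ n), (1 / 2 : ℝ) ^ n ≤
      (1 / 2) ^ a - (1 / 2) ^ (max a (b - 1)) := by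
    intro b
    induction b with
    | zero => simp
    | succ b ih =>
      rw [Finset.range_add_one, Finset.filter_insert]
      split_ifs with hb
      · rw [Finset.sum_insert (by simp)]
        have e1 : max a (b - 1) = b - 1 := max_eq_right (by omega)
        have e2 : max a (b + 1 - 1) = b := by
          rw [Nat.add_sub_cancel]
          exact max_eq_right (by omega)
        rw [e1] at ih
        rw [e2]
        have e3 : (1 / 2 : ℝ) ^ (b - 1) = 2 * (1 / 2) ^ b := by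
          obtain ⟨b', rfl⟩ : ∃ b', b = b' + 1 := ⟨b - 1, by omega⟩
          rw [Nat.add_sub_cancel, pow_succ]
          ring
        rw [e3] at ih
        linarith
      · have e1 : max a (b - 1) = a := max_eq_left (by omega)
        have e2 : max a (b + 1 - 1) = a := by
          rw [Nat.add_sub_cancel]
          exact max_eq_left (by omega)
        rw [e1] at ih
        rw [e2]
        exact ih
  have h2 := h b
  have h3 : (0 : ℝ) ≤ (1 / 2) ^ (max a (b - 1)) := by positivity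
  linarith

open Classical in
private theorem SwN_count {k : Col} {n : ℕ} (𝒜 : Finset (Finset Col))
    (h : ∀ C ∈ 𝒜, C.card = n ∧ C.Nonempty ∧ Cn near (C : Set Col) ∧ inbb C k) :
    𝒜.card ≤ (2 * n + 1) ^ 2 * (9 ^ 2) ^ n := by
  have hsub : 𝒜 ⊆ (Finset.Icc (k.1 - n) (k.1 + n) ×ˢ Finset.Icc (k.2 - n) (k.2 + n)).biUnion
      (fun v => 𝒜.filter (fun C => v ∈ C)) := by
    intro C hC
    obtain ⟨hcard, ⟨v, hv⟩, hcn, ⟨b1, hb1, hb1'⟩, ⟨b2, hb2, hb2'⟩, ⟨b3, hb3, hb3'⟩, ⟨b4, hb4, hb4'⟩⟩ :=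
      h C hC
    rw [Finset.mem_biUnion]
    refine ⟨v, ?_, Finset.mem_filter.mpr ⟨hC, hv⟩⟩
    have g1 : |b1.1 - v.1| + 1 ≤ (C.card : ℤ) :=
      SwN_spread (fun x : Col => x.1) (fun _ _ h => h.1) hcn hb1 hv
    have g2 : |b2.1 - v.1| + 1 ≤ (C.card : ℤ) :=
      SwN_spread (fun x : Col => x.1) (fun _ _ h => h.1) hcn hb2 hv
    have g3 : |b3.2 - v.2| + 1 ≤ (C.card : ℤ) :=
      SwN_spread (fun x : Col => x.2) (fun _ _ h => h.2) hcn hb3 hv
    have g4 : |b4.2 - v.2| + 1 ≤ (C.card : ℤ) :=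
      SwN_spread (fun x : Col => x.2) (fun _ _ h => h.2) hcn hb4 hv
    rw [hcard] at g1 g2 g3 g4
    have a1 := neg_abs_le (b1.1 - v.1)
    have a2 := le_abs_self (b2.1 - v.1)
    have a3 := neg_abs_le (b3.2 - v.2)
    have a4 := le_abs_self (b4.2 - v.2)
    rw [Finset.mem_product, Finset.mem_Icc, Finset.mem_Icc]
    refine ⟨⟨?_, ?_⟩, ?_, ?_⟩ <;> omega
  refine (Finset.card_le_card hsub).trans ((Finset.card_biUnion_le_card_mul _ _ ((9 ^ 2) ^ n) ?_).trans ?_)
  · intro v _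
    refine cnt_conn SwN_N 9 (by norm_num) SwN_card ?_ v n _ ?_
    · intro a b hab
      rw [SwN_mem] at hab ⊢
      rw [near, abs_sub_comm, abs_sub_comm a.2] at hab
      exact hab
    · intro X hX
      obtain ⟨hX1, hX2⟩ := Finset.mem_filter.mp hX
      obtain ⟨hcard, _, hcn, _⟩ := h X hX1
      refine ⟨hX2, hcard, ?_⟩
      rw [SwN_rel]
      exact hcn
  · rw [Finset.card_product, Int.card_Icc, Int.card_Icc]
    have h1 : (k.1 + (n : ℤ) + 1 - (k.1 - n)).toNat = 2 * n + 1 := by omega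
    have h2 : (k.2 + (n : ℤ) + 1 - (k.2 - n)).toNat = 2 * n + 1 := by omega
    rw [h1, h2, ← pow_two]

open Classical in
private theorem SwN_one {ε : ℝ} (h0 : 0 ≤ ε) (h1 : 4374 * ε ≤ 1) {k : Col} {ρ L : ℕ}
    (hk1 : -(ρ : ℤ) ≤ k.1) (hk2 : k.1 ≤ ρ) (hk3 : -(ρ : ℤ) ≤ k.2) (hk4 : k.2 ≤ ρ) (hL : ρ ≤ L)
    (R : Finset Col) :
    ∑ C ∈ R.powerset.filter (fun C : Finset Col => C.Nonempty ∧ Cn near (C : Set Col) ∧ ¬ C ⊆ sqr L ∧
      inbb C k), (3 * ε) ^ C.card ≤ (1 / 2) ^ (L - ρ) := by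
  set 𝒮 := R.powerset.filter (fun C : Finset Col => C.Nonempty ∧ Cn near (C : Set Col) ∧ ¬ C ⊆ sqr L ∧
    inbb C k) with h𝒮
  have hmem : ∀ C ∈ 𝒮, C ⊆ R ∧ C.Nonempty ∧ Cn near (C : Set Col) ∧ ¬ C ⊆ sqr L ∧ inbb C k := by
    intro C hC
    rw [h𝒮, Finset.mem_filter, Finset.mem_powerset] at hC
    exact hC
  have hbig : ∀ C ∈ 𝒮, L - ρ + 1 ≤ C.card := by
    intro C hC
    obtain ⟨_, _, hcn, hL', ⟨b1, hb1, hb1'⟩, ⟨b2, hb2, hb2'⟩, ⟨b3, hb3, hb3'⟩, ⟨b4, hb4, hb4'⟩⟩ :=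
      hmem C hC
    rw [Finset.not_subset] at hL'
    obtain ⟨v, hv, hv'⟩ := hL'
    rw [sqr, Finset.mem_product, Finset.mem_Icc, Finset.mem_Icc] at hv'
    have g1 : |b1.1 - v.1| + 1 ≤ (C.card : ℤ) :=
      SwN_spread (fun x : Col => x.1) (fun _ _ h => h.1) hcn hb1 hv
    have g2 : |b2.1 - v.1| + 1 ≤ (C.card : ℤ) :=
      SwN_spread (fun x : Col => x.1) (fun _ _ h => h.1) hcn hb2 hv
    have g3 : |b3.2 - v.2| + 1 ≤ (C.card : ℤ) :=
      SwN_spread (fun x : Col => x.2) (fun _ _ h => h.2) hcn hb3 hv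
    have g4 : |b4.2 - v.2| + 1 ≤ (C.card : ℤ) :=
      SwN_spread (fun x : Col => x.2) (fun _ _ h => h.2) hcn hb4 hv
    have a1 := neg_abs_le (b1.1 - v.1)
    have a2 := le_abs_self (b2.1 - v.1)
    have a3 := neg_abs_le (b3.2 - v.2)
    have a4 := le_abs_self (b4.2 - v.2)
    by_contra hlt
    rw [not_le] at hlt
    apply hv'
    refine ⟨⟨?_, ?_⟩, ?_, ?_⟩ <;> omega
  have hfib : ∑ C ∈ 𝒮, (3 * ε) ^ C.card =
      ∑ n ∈ (Finset.range (R.card + 1)).filter (fun n => L - ρ + 1 ≤ n),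
        ∑ C ∈ 𝒮.filter (fun C => C.card = n), (3 * ε) ^ C.card := by
    rw [Finset.sum_fiberwise_of_maps_to]
    intro C hC
    rw [Finset.mem_filter, Finset.mem_range]
    exact ⟨Nat.lt_succ_of_le (Finset.card_le_card (hmem C hC).1), hbig C hC⟩
  rw [hfib]
  refine le_trans (Finset.sum_le_sum fun n hn => ?_) (SwN_tail (L - ρ) (R.card + 1))
  have hc : ∑ C ∈ 𝒮.filter (fun C => C.card = n), (3 * ε) ^ C.card =
      ((𝒮.filter (fun C => C.card = n)).card : ℝ) * (3 * ε) ^ n := by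
    rw [Finset.sum_congr rfl (fun C hC => by rw [(Finset.mem_filter.mp hC).2]), Finset.sum_const,
      nsmul_eq_mul]
  rw [hc]
  have hcnt : (𝒮.filter (fun C => C.card = n)).card ≤ (2 * n + 1) ^ 2 * (9 ^ 2) ^ n := by
    refine SwN_count (k := k) _ fun C hC => ?_
    obtain ⟨hC1, hC2⟩ := Finset.mem_filter.mp hC
    obtain ⟨_, hne, hcn, _, hin⟩ := hmem C hC1
    exact ⟨hC2, hne, hcn, hin⟩
  have hcnt' : ((𝒮.filter (fun C => C.card = n)).card : ℝ) ≤ (729 : ℝ) ^ n := by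
    have h5 : (2 * n + 1) ^ 2 * (9 ^ 2) ^ n ≤ 729 ^ n := by
      calc (2 * n + 1) ^ 2 * (9 ^ 2) ^ n ≤ 9 ^ n * (9 ^ 2) ^ n :=
            Nat.mul_le_mul_right _ (SwN_sq n)
        _ = 729 ^ n := by rw [← mul_pow]; norm_num
    exact_mod_cast hcnt.trans h5
  have ht : 0 ≤ 3 * ε := by linarith
  calc ((𝒮.filter (fun C => C.card = n)).card : ℝ) * (3 * ε) ^ n
      ≤ (729 : ℝ) ^ n * (3 * ε) ^ n := mul_le_mul_of_nonneg_right hcnt' (pow_nonneg ht n)
    _ = (729 * (3 * ε)) ^ n := (mul_pow _ _ _).symm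
    _ ≤ (1 / 2) ^ n := pow_le_pow_left₀ (by positivity) (by linarith) n

theorem spread {C : Finset Col} (hC : Cn near (C : Set Col)) {b c : Col} (hb : b ∈ C) (hc : c ∈ C) :
    |b.1 - c.1| + 1 ≤ (C.card : ℤ) ∧ |b.2 - c.2| + 1 ≤ (C.card : ℤ) :=
  ⟨SwN_spread (fun x : Col => x.1) (fun _ _ h => h.1) hC hb hc,
    SwN_spread (fun x : Col => x.2) (fun _ _ h => h.2) hC hb hc⟩

open Classical in
theorem sw_long {ε : ℝ} (h0 : 0 ≤ ε) (h1 : 4374 * ε ≤ 1) {K : Finset Col} {ρ L : ℕ}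
    (hK : K ⊆ sqr ρ) (hL : ρ ≤ L) (R : Finset Col) :
    ∑ C ∈ R.powerset.filter (fun C : Finset Col => C.Nonempty ∧ Cn near (C : Set Col) ∧ ¬ C ⊆ sqr L ∧
      ∃ k ∈ K, inbb C k), (3 * ε) ^ C.card ≤ K.card * (1 / 2) ^ (L - ρ) := by
  have ht : 0 ≤ 3 * ε := by linarith
  have step1 : ∑ C ∈ R.powerset.filter (fun C : Finset Col => C.Nonempty ∧ Cn near (C : Set Col) ∧
      ¬ C ⊆ sqr L ∧ ∃ k ∈ K, inbb C k), (3 * ε) ^ C.card ≤
      ∑ k ∈ K, ∑ C ∈ R.powerset.filter (fun C : Finset Col => C.Nonempty ∧ Cn near (C : Set Col) ∧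
        ¬ C ⊆ sqr L ∧ inbb C k), (3 * ε) ^ C.card := by
    have e1 : ∀ k ∈ K, ∑ C ∈ R.powerset.filter (fun C : Finset Col => C.Nonempty ∧
        Cn near (C : Set Col) ∧ ¬ C ⊆ sqr L ∧ inbb C k), (3 * ε) ^ C.card =
        ∑ C ∈ R.powerset, if C.Nonempty ∧ Cn near (C : Set Col) ∧ ¬ C ⊆ sqr L ∧ inbb C k then
          (3 * ε) ^ C.card else 0 := fun k _ => Finset.sum_filter _ _
    rw [Finset.sum_congr rfl e1, Finset.sum_comm, Finset.sum_filter]
    refine Finset.sum_le_sum fun C _ => ?_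
    split_ifs with h
    · obtain ⟨hne, hcn, hL', k, hk, hin⟩ := h
      have h2 : (3 * ε) ^ C.card = if C.Nonempty ∧ Cn near (C : Set Col) ∧ ¬ C ⊆ sqr L ∧ inbb C k then
          (3 * ε) ^ C.card else 0 := by
        rw [if_pos ⟨hne, hcn, hL', hin⟩]
      refine le_trans (le_of_eq h2) ?_
      exact Finset.single_le_sum (f := fun k => if C.Nonempty ∧ Cn near (C : Set Col) ∧ ¬ C ⊆ sqr L ∧
        inbb C k then (3 * ε) ^ C.card else 0)
        (fun k _ => by split_ifs <;> positivity) hk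
    · exact Finset.sum_nonneg fun k _ => by split_ifs <;> positivity
  refine step1.trans ?_
  have step2 : ∀ k ∈ K, ∑ C ∈ R.powerset.filter (fun C : Finset Col => C.Nonempty ∧
      Cn near (C : Set Col) ∧ ¬ C ⊆ sqr L ∧ inbb C k), (3 * ε) ^ C.card ≤ (1 / 2) ^ (L - ρ) := by
    intro k hk
    have hk' := hK hk
    rw [sqr, Finset.mem_product, Finset.mem_Icc, Finset.mem_Icc] at hk'
    exact SwN_one h0 h1 hk'.1.1 hk'.1.2 hk'.2.1 hk'.2.2 hL R
  refine (Finset.sum_le_sum step2).trans ?_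
  rw [Finset.sum_const, nsmul_eq_mul]

end Pool.Agent.H78.DB
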