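import Pool.Agent.H78.DB.SwI
import Pool.Agent.H78.DB.SwB
import Pool.Agent.H78.DB.SwN

/-!
# Module SwC: comparison of two volumes, abstract form

`(∑ aF)(∑ a') - (∑ a)(∑ aF') = ∑_{(S,S')} (aF S a' S' - a S aF' S')`, sum over the pairs of subsets of `R`; group the pairs by `T = S ∪ S'`. The pairs with
`DK K T ⊆ sqr L` contribute zero (`sw_good`, for each such `T`). The other terms are at most `C a S a' S'` in absolute value (both products are
in `[0, C a S a' S']`, `le`, `nn`; difference of two numbers in this interval), and by `DK_bad` there is a component `C'` of `T` with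
`¬ C' ⊆ sqr L`, `inbb C' k`, `k ∈ K`; `sw_comp` and `sw_long` (sum over `C'`).
-/

set_option autoImplicit false

namespace Pool.Agent.H78.DB

open Classical in
private theorem SwC_good {K : Finset Col} {L : ℕ} {C ε : ℝ} {a a' aF aF' : Finset Col → ℝ}
    (h : Sw K L C ε a a' aF aF') (R : Finset Col) :
    ∑ P ∈ R.powerset ×ˢ R.powerset, (if DK K (P.1 ∪ P.2) ⊆ sqr L then
      aF P.1 * a' P.2 - a P.1 * aF' P.2 else 0) = 0 := by
  have hmaps : ∀ P ∈ R.powerset ×ˢ R.powerset, P.1 ∪ P.2 ∈ R.powerset := by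
    intro P hP
    rw [Finset.mem_product, Finset.mem_powerset, Finset.mem_powerset] at hP
    rw [Finset.mem_powerset]
    exact Finset.union_subset hP.1 hP.2
  rw [← Finset.sum_fiberwise_of_maps_to hmaps]
  refine Finset.sum_eq_zero fun T _ => ?_
  by_cases hT : DK K T ⊆ sqr L
  · have h1 : ∑ P ∈ (R.powerset ×ˢ R.powerset).filter (fun P => P.1 ∪ P.2 = T),
        (if DK K (P.1 ∪ P.2) ⊆ sqr L then aF P.1 * a' P.2 - a P.1 * aF' P.2 else 0) =
        ∑ P ∈ (R.powerset ×ˢ R.powerset).filter (fun P => P.1 ∪ P.2 = T),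
          (aF P.1 * a' P.2 - a P.1 * aF' P.2) := by
      refine Finset.sum_congr rfl fun P hP => ?_
      rw [(Finset.mem_filter.1 hP).2, if_pos hT]
    rw [h1, Finset.sum_sub_distrib, sub_eq_zero]
    exact sw_good h R T hT
  · refine Finset.sum_eq_zero fun P hP => ?_
    rw [(Finset.mem_filter.1 hP).2, if_neg hT]

open Classical in
private theorem SwC_bad {K : Finset Col} {L ρ : ℕ} {C ε : ℝ} {a a' aF aF' : Finset Col → ℝ}
    (h : Sw K L C ε a a' aF aF') (h1 : 4374 * ε ≤ 1) (hK : K ⊆ sqr ρ) (hL : ρ ≤ L)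
    (R : Finset Col) :
    ∑ P ∈ R.powerset ×ˢ R.powerset, (if DK K (P.1 ∪ P.2) ⊆ sqr L then 0 else a P.1 * a' P.2) ≤
      (K.card * (1 / 2) ^ (L - ρ)) *
        ((∑ S ∈ R.powerset, a S) * ∑ S ∈ R.powerset, a' S) := by
  have hA : 0 ≤ ∑ S ∈ R.powerset, a S := Finset.sum_nonneg fun S _ => (h.nn S).1
  have hA' : 0 ≤ ∑ S ∈ R.powerset, a' S := Finset.sum_nonneg fun S _ => (h.nn S).2.1
  have hε1 : ε ≤ 1 := by linarith
  set F : Finset (Finset Col) := R.powerset.filter (fun C : Finset Col => C.Nonempty ∧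
    Cn near (C : Set Col) ∧ ¬ C ⊆ sqr L ∧ ∃ k ∈ K, inbb C k) with hF
  have hw : ∀ P : Finset Col × Finset Col, 0 ≤ a P.1 * a' P.2 :=
    fun P => mul_nonneg (h.nn P.1).1 (h.nn P.2).2.1
  have hnn : ∀ (P : Finset Col × Finset Col) (D : Finset Col),
      0 ≤ (if IsComp (P.1 ∪ P.2) D then a P.1 * a' P.2 else 0) := by
    intro P D
    split_ifs
    · exact hw P
    · exact le_rfl
  calc ∑ P ∈ R.powerset ×ˢ R.powerset, (if DK K (P.1 ∪ P.2) ⊆ sqr L then 0 else a P.1 * a' P.2)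
      ≤ ∑ P ∈ R.powerset ×ˢ R.powerset, ∑ D ∈ F,
          (if IsComp (P.1 ∪ P.2) D then a P.1 * a' P.2 else 0) := by
        refine Finset.sum_le_sum fun P hP => ?_
        by_cases hT : DK K (P.1 ∪ P.2) ⊆ sqr L
        · rw [if_pos hT]
          exact Finset.sum_nonneg fun D _ => hnn P D
        · rw [if_neg hT]
          obtain ⟨D, hD, hDL, hk⟩ := DK_bad hT
          rw [Finset.mem_product, Finset.mem_powerset, Finset.mem_powerset] at hP
          have hDF : D ∈ F := by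
            rw [hF, Finset.mem_filter, Finset.mem_powerset]
            exact ⟨hD.1.trans (Finset.union_subset hP.1 hP.2), hD.2.1, hD.2.2.1, hDL, hk⟩
          have h2 := Finset.single_le_sum (f := fun D : Finset Col =>
            (if IsComp (P.1 ∪ P.2) D then a P.1 * a' P.2 else 0)) (fun D _ => hnn P D) hDF
          simp only [if_pos hD] at h2
          exact h2
    _ = ∑ D ∈ F, ∑ P ∈ (R.powerset ×ˢ R.powerset).filter (fun P => IsComp (P.1 ∪ P.2) D),
          a P.1 * a' P.2 := by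
        rw [Finset.sum_comm]
        refine Finset.sum_congr rfl fun D _ => ?_
        rw [Finset.sum_filter]
    _ ≤ ∑ D ∈ F, (3 * ε) ^ D.card * ((∑ S ∈ R.powerset, a S) * ∑ S ∈ R.powerset, a' S) :=
        Finset.sum_le_sum fun D _ => sw_comp h hε1 R D
    _ = (∑ D ∈ F, (3 * ε) ^ D.card) * ((∑ S ∈ R.powerset, a S) * ∑ S ∈ R.powerset, a' S) := by
        exact (Finset.sum_mul _ _ _).symm
    _ ≤ (K.card * (1 / 2) ^ (L - ρ)) *
        ((∑ S ∈ R.powerset, a S) * ∑ S ∈ R.powerset, a' S) :=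
        mul_le_mul_of_nonneg_right (sw_long h.ε0 h1 hK hL R) (mul_nonneg hA hA')

theorem sw_main {K : Finset Col} {L ρ : ℕ} {C ε : ℝ} {a a' aF aF' : Finset Col → ℝ}
    (h : Sw K L C ε a a' aF aF') (h1 : 4374 * ε ≤ 1) (hK : K ⊆ sqr ρ) (hL : ρ ≤ L)
    (R : Finset Col) :
    |(∑ S ∈ R.powerset, aF S) * (∑ S ∈ R.powerset, a' S) -
        (∑ S ∈ R.powerset, a S) * (∑ S ∈ R.powerset, aF' S)| ≤
      C * (K.card * (1 / 2) ^ (L - ρ)) *
        ((∑ S ∈ R.powerset, a S) * ∑ S ∈ R.powerset, a' S) := by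
  classical
  have hb := SwC_bad h h1 hK hL R
  have hg := SwC_good h R
  have e0 : (∑ S ∈ R.powerset, aF S) * (∑ S ∈ R.powerset, a' S) -
      (∑ S ∈ R.powerset, a S) * (∑ S ∈ R.powerset, aF' S) =
      ∑ P ∈ R.powerset ×ˢ R.powerset, (aF P.1 * a' P.2 - a P.1 * aF' P.2) := by
    rw [Finset.sum_sub_distrib, Finset.sum_mul_sum, Finset.sum_mul_sum, Finset.sum_product,
      Finset.sum_product]
  have e1 : ∑ P ∈ R.powerset ×ˢ R.powerset, (aF P.1 * a' P.2 - a P.1 * aF' P.2) =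
      ∑ P ∈ R.powerset ×ˢ R.powerset, (if DK K (P.1 ∪ P.2) ⊆ sqr L then 0 else
        aF P.1 * a' P.2 - a P.1 * aF' P.2) := by
    rw [← sub_eq_zero, ← Finset.sum_sub_distrib]
    refine Eq.trans ?_ hg
    refine Finset.sum_congr rfl fun P _ => ?_
    split_ifs
    · rw [sub_zero]
    · rw [sub_self]
  have hC : ∀ P : Finset Col × Finset Col,
      |aF P.1 * a' P.2 - a P.1 * aF' P.2| ≤ C * (a P.1 * a' P.2) := by
    intro P
    have n1 := h.nn P.1
    have n2 := h.nn P.2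
    have l1 := (h.le P.1).1
    have l2 := (h.le P.2).2
    have x1 : 0 ≤ aF P.1 * a' P.2 := mul_nonneg n1.2.2.1 n2.2.1
    have x2 : 0 ≤ a P.1 * aF' P.2 := mul_nonneg n1.1 n2.2.2.2
    have y1 : aF P.1 * a' P.2 ≤ C * (a P.1 * a' P.2) := by
      calc aF P.1 * a' P.2 ≤ (C * a P.1) * a' P.2 := mul_le_mul_of_nonneg_right l1 n2.2.1
        _ = C * (a P.1 * a' P.2) := by ring
    have y2 : a P.1 * aF' P.2 ≤ C * (a P.1 * a' P.2) := by
      calc a P.1 * aF' P.2 ≤ a P.1 * (C * a' P.2) := mul_le_mul_of_nonneg_left l2 n1.1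
        _ = C * (a P.1 * a' P.2) := by ring
    rw [abs_le]
    constructor <;> linarith
  rw [e0, e1]
  calc |∑ P ∈ R.powerset ×ˢ R.powerset, (if DK K (P.1 ∪ P.2) ⊆ sqr L then 0 else
        aF P.1 * a' P.2 - a P.1 * aF' P.2)|
      ≤ ∑ P ∈ R.powerset ×ˢ R.powerset, |if DK K (P.1 ∪ P.2) ⊆ sqr L then 0 else
        aF P.1 * a' P.2 - a P.1 * aF' P.2| := Finset.abs_sum_le_sum_abs _ _
    _ ≤ ∑ P ∈ R.powerset ×ˢ R.powerset,
        C * (if DK K (P.1 ∪ P.2) ⊆ sqr L then 0 else a P.1 * a' P.2) := by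
        refine Finset.sum_le_sum fun P _ => ?_
        split_ifs
        · rw [abs_zero, mul_zero]
        · exact hC P
    _ = C * ∑ P ∈ R.powerset ×ˢ R.powerset,
        (if DK K (P.1 ∪ P.2) ⊆ sqr L then 0 else a P.1 * a' P.2) := by
        rw [Finset.mul_sum]
    _ ≤ C * ((K.card * (1 / 2) ^ (L - ρ)) *
        ((∑ S ∈ R.powerset, a S) * ∑ S ∈ R.powerset, a' S)) :=
        mul_le_mul_of_nonneg_left hb h.C0
    _ = _ := by ring

end Pool.Agent.H78.DB
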