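import Pool.Agent.H78.DB.Cmp

/-!
# Module SwI: the exchange for one union

Fix `T` and `D = DK K T ⊆ sqr L`, `E = T \ D`; `Sp D E`, `Away K E`. For a pair `(S, S')` with `S ∪ S' = T` write `S = (S ∩ D) ∪ (S ∩ E)`, and the same for `S'`
(`Sp.mono`, `Away.mono`). The map `(S, S') ↦ (U, U') = ((S' ∩ D) ∪ (S ∩ E), (S ∩ D) ∪ (S' ∩ E))` is an involution of the pairs with union `T` (subsets of
`R` to subsets of `R`, `T ⊆ R`), and
`aF S * a' S' = aF (S ∩ D) a (S ∩ E) a' (S' ∩ D) a' (S' ∩ E) = aF' (S ∩ D) a (S ∩ E) a (S' ∩ D) a' (S' ∩ E) = a U * aF' U'`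
by `mulF`, `mul`, `ind` (`S ∩ D, S' ∩ D ⊆ sqr L`). Sum over all pairs (`Finset.sum_nbij'` or `Finset.sum_involution`/`sum_equiv`).
-/

set_option autoImplicit false

namespace Pool.Agent.H78.DB

private def swI_f (D : Finset Col) (P : Finset Col × Finset Col) : Finset Col × Finset Col :=
  ((P.2 ∩ D) ∪ (P.1 \ D), (P.1 ∩ D) ∪ (P.2 \ D))

private theorem swI_invol (D : Finset Col) (P : Finset Col × Finset Col) :
    swI_f D (swI_f D P) = P := by
  obtain ⟨A, B⟩ := P
  simp only [swI_f, Prod.mk.injEq]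
  constructor
  · ext x
    simp only [Finset.mem_union, Finset.mem_inter, Finset.mem_sdiff]
    tauto
  · ext x
    simp only [Finset.mem_union, Finset.mem_inter, Finset.mem_sdiff]
    tauto

private theorem swI_mem {D R T : Finset Col} {P : Finset Col × Finset Col}
    (h : P ∈ (R.powerset ×ˢ R.powerset).filter (fun P => P.1 ∪ P.2 = T)) :
    swI_f D P ∈ (R.powerset ×ˢ R.powerset).filter (fun P => P.1 ∪ P.2 = T) := by
  obtain ⟨A, B⟩ := P
  simp only [Finset.mem_filter, Finset.mem_product, Finset.mem_powerset, swI_f] at h ⊢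
  obtain ⟨⟨hA, hB⟩, hT⟩ := h
  refine ⟨⟨?_, ?_⟩, ?_⟩
  · intro x hx
    simp only [Finset.mem_union, Finset.mem_inter, Finset.mem_sdiff] at hx
    rcases hx with hx | hx
    · exact hB hx.1
    · exact hA hx.1
  · intro x hx
    simp only [Finset.mem_union, Finset.mem_inter, Finset.mem_sdiff] at hx
    rcases hx with hx | hx
    · exact hA hx.1
    · exact hB hx.1
  · rw [← hT]
    ext x
    simp only [Finset.mem_union, Finset.mem_inter, Finset.mem_sdiff]
    tauto

theorem sw_good {K : Finset Col} {L : ℕ} {C ε : ℝ} {a a' aF aF' : Finset Col → ℝ}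
    (h : Sw K L C ε a a' aF aF') (R T : Finset Col) (hD : DK K T ⊆ sqr L) :
    ∑ P ∈ (R.powerset ×ˢ R.powerset).filter (fun P => P.1 ∪ P.2 = T), aF P.1 * a' P.2 =
      ∑ P ∈ (R.powerset ×ˢ R.powerset).filter (fun P => P.1 ∪ P.2 = T), a P.1 * aF' P.2 := by
  have hsp := DK_sp K T
  have haw := DK_away K T
  set D := DK K T with hDdef
  refine Finset.sum_nbij' (swI_f D) (swI_f D) (fun P hP => swI_mem hP) (fun P hP => swI_mem hP)
    (fun P _ => swI_invol D P) (fun P _ => swI_invol D P) ?_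
  rintro ⟨A, B⟩ hP
  simp only [Finset.mem_filter, Finset.mem_product, Finset.mem_powerset] at hP
  obtain ⟨⟨hA, hB⟩, hT⟩ := hP
  have hAT : A ⊆ T := by rw [← hT]; exact Finset.subset_union_left
  have hBT : B ⊆ T := by rw [← hT]; exact Finset.subset_union_right
  have hAE : A \ D ⊆ T \ D := Finset.sdiff_subset_sdiff hAT (Finset.Subset.refl D)
  have hBE : B \ D ⊆ T \ D := Finset.sdiff_subset_sdiff hBT (Finset.Subset.refl D)
  have hAD : A ∩ D ⊆ D := Finset.inter_subset_right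
  have hBD : B ∩ D ⊆ D := Finset.inter_subset_right
  have eA : A = (A ∩ D) ∪ (A \ D) := by
    ext x
    simp only [Finset.mem_union, Finset.mem_inter, Finset.mem_sdiff]
    tauto
  have eB : B = (B ∩ D) ∪ (B \ D) := by
    ext x
    simp only [Finset.mem_union, Finset.mem_inter, Finset.mem_sdiff]
    tauto
  have h1 : aF A = aF (A ∩ D) * a (A \ D) := by
    conv_lhs => rw [eA]
    exact (h.mulF _ _ (hsp.mono hAD hAE) (haw.mono hAE)).1
  have h2 : a' B = a' (B ∩ D) * a' (B \ D) := by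
    conv_lhs => rw [eB]
    exact (h.mul _ _ (hsp.mono hBD hBE)).2
  have h3 : a ((B ∩ D) ∪ (A \ D)) = a (B ∩ D) * a (A \ D) :=
    (h.mul _ _ (hsp.mono hBD hAE)).1
  have h4 : aF' ((A ∩ D) ∪ (B \ D)) = aF' (A ∩ D) * a' (B \ D) :=
    (h.mulF _ _ (hsp.mono hAD hBE) (haw.mono hBE)).2
  have h5 := (h.ind (B ∩ D) (hBD.trans hD)).1
  have h6 := (h.ind (A ∩ D) (hAD.trans hD)).2
  simp only [swI_f]
  rw [h1, h2, h3, h4, h5, h6]
  ring

end Pool.Agent.H78.DB
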